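namespace Pool.Agent.Helper363.Nita.K2

/-- a row of the partially known adjacency matrix -/
structure Row where
  gr : Nat
  cj : Nat
  lo : Nat
  hi : Nat
  off : Nat
  out : List Nat
  dec : Nat
  done : Bool

/-- default row -/
def Row.dflt : Row := ⟨0, 0, 0, 0, 0, [], 0, false⟩

/-- a family of nodes whose total row has norm in `[lo, hi]` (`hi = 0` means no upper bound) -/
structure Line where
  nodes : List Nat
  lo : Nat
  hi : Nat

/-- two families of nodes with total number of arrows in `[lo, hi]` -/
structure Blk where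
  src : List Nat
  tgt : List Nat
  lo : Nat
  hi : Nat

/-- two families of nodes whose total rows have inner product below `hi` (`hi = 0`: no bound) -/
structure IpL where
  src : List Nat
  tgt : List Nat
  hi : Nat

/-- fixed data -/
structure Ctx where
  nt : Nat
  lines : List Line
  blks : List Blk
  ipls : List IpL

def nth : List Row → Nat → Row
  | [], _ => Row.dflt
  | r :: _, 0 => r
  | _ :: l, n + 1 => nth l n

def upd : List Row → Nat → (Row → Row) → List Row
  | [], _, _ => []
  | r :: l, 0, f => f r :: l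
  | r :: l, n + 1, f => r :: upd l n f

def cnt : Nat → List Nat → Nat
  | _, [] => 0
  | x, y :: l => bif Nat.beq x y then Nat.succ (cnt x l) else cnt x l

/-- inner product of two multisets -/
def ipl : List Nat → List Nat → Nat
  | [], _ => 0
  | x :: l, m => Nat.add (cnt x m) (ipl l m)

def tb (m j : Nat) : Bool := Nat.beq (Nat.land (Nat.shiftRight m j) 1) 1

/-- the entry `(x, y)` is exactly known -/
def ex (S : List Row) (x y : Nat) : Bool :=
  (nth S x).done || tb (nth S x).dec y ||
    (((nth S (nth S y).cj).done || tb (nth S (nth S y).cj).dec (nth S x).cj) &&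
      Nat.beq (cnt (nth S x).cj (nth S (nth S y).cj).out) (cnt y (nth S x).out))

def allEx (S : List Row) (x : Nat) : List Nat → Bool
  | [] => true
  | y :: l => ex S x y && allEx S x l

/-- `x` is done and all cells `(y, z)`, `z` in the row of `x`, are exact -/
def ipEx1 (S : List Row) (x y : Nat) : Bool := (nth S x).done && allEx S y (nth S x).out

def ipEx (C : Ctx) (S : List Row) (x y : Nat) : Bool :=
  (Nat.ble C.nt x || Nat.ble C.nt y) && (ipEx1 S x y || ipEx1 S y x)

def setBits (m : Nat) : List Nat → Nat
  | [] => m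
  | y :: l => Nat.lor (Nat.shiftLeft 1 y) (setBits m l)

def outs (S : List Row) : List Nat → List Nat
  | [] => []
  | c :: l => (nth S c).out ++ outs S l

def allDone (S : List Row) : List Nat → Bool
  | [] => true
  | c :: l => (nth S c).done && allDone S l

def setDone (S : List Row) : List Nat → List Row
  | [] => S
  | c :: l => setDone (upd S c fun r => { r with done := true }) l

def sumCol (S : List Row) (x : Nat) : List Nat → Nat
  | [] => 0
  | z :: l => Nat.add (cnt x (nth S z).out) (sumCol S x l)

def allExCol (S : List Row) (x : Nat) : List Nat → Bool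
  | [] => true
  | z :: l => ex S z x && allExCol S x l

/-- violated triangle inequality at the arrow `x → y` -/
def xt1 (C : Ctx) (S : List Row) (x y : Nat) : Bool :=
  (Nat.ble C.nt x || Nat.ble C.nt y) && (nth S y).done && allExCol S x (nth S y).out &&
    Nat.blt (sumCol S x (nth S y).out) (cnt y (nth S x).out)

/-! blocks -/
def cntL (l : List Nat) : List Nat → Nat
  | [] => 0
  | y :: m => Nat.add (cnt y l) (cntL l m)

def blkSum (S : List Row) (tgt : List Nat) : List Nat → Nat
  | [] => 0
  | x :: l => Nat.add (cntL (nth S x).out tgt) (blkSum S tgt l)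

def blkEx (S : List Row) (tgt : List Nat) : List Nat → Bool
  | [] => true
  | x :: l => allEx S x tgt && blkEx S tgt l

def blkSet (S : List Row) (tgt : List Nat) : List Nat → List Row
  | [] => S
  | x :: l => blkSet (upd S x fun r => { r with dec := setBits r.dec tgt }) tgt l

def decL (S : List Row) (z : List Nat) : List Nat → List Row
  | [] => S
  | x :: l => decL (upd S x fun r => { r with dec := setBits r.dec z }) z l

/-! linear programming -/

/-- entry of a linear form: node, positive and negative weight -/
structure Ent where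
  v : Nat
  p : Nat
  q : Nat

def addP : List Ent → Nat → Nat → List Ent
  | [], v, w => [⟨v, w, 0⟩]
  | e :: l, v, w => bif Nat.beq e.v v then ⟨e.v, Nat.add e.p w, e.q⟩ :: l else e :: addP l v w

def addQ : List Ent → Nat → Nat → List Ent
  | [], v, w => [⟨v, 0, w⟩]
  | e :: l, v, w => bif Nat.beq e.v v then ⟨e.v, e.p, Nat.add e.q w⟩ :: l else e :: addQ l v w

def addQs (w : Nat) : List Nat → List Ent → List Ent
  | [], a => a
  | v :: l, a => addQs w l (addQ a v w)

def addPs (w : Nat) : List Nat → List Ent → List Ent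
  | [], a => a
  | v :: l, a => addPs w l (addP a v w)

/-- a multiplier: node, weight, sign (`true`: uses `3 d ≥ sum`, `false`: uses `3 d ≤ sum`,
only allowed for finished rows) -/
structure Mul where
  x : Nat
  w : Nat
  s : Bool

/-- accumulated form: entries, positive constant, negative constant -/
structure Acc where
  es : List Ent
  cp : Nat
  cq : Nat

def accum (K : Nat) (S : List Row) : List Mul → Acc → Option Acc
  | [], a => some a
  | m :: l, a =>
    bif Nat.blt m.x K then
      bif m.s then
        accum K S l ⟨addP (addQs m.w (nth S m.x).out a.es) m.x (Nat.mul 3 m.w), a.cp,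
          Nat.add a.cq (Nat.mul m.w (nth S m.x).off)⟩
      else bif (nth S m.x).done then
        accum K S l ⟨addQ (addPs m.w (nth S m.x).out a.es) m.x (Nat.mul 3 m.w),
          Nat.add a.cp (Nat.mul m.w (nth S m.x).off), a.cq⟩
      else none
    else none

/-- identify a node with its conjugate -/
def rep (S : List Row) (v : Nat) : Nat :=
  bif Nat.blt (nth S v).cj v then (nth S v).cj else v

def merge (S : List Row) : List Ent → List Ent → List Ent
  | [], a => a
  | e :: l, a => merge S l (addQ (addP a (rep S e.v) e.p) (rep S e.v) e.q)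

/-- total upper estimate: returns (positive part, negative part) -/
def evalE (S : List Row) : List Ent → Nat → Nat → Bool
  | [], P, Q => Nat.blt P Q
  | e :: l, P, Q =>
    bif Nat.ble e.p e.q then evalE S l P (Nat.add Q (Nat.mul (Nat.sub e.q e.p) (nth S e.v).lo))
    else bif Nat.beq (nth S e.v).hi 0 then false
    else evalE S l (Nat.add P (Nat.mul (Nat.sub e.p e.q) (nth S e.v).hi)) Q

def xl (S : List Row) (ms : List Mul) : Bool :=
  match accum S.length S ms ⟨[], 0, 0⟩ with
  | none => false
  | some a => evalE S (merge S a.es []) a.cp a.cq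

/-! the proof trees -/

inductive Cert
  | E (a b : Nat) (c1 c2 : Cert)
  | NO (a : Nat) (c1 c2 c3 : Cert)
  | NP (a : Nat) (c1 c2 : Cert)
  | SP (a k : Nat) (c1 c2 : Cert)
  | CO (a : Nat) (c : Cert)
  | Z (x y : Nat) (c : Cert)
  | LC (l : Nat) (c : Cert)
  | BC (l : Nat) (c : Cert)
  | LX (l : Nat)
  | BX (l : Nat)
  | XN (x y : Nat)
  | XT (x y : Nat)
  | XL (ms : List Mul)
  | IC (l : Nat) (c : Cert)
  | IX (l : Nat)

def lineAt : List Line → Nat → Line
  | [], _ => ⟨[], 0, 0⟩
  | r :: _, 0 => r
  | _ :: l, n + 1 => lineAt l n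

def blkAt : List Blk → Nat → Blk
  | [], _ => ⟨[], [], 0, 0⟩
  | r :: _, 0 => r
  | _ :: l, n + 1 => blkAt l n

def iplAt : List IpL → Nat → IpL
  | [], _ => ⟨[], [], 0⟩
  | r :: _, 0 => r
  | _ :: l, n + 1 => iplAt l n

def ins (b : Nat) (r : Row) : Row := { r with out := b :: r.out }

def succGr (g : Nat) : Nat := Nat.mod (Nat.succ g) 3
def negGr (g : Nat) : Nat := Nat.mod (Nat.mul 2 g) 3

/-- all cells `(a, y)` with `y ≥ i` of the right grade are exact -/
def rowEx (S : List Row) (a g : Nat) : List Row → Nat → Bool
  | [], _ => true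
  | r :: l, i => bif Nat.beq r.gr g then ex S a i && rowEx S a g l (Nat.succ i)
      else rowEx S a g l (Nat.succ i)

def newPair (S : List Row) (a : Nat) : List Row :=
  upd S a (ins S.length) ++
    [⟨succGr (nth S a).gr, Nat.succ S.length, 1, Nat.mul 3 (nth S a).hi, 0, [], 0, false⟩,
     ⟨negGr (succGr (nth S a).gr), S.length, 1, Nat.mul 3 (nth S a).hi, 0, [(nth S a).cj], 0, false⟩]

def newReal (S : List Row) (a : Nat) : List Row :=
  upd S a (ins S.length) ++ [⟨0, S.length, 1, Nat.mul 3 (nth S a).hi, 0, [(nth S a).cj], 0, false⟩]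

def check (C : Ctx) : Cert → List Row → Bool
  | .E a b c1 c2, S =>
    Nat.ble C.nt a && Nat.ble C.nt b && Nat.blt a S.length && Nat.blt b S.length &&
    Nat.ble (cnt (nth S a).cj (nth S (nth S b).cj).out) (cnt b (nth S a).out) &&
    (bif Nat.beq (nth S b).cj a then check C c1 (upd S a (ins b))
     else check C c1 (upd (upd S a (ins b)) (nth S b).cj (ins (nth S a).cj))) &&
    check C c2 (upd S a fun r => { r with dec := setBits r.dec [b] })
  | .NO a c1 c2 c3, S =>
    Nat.ble C.nt a && Nat.blt a S.length && rowEx S a (succGr (nth S a).gr) S 0 &&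
    check C c1 (upd S a fun r => { r with done := true }) && check C c2 (newPair S a) &&
    check C c3 (newReal S a)
  | .NP a c1 c2, S =>
    Nat.ble C.nt a && Nat.blt a S.length && !(Nat.beq (succGr (nth S a).gr) 0) &&
    rowEx S a (succGr (nth S a).gr) S 0 &&
    check C c1 (upd S a fun r => { r with done := true }) && check C c2 (newPair S a)
  | .SP a k c1 c2, S =>
    Nat.blt a S.length && !(Nat.beq k 0) &&
    check C c1 (upd (upd S a fun r => { r with hi := k }) (nth S a).cj fun r => { r with hi := k }) &&
    check C c2 (upd (upd S a fun r => { r with lo := Nat.succ k }) (nth S a).cj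
      fun r => { r with lo := Nat.succ k })
  | .CO a c, S =>
    Nat.ble C.nt a && Nat.ble C.nt (nth S a).cj && Nat.blt a S.length && (nth S (nth S a).cj).done &&
    Nat.ble (ipl (nth S (nth S a).cj).out (nth S (nth S a).cj).out) (ipl (nth S a).out (nth S a).out) &&
    check C c (upd S a fun r => { r with done := true })
  | .Z x y c, S =>
    Nat.blt x S.length && Nat.blt y S.length && ipEx C S x y &&
    Nat.ble (ipl (nth S x).out (nth S y).out) (ipl (nth S (nth S x).cj).out (nth S (nth S y).cj).out) &&
    check C c (upd (upd S (nth S y).cj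
        fun r => { r with dec := setBits r.dec (nth S (nth S x).cj).out }) (nth S x).cj
        fun r => { r with dec := setBits r.dec (nth S (nth S y).cj).out })
  | .LC l c, S =>
    (!(Nat.beq (lineAt C.lines l).hi 0)) &&
    Nat.ble (lineAt C.lines l).hi (ipl (outs S (lineAt C.lines l).nodes) (outs S (lineAt C.lines l).nodes)) &&
    check C c (setDone S (lineAt C.lines l).nodes)
  | .BC l c, S =>
    (!(Nat.beq (blkAt C.blks l).hi 0)) &&
    Nat.ble (blkAt C.blks l).hi (Nat.succ (blkSum S (blkAt C.blks l).tgt (blkAt C.blks l).src)) &&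
    check C c (blkSet S (blkAt C.blks l).tgt (blkAt C.blks l).src)
  | .LX l, S =>
    ((!(Nat.beq (lineAt C.lines l).hi 0)) &&
      Nat.blt (lineAt C.lines l).hi
        (ipl (outs S (lineAt C.lines l).nodes) (outs S (lineAt C.lines l).nodes))) ||
    (allDone S (lineAt C.lines l).nodes &&
      Nat.blt (ipl (outs S (lineAt C.lines l).nodes) (outs S (lineAt C.lines l).nodes))
        (lineAt C.lines l).lo)
  | .BX l, S =>
    ((!(Nat.beq (blkAt C.blks l).hi 0)) &&
      Nat.ble (blkAt C.blks l).hi (blkSum S (blkAt C.blks l).tgt (blkAt C.blks l).src)) ||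
    (blkEx S (blkAt C.blks l).tgt (blkAt C.blks l).src &&
      Nat.blt (blkSum S (blkAt C.blks l).tgt (blkAt C.blks l).src) (blkAt C.blks l).lo)
  | .XN x y, S =>
    Nat.blt x S.length && Nat.blt y S.length && ipEx C S x y &&
    Nat.blt (ipl (nth S x).out (nth S y).out)
      (ipl (nth S (nth S x).cj).out (nth S (nth S y).cj).out)
  | .XT x y, S =>
    Nat.blt x S.length && Nat.blt y S.length &&
    (xt1 C S x y || xt1 C S (nth S y).cj (nth S x).cj)
  | .XL ms, S => xl S ms
  | .IC l c, S =>
    (!(Nat.beq (iplAt C.ipls l).hi 0)) &&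
    Nat.ble (iplAt C.ipls l).hi
      (Nat.succ (ipl (outs S (iplAt C.ipls l).src) (outs S (iplAt C.ipls l).tgt))) &&
    check C c (decL (decL S (outs S (iplAt C.ipls l).tgt) (iplAt C.ipls l).src)
      (outs S (iplAt C.ipls l).src) (iplAt C.ipls l).tgt)
  | .IX l, S =>
    (!(Nat.beq (iplAt C.ipls l).hi 0)) &&
    Nat.ble (iplAt C.ipls l).hi (ipl (outs S (iplAt C.ipls l).src) (outs S (iplAt C.ipls l).tgt))

/-! decoding of certificates -/

def digits : Nat → Nat → List Nat
  | 0, _ => []
  | f + 1, m => Nat.mod m 4294967296 :: digits f (Nat.div m 4294967296)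

def muls : Nat → List Nat → List Mul × List Nat
  | k + 1, x :: w :: s :: l => (⟨x, w, Nat.beq s 1⟩ :: (muls k l).1, (muls k l).2)
  | _, l => ([], l)

def parse : Nat → List Nat → Cert × List Nat
  | 0, l => (.LX 0, l)
  | f + 1, op :: l =>
    match op, l with
    | 0, a :: b :: l => 
      let r1 := parse f l
      let r2 := parse f r1.2
      (.E a b r1.1 r2.1, r2.2)
    | 1, a :: l =>
      let r1 := parse f l
      let r2 := parse f r1.2
      let r3 := parse f r2.2
      (.NO a r1.1 r2.1 r3.1, r3.2)
    | 2, a :: l =>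
      let r1 := parse f l
      let r2 := parse f r1.2
      (.NP a r1.1 r2.1, r2.2)
    | 3, a :: k :: l =>
      let r1 := parse f l
      let r2 := parse f r1.2
      (.SP a k r1.1 r2.1, r2.2)
    | 4, a :: l => let r := parse f l; (.CO a r.1, r.2)
    | 5, a :: b :: l => let r := parse f l; (.Z a b r.1, r.2)
    | 6, a :: l => let r := parse f l; (.LC a r.1, r.2)
    | 7, a :: l => let r := parse f l; (.BC a r.1, r.2)
    | 8, a :: l => (.LX a, l)
    | 9, a :: l => (.BX a, l)
    | 10, a :: b :: l => (.XN a b, l)
    | 11, a :: b :: l => (.XT a b, l)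
    | 12, k :: l => let r := muls k l; (.XL r.1, r.2)
    | 13, a :: l => let r := parse f l; (.IC a r.1, r.2)
    | 14, a :: l => (.IX a, l)
    | _, l => (.LX 0, l)
  | _, l => (.LX 0, l)

/-! ### initial states -/

def DN (a b : Nat) : Nat := Nat.div (Nat.mul (Nat.mul (a + 1) (b + 1)) (a + b + 2)) 2

/-- data of a node outside the array: grade, number of the conjugate node, bound for the degree
(`0`: no bound), and the list of the numbers `k` such that the node occurs in `u k` -/
structure XNode where
  gr : Nat
  cj : Nat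
  hi : Nat
  mu : List Nat

/-- nodes outside the array and known arrows between them -/
structure XData where
  nodes : List XNode
  arrows : List (Nat × Nat)

def memN (k : Nat) : List Nat → Bool
  | [] => false
  | x :: l => Nat.beq k x || memN k l

/-- numbers (shifted by `i`) of the nodes which occur in `u k` -/
def occ (k : Nat) : List XNode → Nat → List Nat
  | [], _ => []
  | x :: l, i => bif memN k x.mu then i :: occ k l (Nat.succ i) else occ k l (Nat.succ i)

/-- targets of the arrows from `i`, shifted by `s` -/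
def tgts (s i : Nat) : List (Nat × Nat) → List Nat
  | [] => []
  | q :: l => bif Nat.beq q.1 i then Nat.add s q.2 :: tgts s i l else tgts s i l

def preds : List Nat → List Nat
  | [] => []
  | 0 :: l => preds l
  | (k + 1) :: l => k :: preds l

def brT (n : Nat) (X : XData) (td : Nat → Bool) (k : Nat) : Row :=
  ⟨Nat.mod (n + k) 3, n - k, DN (n - k) k, DN (n - k) k, bif Nat.beq k 0 then 0 else DN (n - k) (k - 1),
    (bif Nat.blt k n then [k + 1] else []) ++ occ k X.nodes (n + 1),
    2 ^ (n + 1 + X.nodes.length) - 1, td k⟩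

def brX (n : Nat) (X : XData) (i : Nat) (x : XNode) : Row :=
  ⟨x.gr, n + 1 + x.cj, 1, x.hi, 0, tgts (n + 1) i X.arrows ++ preds x.mu, 2 ^ (n + 1) - 1, false⟩

def brXs (n : Nat) (X : XData) : List XNode → Nat → List Row
  | [], _ => []
  | x :: l, i => brX n X i x :: brXs n X l (Nat.succ i)

/-- the initial state: nodes `t 0, ..., t n`, then the nodes of `X` -/
def build (n : Nat) (X : XData) (td : Nat → Bool) : List Row :=
  (List.range (n + 1)).map (brT n X td) ++ brXs n X X.nodes 0

/-- windows `a .. n + 1 - a` of lines with `m` nodes each -/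
def wix (a m j w : Nat) : Nat := m * (j - a) + w

/-- the window data: `sg j w` is the name of the conjugate of the node `w` of line `j`, `st` tells
whether the sheets `w` are known to be joined, `en` is a list of arrows from line `0` to line `1` -/
def xwin (n a m : Nat) (sg : Nat → Nat → Nat) (st : Bool) (en : List (Nat × Nat)) : XData :=
  ⟨(List.range (n + 2 - 2 * a)).flatMap fun k => (List.range m).map fun w =>
      ⟨Nat.mod (n + 1 + (a + k)) 3, wix a m (n + 1 - (a + k)) (sg (a + k) w), DN (n + 1 - (a + k)) (a + k),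
        [a + k]⟩,
    (bif st then (List.range (n - 1)).flatMap fun k => (List.range m).map fun w =>
      (wix a m (k + 1) w, wix a m (k + 2) w) else []) ++
    en.flatMap fun q => [(wix a m 0 q.1, wix a m 1 q.2),
      (wix a m n (sg 1 q.2), wix a m (n + 1) (sg 0 q.1))]⟩

/-- the nodes of line `j`, as nodes of the state -/
def wU (n a m j : Nat) : List Nat := (List.range m).map fun w => n + 1 + wix a m j w

def wtd (n a k : Nat) : Bool := Nat.ble a k && Nat.ble k (n + 1 - a)

/-- add one node and arrows -/
def XData.add1 (X : XData) (r : XNode) (ar : List (Nat × Nat)) : XData :=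
  ⟨X.nodes ++ [r], X.arrows ++ ar⟩

/-- add two nodes and arrows -/
def XData.add2 (X : XData) (r r' : XNode) (ar : List (Nat × Nat)) : XData :=
  ⟨X.nodes ++ [r, r'], X.arrows ++ ar⟩

/-- conditions of a window: `ls` lines `(j, lo, hi)`, `bs` blocks `(i, j, lo, hi)`, `is` pairs of
orthogonal rows, `so` nodes `(j, w)` with an arrow to line `j + 1`, `si` nodes `(j, w)` with an arrow
from line `j - 1` -/
def ctxW (n a m : Nat) (ls : List (Nat × Nat × Nat)) (bs : List (Nat × Nat × Nat × Nat))
    (is so si : List (Nat × Nat)) : Ctx :=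
  ⟨n + 1, ls.map fun q => ⟨wU n a m q.1, q.2.1, q.2.2⟩,
    (bs.map fun q => ⟨wU n a m q.1, wU n a m q.2.1, q.2.2.1, q.2.2.2⟩) ++
    (so.map fun q => ⟨[n + 1 + wix a m q.1 q.2], wU n a m (q.1 + 1), 1, 0⟩) ++
    (si.map fun q => ⟨wU n a m (q.1 - 1), [n + 1 + wix a m q.1 q.2], 1, 0⟩),
    is.map fun q => ⟨wU n a m q.1, wU n a m q.2, 1⟩⟩

/-- blocks of known sums for windows `a ≤ 1`: `kap` from line `j` to `j + 1`, `0` from `j + 2` to `j` -/
def bK (n a kap : Nat) : List (Nat × Nat × Nat × Nat) :=
  ((List.range (n + 1 - 2 * a)).map fun k => (a + k, a + k + 1, kap, kap + 1)) ++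
  (List.range (n - 2 * a)).map fun k => (a + k + 2, a + k, 0, 1)

/-- lower bounds for blocks -/
def bG (n a : Nat) : List (Nat × Nat × Nat × Nat) :=
  ((List.range (n + 1 - 2 * a)).map fun k => (a + k, a + k + 1, 3, 0)) ++
  (List.range (n - 2 * a)).map fun k => (a + k + 2, a + k, 1, 0)

/-- blocks from line `i` to `i + 4` and from `i + 5` to `i` in the full window -/
def bE (n : Nat) : List (Nat × Nat × Nat × Nat) :=
  ((List.range (n - 2)).map fun i => (i, i + 4, 0, 1)) ++
  (List.range (n - 3)).map fun i => (i + 5, i, 0, 1)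

/-- norms in the full window -/
def lR (n R : Nat) : List (Nat × Nat × Nat) :=
  (List.range (n + 2)).map fun j => bif Nat.beq j 0 || Nat.beq j (n + 1) then (j, R - 2, R - 2) else (j, R, R)

/-- pairs `(i, i + 3)` in the full window -/
def pE (n : Nat) : List (Nat × Nat) := (List.range (n - 1)).map fun i => (i, i + 3)

def run (n : Nat) (X : XData) (td : Nat → Bool) (C : Ctx) (k : Cert) (_ : Nat) : Bool :=
  check C k (build n X td)

/-- conjugation in the middle lines is the identity (`false`) or the exchange (`true`) -/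
def sgS (sw : Bool) (n j w : Nat) : Nat :=
  bif sw && Nat.ble 1 j && Nat.ble j n then (bif Nat.beq w 0 then 1 else bif Nat.beq w 1 then 0 else w) else w

/-- conjugation in the middle line only -/
def sgM (mid : Bool) (n j w : Nat) : Nat :=
  bif mid && Nat.beq (2 * j) (n + 1) then (bif Nat.beq w 0 then 1 else 0) else w

/-- single node conditions: arrows to the next line and from the previous line -/
def sO (n : Nat) : List (Nat × Nat) :=
  (List.range (n - 1)).flatMap fun k => [(k + 1, 0), (k + 1, 1)]
def sI (n : Nat) : List (Nat × Nat) :=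
  (List.range (n - 1)).flatMap fun k => [(k + 2, 0), (k + 2, 1)]

/-- window with two sheets and a pair of nodes outside the lines, `is` are the sources of arrows to
the first of them and `os` the targets of arrows from it -/
def yX (n a k : Nat) (sw f : Bool) (is os : List (Nat × Nat)) : XData :=
  (xwin n a 2 (sgS sw n) true (bif Nat.beq a 0 then [(0, 0), (1, bif f then 0 else 1)] else [])).add2
    ⟨Nat.mod (n + 2 + k) 3, 2 * (n + 2 - 2 * a) + 1, 400, []⟩
    ⟨negGr (Nat.mod (n + 2 + k) 3), 2 * (n + 2 - 2 * a), 400, []⟩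
    ((is.flatMap fun q => [(wix a 2 q.1 q.2, 2 * (n + 2 - 2 * a)),
        (2 * (n + 2 - 2 * a) + 1, wix a 2 (n + 1 - q.1) (sgS sw n q.1 q.2))]) ++
      os.flatMap fun q => [(2 * (n + 2 - 2 * a), wix a 2 q.1 q.2),
        (wix a 2 (n + 1 - q.1) (sgS sw n q.1 q.2), 2 * (n + 2 - 2 * a) + 1)])

/-- depth five with a node in `u 0` and `u 6`, self-conjugate or not -/
def zX (sw re : Bool) : XData :=
  bif re then (xwin 5 1 2 (sgS sw 5) true []).add1 ⟨0, 10, 28, [0, 6]⟩
    [(10, wix 1 2 1 0), (wix 1 2 5 (sgS sw 5 1 0), 10)]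
  else (xwin 5 1 2 (sgS sw 5) true []).add2 ⟨0, 11, 28, [0, 6]⟩ ⟨0, 10, 28, [0, 6]⟩
    [(10, wix 1 2 1 0), (wix 1 2 5 (sgS sw 5 1 0), 11)]

end Pool.Agent.Helper363.Nita.K2
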