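import Pool.Agent.Helper363.Nita.K2.ChkDef

namespace Pool.Agent.Helper363.Nita.K2

/-- there is a certificate -/
def Ok (n : Nat) (X : XData) (td : Nat → Bool) (C : Ctx) : Prop := ∃ (k : Cert) (m : Nat), run n X td C k m = true

/-- full lines with all known inner products -/
def CE (n R : Nat) (sw f : Bool) : Prop :=
  Ok n (xwin n 0 2 (sgS sw n) true [(0, 0), (1, bif f then 0 else 1)]) (wtd n 0)
    (ctxW n 0 2 (lR n R) (bK n 0 2 ++ bE n) (pE n) [] [])

/-- a window together with a common constituent of two rests -/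
def CY (n a k : Nat) (sw f : Bool) (is os : List (Nat × Nat)) : Prop :=
  Ok n (yX n a k sw f is os) (wtd n a) (ctxW n a 2 [] (bK n a 2) [] [] [])

/-- norm three in depth four -/
def C3 (R : Nat) (sw : Bool) : Prop :=
  Ok 4 (xwin 4 1 3 (sgS sw 4) true []) (wtd 4 1)
    (ctxW 4 1 3 [(1, R, R), (2, R, R), (3, R, R), (4, R, R)] (bK 4 1 3) [] [] [])

/-- positive `g` -/
def CG (n : Nat) (mid : Bool) : Prop :=
  Ok n (xwin n 1 2 (sgM mid n) false []) (wtd n 1) (ctxW n 1 2 [] (bG n 1) [] (sO n) (sI n))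

/-- depth five, a common constituent of `u 0` and `u 6` -/
def CZ (sw re : Bool) : Prop :=
  Ok 5 (zX sw re) (wtd 5 1) (ctxW 5 1 2 [] (bK 5 1 2) [] [] [])

end Pool.Agent.Helper363.Nita.K2
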