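import Pool.Agent.Helper363.Nita.K2.InitDef

namespace Pool.Agent.Helper363.Nita.K2

variable {G : NG} {n : ℕ}

theorem xwin_sat_len {β : Type} (m N : ℕ) (f : ℕ → ℕ → β) :
    ((List.range N).flatMap fun k => (List.range m).map (f k)).length = m * N := by
  simp [List.length_flatMap, mul_comm]

theorem xwin_sat_getElem {β : Type} (m : ℕ) (f : ℕ → ℕ → β) (i : ℕ) : ∀ (N : ℕ), i < m * N →
    ((List.range N).flatMap fun k => (List.range m).map (f k))[i]? = some (f (i / m) (i % m)) := by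
  intro N
  induction N with
  | zero => intro hi; simp at hi
  | succ N ih =>
    intro hi
    have hm : 0 < m := by
      rcases Nat.eq_zero_or_pos m with h | h
      · simp [h] at hi
      · exact h
    rw [List.range_succ, List.flatMap_append, List.getElem?_append, xwin_sat_len]
    split_ifs with h
    · exact ih h
    · have h1 : i - m * N < m := by
        rw [Nat.mul_succ] at hi
        omega
      have h2 : i = m * N + (i - m * N) := by omega
      have h3 : i / m = N := by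
        rw [h2, Nat.mul_add_div hm, Nat.div_eq_of_lt h1]; rfl
      have h4 : i % m = i - m * N := by
        conv_lhs => rw [h2]
        rw [Nat.mul_add_mod, Nat.mod_eq_of_lt h1]
      rw [h3, h4]
      simp [h1]

theorem xwin_sat_length {n a m : ℕ} {sg : ℕ → ℕ → ℕ} {st : Bool} {en : List (ℕ × ℕ)} :
    (xwin n a m sg st en).nodes.length = m * (n + 2 - 2 * a) :=
  xwin_sat_len m (n + 2 - 2 * a) (fun k w => (⟨Nat.mod (n + 1 + (a + k)) 3,
    wix a m (n + 1 - (a + k)) (sg (a + k) w), DN (n + 1 - (a + k)) (a + k), [a + k]⟩ : XNode))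

theorem xwin_sat_nodes {n a m : ℕ} {sg : ℕ → ℕ → ℕ} {st : Bool} {en : List (ℕ × ℕ)} {i : ℕ}
    (hi : i < m * (n + 2 - 2 * a)) :
    (xwin n a m sg st en).nodes[i]? = some ⟨Nat.mod (n + 1 + (a + i / m)) 3,
      wix a m (n + 1 - (a + i / m)) (sg (a + i / m) (i % m)), DN (n + 1 - (a + i / m)) (a + i / m),
      [a + i / m]⟩ :=
  xwin_sat_getElem m (fun k w => (⟨Nat.mod (n + 1 + (a + k)) 3,
    wix a m (n + 1 - (a + k)) (sg (a + k) w), DN (n + 1 - (a + k)) (a + k), [a + k]⟩ : XNode)) i _ hi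

theorem xwin_sat_DN (a b : ℕ) : ((DN a b : ℕ) : ℤ) = dimZ a b := by
  show ((((a + 1) * (b + 1) * (a + b + 2)) / 2 : ℕ) : ℤ) = ((a : ℤ) + 1) * (b + 1) * (a + b + 2) / 2
  push_cast
  rfl

theorem xwin_sat_bv {B : Type} (b : B) (x : B) : 0 ≤ (bv b : B →₀ ℤ) x := by
  classical
  by_cases h : b = x
  · subst h; simp [bv]
  · simp [bv, Finsupp.single_apply, h]

theorem xwin_sat_sum_ge {B : Type} (m : ℕ) (f : ℕ → B) (w : ℕ) (hw : w < m) :
    1 ≤ (∑ w' ∈ Finset.range m, bv (f w') : B →₀ ℤ) (f w) := by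
  rw [Finsupp.finsetSum_apply]
  calc (1:ℤ) = (bv (f w) : B →₀ ℤ) (f w) := by simp [bv]
    _ ≤ _ := Finset.single_le_sum (f := fun w' => (bv (f w') : B →₀ ℤ) (f w))
        (fun w' _ => xwin_sat_bv _ _) (Finset.mem_range.2 hw)

theorem xwin_sat_sum_eq {B : Type} (m : ℕ) (f : ℕ → B) (w : ℕ) (hw : w < m)
    (hinj : ∀ w' < m, f w' = f w → w' = w) :
    (∑ w' ∈ Finset.range m, bv (f w') : B →₀ ℤ) (f w) = 1 := by
  classical
  rw [Finsupp.finsetSum_apply, Finset.sum_eq_single w]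
  · simp [bv]
  · intro w' hw' hne
    have : f w' ≠ f w := fun h => hne (hinj w' (Finset.mem_range.1 hw') h)
    simp [bv, Finsupp.single_apply, this]
  · intro h; exact absurd (Finset.mem_range.2 hw) h

theorem xwin_sat_wix {a m j w : ℕ} (hw : w < m) :
    wix a m j w / m = j - a ∧ wix a m j w % m = w := by
  unfold wix
  constructor
  · rw [Nat.mul_add_div (by omega), Nat.div_eq_of_lt hw]; rfl
  · rw [Nat.mul_add_mod, Nat.mod_eq_of_lt hw]

theorem xwin_sat_xz {B : Type} {a m j w : ℕ} (hw : w < m) (haj : a ≤ j) (z : ℤ → ℕ → B) :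
    xz a m z (wix a m j w) = z j w := by
  unfold xz
  rw [(xwin_sat_wix hw).1, (xwin_sat_wix hw).2, Nat.add_sub_cancel' haj]

theorem xwin_sat_lt {a m j w N : ℕ} (hw : w < m) (h : j - a < N) : wix a m j w < m * N := by
  unfold wix
  calc m * (j - a) + w < m * (j - a) + m := by omega
    _ = m * (j - a + 1) := by ring
    _ ≤ m * N := Nat.mul_le_mul_left _ h

/-- windows of labelled lines -/
theorem xwin_sat {A : Arr G n} (hG : A.Good) {a m : ℕ} (ha : a ≤ 1) (hm : 0 < m) {z : ℤ → ℕ → G.B}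
    {sg : ℕ → ℕ → ℕ} {st : Bool} {en : List (ℕ × ℕ)}
    (hu : ∀ j : ℤ, a ≤ j → j ≤ n + 1 - a → A.u j = ∑ w ∈ Finset.range m, bv (z j w))
    (hne : ∀ j : ℤ, a ≤ j → j ≤ n + 1 - a → ∀ w < m, ∀ w' < m, z j w = z j w' → w = w')
    (hbar : ∀ j : ℕ, a ≤ j → j ≤ n + 1 - a → ∀ w < m, sg j w < m ∧
      G.bar (z j w) = z ((n : ℤ) + 1 - j) (sg j w))
    (hst : st = true → ∀ j : ℕ, 1 ≤ j → j ≤ n - 1 → ∀ w < m, 1 ≤ G.T (bv (z j w)) (z (j + 1) w))
    (hen : ∀ q ∈ en, a = 0 ∧ q.1 < m ∧ q.2 < m ∧ 1 ≤ G.T (bv (z 0 q.1)) (z 1 q.2))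
    (horth : ∀ i j : ℤ, a ≤ i → i ≤ n + 1 - a → 0 ≤ j → j ≤ n + 1 → i ≠ j → ip (A.u i) (A.u j) = 0) :
    XSat A (xz a m z) (xwin n a m sg st en) := by
  have hlen : (xwin n a m sg st en).nodes.length = m * (n + 2 - 2 * a) := xwin_sat_length
  have hn4 := hG.hn
  have hge : ∀ j : ℕ, a ≤ j → j ≤ n + 1 - a → ∀ w < m, 1 ≤ A.u j (z j w) := by
    intro j h1 h2 w hw
    rw [hu j (by exact_mod_cast h1) (by omega)]
    exact xwin_sat_sum_ge m (z j) w hw
  have hdec : ∀ i < m * (n + 2 - 2 * a), a ≤ a + i / m ∧ a + i / m ≤ n + 1 - a ∧ i % m < m := by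
    intro i hi
    have h1 : i / m < n + 2 - 2 * a := Nat.div_lt_of_lt_mul hi
    have h2 := Nat.mod_lt i hm
    clear hi
    generalize i / m = k at *
    exact ⟨by omega, by omega, h2⟩
  refine ⟨?_, ?_, ?_, ?_⟩
  · intro i hi j hj hij
    rw [hlen] at hi hj
    obtain ⟨i1, i2, i3⟩ := hdec i hi
    obtain ⟨j1, j2, j3⟩ := hdec j hj
    have hz : z ((a + i / m : ℕ) : ℤ) (i % m) = z ((a + j / m : ℕ) : ℤ) (j % m) := hij
    rw [← Nat.div_add_mod i m, ← Nat.div_add_mod j m]
    generalize i / m = k at *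
    generalize j / m = l at *
    generalize i % m = v at *
    generalize j % m = w at *
    by_cases hd : k = l
    · rw [hd] at hz
      have h5 := hne ((a + l : ℕ) : ℤ) (by omega) (by omega) _ i3 _ j3 hz
      rw [hd, h5]
    · exfalso
      have h6 := hge _ i1 i2 _ i3
      have h7 := hge _ j1 j2 _ j3
      rw [← hz] at h7
      have h8 := mul_le_ip (A.u_nonneg hG ((a + k : ℕ) : ℤ)) (A.u_nonneg hG ((a + l : ℕ) : ℤ))
        (z ((a + k : ℕ) : ℤ) v)
      rw [horth _ _ (by omega) (by omega) (by omega) (by omega) (by omega)] at h8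
      nlinarith
  · intro i hi b c
    rw [hlen] at hi
    obtain ⟨i1, i2, i3⟩ := hdec i hi
    have h6 := hge _ i1 i2 _ i3
    have h8 := mul_le_ip (A.u_nonneg hG ((a + i / m : ℕ) : ℤ)) (A.E_nonneg b c)
        (z ((a + i / m : ℕ) : ℤ) (i % m))
    rw [A.ip_u_E hG] at h8
    have h9 := A.E_nonneg b c (z ((a + i / m : ℕ) : ℤ) (i % m))
    simp only [Finsupp.coe_zero, Pi.zero_apply] at h9
    show A.E b c (z ((a + i / m : ℕ) : ℤ) (i % m)) = 0
    nlinarith
  · intro i r hr
    have hi : i < m * (n + 2 - 2 * a) := by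
      rw [← hlen]
      by_contra h
      rw [List.getElem?_eq_none (by omega)] at hr
      exact absurd hr (by simp)
    rw [xwin_sat_nodes hi] at hr
    have hr' := (Option.some.inj hr).symm
    subst hr'
    clear hr
    obtain ⟨i1, i2, i3⟩ := hdec i hi
    obtain ⟨hs, hb⟩ := hbar _ i1 i2 _ i3
    have h6 := hge _ i1 i2 _ i3
    have hik : i / m < n + 2 - 2 * a := Nat.div_lt_of_lt_mul hi
    have hxz : xz a m z i = z ((a + i / m : ℕ) : ℤ) (i % m) := rfl
    rw [hxz]
    clear hi hxz hdec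
    generalize i / m = l at *
    generalize i % m = w at *
    have hcast : ((n + 1 - (a + l) : ℕ) : ℤ) = (n : ℤ) + 1 - (a + l : ℕ) := by omega
    refine ⟨?_, ?_, Nat.mod_lt _ (by norm_num), ?_, ?_, ?_, ?_, ?_⟩
    · rw [hlen]
      exact xwin_sat_lt hs (by omega)
    · show G.bar (z ((a + l : ℕ) : ℤ) w) = xz a m z (wix a m (n + 1 - (a + l)) _)
      rw [xwin_sat_xz hs (by omega), hcast]
      exact hb
    · have h7 := A.Gr_u ((a + l : ℕ) : ℤ) (z ((a + l : ℕ) : ℤ) w) (by omega)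
      show G.gr (z ((a + l : ℕ) : ℤ) w) = (((n + 1 + (a + l)) % 3 : ℕ) : ZMod 3)
      rw [h7, ZMod.natCast_mod]
      have h3 : (3 : ZMod 3) = 0 := rfl
      push_cast
      linear_combination (-((a : ZMod 3) + (l : ZMod 3))) * h3
    · intro _
      show G.d (z ((a + l : ℕ) : ℤ) w) ≤ ((DN (n + 1 - (a + l)) (a + l) : ℕ) : ℤ)
      rw [xwin_sat_DN, hcast, ← A.dg_u (by omega) (by omega)]
      have h7 := G.mul_d_le_dg (A.u_nonneg hG ((a + l : ℕ) : ℤ)) (z ((a + l : ℕ) : ℤ) w)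
      have h8 := G.d_pos (z ((a + l : ℕ) : ℤ) w)
      nlinarith
    · intro k hk
      show A.u (k : ℤ) (z ((a + l : ℕ) : ℤ) w) = if (Nat.beq k (a + l) || false) = true then 1 else 0
      by_cases hkj : k = a + l
      · have hb1 : (Nat.beq k (a + l) || false) = true := by simp [hkj]
        rw [if_pos hb1, hkj, hu _ (by omega) (by omega)]
        exact xwin_sat_sum_eq m (z ((a + l : ℕ) : ℤ)) _ i3
          (fun w' hw' h => hne _ (by omega) (by omega) _ hw' _ i3 h)
      · have hb1 : ¬ (Nat.beq k (a + l) || false) = true := by simp [hkj]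
        rw [if_neg hb1]
        have h8 := mul_le_ip (A.u_nonneg hG ((a + l : ℕ) : ℤ)) (A.u_nonneg hG (k : ℤ))
          (z ((a + l : ℕ) : ℤ) w)
        rw [horth _ _ (by omega) (by omega) (by omega) (by omega) (by omega)] at h8
        have h9 := A.u_nonneg hG (k : ℤ) (z ((a + l : ℕ) : ℤ) w)
        simp only [Finsupp.coe_zero, Pi.zero_apply] at h9
        nlinarith
    · intro k hk
      simp only [List.mem_singleton] at hk
      omega
    · exact List.nodup_singleton _
  · intro q hq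
    have key : ∀ (j j' : ℕ) (w w' : ℕ), a ≤ j → a ≤ j' → j ≤ n + 1 - a → j' ≤ n + 1 - a → w < m →
        w' < m → 1 ≤ G.T (bv (z j w)) (z j' w') →
        wix a m j w < (xwin n a m sg st en).nodes.length ∧
        wix a m j' w' < (xwin n a m sg st en).nodes.length ∧
        1 ≤ G.T (bv (xz a m z (wix a m j w))) (xz a m z (wix a m j' w')) := by
      intro j j' w w' h1 h2 h3 h4 h5 h6 h7
      rw [hlen, xwin_sat_xz h5 h1, xwin_sat_xz h6 h2]
      exact ⟨xwin_sat_lt h5 (by omega), xwin_sat_lt h6 (by omega), h7⟩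
    rcases List.mem_append.1 hq with hq | hq
    · cases hst' : st with
      | false => rw [hst'] at hq; simp at hq
      | true =>
        rw [hst'] at hq
        simp only [cond_true, List.mem_flatMap, List.mem_map, List.mem_range] at hq
        obtain ⟨k, hk, w, hw, rfl⟩ := hq
        have h1 := hst hst' (k + 1) (by omega) (by omega) w hw
        rw [← hst']
        refine key (k + 1) (k + 2) w w (by omega) (by omega) (by omega) (by omega) hw hw ?_
        have e : (((k + 2 : ℕ)) : ℤ) = ((k + 1 : ℕ) : ℤ) + 1 := by push_cast; ring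
        rw [e]
        exact h1
    · simp only [List.mem_flatMap, List.mem_cons, List.not_mem_nil, or_false] at hq
      obtain ⟨q', hq', h⟩ := hq
      obtain ⟨ha0, h1, h2, h3⟩ := hen q' hq'
      rcases h with rfl | rfl
      · exact key 0 1 q'.1 q'.2 (by omega) (by omega) (by omega) (by omega) h1 h2 (by exact_mod_cast h3)
      · obtain ⟨b1, b2⟩ := hbar 1 (by omega) (by omega) _ h2
        obtain ⟨c1, c2⟩ := hbar 0 (by omega) (by omega) _ h1
        refine key n (n + 1) _ _ (by omega) (by omega) (by omega) (by omega) b1 c1 ?_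
        have e1 : (n : ℤ) + 1 - (1 : ℕ) = (n : ℤ) := by push_cast; ring
        have e2 : (n : ℤ) + 1 - (0 : ℕ) = ((n + 1 : ℕ) : ℤ) := by push_cast; ring
        rw [e1] at b2
        rw [e2] at c2
        rw [← b2, ← c2, G.T_bar, ← G.adj]
        exact_mod_cast h3

/-- all the nodes of the lines of the window are present -/
theorem xwin_td {A : Arr G n} {a m : ℕ} (ha : a ≤ 1) (hm : 0 < m) {z : ℤ → ℕ → G.B}
    {sg : ℕ → ℕ → ℕ} {st : Bool} {en : List (ℕ × ℕ)}
    (hu : ∀ j : ℤ, a ≤ j → j ≤ n + 1 - a → A.u j = ∑ w ∈ Finset.range m, bv (z j w)) :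
    ∀ k ≤ n, wtd n a k = true → ∀ b, A.u (k : ℤ) b ≠ 0 →
      ∃ i < (xwin n a m sg st en).nodes.length, b = xz a m z i := by
  intro k hk hw b hb
  have h1 : a ≤ k ∧ k ≤ n + 1 - a := by
    unfold wtd at hw
    rw [Bool.and_eq_true] at hw
    exact ⟨Nat.le_of_ble_eq_true hw.1, Nat.le_of_ble_eq_true hw.2⟩
  rw [hu k (by omega) (by omega), Finsupp.finsetSum_apply] at hb
  obtain ⟨w, hw', hne⟩ := Finset.exists_ne_zero_of_sum_ne_zero hb
  have hwm := Finset.mem_range.1 hw'
  have hbz : z (k : ℤ) w = b := by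
    classical
    by_contra h
    exact hne (by simp [bv, Finsupp.single_apply, h])
  refine ⟨wix a m k w, ?_, ?_⟩
  · rw [xwin_sat_length]
    exact xwin_sat_lt hwm (by omega)
  · rw [xwin_sat_xz hwm h1.1]
    exact hbz.symm

theorem xwin_length {a m : ℕ} {sg : ℕ → ℕ → ℕ} {st : Bool} {en : List (ℕ × ℕ)} :
    (xwin n a m sg st en).nodes.length = m * (n + 2 - 2 * a) :=
  xwin_sat_length

end Pool.Agent.Helper363.Nita.K2
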