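import Pool.Agent.Helper363.Nita.K2.InitDef

namespace Pool.Agent.Helper363.Nita.K2

variable {G : NG} {n : ℕ}

theorem ctxW_ok_append {B : Type} (φ : ℕ → B) (l l' : List ℕ) :
    rv φ (l ++ l') = rv φ l + rv φ l' := by
  induction l with
  | nil => simp [rv]
  | cons j l ih => simp only [List.cons_append, rv, ih, add_assoc]

theorem ctxW_ok_map {B : Type} (φ : ℕ → B) (f : ℕ → ℕ) (m : ℕ) :
    rv φ ((List.range m).map f) = ∑ w ∈ Finset.range m, bv (φ (f w)) := by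
  induction m with
  | zero => simp [rv]
  | succ m ih =>
    rw [List.range_succ, List.map_append, ctxW_ok_append, ih, Finset.sum_range_succ]
    simp [rv]

theorem ctxW_ok_lt {n a m : ℕ} (ha : a ≤ 1) {j w : ℕ} (h1 : a ≤ j) (h2 : j ≤ n + 1 - a)
    (hw : w < m) : wix a m j w < m * (n + 2 - 2 * a) := by
  unfold wix
  have h3 : j - a + 1 ≤ n + 2 - 2 * a := by omega
  calc m * (j - a) + w < m * (j - a) + m := by omega
    _ = m * (j - a + 1) := by ring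
    _ ≤ _ := Nat.mul_le_mul_left m h3

theorem ctxW_ok_node {A : Arr G n} {a m : ℕ} (ha : a ≤ 1) (hm : 0 < m) {z : ℤ → ℕ → G.B}
    {x : ℕ → G.B} (hx : ∀ i < m * (n + 2 - 2 * a), x i = xz a m z i) {j w : ℕ} (h1 : a ≤ j)
    (h2 : j ≤ n + 1 - a) (hw : w < m) : phi1 A x (n + 1 + wix a m j w) = z j w := by
  unfold phi1
  rw [if_neg (by omega), Nat.add_sub_cancel_left, hx _ (ctxW_ok_lt ha h1 h2 hw)]
  unfold xz wix
  have e1 : (m * (j - a) + w) / m = j - a := by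
    rw [Nat.mul_add_div hm, Nat.div_eq_of_lt hw, add_zero]
  have e2 : (m * (j - a) + w) % m = w := by
    rw [Nat.mul_add_mod, Nat.mod_eq_of_lt hw]
  rw [e1, e2, Nat.add_sub_cancel' h1]

theorem ctxW_ok_line {A : Arr G n} {a m : ℕ} (ha : a ≤ 1) (hm : 0 < m) {z : ℤ → ℕ → G.B}
    {x : ℕ → G.B} (hx : ∀ i < m * (n + 2 - 2 * a), x i = xz a m z i)
    (hu : ∀ j : ℤ, a ≤ j → j ≤ n + 1 - a → A.u j = ∑ w ∈ Finset.range m, bv (z j w))
    {j : ℕ} (h1 : a ≤ j) (h2 : j ≤ n + 1 - a) : rv (phi1 A x) (wU n a m j) = A.u j := by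
  unfold wU
  rw [ctxW_ok_map, hu j (by omega) (by omega)]
  refine Finset.sum_congr rfl fun w hw => ?_
  rw [ctxW_ok_node ha hm hx h1 h2 (Finset.mem_range.1 hw)]

theorem ctxW_ok_mem {n a m K : ℕ} (ha : a ≤ 1) (hK : m * (n + 2 - 2 * a) ≤ K) {j : ℕ}
    (h1 : a ≤ j) (h2 : j ≤ n + 1 - a) {c : ℕ} (hc : c ∈ wU n a m j) :
    n + 1 ≤ c ∧ c < n + 1 + K := by
  unfold wU at hc
  obtain ⟨w, hw, rfl⟩ := List.mem_map.1 hc
  have := ctxW_ok_lt (n := n) ha h1 h2 (List.mem_range.1 hw)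
  omega

/-- the conditions of a window -/
theorem ctxW_ok {A : Arr G n} {a m : ℕ} (ha : a ≤ 1) (hm : 0 < m) {z : ℤ → ℕ → G.B} {x : ℕ → G.B}
    {K : ℕ} (hK : m * (n + 2 - 2 * a) ≤ K) (hx : ∀ i < m * (n + 2 - 2 * a), x i = xz a m z i)
    (hu : ∀ j : ℤ, a ≤ j → j ≤ n + 1 - a → A.u j = ∑ w ∈ Finset.range m, bv (z j w))
    {ls : List (ℕ × ℕ × ℕ)} {bs : List (ℕ × ℕ × ℕ × ℕ)} {is so si : List (ℕ × ℕ)}
    (hls : ∀ q ∈ ls, (a ≤ q.1 ∧ q.1 ≤ n + 1 - a) ∧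
      (q.2.1 : ℤ) ≤ ip (G.T (A.u q.1)) (G.T (A.u q.1)) ∧
      (q.2.2 ≠ 0 → ip (G.T (A.u q.1)) (G.T (A.u q.1)) ≤ q.2.2))
    (hbs : ∀ q ∈ bs, (a ≤ q.1 ∧ q.1 ≤ n + 1 - a) ∧ (a ≤ q.2.1 ∧ q.2.1 ≤ n + 1 - a) ∧
      (q.2.2.1 : ℤ) ≤ ip (G.T (A.u q.1)) (A.u q.2.1) ∧
      (q.2.2.2 ≠ 0 → ip (G.T (A.u q.1)) (A.u q.2.1) < q.2.2.2))
    (his : ∀ q ∈ is, (a ≤ q.1 ∧ q.1 ≤ n + 1 - a) ∧ (a ≤ q.2 ∧ q.2 ≤ n + 1 - a) ∧
      ip (G.T (A.u q.1)) (G.T (A.u q.2)) ≤ 0)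
    (hso : ∀ q ∈ so, a ≤ q.1 ∧ q.1 + 1 ≤ n + 1 - a ∧ q.2 < m ∧
      1 ≤ ip (G.T (bv (z q.1 q.2))) (A.u (q.1 + 1)))
    (hsi : ∀ q ∈ si, a + 1 ≤ q.1 ∧ q.1 ≤ n + 1 - a ∧ q.2 < m ∧
      1 ≤ ip (G.T (A.u (q.1 - 1))) (bv (z q.1 q.2))) :
    CSat A x K (ctxW n a m ls bs is so si) := by
  have hline : ∀ j : ℕ, a ≤ j → j ≤ n + 1 - a → rv (phi1 A x) (wU n a m j) = A.u j :=
    fun j h1 h2 => ctxW_ok_line ha hm hx hu h1 h2
  have hsing : ∀ j w : ℕ, a ≤ j → j ≤ n + 1 - a → w < m →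
      rv (phi1 A x) [n + 1 + wix a m j w] = bv (z j w) := by
    intro j w h1 h2 hw
    simp only [rv, add_zero]
    rw [ctxW_ok_node ha hm hx h1 h2 hw]
  have hmem : ∀ j : ℕ, a ≤ j → j ≤ n + 1 - a → ∀ c ∈ wU n a m j, n + 1 ≤ c ∧ c < n + 1 + K :=
    fun j h1 h2 c hc => ctxW_ok_mem ha hK h1 h2 hc
  refine ⟨rfl, ?_, ?_, ?_⟩
  · intro l hl
    obtain ⟨q, hq, rfl⟩ := List.mem_map.1 hl
    obtain ⟨⟨h1, h2⟩, h3, h4⟩ := hls q hq
    refine ⟨hmem _ h1 h2, ?_, ?_⟩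
    · show (q.2.1 : ℤ) ≤ ip (G.T (rv (phi1 A x) (wU n a m q.1))) (G.T (rv (phi1 A x) (wU n a m q.1)))
      rw [hline _ h1 h2]; exact h3
    · show q.2.2 ≠ 0 → ip (G.T (rv (phi1 A x) (wU n a m q.1))) (G.T (rv (phi1 A x) (wU n a m q.1))) ≤ (q.2.2 : ℤ)
      rw [hline _ h1 h2]; exact h4
  · intro b hb
    rcases List.mem_append.1 hb with hb | hb
    · rcases List.mem_append.1 hb with hb | hb
      · obtain ⟨q, hq, rfl⟩ := List.mem_map.1 hb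
        obtain ⟨⟨h1, h2⟩, ⟨h3, h4⟩, h5, h6⟩ := hbs q hq
        refine ⟨fun c hc => (hmem _ h1 h2 c hc).2, fun c hc => (hmem _ h3 h4 c hc).2, ?_, ?_⟩
        · show (q.2.2.1 : ℤ) ≤ ip (G.T (rv (phi1 A x) (wU n a m q.1))) (rv (phi1 A x) (wU n a m q.2.1))
          rw [hline _ h1 h2, hline _ h3 h4]; exact h5
        · show q.2.2.2 ≠ 0 → ip (G.T (rv (phi1 A x) (wU n a m q.1))) (rv (phi1 A x) (wU n a m q.2.1)) < (q.2.2.2 : ℤ)
          rw [hline _ h1 h2, hline _ h3 h4]; exact h6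
      · obtain ⟨q, hq, rfl⟩ := List.mem_map.1 hb
        obtain ⟨h1, h2, h3, h4⟩ := hso q hq
        have h2' : q.1 ≤ n + 1 - a := by omega
        refine ⟨?_, fun c hc => (hmem (q.1 + 1) (by omega) h2 c hc).2, ?_, fun h => absurd rfl h⟩
        · intro c hc
          have hc' : c = n + 1 + wix a m q.1 q.2 := List.mem_singleton.1 hc
          have := ctxW_ok_lt (n := n) ha h1 h2' h3
          omega
        · show ((1 : ℕ) : ℤ) ≤ ip (G.T (rv (phi1 A x) [n + 1 + wix a m q.1 q.2]))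
            (rv (phi1 A x) (wU n a m (q.1 + 1)))
          rw [hsing _ _ h1 h2' h3, hline _ (by omega) h2]
          push_cast
          exact h4
    · obtain ⟨q, hq, rfl⟩ := List.mem_map.1 hb
      obtain ⟨h1, h2, h3, h4⟩ := hsi q hq
      refine ⟨fun c hc => (hmem (q.1 - 1) (by omega) (by omega) c hc).2, ?_, ?_,
        fun h => absurd rfl h⟩
      · intro c hc
        have hc' : c = n + 1 + wix a m q.1 q.2 := List.mem_singleton.1 hc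
        have := ctxW_ok_lt (n := n) (j := q.1) (w := q.2) ha (by omega) h2 h3
        omega
      · show ((1 : ℕ) : ℤ) ≤ ip (G.T (rv (phi1 A x) (wU n a m (q.1 - 1))))
          (rv (phi1 A x) [n + 1 + wix a m q.1 q.2])
        rw [hsing _ _ (by omega) h2 h3, hline _ (by omega) (by omega)]
        have e : ((q.1 - 1 : ℕ) : ℤ) = (q.1 : ℤ) - 1 := by omega
        rw [e]
        push_cast
        exact h4
  · intro b hb
    obtain ⟨q, hq, rfl⟩ := List.mem_map.1 hb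
    obtain ⟨⟨h1, h2⟩, ⟨h3, h4⟩, h5⟩ := his q hq
    refine ⟨hmem _ h1 h2, hmem _ h3 h4, fun _ => ?_⟩
    show ip (G.T (rv (phi1 A x) (wU n a m q.1))) (G.T (rv (phi1 A x) (wU n a m q.2))) < ((1 : ℕ) : ℤ)
    rw [hline _ h1 h2, hline _ h3 h4]
    push_cast
    omega

end Pool.Agent.Helper363.Nita.K2
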