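import Pool.Agent.Helper363.Nita.K2.InitDef

namespace Pool.Agent.Helper363.Nita.K2

variable {G : NG} {n : ℕ}

theorem add1_sat {A : Arr G n} {x : ℕ → G.B} {X : XData} (hX : XSat A x X) {y : G.B} {r : XNode}
    {ar : List (ℕ × ℕ)} (hy : ∀ i < X.nodes.length, x i ≠ y) (hyE : ∀ a b, A.E a b y = 0)
    (hcj : r.cj = X.nodes.length) (hbar : G.bar y = y) (hgr : r.gr < 3)
    (hgr' : G.gr y = (r.gr : ZMod 3)) (hhi : r.hi ≠ 0 → G.d y ≤ (r.hi : ℤ))
    (hmu : ∀ k : ℕ, k ≤ n + 1 → A.u (k : ℤ) y = if memN k r.mu = true then 1 else 0)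
    (hmu' : ∀ k ∈ r.mu, k ≤ n + 1) (hnd : r.mu.Nodup)
    (har : ∀ q ∈ ar, q.1 < X.nodes.length + 1 ∧ q.2 < X.nodes.length + 1 ∧
      1 ≤ G.T (bv (if q.1 < X.nodes.length then x q.1 else y))
        (if q.2 < X.nodes.length then x q.2 else y)) :
    XSat A (fun i => if i < X.nodes.length then x i else y) (X.add1 r ar) := by
  have hnodes : (X.add1 r ar).nodes = X.nodes ++ [r] := rfl
  have harrows : (X.add1 r ar).arrows = X.arrows ++ ar := rfl
  have hlen : (X.add1 r ar).nodes.length = X.nodes.length + 1 := by
    rw [hnodes, List.length_append]; rfl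
  refine ⟨?_, ?_, ?_, ?_⟩
  · intro i hi j hj hij
    rw [hlen] at hi hj
    by_cases h1 : i < X.nodes.length
    · by_cases h2 : j < X.nodes.length
      · rw [if_pos h1, if_pos h2] at hij
        exact hX.inj i h1 j h2 hij
      · rw [if_pos h1, if_neg h2] at hij
        exact absurd hij (hy i h1)
    · by_cases h2 : j < X.nodes.length
      · rw [if_neg h1, if_pos h2] at hij
        exact absurd hij.symm (hy j h2)
      · omega
  · intro i hi a b
    split_ifs with h1
    · exact hX.notE i h1 a b
    · exact hyE a b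
  · intro i r0 hr0
    rw [hnodes] at hr0
    rw [hlen]
    by_cases h1 : i < X.nodes.length
    · rw [List.getElem?_append_left h1] at hr0
      obtain ⟨a1, a2, a3, a4, a5, a6, a7, a8⟩ := hX.node i r0 hr0
      rw [if_pos h1, if_pos a1]
      exact ⟨by omega, a2, a3, a4, a5, a6, a7, a8⟩
    · rw [List.getElem?_append_right (by omega)] at hr0
      have h2 : i - X.nodes.length = 0 := by
        by_contra hne
        obtain ⟨k, hk⟩ := Nat.exists_eq_succ_of_ne_zero hne
        rw [hk] at hr0
        simp at hr0
      rw [h2] at hr0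
      simp only [List.getElem?_cons_zero, Option.some.injEq] at hr0
      subst hr0
      rw [if_neg h1, hcj, if_neg (lt_irrefl _)]
      exact ⟨by omega, hbar, hgr, hgr', hhi, hmu, hmu', hnd⟩
  · intro q hq
    rw [harrows, List.mem_append] at hq
    rw [hlen]
    rcases hq with hq | hq
    · obtain ⟨a1, a2, a3⟩ := hX.arr q hq
      rw [if_pos a1, if_pos a2]
      exact ⟨by omega, by omega, a3⟩
    · exact har q hq

theorem add2_sat {A : Arr G n} {x : ℕ → G.B} {X : XData} (hn : 2 ≤ n) (hX : XSat A x X) {y : G.B}
    {r r' : XNode} {ar : List (ℕ × ℕ)}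
    (hy : ∀ i < X.nodes.length, x i ≠ y) (hyb : G.bar y ≠ y) (hyE : ∀ a b, A.E a b y = 0)
    (hcj : r.cj = X.nodes.length + 1) (hcj' : r'.cj = X.nodes.length) (hgr : r.gr < 3)
    (hgr' : G.gr y = (r.gr : ZMod 3)) (hgr'' : r'.gr = negGr r.gr) (hhi : r.hi ≠ 0 → G.d y ≤ (r.hi : ℤ))
    (hhi' : r'.hi = r.hi)
    (hmu : ∀ k : ℕ, k ≤ n + 1 → A.u (k : ℤ) y = if memN k r.mu = true then 1 else 0)
    (hmu' : ∀ k ∈ r.mu, k ≤ n + 1) (hnd : r.mu.Nodup) (hmu2 : r'.mu = r.mu)
    (hsym : ∀ k ≤ n + 1, memN (n + 1 - k) r.mu = memN k r.mu)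
    (har : ∀ q ∈ ar, q.1 < X.nodes.length + 2 ∧ q.2 < X.nodes.length + 2 ∧
      1 ≤ G.T (bv (if q.1 < X.nodes.length then x q.1 else if q.1 = X.nodes.length then y else G.bar y))
        (if q.2 < X.nodes.length then x q.2 else if q.2 = X.nodes.length then y else G.bar y)) :
    XSat A (fun i => if i < X.nodes.length then x i else if i = X.nodes.length then y else G.bar y)
      (X.add2 r r' ar) := by
  have hnodes : (X.add2 r r' ar).nodes = X.nodes ++ [r, r'] := rfl
  have harrows : (X.add2 r r' ar).arrows = X.arrows ++ ar := rfl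
  have hlen : (X.add2 r r' ar).nodes.length = X.nodes.length + 2 := by
    rw [hnodes, List.length_append]; rfl
  have hbx : ∀ i < X.nodes.length, x i ≠ G.bar y := by
    intro i hi hxi
    obtain ⟨a1, a2, -⟩ := hX.node i _ (List.getElem?_eq_getElem hi)
    rw [hxi, G.bar_bar] at a2
    exact hy _ a1 a2.symm
  refine ⟨?_, ?_, ?_, ?_⟩
  · intro i hi j hj hij
    rw [hlen] at hi hj
    by_cases h1 : i < X.nodes.length
    · rw [if_pos h1] at hij
      by_cases h2 : j < X.nodes.length
      · rw [if_pos h2] at hij
        exact hX.inj i h1 j h2 hij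
      · rw [if_neg h2] at hij
        by_cases h3 : j = X.nodes.length
        · rw [if_pos h3] at hij
          exact absurd hij (hy i h1)
        · rw [if_neg h3] at hij
          exact absurd hij (hbx i h1)
    · rw [if_neg h1] at hij
      by_cases h2 : j < X.nodes.length
      · rw [if_pos h2] at hij
        by_cases h3 : i = X.nodes.length
        · rw [if_pos h3] at hij
          exact absurd hij.symm (hy j h2)
        · rw [if_neg h3] at hij
          exact absurd hij.symm (hbx j h2)
      · rw [if_neg h2] at hij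
        by_cases h3 : i = X.nodes.length
        · by_cases h4 : j = X.nodes.length
          · omega
          · rw [if_pos h3, if_neg h4] at hij
            exact absurd hij.symm hyb
        · by_cases h4 : j = X.nodes.length
          · rw [if_neg h3, if_pos h4] at hij
            exact absurd hij hyb
          · omega
  · intro i hi a b
    split_ifs with h1 h2
    · exact hX.notE i h1 a b
    · exact hyE a b
    · rw [← G.bar'_apply, A.bar_E]
      exact hyE b a
  · intro i r0 hr0
    rw [hnodes] at hr0
    rw [hlen]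
    by_cases h1 : i < X.nodes.length
    · rw [List.getElem?_append_left h1] at hr0
      obtain ⟨a1, a2, a3, a4, a5, a6, a7, a8⟩ := hX.node i r0 hr0
      rw [if_pos h1, if_pos a1]
      exact ⟨by omega, a2, a3, a4, a5, a6, a7, a8⟩
    · rw [List.getElem?_append_right (by omega)] at hr0
      rw [if_neg h1]
      by_cases h2 : i = X.nodes.length
      · have h3 : i - X.nodes.length = 0 := by omega
        rw [h3] at hr0
        simp only [List.getElem?_cons_zero, Option.some.injEq] at hr0
        subst hr0
        rw [if_pos h2, hcj, if_neg (by omega), if_neg (by omega)]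
        exact ⟨by omega, rfl, hgr, hgr', hhi, hmu, hmu', hnd⟩
      · have h3 : i - X.nodes.length = 1 := by
          by_contra hne
          obtain ⟨k, hk⟩ : ∃ k, i - X.nodes.length = k + 2 :=
            ⟨i - X.nodes.length - 2, by omega⟩
          rw [hk] at hr0
          simp at hr0
        rw [h3] at hr0
        simp only [List.getElem?_cons_succ, List.getElem?_cons_zero, Option.some.injEq] at hr0
        subst hr0
        rw [if_neg h2, hcj', if_neg (lt_irrefl _), if_pos rfl]
        refine ⟨by omega, G.bar_bar y, ?_, ?_, ?_, ?_, ?_, ?_⟩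
        · rw [hgr'']
          exact Nat.mod_lt _ (by norm_num)
        · rw [G.gr_bar, hgr', hgr'']
          have h4 : r.gr = 0 ∨ r.gr = 1 ∨ r.gr = 2 := by omega
          rcases h4 with h4 | h4 | h4 <;> rw [h4] <;> decide
        · intro h4
          rw [G.d_bar, hhi']
          exact hhi (by rw [← hhi']; exact h4)
        · intro k hk
          rw [← G.bar'_apply, A.bar_u hn, hmu2, ← hsym k hk]
          have h4 := hmu (n + 1 - k) (by omega)
          rw [← h4]
          congr 2
          push_cast [hk]
          ring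
        · rw [hmu2]; exact hmu'
        · rw [hmu2]; exact hnd
  · intro q hq
    rw [harrows, List.mem_append] at hq
    rw [hlen]
    rcases hq with hq | hq
    · obtain ⟨a1, a2, a3⟩ := hX.arr q hq
      rw [if_pos a1, if_pos a2]
      exact ⟨by omega, by omega, a3⟩
    · exact har q hq

end Pool.Agent.Helper363.Nita.K2
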