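import Pool.Agent.Helper363.Nita.K2.SndB

namespace Pool.Agent.Helper363.Nita.K2

section rules
variable {G : NG} {w : World G} {C : Ctx} {S : List Row} {φ : ℕ → G.B}

theorem T_rv_col (h : Sat w C S φ) {x : ℕ} (hx : x < S.length) (l : List ℕ)
    (hl : ∀ z ∈ l, z < S.length) (he : allExCol S x l = true) :
    G.T (rv φ l) (φ x) = (sumCol S x l : ℤ) := by
  induction l with
  | nil => simp [rv, sumCol]
  | cons z l ih =>
    simp only [allExCol, Bool.and_eq_true] at he
    have h1 := ex_sound h (hl z (by simp)) hx he.1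
    have h2 := ih (fun y hy => hl y (by simp [hy])) he.2
    simp only [rv, map_add, Finsupp.add_apply, sumCol]
    rw [h1, h2]
    exact (Nat.cast_add _ _).symm

theorem T_W_zero (h : Sat w C S φ) {x y : ℕ} (hx : x < S.length)
    (hn : w.nt ≤ x ∨ w.nt ≤ y) : G.T (w.W y) (φ x) = 0 := by
  rcases hn with hn | hn
  · rw [G.T_apply]
    unfold ip
    apply Finset.sum_eq_zero
    intro z hz
    have h1 : w.L z := w.W_L y z (Finsupp.mem_support_iff.1 hz)
    have h2 : G.S (bv (φ x)) z = 0 := by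
      rw [← G.T_bar, (h.row x hx).bar]
      exact h.glob.arrL _ (h.row x hx).cjlt (cj_nt h hx hn) _ (w.L_bar z h1)
    show (w.W y) z * (G.S (bv (φ x))) z = 0
    rw [h2, mul_zero]
  · rw [w.W_zero y hn]; simp

theorem xt1_false (h : Sat w C S φ) {x y : ℕ} (hx : x < S.length) (hy : y < S.length)
    (hc : xt1 C S x y = true) : False := by
  unfold xt1 at hc
  simp only [Bool.and_eq_true, Bool.or_eq_true] at hc
  obtain ⟨⟨⟨hn, hd⟩, he⟩, hlt⟩ := hc
  have hlt' : sumCol S x (nth S y).out < cnt y (nth S x).out := Nat.le_of_ble_eq_true hlt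
  have hn' : w.nt ≤ x ∨ w.nt ≤ y := by
    rw [← h.glob.ntC]
    rcases hn with hn | hn
    · exact Or.inl (Nat.le_of_ble_eq_true hn)
    · exact Or.inr (Nat.le_of_ble_eq_true hn)
  have htri := G.tri (φ y) (φ x)
  rw [← G.adj, (h.row y hy).done hd, map_add, Finsupp.add_apply, T_W_zero h hx hn',
    T_rv_col h hx _ (h.row y hy).outlt he] at htri
  have h1 := cnt_le h hx hy
  have h2 : ((sumCol S x (nth S y).out : ℕ) : ℤ) < (cnt y (nth S x).out : ℤ) := by
    exact_mod_cast hlt'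
  linarith

theorem rule_XT (h : Sat w C S φ) {x y : ℕ} (hc : check C (.XT x y) S = true) : False := by
  unfold check at hc
  simp only [Bool.and_eq_true, Bool.or_eq_true] at hc
  obtain ⟨⟨hx, hy⟩, hc⟩ := hc
  have hx' : x < S.length := Nat.le_of_ble_eq_true hx
  have hy' : y < S.length := Nat.le_of_ble_eq_true hy
  rcases hc with hc | hc
  · exact xt1_false h hx' hy' hc
  · exact xt1_false h (h.row y hy').cjlt (h.row x hx').cjlt hc

theorem RowSat.setHi {K i k : ℕ} {r : Row} (hr : RowSat w K φ i r)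
    (hk : k ≠ 0 → G.d (φ i) ≤ (k : ℤ)) : RowSat w K φ i { r with hi := k } :=
  ⟨hr.cjlt, hr.bar, hr.grlt, hr.gr, hr.lo, hk, hr.off, hr.outlt, hr.low, hr.declt, hr.dec, hr.done⟩

theorem RowSat.setLo {K i k : ℕ} {r : Row} (hr : RowSat w K φ i r)
    (hk : (k : ℤ) ≤ G.d (φ i)) : RowSat w K φ i { r with lo := k } :=
  ⟨hr.cjlt, hr.bar, hr.grlt, hr.gr, hk, hr.hi, hr.off, hr.outlt, hr.low, hr.declt, hr.dec, hr.done⟩

theorem rule_SP (h : Sat w C S φ) {a k : ℕ} {c1 c2 : Cert}
    (hc : check C (.SP a k c1 c2) S = true) :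
    (∃ S', Sat w C S' φ ∧ check C c1 S' = true) ∨ (∃ S', Sat w C S' φ ∧ check C c2 S' = true) := by
  rw [check] at hc
  simp only [Bool.and_eq_true] at hc
  obtain ⟨⟨⟨ha, _⟩, hc1⟩, hc2⟩ := hc
  have ha' : a < S.length := Nat.le_of_ble_eq_true ha
  have hd : G.d (φ (nth S a).cj) = G.d (φ a) := by
    rw [← (h.row a ha').bar, G.d_bar]
  have hcj := (h.row a ha').cjlt
  rcases le_or_gt (G.d (φ a)) (k : ℤ) with hk | hk
  · left
    refine ⟨_, ?_, hc1⟩
    have h1 : Sat w C (upd S a fun r => { r with hi := k }) φ :=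
      Sat.upd h fun _ => (h.row a ha').setHi fun _ => hk
    refine Sat.upd h1 fun hlt => ?_
    exact (h1.row _ hlt).setHi fun _ => by rw [hd]; exact hk
  · right
    refine ⟨_, ?_, hc2⟩
    have hk' : ((Nat.succ k : ℕ) : ℤ) ≤ G.d (φ a) := by
      push_cast; omega
    have h1 : Sat w C (upd S a fun r => { r with lo := Nat.succ k }) φ :=
      Sat.upd h fun _ => (h.row a ha').setLo hk'
    refine Sat.upd h1 fun hlt => ?_
    exact (h1.row _ hlt).setLo (by rw [hd]; exact hk')

end rules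

end Pool.Agent.Helper363.Nita.K2
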