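import Pool.Agent.Helper363.Nita.K2.SndB

namespace Pool.Agent.Helper363.Nita.K2

section rules
variable {G : NG} {w : World G} {C : Ctx} {S : List Row} {φ : ℕ → G.B}

theorem succGr_cast (g : ℕ) : ((succGr g : ℕ) : ZMod 3) = (g : ZMod 3) + 1 := by
  have : succGr g = (g + 1) % 3 := rfl
  rw [this, ZMod.natCast_mod]
  push_cast
  rfl

theorem negGr_cast (g : ℕ) : ((negGr g : ℕ) : ZMod 3) = - (g : ZMod 3) := by
  have : negGr g = (2 * g) % 3 := rfl
  rw [this, ZMod.natCast_mod]
  push_cast
  have h3 : (3 : ZMod 3) = 0 := by decide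
  linear_combination (g : ZMod 3) * h3

theorem succGr_lt (g : ℕ) : succGr g < 3 := Nat.mod_lt _ (by norm_num)

theorem negGr_lt (g : ℕ) : negGr g < 3 := Nat.mod_lt _ (by norm_num)

theorem gr_inj {x y : ℕ} (hx : x < 3) (hy : y < 3) (h : (x : ZMod 3) = (y : ZMod 3)) : x = y := by
  rw [ZMod.natCast_eq_natCast_iff'] at h
  rwa [Nat.mod_eq_of_lt hx, Nat.mod_eq_of_lt hy] at h

theorem rowEx_sound {a g : ℕ} {l : List Row} {i : ℕ} (he : rowEx S a g l i = true) :
    ∀ k < l.length, (nth l k).gr = g → ex S a (i + k) = true := by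
  induction l generalizing i with
  | nil => intro k hk; simp at hk
  | cons r l ih =>
    intro k hk hg
    unfold rowEx at he
    cases hb : Nat.beq r.gr g with
    | true =>
      rw [hb] at he
      simp only [cond_true, Bool.and_eq_true] at he
      cases k with
      | zero => exact he.1
      | succ k =>
        have := ih he.2 k (by simpa using hk) hg
        rwa [Nat.succ_eq_add_one, Nat.add_assoc, Nat.add_comm 1 k] at this
    | false =>
      rw [hb] at he
      simp only [cond_false] at he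
      cases k with
      | zero =>
        exfalso
        have h1 : r.gr = g := hg
        rw [h1, Nat.beq_refl] at hb
        cases hb
      | succ k =>
        have := ih he k (by simpa using hk) hg
        rwa [Nat.succ_eq_add_one, Nat.add_assoc, Nat.add_comm 1 k] at this

/-- all cells of the row are exact -/
theorem row_exact (h : Sat w C S φ) {a : ℕ} (ha : a < S.length)
    (he : rowEx S a (succGr (nth S a).gr) S 0 = true) :
    ∀ y < S.length, G.T (bv (φ a)) (φ y) = (cnt y (nth S a).out : ℤ) := by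
  intro y hy
  by_cases hg : (nth S y).gr = succGr (nth S a).gr
  · have := rowEx_sound he y hy hg
    rw [Nat.zero_add] at this
    exact ex_sound h ha hy this
  · have hz : G.T (bv (φ a)) (φ y) = 0 := by
      by_contra hne
      have h1 := G.gr_T _ _ hne
      rw [(h.row y hy).gr, (h.row a ha).gr, ← succGr_cast] at h1
      exact hg (gr_inj (h.row y hy).grlt (succGr_lt _) h1)
    have h2 := cnt_le h ha hy
    rw [hz] at h2 ⊢
    have h3 : (0 : ℤ) ≤ (cnt y (nth S a).out : ℤ) := Int.natCast_nonneg _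
    exact (le_antisymm h2 h3).symm

/-- if no arrow leaves the known nodes the row is complete -/
theorem row_complete (h : Sat w C S φ) {a : ℕ} (ha : a < S.length)
    (he : rowEx S a (succGr (nth S a).gr) S 0 = true)
    (hno : ∀ y, (∀ i < S.length, φ i ≠ y) → G.T (bv (φ a)) y = 0) :
    G.T (bv (φ a)) = rv φ (nth S a).out := by
  ext z
  by_cases hz : ∃ i < S.length, φ i = z
  · obtain ⟨i, hi, rfl⟩ := hz
    rw [row_exact h ha he i hi, rv_apply h.glob.inj (h.row a ha).outlt hi]
  · push Not at hz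
    rw [hno z hz, rv_apply_out]
    intro j hj
    exact hz j ((h.row a ha).outlt j hj)

/-- branch one: the row is finished -/
theorem sat_done (h : Sat w C S φ) {a : ℕ} (hnt : w.nt ≤ a)
    (hT : a < S.length → G.T (bv (φ a)) = rv φ (nth S a).out) :
    Sat w C (upd S a fun r => { r with done := true }) φ := by
  apply h.upd
  intro ha
  have hr := h.row a ha
  exact ⟨hr.cjlt, hr.bar, hr.grlt, hr.gr, hr.lo, hr.hi, hr.off, hr.outlt, hr.low, hr.declt, hr.dec,
    fun _ => by rw [w.W_zero a hnt, add_zero]; exact hT ha⟩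

/-- facts about a new node -/
structure NewNode {G : NG} (w : World G) (S : List Row) (φ : ℕ → G.B) (a : ℕ) (y : G.B) : Prop where
  out : ∀ i < S.length, φ i ≠ y
  out' : ∀ i < S.length, φ i ≠ G.bar y
  pos : 1 ≤ G.T (bv (φ a)) y
  nL : ¬ w.L y
  nL' : ¬ w.L (G.bar y)
  gr : G.gr y = ((succGr (nth S a).gr : ℕ) : ZMod 3)
  hi : (nth S a).hi ≠ 0 → G.d y ≤ ((3 * (nth S a).hi : ℕ) : ℤ)
  conj : 1 ≤ G.T (bv (G.bar y)) (φ (nth S a).cj)
  arr : ∀ z, w.L z → G.T (bv y) z = 0
  arr' : ∀ z, w.L z → G.T (bv (G.bar y)) z = 0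

theorem newNode_of (h : Sat w C S φ) {a : ℕ} (ha : a < S.length) (hnt : w.nt ≤ a) {y : G.B}
    (hy : ∀ i < S.length, φ i ≠ y) (hT : G.T (bv (φ a)) y ≠ 0) : NewNode w S φ a y := by
  have hr := h.row a ha
  have hpos : 1 ≤ G.T (bv (φ a)) y := by
    have := G.T_nonneg (φ a) y
    omega
  have hy' : ∀ i < S.length, φ i ≠ G.bar y := by
    intro i hi he
    apply hy (nth S i).cj (h.row i hi).cjlt
    rw [← (h.row i hi).bar, he, G.bar_bar]
  have hL : ¬ w.L y := fun hl => hT (h.glob.arrL a ha hnt y hl)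
  have hL' : ¬ w.L (G.bar y) := fun hl => hL (by have := w.L_bar _ hl; rwa [G.bar_bar] at this)
  refine ⟨hy, hy', hpos, hL, hL', ?_, ?_, ?_, ?_, ?_⟩
  · rw [G.gr_T _ _ hT, hr.gr, succGr_cast]
  · intro hhi
    have h1 := hr.hi hhi
    have h2 := G.mul_d_le_dg (x := G.T (bv (φ a))) (fun z => G.T_nonneg _ z) y
    rw [G.dg_T, G.dg_bv] at h2
    have h3 := G.d_pos y
    push_cast
    nlinarith
  · rw [← hr.bar, G.T_bar, ← G.adj]
    exact hpos
  · intro z hz
    by_contra hne
    rcases h.glob.Lin z hz y hne with h1 | ⟨i, hi, h1⟩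
    · exact hL h1
    · exact hy i (lt_of_lt_of_le hi h.glob.ntK) h1.symm
  · intro z hz
    by_contra hne
    rcases h.glob.Lin z hz (G.bar y) hne with h1 | ⟨i, hi, h1⟩
    · exact hL' h1
    · exact hy' i (lt_of_lt_of_le hi h.glob.ntK) h1.symm

/-- adding nodes to a state -/
theorem sat_ext_upd (h : Sat w C S φ) {a : ℕ} {f : Row → Row} {U : List Row} {ψ : ℕ → G.B}
    (hψ : ∀ i < S.length, φ i = ψ i) (hG : Glob w C (S.length + U.length) ψ)
    (ha : a < S.length → RowSat w (S.length + U.length) ψ a (f (nth S a)))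
    (hU : ∀ i < U.length, RowSat w (S.length + U.length) ψ (S.length + i) (nth U i)) :
    Sat w C (upd S a f ++ U) ψ := by
  have hl : (upd S a f ++ U).length = S.length + U.length := by
    rw [List.length_append, upd_length]
  refine ⟨by rw [hl]; exact hG, ?_⟩
  intro i hi
  rw [hl] at hi ⊢
  by_cases hiK : i < S.length
  · rw [nth_append_left _ _ _ (by rw [upd_length]; exact hiK)]
    by_cases hia : i = a
    · subst hia; rw [nth_upd_eq _ _ _ hiK]; exact ha hiK
    · rw [nth_upd_ne _ _ _ _ hia]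
      exact (h.row i hiK).ext hiK (Nat.le_add_right _ _) hψ
  · obtain ⟨j, rfl⟩ := Nat.exists_eq_add_of_le (Nat.le_of_not_lt hiK)
    have h1 : nth (upd S a f ++ U) (S.length + j) = nth U j := by
      have := nth_append_right (upd S a f) U j
      rwa [upd_length] at this
    rw [h1]
    exact hU j (by omega)

/-- the global facts for an extended family of nodes -/
theorem Glob.ext {K K' : ℕ} {φ ψ : ℕ → G.B} (h : Glob w C K φ) (hK : K ≤ K')
    (hψ : ∀ i < K, φ i = ψ i)
    (hinj : ∀ i < K', ∀ j < K', ψ i = ψ j → i = j)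
    (hbar : ∀ i < K', K ≤ i → ∀ j < K, G.bar (ψ i) ≠ ψ j)
    (hL : ∀ i < K', K ≤ i → ¬ w.L (ψ i))
    (harr : ∀ i < K', K ≤ i → ∀ z, w.L z → G.T (bv (ψ i)) z = 0) : Glob w C K' ψ := by
  refine ⟨h.ntC, h.ntK.trans hK, hinj, ?_, ?_, ?_, ?_, ?_, ?_, ?_⟩
  · intro i hi hn j hj
    by_cases hiK : i < K
    · rw [← hψ i hiK, ← hψ j (lt_of_lt_of_le hj h.ntK)]
      exact h.barnt i hiK hn j hj
    · exact hbar i hi (by omega) j (lt_of_lt_of_le hj h.ntK)
  · intro i hi
    by_cases hiK : i < K
    · rw [← hψ i hiK]; exact h.nodeL i hiK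
    · exact hL i hi (by omega)
  · intro i hi hn
    by_cases hiK : i < K
    · rw [← hψ i hiK]; exact h.arrL i hiK hn
    · exact harr i hi (by omega)
  · intro z hz y hy
    rcases h.Lin z hz y hy with h1 | ⟨i, hi, h1⟩
    · exact Or.inl h1
    · exact Or.inr ⟨i, hi, by rw [← hψ i (lt_of_lt_of_le hi h.ntK)]; exact h1⟩
  · intro l hl
    obtain ⟨h1, h2, h3⟩ := h.lines l hl
    rw [← rv_congr hψ fun c hc => (h1 c hc).2]
    exact ⟨fun c hc => ⟨(h1 c hc).1, lt_of_lt_of_le (h1 c hc).2 hK⟩, h2, h3⟩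
  · intro b hb
    obtain ⟨h1, h2, h3, h4⟩ := h.blks b hb
    rw [← rv_congr hψ h1, ← rv_congr hψ h2]
    exact ⟨fun c hc => lt_of_lt_of_le (h1 c hc) hK, fun c hc => lt_of_lt_of_le (h2 c hc) hK, h3, h4⟩
  · intro b hb
    obtain ⟨h1, h2, h3⟩ := h.ipls b hb
    rw [← rv_congr hψ fun c hc => (h1 c hc).2, ← rv_congr hψ fun c hc => (h2 c hc).2]
    exact ⟨fun c hc => ⟨(h1 c hc).1, lt_of_lt_of_le (h1 c hc).2 hK⟩,
      fun c hc => ⟨(h2 c hc).1, lt_of_lt_of_le (h2 c hc).2 hK⟩, h3⟩

theorem cnt_cons_ne {x y : ℕ} {l : List ℕ} (h : x ≠ y) : cnt x (y :: l) = cnt x l := by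
  have hb : Nat.beq x y = false := by
    cases hb : Nat.beq x y with
    | false => rfl
    | true => exact absurd (Nat.eq_of_beq_eq_true hb) h
  simp only [cnt, hb, cond_false]

/-- the old row gets a new arrow -/
theorem rowSat_ins (h : Sat w C S φ) {a : ℕ} (ha : a < S.length) (hnt : w.nt ≤ a) {y : G.B}
    (hy : NewNode w S φ a y) {K' : ℕ} (hK : S.length < K') {ψ : ℕ → G.B}
    (hψ : ∀ i < S.length, φ i = ψ i) (hψK : ψ S.length = y) :
    RowSat w K' ψ a (ins S.length (nth S a)) := by
  have hr := h.row a ha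
  have hre := hr.ext ha hK.le hψ
  have hrv : rv ψ (nth S a).out = rv φ (nth S a).out := (rv_congr hψ hr.outlt).symm
  have hout0 : rv φ (nth S a).out y = 0 := by
    apply rv_apply_out
    intro j hj
    exact hy.out j (hr.outlt j hj)
  refine ⟨hre.cjlt, hre.bar, hre.grlt, hre.gr, hre.lo, hre.hi, hre.off, ?_, ?_, hre.declt, ?_, ?_⟩
  · intro j hj
    rcases List.mem_cons.1 hj with rfl | hj
    · exact hK
    · exact hre.outlt j hj
  · show rv ψ (S.length :: (nth S a).out) + w.W a ≤ G.T (bv (ψ a))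
    simp only [rv]
    rw [w.W_zero a hnt, add_zero, hrv, hψK, ← hψ a ha]
    intro z
    by_cases hz : z = y
    · subst hz
      rw [Finsupp.add_apply, hout0, add_zero]
      simpa [bv] using hy.pos
    · rw [Finsupp.add_apply]
      have h1 : (bv y : G.B →₀ ℤ) z = 0 := by
        simp [bv, Finsupp.single_apply, Ne.symm hz]
      rw [h1, zero_add]
      exact rv_le h ha z
  · intro j hj ht
    have hjK : j < S.length := by
      by_contra hjK
      have h1 : (nth S a).dec < 2 ^ j :=
        lt_of_lt_of_le hr.declt (Nat.pow_le_pow_right (by norm_num) (by omega))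
      have h2 : Nat.shiftRight (nth S a).dec j = 0 := by
        have : (nth S a).dec >>> j = 0 := by
          rw [Nat.shiftRight_eq_div_pow]; exact Nat.div_eq_of_lt h1
        exact this
      have ht' : tb (nth S a).dec j = true := ht
      unfold tb at ht'
      rw [h2] at ht'
      revert ht'
      decide
    have h3 := hre.dec j hj ht
    rw [h3]
    show (cnt j (nth S a).out : ℤ) = (cnt j (S.length :: (nth S a).out) : ℤ)
    rw [cnt_cons_ne (by omega)]
  · intro hd
    exfalso
    have hd' : (nth S a).done = true := hd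
    have h1 := hr.done hd'
    have h2 := hy.pos
    rw [h1, w.W_zero a hnt, add_zero, hout0] at h2
    omega

/-- a new row without arrows -/
theorem rowSat_new {K' i c g hi : ℕ} {ψ : ℕ → G.B} (hnt : w.nt ≤ i) (hc : c < K')
    (hbar : G.bar (ψ i) = ψ c) (hg : g < 3) (hgr : G.gr (ψ i) = (g : ZMod 3))
    (hhi : hi ≠ 0 → G.d (ψ i) ≤ ((3 * hi : ℕ) : ℤ)) {o : List ℕ} (ho : ∀ j ∈ o, j < K')
    (hlow : rv ψ o ≤ G.T (bv (ψ i))) :
    RowSat w K' ψ i ⟨g, c, 1, Nat.mul 3 hi, 0, o, 0, false⟩ := by
  refine ⟨hc, hbar, hg, hgr, ?_, ?_, ?_, ho, ?_, ?_, ?_, ?_⟩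
  · have := G.d_pos (ψ i)
    simp only [Nat.cast_one]
    omega
  · intro h
    have h1 : hi ≠ 0 := by
      rintro rfl
      exact h rfl
    exact hhi h1
  · rw [w.W_zero i hnt, G.dg_zero]
    rfl
  · rw [w.W_zero i hnt, add_zero]
    exact hlow
  · exact Nat.pos_of_ne_zero (by positivity)
  · intro j _ ht
    rw [tb_zero] at ht
    cases ht
  · intro hd
    cases hd

theorem rv_single_le {ψ : ℕ → G.B} {j : ℕ} {b : G.B} (h : 1 ≤ G.T (bv b) (ψ j)) :
    rv ψ [j] ≤ G.T (bv b) := by
  simp only [rv, add_zero]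
  intro z
  by_cases hz : z = ψ j
  · subst hz
    simpa [bv] using h
  · have h1 : (bv (ψ j) : G.B →₀ ℤ) z = 0 := by
      simp [bv, Finsupp.single_apply, Ne.symm hz]
    rw [h1]
    exact G.T_nonneg _ _

/-- branch two: a new pair of nodes -/
theorem sat_pair (h : Sat w C S φ) {a : ℕ} (ha : a < S.length) (hnt : w.nt ≤ a) {y : G.B}
    (hy : NewNode w S φ a y) (hne : G.bar y ≠ y) : ∃ ψ, Sat w C (newPair S a) ψ := by
  classical
  have hr := h.row a ha
  let ψ : ℕ → G.B := fun i => if i < S.length then φ i else if i = S.length then y else G.bar y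
  have hψ : ∀ i < S.length, φ i = ψ i := by
    intro i hi
    simp only [ψ, hi, if_true]
  have hψK : ψ S.length = y := by simp [ψ]
  have hψK' : ψ (S.length + 1) = G.bar y := by simp [ψ]
  have hcase : ∀ i < S.length + 2, i < S.length ∨ i = S.length ∨ i = S.length + 1 := by
    intro i hi
    omega
  refine ⟨ψ, ?_⟩
  unfold newPair
  apply sat_ext_upd h hψ
  · -- global facts
    show Glob w C (S.length + 2) ψ
    apply Glob.ext h.glob (by omega) hψ
    · intro i hi j hj hij
      rcases hcase i hi with h1 | h1 | h1 <;> rcases hcase j hj with h2 | h2 | h2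
      · rw [← hψ i h1, ← hψ j h2] at hij
        exact h.glob.inj i h1 j h2 hij
      · rw [h2, hψK, ← hψ i h1] at hij
        exact absurd hij (hy.out i h1)
      · rw [h2, hψK', ← hψ i h1] at hij
        exact absurd hij (hy.out' i h1)
      · rw [h1, hψK, ← hψ j h2] at hij
        exact absurd hij.symm (hy.out j h2)
      · rw [h1, h2]
      · rw [h1, h2, hψK, hψK'] at hij
        exact absurd hij.symm hne
      · rw [h1, hψK', ← hψ j h2] at hij
        exact absurd hij.symm (hy.out' j h2)
      · rw [h1, h2, hψK, hψK'] at hij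
        exact absurd hij hne
      · rw [h1, h2]
    · intro i hi hiK j hj
      rcases hcase i hi with h1 | h1 | h1
      · omega
      · rw [h1, hψK, ← hψ j hj]
        exact (hy.out' j hj).symm
      · rw [h1, hψK', ← hψ j hj, G.bar_bar]
        exact (hy.out j hj).symm
    · intro i hi hiK
      rcases hcase i hi with h1 | h1 | h1
      · omega
      · rw [h1, hψK]; exact hy.nL
      · rw [h1, hψK']; exact hy.nL'
    · intro i hi hiK
      rcases hcase i hi with h1 | h1 | h1
      · omega
      · rw [h1, hψK]; exact hy.arr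
      · rw [h1, hψK']; exact hy.arr'
  · intro _
    exact rowSat_ins h ha hnt hy (by simp) hψ hψK
  · intro i hi
    have hi' : i = 0 ∨ i = 1 := by
      have : i < 2 := hi
      omega
    rcases hi' with rfl | rfl
    · show RowSat w (S.length + 2) ψ (S.length + 0)
        ⟨succGr (nth S a).gr, Nat.succ S.length, 1, Nat.mul 3 (nth S a).hi, 0, [], 0, false⟩
      rw [Nat.add_zero]
      apply rowSat_new (h.glob.ntK) (by simp)
      · rw [hψK]; exact hψK'.symm
      · exact succGr_lt _
      · rw [hψK]; exact hy.gr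
      · rw [hψK]; exact hy.hi
      · intro j hj; simp at hj
      · intro z; exact G.T_nonneg _ _
    · show RowSat w (S.length + 2) ψ (S.length + 1)
        ⟨negGr (succGr (nth S a).gr), S.length, 1, Nat.mul 3 (nth S a).hi, 0, [(nth S a).cj], 0, false⟩
      apply rowSat_new (le_trans h.glob.ntK (by omega)) (by omega)
      · rw [hψK', hψK, G.bar_bar]
      · exact negGr_lt _
      · rw [hψK', G.gr_bar, hy.gr, negGr_cast]
      · rw [hψK', G.d_bar]; exact hy.hi
      · intro j hj
        have := hr.cjlt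
        simp only [List.mem_singleton] at hj
        omega
      · rw [hψK']
        apply rv_single_le
        rw [← hψ _ hr.cjlt]
        exact hy.conj

/-- branch three: a new self conjugate node -/
theorem sat_real (h : Sat w C S φ) {a : ℕ} (ha : a < S.length) (hnt : w.nt ≤ a) {y : G.B}
    (hy : NewNode w S φ a y) (he : G.bar y = y) (hg : G.gr y = 0) :
    ∃ ψ, Sat w C (newReal S a) ψ := by
  classical
  have hr := h.row a ha
  let ψ : ℕ → G.B := fun i => if i < S.length then φ i else y
  have hψ : ∀ i < S.length, φ i = ψ i := by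
    intro i hi
    simp only [ψ, hi, if_true]
  have hψK : ψ S.length = y := by simp [ψ]
  have hcase : ∀ i < S.length + 1, i < S.length ∨ i = S.length := by
    intro i hi
    omega
  refine ⟨ψ, ?_⟩
  unfold newReal
  apply sat_ext_upd h hψ
  · -- global facts
    show Glob w C (S.length + 1) ψ
    apply Glob.ext h.glob (by omega) hψ
    · intro i hi j hj hij
      rcases hcase i hi with h1 | h1 <;> rcases hcase j hj with h2 | h2
      · rw [← hψ i h1, ← hψ j h2] at hij
        exact h.glob.inj i h1 j h2 hij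
      · rw [h2, hψK, ← hψ i h1] at hij
        exact absurd hij (hy.out i h1)
      · rw [h1, hψK, ← hψ j h2] at hij
        exact absurd hij.symm (hy.out j h2)
      · rw [h1, h2]
    · intro i hi hiK j hj
      rcases hcase i hi with h1 | h1
      · omega
      · rw [h1, hψK, ← hψ j hj]
        exact (hy.out' j hj).symm
    · intro i hi hiK
      rcases hcase i hi with h1 | h1
      · omega
      · rw [h1, hψK]; exact hy.nL
    · intro i hi hiK
      rcases hcase i hi with h1 | h1
      · omega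
      · rw [h1, hψK]; exact hy.arr
  · intro _
    exact rowSat_ins h ha hnt hy (by simp) hψ hψK
  · intro i hi
    have hi' : i = 0 := by
      have : i < 1 := hi
      omega
    subst hi'
    show RowSat w (S.length + 1) ψ (S.length + 0)
      ⟨0, S.length, 1, Nat.mul 3 (nth S a).hi, 0, [(nth S a).cj], 0, false⟩
    rw [Nat.add_zero]
    apply rowSat_new (h.glob.ntK) (by omega)
    · rw [hψK]; exact he
    · norm_num
    · rw [hψK, hg]; simp
    · rw [hψK]; exact hy.hi
    · intro j hj
      have := hr.cjlt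
      simp only [List.mem_singleton] at hj
      omega
    · rw [hψK]
      apply rv_single_le
      rw [← hψ _ hr.cjlt]
      have := hy.conj
      rwa [he] at this

theorem gr_zero_of_bar {y : G.B} (he : G.bar y = y) : G.gr y = 0 := by
  have h := G.gr_bar y
  rw [he] at h
  revert h
  generalize G.gr y = x
  revert x
  decide

theorem rule_NO (h : Sat w C S φ) {a : ℕ} {c1 c2 c3 : Cert}
    (hc : check C (.NO a c1 c2 c3) S = true) :
    ∃ S' φ', Sat w C S' φ' ∧
      (check C c1 S' = true ∨ check C c2 S' = true ∨ check C c3 S' = true) := by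
  unfold check at hc
  simp only [Bool.and_eq_true] at hc
  obtain ⟨⟨⟨⟨⟨hnt, ha⟩, hrow⟩, h1⟩, h2⟩, h3⟩ := hc
  have hnt' : w.nt ≤ a := by rw [← h.glob.ntC]; exact Nat.le_of_ble_eq_true hnt
  have ha' : a < S.length := Nat.le_of_ble_eq_true ha
  by_cases hno : ∀ y, (∀ i < S.length, φ i ≠ y) → G.T (bv (φ a)) y = 0
  · exact ⟨_, φ, sat_done h hnt' fun _ => row_complete h ha' hrow hno, Or.inl h1⟩
  · push Not at hno
    obtain ⟨y, hy, hT⟩ := hno
    have hN := newNode_of h ha' hnt' hy hT
    by_cases he : G.bar y = y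
    · obtain ⟨ψ, hψ⟩ := sat_real h ha' hnt' hN he (gr_zero_of_bar he)
      exact ⟨_, ψ, hψ, Or.inr (Or.inr h3)⟩
    · obtain ⟨ψ, hψ⟩ := sat_pair h ha' hnt' hN he
      exact ⟨_, ψ, hψ, Or.inr (Or.inl h2)⟩

theorem rule_NP (h : Sat w C S φ) {a : ℕ} {c1 c2 : Cert}
    (hc : check C (.NP a c1 c2) S = true) :
    ∃ S' φ', Sat w C S' φ' ∧ (check C c1 S' = true ∨ check C c2 S' = true) := by
  unfold check at hc
  simp only [Bool.and_eq_true] at hc
  obtain ⟨⟨⟨⟨⟨hnt, ha⟩, hg0⟩, hrow⟩, h1⟩, h2⟩ := hc
  have hnt' : w.nt ≤ a := by rw [← h.glob.ntC]; exact Nat.le_of_ble_eq_true hnt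
  have ha' : a < S.length := Nat.le_of_ble_eq_true ha
  by_cases hno : ∀ y, (∀ i < S.length, φ i ≠ y) → G.T (bv (φ a)) y = 0
  · exact ⟨_, φ, sat_done h hnt' fun _ => row_complete h ha' hrow hno, Or.inl h1⟩
  · push Not at hno
    obtain ⟨y, hy, hT⟩ := hno
    have hN := newNode_of h ha' hnt' hy hT
    have he : G.bar y ≠ y := by
      intro he
      have h4 := gr_zero_of_bar he
      rw [hN.gr] at h4
      have h5 : succGr (nth S a).gr = 0 :=
        gr_inj (succGr_lt _) (by norm_num) (by rw [h4]; simp)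
      rw [h5] at hg0
      exact absurd hg0 (by decide)
    obtain ⟨ψ, hψ⟩ := sat_pair h ha' hnt' hN he
    exact ⟨_, ψ, hψ, Or.inr h2⟩

end rules

end Pool.Agent.Helper363.Nita.K2
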