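import Pool.Agent.Helper363.Nita.K2.SndB

namespace Pool.Agent.Helper363.Nita.K2

section rules
variable {G : NG} {w : World G} {C : Ctx} {S : List Row} {φ : ℕ → G.B}

/-- value of a linear form -/
def val_8213 (D : ℕ → ℤ) : List Ent → ℤ
  | [] => 0
  | e :: l => ((e.p : ℤ) - e.q) * D e.v + val_8213 D l

def idx_8213 (K : ℕ) (es : List Ent) : Prop := ∀ e ∈ es, e.v < K

theorem addP_8213 (D : ℕ → ℤ) (K : ℕ) (es : List Ent) (v w : ℕ) (hv : v < K)
    (he : idx_8213 K es) :
    val_8213 D (addP es v w) = val_8213 D es + w * D v ∧ idx_8213 K (addP es v w) := by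
  induction es with
  | nil =>
    refine ⟨by simp [addP, val_8213], ?_⟩
    intro e h
    simp only [addP, List.mem_singleton] at h
    rw [h]; exact hv
  | cons e l ih =>
    have hl : idx_8213 K l := fun e' h' => he e' (List.mem_cons_of_mem _ h')
    obtain ⟨ih1, ih2⟩ := ih hl
    unfold addP
    cases hb : Nat.beq e.v v with
    | true =>
      have hev := Nat.eq_of_beq_eq_true hb
      simp only [cond_true]
      refine ⟨?_, ?_⟩
      · simp only [val_8213, hev]
        rw [show Nat.add e.p w = e.p + w from rfl]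
        push_cast
        ring
      · intro e' h'
        rcases List.mem_cons.1 h' with h' | h'
        · rw [h']; exact he e List.mem_cons_self
        · exact hl e' h'
    | false =>
      simp only [cond_false]
      refine ⟨?_, ?_⟩
      · simp only [val_8213, ih1]
        ring
      · intro e' h'
        rcases List.mem_cons.1 h' with h' | h'
        · rw [h']; exact he e List.mem_cons_self
        · exact ih2 e' h'

theorem addQ_8213 (D : ℕ → ℤ) (K : ℕ) (es : List Ent) (v w : ℕ) (hv : v < K)
    (he : idx_8213 K es) :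
    val_8213 D (addQ es v w) = val_8213 D es - w * D v ∧ idx_8213 K (addQ es v w) := by
  induction es with
  | nil =>
    refine ⟨by simp [addQ, val_8213], ?_⟩
    intro e h
    simp only [addQ, List.mem_singleton] at h
    rw [h]; exact hv
  | cons e l ih =>
    have hl : idx_8213 K l := fun e' h' => he e' (List.mem_cons_of_mem _ h')
    obtain ⟨ih1, ih2⟩ := ih hl
    unfold addQ
    cases hb : Nat.beq e.v v with
    | true =>
      have hev := Nat.eq_of_beq_eq_true hb
      simp only [cond_true]
      refine ⟨?_, ?_⟩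
      · simp only [val_8213, hev]
        rw [show Nat.add e.q w = e.q + w from rfl]
        push_cast
        ring
      · intro e' h'
        rcases List.mem_cons.1 h' with h' | h'
        · rw [h']; exact he e List.mem_cons_self
        · exact hl e' h'
    | false =>
      simp only [cond_false]
      refine ⟨?_, ?_⟩
      · simp only [val_8213, ih1]
        ring
      · intro e' h'
        rcases List.mem_cons.1 h' with h' | h'
        · rw [h']; exact he e List.mem_cons_self
        · exact ih2 e' h'

theorem dg_rv_cons_8213 (G : NG) (φ : ℕ → G.B) (v : ℕ) (l : List ℕ) :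
    G.dg (rv φ (v :: l)) = G.d (φ v) + G.dg (rv φ l) := by
  rw [rv, G.dg_add, G.dg_bv]

theorem addQs_8213 (G : NG) (φ : ℕ → G.B) (K : ℕ) (w : ℕ) (l : List ℕ) (hl : ∀ j ∈ l, j < K)
    (a : List Ent) (ha : idx_8213 K a) :
    val_8213 (fun v => G.d (φ v)) (addQs w l a) =
      val_8213 (fun v => G.d (φ v)) a - w * G.dg (rv φ l) ∧ idx_8213 K (addQs w l a) := by
  induction l generalizing a with
  | nil => exact ⟨by simp [addQs, rv, G.dg_zero], ha⟩
  | cons v l ih =>
    obtain ⟨h1, h2⟩ := addQ_8213 (fun v => G.d (φ v)) K a v w (hl v List.mem_cons_self) ha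
    obtain ⟨h3, h4⟩ := ih (fun j hj => hl j (List.mem_cons_of_mem _ hj)) _ h2
    refine ⟨?_, h4⟩
    rw [addQs, h3, h1, dg_rv_cons_8213]
    ring

theorem addPs_8213 (G : NG) (φ : ℕ → G.B) (K : ℕ) (w : ℕ) (l : List ℕ) (hl : ∀ j ∈ l, j < K)
    (a : List Ent) (ha : idx_8213 K a) :
    val_8213 (fun v => G.d (φ v)) (addPs w l a) =
      val_8213 (fun v => G.d (φ v)) a + w * G.dg (rv φ l) ∧ idx_8213 K (addPs w l a) := by
  induction l generalizing a with
  | nil => exact ⟨by simp [addPs, rv, G.dg_zero], ha⟩
  | cons v l ih =>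
    obtain ⟨h1, h2⟩ := addP_8213 (fun v => G.d (φ v)) K a v w (hl v List.mem_cons_self) ha
    obtain ⟨h3, h4⟩ := ih (fun j hj => hl j (List.mem_cons_of_mem _ hj)) _ h2
    refine ⟨?_, h4⟩
    rw [addPs, h3, h1, dg_rv_cons_8213]
    ring

theorem row_le_8213 (h : Sat w C S φ) {x : ℕ} (hx : x < S.length) :
    G.dg (rv φ (nth S x).out) + ((nth S x).off : ℤ) ≤ 3 * G.d (φ x) := by
  have h1 := G.dg_mono (h.row x hx).low
  rw [G.dg_add, (h.row x hx).off, G.dg_T, G.dg_bv] at h1
  exact h1

theorem row_eq_8213 (h : Sat w C S φ) {x : ℕ} (hx : x < S.length) (hd : (nth S x).done = true) :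
    G.dg (rv φ (nth S x).out) + ((nth S x).off : ℤ) = 3 * G.d (φ x) := by
  have h1 := congrArg G.dg ((h.row x hx).done hd)
  rw [G.dg_add, (h.row x hx).off, G.dg_T, G.dg_bv] at h1
  exact h1.symm

theorem blt_8213 {a b : ℕ} (h : Nat.blt a b = true) : a < b := Nat.le_of_ble_eq_true h

theorem accum_8213 (h : Sat w C S φ) (ms : List Mul) (a b : Acc)
    (ha : idx_8213 S.length a.es)
    (hv : 0 ≤ val_8213 (fun v => G.d (φ v)) a.es + (a.cp : ℤ) - (a.cq : ℤ))
    (hacc : accum S.length S ms a = some b) :
    idx_8213 S.length b.es ∧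
      0 ≤ val_8213 (fun v => G.d (φ v)) b.es + (b.cp : ℤ) - (b.cq : ℤ) := by
  induction ms generalizing a with
  | nil =>
    simp only [accum, Option.some.injEq] at hacc
    rw [← hacc]; exact ⟨ha, hv⟩
  | cons m l ih =>
    unfold accum at hacc
    cases hm : Nat.blt m.x S.length with
    | false => rw [hm] at hacc; simp at hacc
    | true =>
      have hmx := blt_8213 hm
      rw [hm, cond_true] at hacc
      cases hs : m.s with
      | true =>
        rw [hs, cond_true] at hacc
        obtain ⟨h1, h2⟩ := addQs_8213 G φ S.length m.w (nth S m.x).out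
          (h.row m.x hmx).outlt a.es ha
        obtain ⟨h3, h4⟩ := addP_8213 (fun v => G.d (φ v)) S.length _ m.x (Nat.mul 3 m.w) hmx h2
        refine ih _ h4 ?_ hacc
        dsimp only
        rw [h3, h1]
        have h5 := row_le_8213 h hmx
        have h6 : ((Nat.mul 3 m.w : ℕ) : ℤ) = 3 * (m.w : ℤ) := by
          rw [show Nat.mul 3 m.w = 3 * m.w from rfl]; push_cast; ring
        have h7 : ((Nat.add a.cq (Nat.mul m.w (nth S m.x).off) : ℕ) : ℤ) =
            (a.cq : ℤ) + (m.w : ℤ) * ((nth S m.x).off : ℤ) := by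
          rw [show Nat.add a.cq (Nat.mul m.w (nth S m.x).off) = a.cq + m.w * (nth S m.x).off from rfl]
          push_cast; ring
        rw [h6, h7]
        have h8 : 0 ≤ (m.w : ℤ) * (3 * G.d (φ m.x) - (G.dg (rv φ (nth S m.x).out) +
            ((nth S m.x).off : ℤ))) := mul_nonneg (by positivity) (by linarith)
        nlinarith [h8, hv]
      | false =>
        rw [hs, cond_false] at hacc
        cases hdn : (nth S m.x).done with
        | false => rw [hdn] at hacc; simp at hacc
        | true =>
          rw [hdn, cond_true] at hacc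
          obtain ⟨h1, h2⟩ := addPs_8213 G φ S.length m.w (nth S m.x).out
            (h.row m.x hmx).outlt a.es ha
          obtain ⟨h3, h4⟩ := addQ_8213 (fun v => G.d (φ v)) S.length _ m.x (Nat.mul 3 m.w) hmx h2
          refine ih _ h4 ?_ hacc
          dsimp only
          rw [h3, h1]
          have h5 := row_eq_8213 h hmx hdn
          have h6 : ((Nat.mul 3 m.w : ℕ) : ℤ) = 3 * (m.w : ℤ) := by
            rw [show Nat.mul 3 m.w = 3 * m.w from rfl]; push_cast; ring
          have h7 : ((Nat.add a.cp (Nat.mul m.w (nth S m.x).off) : ℕ) : ℤ) =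
              (a.cp : ℤ) + (m.w : ℤ) * ((nth S m.x).off : ℤ) := by
            rw [show Nat.add a.cp (Nat.mul m.w (nth S m.x).off) = a.cp + m.w * (nth S m.x).off from rfl]
            push_cast; ring
          rw [h6, h7]
          have h8 : (m.w : ℤ) * (G.dg (rv φ (nth S m.x).out) + ((nth S m.x).off : ℤ)) =
              (m.w : ℤ) * (3 * G.d (φ m.x)) := by rw [h5]
          nlinarith [h8, hv]

theorem rep_8213 (h : Sat w C S φ) {v : ℕ} (hv : v < S.length) :
    rep S v < S.length ∧ G.d (φ (rep S v)) = G.d (φ v) := by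
  unfold rep
  cases hb : Nat.blt (nth S v).cj v with
  | true =>
    rw [cond_true]
    refine ⟨(h.row v hv).cjlt, ?_⟩
    rw [← (h.row v hv).bar, G.d_bar]
  | false =>
    rw [cond_false]
    exact ⟨hv, rfl⟩

theorem merge_8213 (h : Sat w C S φ) (l a : List Ent) (hl : idx_8213 S.length l)
    (ha : idx_8213 S.length a) :
    val_8213 (fun v => G.d (φ v)) (merge S l a) =
      val_8213 (fun v => G.d (φ v)) l + val_8213 (fun v => G.d (φ v)) a ∧
      idx_8213 S.length (merge S l a) := by
  induction l generalizing a with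
  | nil => exact ⟨by simp [merge, val_8213], ha⟩
  | cons e l ih =>
    obtain ⟨hr1, hr2⟩ := rep_8213 h (hl e List.mem_cons_self)
    obtain ⟨h1, h2⟩ := addP_8213 (fun v => G.d (φ v)) S.length a (rep S e.v) e.p hr1 ha
    obtain ⟨h3, h4⟩ := addQ_8213 (fun v => G.d (φ v)) S.length _ (rep S e.v) e.q hr1 h2
    obtain ⟨h5, h6⟩ := ih _ (fun e' h' => hl e' (List.mem_cons_of_mem _ h')) h4
    refine ⟨?_, h6⟩
    rw [merge, h5, h3, h1, hr2]
    simp only [val_8213]
    ring

theorem evalE_8213 (h : Sat w C S φ) (es : List Ent) (P Q : ℕ) (he : idx_8213 S.length es)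
    (hev : evalE S es P Q = true) :
    val_8213 (fun v => G.d (φ v)) es + (P : ℤ) - (Q : ℤ) < 0 := by
  induction es generalizing P Q with
  | nil =>
    have h1 := blt_8213 (show Nat.blt P Q = true from hev)
    simp only [val_8213]
    have : (P : ℤ) < (Q : ℤ) := by exact_mod_cast h1
    linarith
  | cons e l ih =>
    have hl : idx_8213 S.length l := fun e' h' => he e' (List.mem_cons_of_mem _ h')
    have hev0 := he e List.mem_cons_self
    have hrow := h.row e.v hev0
    unfold evalE at hev
    cases hb : Nat.ble e.p e.q with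
    | true =>
      have hle := Nat.le_of_ble_eq_true hb
      rw [hb, cond_true] at hev
      have h1 := ih _ _ hl hev
      have h2 : ((Nat.add Q (Nat.mul (Nat.sub e.q e.p) (nth S e.v).lo) : ℕ) : ℤ) =
          (Q : ℤ) + ((e.q : ℤ) - e.p) * ((nth S e.v).lo : ℤ) := by
        rw [show Nat.add Q (Nat.mul (Nat.sub e.q e.p) (nth S e.v).lo) =
          Q + (e.q - e.p) * (nth S e.v).lo from rfl]
        push_cast [Nat.cast_sub hle]; ring
      rw [h2] at h1
      simp only [val_8213]
      have h3 := hrow.lo
      have h4 : (0 : ℤ) ≤ (e.q : ℤ) - e.p := by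
        have : (e.p : ℤ) ≤ e.q := by exact_mod_cast hle
        linarith
      have h5 := mul_le_mul_of_nonneg_left h3 h4
      nlinarith [h5, h1]
    | false =>
      rw [hb, cond_false] at hev
      have hlt : e.q ≤ e.p := by
        by_contra hcon
        have : Nat.ble e.p e.q = true := Nat.ble_eq_true_of_le (by omega)
        rw [this] at hb
        exact absurd hb (by decide)
      cases hb2 : Nat.beq (nth S e.v).hi 0 with
      | true => rw [hb2] at hev; simp at hev
      | false =>
        rw [hb2, cond_false] at hev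
        have hhi : (nth S e.v).hi ≠ 0 := by
          intro h0
          rw [h0] at hb2
          exact absurd hb2 (by decide)
        have h1 := ih _ _ hl hev
        have h2 : ((Nat.add P (Nat.mul (Nat.sub e.p e.q) (nth S e.v).hi) : ℕ) : ℤ) =
            (P : ℤ) + ((e.p : ℤ) - e.q) * ((nth S e.v).hi : ℤ) := by
          rw [show Nat.add P (Nat.mul (Nat.sub e.p e.q) (nth S e.v).hi) =
            P + (e.p - e.q) * (nth S e.v).hi from rfl]
          push_cast [Nat.cast_sub hlt]; ring
        rw [h2] at h1
        simp only [val_8213]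
        have h3 := hrow.hi hhi
        have h4 : (0 : ℤ) ≤ (e.p : ℤ) - e.q := by
          have : (e.q : ℤ) ≤ e.p := by exact_mod_cast hlt
          linarith
        have h5 := mul_le_mul_of_nonneg_left h3 h4
        nlinarith [h5, h1]

theorem rule_XL (h : Sat w C S φ) {ms : List Mul} (hc : check C (.XL ms) S = true) : False := by
  rw [check] at hc
  unfold xl at hc
  have h0 : idx_8213 S.length [] := by intro e he; simp at he
  cases hacc : accum S.length S ms ⟨[], 0, 0⟩ with
  | none => rw [hacc] at hc; simp at hc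
  | some b =>
    rw [hacc] at hc
    obtain ⟨h1, h2⟩ := accum_8213 h ms ⟨[], 0, 0⟩ b h0 (by simp [val_8213]) hacc
    obtain ⟨h3, h4⟩ := merge_8213 h b.es [] h1 h0
    have h5 := evalE_8213 h _ _ _ h4 hc
    rw [h3] at h5
    simp only [val_8213] at h5
    linarith

end rules

end Pool.Agent.Helper363.Nita.K2
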