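import Pool.Agent.Helper363.Nita.K2.SndR2
import Pool.Agent.Helper363.Nita.K2.SndR3

namespace Pool.Agent.Helper363.Nita.K2

section rules
variable {G : NG} {w : World G} {C : Ctx} {S : List Row} {φ : ℕ → G.B}

theorem q12637_iplAt (L : List IpL) (l : ℕ) : iplAt L l ∈ L ∨ iplAt L l = ⟨[], [], 0⟩ := by
  induction L generalizing l with
  | nil => exact Or.inr rfl
  | cons r L ih =>
    cases l with
    | zero => exact Or.inl (List.mem_cons_self)
    | succ l =>
      rcases ih l with h | h
      · exact Or.inl (List.mem_cons_of_mem _ h)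
      · exact Or.inr h

theorem q12637_decL (z : List ℕ) (l : List ℕ) : ∀ S : List Row, decL S z l = blkSet S z l := by
  induction l with
  | nil => intro S; rfl
  | cons x l ih =>
    intro S
    simp only [decL, blkSet]
    exact ih _

theorem q12637_len (z : List ℕ) (l : List ℕ) : ∀ S : List Row,
    (blkSet S z l).length = S.length := by
  induction l with
  | nil => intro S; rfl
  | cons x l ih =>
    intro S
    simp only [blkSet]
    rw [ih, upd_length]

theorem q12637_out (z : List ℕ) (l : List ℕ) : ∀ (S : List Row) (i : ℕ), i < S.length →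
    (nth (blkSet S z l) i).out = (nth S i).out := by
  induction l with
  | nil => intro S i _; rfl
  | cons x l ih =>
    intro S i hi
    simp only [blkSet]
    rw [ih _ i (by rw [upd_length]; exact hi)]
    by_cases hix : i = x
    · subst hix
      rw [nth_upd_eq _ _ _ hi]
    · rw [nth_upd_ne _ _ _ _ hix]

/-- termwise equality from equality of the sums -/
theorem q12637_term (h : Sat w C S φ) {z : ℕ} (hz : z < S.length) {src : List ℕ}
    (hs : ∀ a ∈ src, a < S.length)
    (he : G.T (rv φ src) (φ z) = rv φ (outs S src) (φ z)) :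
    ∀ a ∈ src, G.T (bv (φ a)) (φ z) = (cnt z (nth S a).out : ℤ) := by
  induction src with
  | nil => intro a ha; simp at ha
  | cons a l ih =>
    have h1 : G.T (rv φ (a :: l)) (φ z) = G.T (bv (φ a)) (φ z) + G.T (rv φ l) (φ z) := by
      have h2 : rv φ (a :: l) = bv (φ a) + rv φ l := rfl
      rw [h2, map_add, Finsupp.add_apply]
    have h3 : rv φ (outs S (a :: l)) (φ z) =
        (cnt z (nth S a).out : ℤ) + rv φ (outs S l) (φ z) := by
      have h4 : outs S (a :: l) = (nth S a).out ++ outs S l := rfl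
      rw [h4, rv_append, Finsupp.add_apply,
        rv_apply h.glob.inj (h.row a (hs a List.mem_cons_self)).outlt hz]
    rw [h1, h3] at he
    have hs' : ∀ a ∈ l, a < S.length := fun c hc => hs c (List.mem_cons_of_mem _ hc)
    have h5 := cnt_le h (hs a List.mem_cons_self) hz
    have h6 := outs_le h hs' (φ z)
    intro c hc
    rcases List.mem_cons.1 hc with rfl | hc
    · linarith
    · exact ih hs' (by linarith) c hc

theorem q12637_exact (h : Sat w C S φ) {src tgt : List ℕ} (hs : ∀ a ∈ src, a < S.length)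
    (ht : ∀ a ∈ tgt, a < S.length)
    (hle : ip (G.T (rv φ src)) (G.T (rv φ tgt)) ≤ (ipl (outs S src) (outs S tgt) : ℤ)) :
    ∀ a ∈ src, ∀ z ∈ outs S tgt, G.T (bv (φ a)) (φ z) = (cnt z (nth S a).out : ℤ) := by
  have hlt1 := outs_lt h hs
  have hlt2 := outs_lt h ht
  have hle1 := outs_le h hs
  have hle2 := outs_le h ht
  have hip := ip_rv_rv h.glob.inj hlt1 hlt2
  have hn1 := rv_nonneg φ (outs S src)
  have hn2 := rv_nonneg φ (outs S tgt)
  have hd : 0 ≤ G.T (rv φ src) - rv φ (outs S src) := by
    intro b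
    simpa using hle1 b
  have h1 : ip (G.T (rv φ src)) (rv φ (outs S tgt)) ≤ ip (G.T (rv φ src)) (G.T (rv φ tgt)) :=
    ip_mono_right hle2 (G.T_pos (rv_nonneg φ src))
  have h2 : ip (G.T (rv φ src) - rv φ (outs S src)) (rv φ (outs S tgt)) ≤ 0 := by
    rw [ip_sub_left]
    linarith
  intro a ha z hz
  refine q12637_term h (hlt2 z hz) hs ?_ a ha
  have h3 := mul_le_ip hd hn2 (φ z)
  have h4 : 1 ≤ rv φ (outs S tgt) (φ z) := by
    rw [rv_apply h.glob.inj hlt2 (hlt2 z hz)]
    have h5 : ∀ m : List ℕ, z ∈ m → 1 ≤ cnt z m := by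
      intro m
      induction m with
      | nil => intro hm; simp at hm
      | cons y m ih =>
        intro hm
        by_cases hzy : z = y
        · subst hzy
          simp [cnt]
        · have hm' : z ∈ m := by
            rcases List.mem_cons.1 hm with h6 | h6
            · exact absurd h6 hzy
            · exact h6
          have h7 := ih hm'
          have h8 : Nat.beq z y = false := by
            rw [← Bool.not_eq_true]
            exact fun h3 => hzy (Nat.eq_of_beq_eq_true h3)
          simp only [cnt, h8, cond_false]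
          exact h7
    exact_mod_cast h5 _ hz
  have h5 := hd (φ z)
  simp only [Finsupp.coe_zero, Pi.zero_apply] at h5
  have h6 : (G.T (rv φ src) - rv φ (outs S src)) (φ z) = 0 := by
    by_contra hne
    have h7 : 1 ≤ (G.T (rv φ src) - rv φ (outs S src)) (φ z) := by omega
    have h8 : 1 ≤ (G.T (rv φ src) - rv φ (outs S src)) (φ z) * rv φ (outs S tgt) (φ z) := by
      nlinarith
    linarith
  rw [Finsupp.sub_apply] at h6
  linarith

theorem rule_IC (h : Sat w C S φ) {l : ℕ} {c : Cert} (hc : check C (.IC l c) S = true) :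
    ∃ S', Sat w C S' φ ∧ check C c S' = true := by
  have hc' : ((!(Nat.beq (iplAt C.ipls l).hi 0)) &&
    Nat.ble (iplAt C.ipls l).hi
      (Nat.succ (ipl (outs S (iplAt C.ipls l).src) (outs S (iplAt C.ipls l).tgt))) &&
    check C c (decL (decL S (outs S (iplAt C.ipls l).tgt) (iplAt C.ipls l).src)
      (outs S (iplAt C.ipls l).src) (iplAt C.ipls l).tgt)) = true := by
    rw [check] at hc
    exact hc
  rw [Bool.and_eq_true, Bool.and_eq_true] at hc'
  obtain ⟨⟨h1, h2⟩, h3⟩ := hc'
  refine ⟨_, ?_, h3⟩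
  have h0 := not_beq_zero h1
  rcases q12637_iplAt C.ipls l with hm | hm
  · obtain ⟨hs, ht, hhi⟩ := h.glob.ipls _ hm
    obtain ⟨N, hN⟩ : ∃ N, N = iplAt C.ipls l := ⟨_, rfl⟩
    rw [← hN] at h0 h2 h3 hs ht hhi ⊢
    have hs' : ∀ c ∈ N.src, c < S.length := fun c hc => (hs c hc).2
    have ht' : ∀ c ∈ N.tgt, c < S.length := fun c hc => (ht c hc).2
    have h4 := hhi h0
    have h5 : N.hi ≤ ipl (outs S N.src) (outs S N.tgt) + 1 := Nat.le_of_ble_eq_true h2
    have h6 : ((N.hi : ℕ) : ℤ) ≤ (ipl (outs S N.src) (outs S N.tgt) : ℤ) + 1 := by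
      exact_mod_cast h5
    have h7 : ip (G.T (rv φ N.src)) (G.T (rv φ N.tgt)) ≤
        (ipl (outs S N.src) (outs S N.tgt) : ℤ) := by linarith
    have h8 : ip (G.T (rv φ N.tgt)) (G.T (rv φ N.src)) ≤
        (ipl (outs S N.tgt) (outs S N.src) : ℤ) := by
      rw [ip_comm]
      refine h7.trans (le_of_eq ?_)
      rw [← ip_rv_rv h.glob.inj (outs_lt h hs') (outs_lt h ht'), ip_comm,
        ip_rv_rv h.glob.inj (outs_lt h ht') (outs_lt h hs')]
    have e1 := q12637_exact h hs' ht' h7
    have e2 := q12637_exact h ht' hs' h8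
    rw [q12637_decL, q12637_decL]
    have hS1 := q8209_blkSet (outs S N.tgt) N.src S h hs' (outs_lt h ht') e1
    apply q8209_blkSet _ _ _ hS1
    · intro x hx
      rw [q12637_len]
      exact ht' x hx
    · intro x hx
      rw [q12637_len]
      exact outs_lt h hs' x hx
    · intro x hx y hy
      rw [q12637_out _ _ _ _ (ht' x hx)]
      exact e2 x hx y hy
  · rw [hm] at h0
    exact absurd rfl h0

theorem rule_IX (h : Sat w C S φ) {l : ℕ} (hc : check C (.IX l) S = true) : False := by
  have hc' : ((!(Nat.beq (iplAt C.ipls l).hi 0)) &&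
    Nat.ble (iplAt C.ipls l).hi (ipl (outs S (iplAt C.ipls l).src)
      (outs S (iplAt C.ipls l).tgt))) = true := hc
  rw [Bool.and_eq_true] at hc'
  obtain ⟨h1, h2⟩ := hc'
  have h0 := not_beq_zero h1
  rcases q12637_iplAt C.ipls l with hm | hm
  · obtain ⟨hs, ht, hhi⟩ := h.glob.ipls _ hm
    obtain ⟨N, hN⟩ : ∃ N, N = iplAt C.ipls l := ⟨_, rfl⟩
    rw [← hN] at h0 h2 hs ht hhi
    have hs' : ∀ c ∈ N.src, c < S.length := fun c hc => (hs c hc).2
    have ht' : ∀ c ∈ N.tgt, c < S.length := fun c hc => (ht c hc).2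
    have h4 := hhi h0
    have h5 : N.hi ≤ ipl (outs S N.src) (outs S N.tgt) := Nat.le_of_ble_eq_true h2
    have h6 : ((N.hi : ℕ) : ℤ) ≤ (ipl (outs S N.src) (outs S N.tgt) : ℤ) := by
      exact_mod_cast h5
    have hip := ip_rv_rv h.glob.inj (outs_lt h hs') (outs_lt h ht')
    have h7 := ip_mono_left (outs_le h hs') (rv_nonneg φ (outs S N.tgt))
    have h8 := ip_mono_right (outs_le h ht') (G.T_pos (rv_nonneg φ N.src))
    linarith
  · rw [hm] at h0
    exact absurd rfl h0

end rules
end Pool.Agent.Helper363.Nita.K2
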