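import Pool.Agent.Helper363.Nita.K2.SndR1
import Pool.Agent.Helper363.Nita.K2.SndR2
import Pool.Agent.Helper363.Nita.K2.SndR3
import Pool.Agent.Helper363.Nita.K2.SndR4
import Pool.Agent.Helper363.Nita.K2.SndR5
import Pool.Agent.Helper363.Nita.K2.SndR6
import Pool.Agent.Helper363.Nita.K2.SndR7
import Pool.Agent.Helper363.Nita.K2.SndR8

namespace Pool.Agent.Helper363.Nita.K2

section rules
variable {G : NG} {w : World G} {C : Ctx} {S : List Row} {φ : ℕ → G.B}

/-- soundness of the checker -/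
theorem sound : ∀ (c : Cert) (S : List Row) (φ : ℕ → G.B), Sat w C S φ → check C c S = true → False
  | .E _ _ c1 c2, _, _, h, hc => by
    rcases rule_E h hc with ⟨S', h', hc'⟩ | ⟨S', h', hc'⟩
    · exact sound c1 S' _ h' hc'
    · exact sound c2 S' _ h' hc'
  | .NO _ c1 c2 c3, _, _, h, hc => by
    obtain ⟨S', φ', h', hc'⟩ := rule_NO h hc
    rcases hc' with hc' | hc' | hc'
    · exact sound c1 S' _ h' hc'
    · exact sound c2 S' _ h' hc'
    · exact sound c3 S' _ h' hc'
  | .NP _ c1 c2, _, _, h, hc => by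
    obtain ⟨S', φ', h', hc'⟩ := rule_NP h hc
    rcases hc' with hc' | hc'
    · exact sound c1 S' _ h' hc'
    · exact sound c2 S' _ h' hc'
  | .SP _ _ c1 c2, _, _, h, hc => by
    rcases rule_SP h hc with ⟨S', h', hc'⟩ | ⟨S', h', hc'⟩
    · exact sound c1 S' _ h' hc'
    · exact sound c2 S' _ h' hc'
  | .CO _ c, _, _, h, hc => by
    obtain ⟨S', h', hc'⟩ := rule_CO h hc
    exact sound c S' _ h' hc'
  | .Z _ _ c, _, _, h, hc => by
    obtain ⟨S', h', hc'⟩ := rule_Z h hc
    exact sound c S' _ h' hc'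
  | .LC _ c, _, _, h, hc => by
    obtain ⟨S', h', hc'⟩ := rule_LC h hc
    exact sound c S' _ h' hc'
  | .BC _ c, _, _, h, hc => by
    obtain ⟨S', h', hc'⟩ := rule_BC h hc
    exact sound c S' _ h' hc'
  | .LX _, _, _, h, hc => rule_LX h hc
  | .BX _, _, _, h, hc => rule_BX h hc
  | .XN _ _, _, _, h, hc => rule_XN h hc
  | .XT _ _, _, _, h, hc => rule_XT h hc
  | .XL _, _, _, h, hc => rule_XL h hc
  | .IC _ c, _, _, h, hc => by
    obtain ⟨S', h', hc'⟩ := rule_IC h hc
    exact sound c S' _ h' hc'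
  | .IX _, _, _, h, hc => rule_IX h hc

end rules

end Pool.Agent.Helper363.Nita.K2
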