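import Pool.Agent.Helper363.Nita.K2.TV

namespace Pool.Agent.Helper363.Nita

open Finsupp

variable {G : NG} {n : ℕ}

namespace Arr
variable (A : Arr G n)

/-- the remaining inner products between rows of level `n + 1` vanish -/
structure EZ (A : Arr G n) : Prop where
  good2 : A.Good2
  e6 : ip (A.u 0) (A.u 6) = 0
  g4 : ∀ i : ℤ, 0 ≤ i → i + 4 ≤ n + 1 → ip (G.T (A.u i)) (A.u (i + 4)) = 0
  g5 : ∀ i : ℤ, 0 ≤ i → i + 5 ≤ n + 1 → ip (G.T (A.u (i + 5))) (A.u i) = 0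
  ev : ∀ i : ℤ, 1 ≤ i → i + 3 ≤ n + 1 → ip (A.v i) (A.v (i + 3)) = 0
  ee : ∀ i : ℤ, 0 ≤ i → i + 3 ≤ n + 1 → ip (G.T (A.u i)) (G.T (A.u (i + 3))) = 0

theorem ez_uu (h : A.Good2) (hn : n ≤ 6) (e6 : ip (A.u 0) (A.u 6) = 0) {i j : ℤ} (hij : i < j) :
    ip (A.u i) (A.u j) = 0 := by
  by_cases hi : i < 0
  · rw [A.u_out (Or.inl hi), ip_zero_left]
  by_cases hj : (n : ℤ) + 1 < j
  · rw [A.u_out (Or.inr hj), ip_zero_right]
  have h1 := A.ip_u_u h.good (i := i) (k := j - i) (by omega) (by omega) (by omega)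
  rw [show i + (j - i) = j by ring] at h1
  rw [h1]
  by_cases hk : j - i ≤ n
  · exact h.e0 _ (by omega) hk
  have hi0 : i = 0 := by omega
  have hj0 : j = n + 1 := by omega
  have h4 := h.good.hn
  have hcase : n = 4 ∨ n = 5 ∨ n = 6 := by omega
  rcases hcase with hc | hc | hc
  · have e : j - i = (n : ℤ) + 1 := by omega
    rw [e]
    refine G.ip_grade (A.Gr_u 0) (A.Gr_u ((n : ℤ) + 1)) ?_
    rw [hc]
    decide
  · have e : j - i = 6 := by omega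
    rw [e]; exact e6
  · have e : j - i = (n : ℤ) + 1 := by omega
    rw [e]
    refine G.ip_grade (A.Gr_u 0) (A.Gr_u ((n : ℤ) + 1)) ?_
    rw [hc]
    decide

theorem ez_uu' (h : A.Good2) (hn : n ≤ 6) (e6 : ip (A.u 0) (A.u 6) = 0) {i j : ℤ} (hij : i ≠ j) :
    ip (A.u i) (A.u j) = 0 := by
  rcases lt_or_gt_of_ne hij with h1 | h1
  · exact A.ez_uu h hn e6 h1
  · rw [ip_comm]; exact A.ez_uu h hn e6 h1

theorem ez_ut (h : A.Good2) (i j : ℤ) : ip (A.u i) (A.t j) = 0 := A.ip_u_E h.good i _ _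

theorem ez_us (h : A.Good2) (i j : ℤ) : ip (A.u i) (A.s j) = 0 := A.ip_u_E h.good i _ _

theorem ez_vt (h : A.Good2) {i : ℤ} (h1 : 1 ≤ i) (h2 : i ≤ n + 1) (j : ℤ) :
    ip (A.v i) (A.t j) = 0 := A.ip_v_E h.good h.e0 h1 h2 _ _

theorem ez_Tut (h : A.Good2) (hn : n ≤ 6) (e6 : ip (A.u 0) (A.u 6) = 0) {i k : ℤ}
    (hik : i ≠ k + 1) : ip (G.T (A.u i)) (A.t k) = 0 := by
  have h4 := h.good.hn
  by_cases hk : 0 ≤ k ∧ k ≤ n
  · rw [G.adjoint, A.St (by omega) hk.1 hk.2, ip_add_right, ip_add_right, A.ez_ut h, A.ez_us h,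
      A.ez_uu' h hn e6 hik]
    ring
  · rw [A.t_out (by omega), ip_zero_right]

theorem ez_Sut (h : A.Good2) (hn : n ≤ 6) (e6 : ip (A.u 0) (A.u 6) = 0) {i k : ℤ}
    (hik : i ≠ k) : ip (A.t k) (G.S (A.u i)) = 0 := by
  by_cases hk : 0 ≤ k ∧ k ≤ n
  · rw [← G.adjoint, A.Tt hk.1 hk.2, ip_add_left, ip_add_left, ip_comm, A.ez_ut h,
      ip_comm (A.s _), A.ez_us h, ip_comm, A.ez_uu' h hn e6 hik]
    ring
  · rw [A.t_out (by omega), ip_zero_left]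

theorem ez_K (h : A.Good2) (hn : n ≤ 6) (e6 : ip (A.u 0) (A.u 6) = 0) {j m : ℤ}
    (h1 : 0 ≤ j) (h2 : j ≤ n) (hm1 : j + 2 ≠ m) (hm2 : j - 1 ≠ m) :
    ip (G.T (A.u (j + 1))) (A.u m) = ip (G.T (A.u m)) (A.u j) := by
  have h4 := h.good.hn
  have h5 := congrArg (fun x => ip x (A.u m)) (A.R2 (by omega) h1 h2)
  simp only [ip_add_left] at h5
  rw [A.ez_uu' h hn e6 hm1, A.ez_uu' h hn e6 hm2, G.adjoint', ip_comm (A.u j)] at h5
  linarith

theorem ez_T (h : A.Good2) (hn : n ≤ 6) (e6 : ip (A.u 0) (A.u 6) = 0) {i : ℤ}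
    (h1 : 0 ≤ i) (h2 : i + 3 ≤ n + 1) :
    ip (G.T (A.u i)) (G.T (A.u (i + 3))) =
      ip (A.v i) (A.v (i + 3)) + ip (G.T (A.u i)) (A.u (i + 4)) := by
  have e1 : ip (G.T (A.u i)) (G.T (A.u (i + 3))) =
      ip (G.T (A.u i)) (A.v (i + 3)) + ip (G.T (A.u i)) (A.u (i + 4)) := by
    rw [A.T_u_eq (j := i + 3) h2, ip_add_right, ip_add_right, ip_smul_right,
      A.ez_Tut h hn e6 (by omega), show i + 3 + 1 = i + 4 by ring]
    ring
  have e2 : ip (G.T (A.u i)) (A.v (i + 3)) = ip (A.v i) (A.v (i + 3)) := by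
    rw [A.T_u_eq (j := i) (by omega), ip_add_left, ip_add_left, ip_smul_left]
    have h3 : ip (A.u (i + 1)) (A.v (i + 3)) = 0 := by
      have := A.ip_v_prev h (j := i + 3) (by omega) (by omega)
      rw [show i + 3 - 2 = i + 1 by ring] at this
      rw [ip_comm]; exact this
    have h5 : ip (A.t (i - 1)) (A.v (i + 3)) = 0 := by
      rw [ip_comm]
      exact A.ez_vt h (by omega) (by omega) _
    rw [h3, h5]
    ring
  rw [e1, e2]

theorem ez_S (h : A.Good2) (hn : n ≤ 6) (e6 : ip (A.u 0) (A.u 6) = 0) {i : ℤ}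
    (h1 : 0 ≤ i) (h2 : i + 3 ≤ n + 1) :
    ip (G.S (A.u i)) (G.S (A.u (i + 3))) =
      ip (A.v (i + 1)) (A.v (i + 4)) + ip (G.T (A.u (i - 1))) (A.u (i + 3)) := by
  have h4 := h.good.hn
  have hS1 := A.S_u_eq (by omega) (j := i + 1) (by omega) (by omega)
  rw [show i + 1 - 1 = i by ring, show i + 1 - 2 = i - 1 by ring] at hS1
  have hS2 := A.S_u_eq (by omega) (j := i + 4) (by omega) (by omega)
  rw [show i + 4 - 1 = i + 3 by ring, show i + 4 - 2 = i + 2 by ring] at hS2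
  have e1 : ip (G.S (A.u i)) (G.S (A.u (i + 3))) =
      ip (A.v (i + 1)) (G.S (A.u (i + 3))) + ip (G.T (A.u (i - 1))) (A.u (i + 3)) := by
    rw [hS1, ip_add_left, ip_add_left, ip_smul_left, A.ez_Sut h hn e6 (by omega),
      ← G.adjoint (A.u (i - 1)) (A.u (i + 3))]
    ring
  have e2 : ip (A.v (i + 1)) (G.S (A.u (i + 3))) = ip (A.v (i + 1)) (A.v (i + 4)) := by
    have h5 := A.ip_v_next h (j := i + 1) (by omega) (by omega)
    rw [show i + 1 + 1 = i + 2 by ring] at h5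
    rw [hS2, ip_add_right, ip_add_right, ip_smul_right, h5, A.ez_vt h (by omega) (by omega)]
    ring
  rw [e1, e2]

theorem ez_step (h : A.Good2) (hn : n ≤ 6) (e6 : ip (A.u 0) (A.u 6) = 0) {i : ℤ}
    (h1 : 0 ≤ i) (h2 : i + 3 ≤ n + 1) :
    ip (A.v i) (A.v (i + 3)) + ip (G.T (A.u i)) (A.u (i + 4)) =
      ip (A.v (i + 1)) (A.v (i + 4)) + ip (G.T (A.u (i - 1))) (A.u (i + 3)) := by
  rw [← A.ez_T h hn e6 h1 h2, ← A.ez_S h hn e6 h1 h2, G.normal]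

theorem ez_K5 (h : A.Good2) (hn : n ≤ 6) (e6 : ip (A.u 0) (A.u 6) = 0) {i : ℤ}
    (h1 : 0 ≤ i) (h2 : i + 5 ≤ n + 1) :
    ip (G.T (A.u (i + 5))) (A.u i) = ip (G.T (A.u i)) (A.u (i + 4)) := by
  have := A.ez_K h hn e6 (j := i + 4) (m := i) (by omega) (by omega) (by omega) (by omega)
  rwa [show i + 4 + 1 = i + 5 by ring] at this

theorem ez_K4 (h : A.Good2) (hn : n ≤ 6) (e6 : ip (A.u 0) (A.u 6) = 0) {i : ℤ}
    (h1 : 1 ≤ i) (h2 : i + 4 ≤ n + 1) :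
    ip (G.T (A.u i)) (A.u (i + 4)) = ip (G.T (A.u (i - 1))) (A.u (i + 3)) := by
  have e1 := A.ez_K h hn e6 (j := i - 1) (m := i + 4) (by omega) (by omega) (by omega) (by omega)
  rw [show i - 1 + 1 = i by ring] at e1
  have e2 := A.ez_K5 h hn e6 (i := i - 1) (by omega) (by omega)
  rw [show i - 1 + 5 = i + 4 by ring, show i - 1 + 4 = i + 3 by ring] at e2
  rw [e1, e2]

theorem ez_K_const (h : A.Good2) (hn : n ≤ 6) (e6 : ip (A.u 0) (A.u 6) = 0) (m : ℕ)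
    (hm : (m : ℤ) + 4 ≤ n + 1) :
    ip (G.T (A.u m)) (A.u (m + 4)) = ip (G.T (A.u 0)) (A.u 4) := by
  induction m with
  | zero => simp
  | succ m ih =>
    have e1 := A.ez_K4 h hn e6 (i := ((m + 1 : ℕ) : ℤ)) (by push_cast; omega) hm
    rw [e1]
    have e2 : (((m + 1 : ℕ) : ℤ)) - 1 = m := by push_cast; ring
    have e3 : (((m + 1 : ℕ) : ℤ)) + 3 = m + 4 := by push_cast; ring
    rw [e2, e3]
    exact ih (by push_cast at hm; omega)

theorem ez_v_const (h : A.Good2) (hn : n ≤ 6) (e6 : ip (A.u 0) (A.u 6) = 0) (m : ℕ)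
    (hm : (m : ℤ) + 4 ≤ n + 1) :
    ip (A.v (m + 1)) (A.v (m + 4)) = ip (A.v 1) (A.v 4) := by
  induction m with
  | zero => simp
  | succ m ih =>
    have hm' : (m : ℤ) + 5 ≤ n + 1 := by push_cast at hm; omega
    have e1 := A.ez_step h hn e6 (i := (m : ℤ) + 1) (by omega) (by omega)
    have e2 := A.ez_K4 h hn e6 (i := (m : ℤ) + 1) (by omega) (by omega)
    rw [e2] at e1
    have e3 : ip (A.v ((m : ℤ) + 1)) (A.v ((m : ℤ) + 1 + 3)) =
        ip (A.v ((m : ℤ) + 1 + 1)) (A.v ((m : ℤ) + 1 + 4)) := by linarith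
    have e4 : (((m + 1 : ℕ) : ℤ)) = m + 1 := by push_cast; ring
    rw [e4, ← e3, show (m : ℤ) + 1 + 3 = m + 4 by ring]
    exact ih (by omega)

/-- one vanishing inner product is enough -/
theorem ez_of (h : A.Good2) (hn : n ≤ 6) (e6 : ip (A.u 0) (A.u 6) = 0) {k : ℤ} (h1 : 1 ≤ k)
    (h2 : k ≤ n - 2) (hk : ip (A.v k) (A.v (k + 3)) = 0) : A.EZ := by
  have h4 := h.good.hn
  have hv1 : ip (A.v 1) (A.v 4) = 0 := by
    have e1 := A.ez_v_const h hn e6 (k - 1).toNat (by omega)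
    have e2 : (((k - 1).toNat : ℕ) : ℤ) = k - 1 := Int.toNat_of_nonneg (by omega)
    rw [e2, show k - 1 + 1 = k by ring, show k - 1 + 4 = k + 3 by ring, hk] at e1
    exact e1.symm
  have hv : ∀ i : ℤ, 1 ≤ i → i + 3 ≤ n + 1 → ip (A.v i) (A.v (i + 3)) = 0 := by
    intro i hi1 hi2
    have e1 := A.ez_v_const h hn e6 (i - 1).toNat (by omega)
    have e2 : (((i - 1).toNat : ℕ) : ℤ) = i - 1 := Int.toNat_of_nonneg (by omega)
    rw [e2, show i - 1 + 1 = i by ring, show i - 1 + 4 = i + 3 by ring, hv1] at e1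
    exact e1
  have h3 : ip (A.u 0) (A.u 3) = 0 := h.e0 3 (by norm_num) (by omega)
  have hu0 : A.u (-1) = 0 := A.u_out (Or.inl (by norm_num))
  have hst := A.ez_step h hn e6 (i := 0) le_rfl (by omega)
  rw [show (0 : ℤ) - 1 = -1 by ring, hu0, map_zero, ip_zero_left,
    show (0 : ℤ) + 1 = 1 by ring, show (0 : ℤ) + 4 = 4 by ring, hv1] at hst
  have hT0 : 0 ≤ G.T (A.u 0) := G.T_pos (A.u_nonneg h.good 0)
  have hg : 0 ≤ ip (G.T (A.u 0)) (A.u 4) := ip_nonneg hT0 (A.u_nonneg h.good 4)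
  have hv0 : 0 ≤ ip (A.v 0) (A.v (0 + 3)) := by
    have e1 := A.T_u_eq (j := 0) (by omega)
    rw [show (0 : ℤ) - 1 = -1 by ring, A.t_out (j := -1) (by omega), smul_zero, add_zero] at e1
    have e2 : ip (G.T (A.u 0)) (A.v (0 + 3)) = ip (A.v 0) (A.v (0 + 3)) +
        ip (A.u (0 + 1)) (A.v (0 + 3)) := by
      rw [e1, ip_add_left]
    have e3 : ip (A.u (0 + 1)) (A.v (0 + 3)) = 0 := by
      have := A.ip_v_prev h (j := 3) (by omega) (by omega)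
      rw [ip_comm]
      simpa using this
    have e4 : 0 ≤ ip (G.T (A.u 0)) (A.v (0 + 3)) :=
      ip_nonneg hT0 (A.v_nonneg h.good h3 (by omega) (by omega))
    linarith
  have hg0 : ip (G.T (A.u 0)) (A.u 4) = 0 := by linarith
  have hv00 : ip (A.v 0) (A.v (0 + 3)) = 0 := by linarith
  have hK : ∀ i : ℤ, 0 ≤ i → i + 4 ≤ n + 1 → ip (G.T (A.u i)) (A.u (i + 4)) = 0 := by
    intro i hi1 hi2
    have e1 := A.ez_K_const h hn e6 i.toNat (by omega)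
    rw [Int.toNat_of_nonneg hi1, hg0] at e1
    exact e1
  refine ⟨h, e6, hK, ?_, hv, ?_⟩
  · intro i hi1 hi2
    rw [A.ez_K5 h hn e6 hi1 hi2]
    exact hK i hi1 (by omega)
  · intro i hi1 hi2
    rw [A.ez_T h hn e6 hi1 hi2]
    have e1 : ip (G.T (A.u i)) (A.u (i + 4)) = 0 := by
      by_cases hi : i + 4 ≤ n + 1
      · exact hK i hi1 hi
      · rw [A.u_out (j := i + 4) (Or.inr (by omega)), ip_zero_right]
    rw [e1, add_zero]
    rcases hi1.eq_or_lt with rfl | hi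
    · exact hv00
    · exact hv i (by omega) hi2

end Arr
end Pool.Agent.Helper363.Nita
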