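import Pool.Agent.Helper363.Nita.Chain

namespace Pool.Agent.Helper363.Nita

open Finsupp

variable {G : NG} {n : ℕ}

namespace Arr
variable (A : Arr G n)

theorem j12639_core (h : A.Good2) (c d : ℤ → G.B) (sw f : Bool)
    (hcd : ∀ j : ℤ, 1 ≤ j → j ≤ n → A.u j = bv (c j) + bv (d j) ∧ c j ≠ d j)
    (hT : ∀ j : ℤ, 1 ≤ j → j ≤ n - 1 → G.T (bv (c j)) (c (j + 1)) = 1 ∧
      G.T (bv (c j)) (d (j + 1)) = 0 ∧
      G.T (bv (d j)) (c (j + 1)) = 0 ∧ G.T (bv (d j)) (d (j + 1)) = 1)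
    (hbar : ∀ j : ℤ, 1 ≤ j → j ≤ n →
      G.bar (c j) = (if sw = true then d (n + 1 - j) else c (n + 1 - j)) ∧
      G.bar (d j) = (if sw = true then c (n + 1 - j) else d (n + 1 - j)))
    (x y : G.B) (h0 : A.u 0 = bv x + bv y) (hxy : x ≠ y) (hx : 1 ≤ G.T (bv x) (c 1))
    (hy : 1 ≤ G.T (bv y) (if f = true then c 1 else d 1)) :
    ∃ (c d : ℤ → G.B) (sw f : Bool),
    (∀ j : ℤ, 0 ≤ j → j ≤ n + 1 → A.u j = bv (c j) + bv (d j) ∧ c j ≠ d j) ∧
    (∀ j : ℤ, 1 ≤ j → j ≤ n - 1 → G.T (bv (c j)) (c (j + 1)) = 1 ∧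
      G.T (bv (c j)) (d (j + 1)) = 0 ∧
      G.T (bv (d j)) (c (j + 1)) = 0 ∧ G.T (bv (d j)) (d (j + 1)) = 1) ∧
    (∀ j : ℤ, 1 ≤ j → j ≤ n →
      G.bar (c j) = (if sw = true then d (n + 1 - j) else c (n + 1 - j)) ∧
      G.bar (d j) = (if sw = true then c (n + 1 - j) else d (n + 1 - j))) ∧
    (G.bar (c 0) = c (n + 1) ∧ G.bar (d 0) = d (n + 1)) ∧
    1 ≤ G.T (bv (c 0)) (c 1) ∧ 1 ≤ G.T (bv (d 0)) (if f = true then c 1 else d 1) := by
  have hn : 4 ≤ n := h.good.hn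
  let c' : ℤ → G.B := fun j => if j = 0 then x else if j = n + 1 then G.bar x else c j
  let d' : ℤ → G.B := fun j => if j = 0 then y else if j = n + 1 then G.bar y else d j
  have hc0 : c' 0 = x := by simp [c']
  have hd0 : d' 0 = y := by simp [d']
  have hcn : c' (n + 1) = G.bar x := by
    have h1 : ¬ ((n : ℤ) + 1 = 0) := by omega
    simp [c', h1]
  have hdn : d' (n + 1) = G.bar y := by
    have h1 : ¬ ((n : ℤ) + 1 = 0) := by omega
    simp [d', h1]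
  have hcj : ∀ j : ℤ, 1 ≤ j → j ≤ n → c' j = c j := by
    intro j h1 h2
    have h3 : ¬ (j = 0) := by omega
    have h4 : ¬ (j = (n : ℤ) + 1) := by omega
    simp only [c', if_neg h3, if_neg h4]
  have hdj : ∀ j : ℤ, 1 ≤ j → j ≤ n → d' j = d j := by
    intro j h1 h2
    have h3 : ¬ (j = 0) := by omega
    have h4 : ¬ (j = (n : ℤ) + 1) := by omega
    simp only [d', if_neg h3, if_neg h4]
  refine ⟨c', d', sw, f, ?_, ?_, ?_, ?_, ?_, ?_⟩
  · intro j h1 h2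
    by_cases h3 : j = 0
    · rw [h3, hc0, hd0]
      exact ⟨h0, hxy⟩
    · by_cases h4 : j = (n : ℤ) + 1
      · rw [h4, hcn, hdn]
        have h5 := A.bar_u (by omega) 0
        rw [h0, map_add, G.bar'_bv, G.bar'_bv, sub_zero] at h5
        exact ⟨h5.symm, fun h6 => hxy (G.bar_inj h6)⟩
      · rw [hcj j (by omega) (by omega), hdj j (by omega) (by omega)]
        exact hcd j (by omega) (by omega)
  · intro j h1 h2
    rw [hcj j h1 (by omega), hdj j h1 (by omega), hcj (j + 1) (by omega) (by omega),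
      hdj (j + 1) (by omega) (by omega)]
    exact hT j h1 h2
  · intro j h1 h2
    rw [hcj j h1 h2, hdj j h1 h2, hcj (n + 1 - j) (by omega) (by omega),
      hdj (n + 1 - j) (by omega) (by omega)]
    exact hbar j h1 h2
  · rw [hc0, hd0, hcn, hdn]
    exact ⟨rfl, rfl⟩
  · rw [hc0, hcj 1 le_rfl (by omega)]
    exact hx
  · rw [hd0, hcj 1 le_rfl (by omega), hdj 1 le_rfl (by omega)]
    exact hy

/-- labelled sheets including the end lines; `f` tells whether both nodes of line `0` are joined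
to `c 1` -/
theorem chainF (h : A.Good2) (he : ip (A.u 0) (A.u (n + 1)) = 0) :
    ∃ (c d : ℤ → G.B) (sw f : Bool),
    (∀ j : ℤ, 0 ≤ j → j ≤ n + 1 → A.u j = bv (c j) + bv (d j) ∧ c j ≠ d j) ∧
    (∀ j : ℤ, 1 ≤ j → j ≤ n - 1 → G.T (bv (c j)) (c (j + 1)) = 1 ∧
      G.T (bv (c j)) (d (j + 1)) = 0 ∧
      G.T (bv (d j)) (c (j + 1)) = 0 ∧ G.T (bv (d j)) (d (j + 1)) = 1) ∧
    (∀ j : ℤ, 1 ≤ j → j ≤ n →
      G.bar (c j) = (if sw = true then d (n + 1 - j) else c (n + 1 - j)) ∧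
      G.bar (d j) = (if sw = true then c (n + 1 - j) else d (n + 1 - j))) ∧
    (G.bar (c 0) = c (n + 1) ∧ G.bar (d 0) = d (n + 1)) ∧
    1 ≤ G.T (bv (c 0)) (c 1) ∧ 1 ≤ G.T (bv (d 0)) (if f = true then c 1 else d 1) := by
  classical
  have hn : 4 ≤ n := h.good.hn
  obtain ⟨c, d, hcd, hT, hbar⟩ := A.chain h
  obtain ⟨sw, hsw⟩ : ∃ sw : Bool, ∀ j : ℤ, 1 ≤ j → j ≤ n →
      G.bar (c j) = (if sw = true then d (n + 1 - j) else c (n + 1 - j)) ∧
      G.bar (d j) = (if sw = true then c (n + 1 - j) else d (n + 1 - j)) := by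
    rcases hbar with hb | hb
    · exact ⟨false, fun j h1 h2 => by simpa using hb j h1 h2⟩
    · exact ⟨true, fun j h1 h2 => by simpa using hb j h1 h2⟩
  have h3 : ip (A.u 0) (A.u 3) = 0 := h.e0 3 (by norm_num) (by omega)
  obtain ⟨x, y, hxy, h0⟩ := G.norm_two (A.u_nonneg h.good 0) h.p2
  have h1 := (hcd 1 le_rfl (by omega)).1
  have hS := A.S_u_ge h.good h3 (j := 0) le_rfl (by omega)
  rw [zero_add, h1, map_add, h0] at hS
  have key : ∀ b : G.B, 1 ≤ (bv x + bv y : G.B →₀ ℤ) b →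
      1 ≤ G.T (bv b) (c 1) ∨ 1 ≤ G.T (bv b) (d 1) := by
    intro b hb
    have h2 := hS b
    rw [Finsupp.add_apply (G.S (bv (c 1))), ← G.adj, ← G.adj] at h2
    have h4 := G.T_nonneg b (c 1)
    have h5 := G.T_nonneg b (d 1)
    omega
  have hx1 : 1 ≤ (bv x + bv y : G.B →₀ ℤ) x := by
    rw [Finsupp.add_apply, Finsupp.single_eq_same, Finsupp.single_apply]
    split_ifs <;> norm_num
  have hy1 : 1 ≤ (bv x + bv y : G.B →₀ ℤ) y := by
    rw [Finsupp.add_apply, Finsupp.single_eq_same, Finsupp.single_apply]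
    split_ifs <;> norm_num
  have hcd' : ∀ j : ℤ, 1 ≤ j → j ≤ n → A.u j = bv (d j) + bv (c j) ∧ d j ≠ c j := by
    intro j h1 h2
    obtain ⟨h4, h5⟩ := hcd j h1 h2
    exact ⟨by rw [h4, add_comm], h5.symm⟩
  have hT' : ∀ j : ℤ, 1 ≤ j → j ≤ n - 1 → G.T (bv (d j)) (d (j + 1)) = 1 ∧
      G.T (bv (d j)) (c (j + 1)) = 0 ∧
      G.T (bv (c j)) (d (j + 1)) = 0 ∧ G.T (bv (c j)) (c (j + 1)) = 1 := by
    intro j h1 h2
    obtain ⟨h4, h5, h6, h7⟩ := hT j h1 h2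
    exact ⟨h7, h6, h5, h4⟩
  have hsw' : ∀ j : ℤ, 1 ≤ j → j ≤ n →
      G.bar (d j) = (if sw = true then c (n + 1 - j) else d (n + 1 - j)) ∧
      G.bar (c j) = (if sw = true then d (n + 1 - j) else c (n + 1 - j)) := by
    intro j h1 h2
    exact ⟨(hsw j h1 h2).2, (hsw j h1 h2).1⟩
  rcases key x hx1 with hxc | hxd
  · rcases key y hy1 with hyc | hyd
    · exact A.j12639_core h c d sw true hcd hT hsw x y h0 hxy hxc (by simpa using hyc)
    · exact A.j12639_core h c d sw false hcd hT hsw x y h0 hxy hxc (by simpa using hyd)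
  · rcases key y hy1 with hyc | hyd
    · exact A.j12639_core h d c sw false hcd' hT' hsw' x y h0 hxy hxd (by simpa using hyc)
    · exact A.j12639_core h d c sw true hcd' hT' hsw' x y h0 hxy hxd (by simpa using hyd)

end Arr
end Pool.Agent.Helper363.Nita
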