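import Pool.Agent.Helper363.Nita.Chain

namespace Pool.Agent.Helper363.Nita

open Finsupp

variable {G : NG} {n : ℕ}

namespace Arr
variable (A : Arr G n)

theorem lab_pair {B : Type} {a b a' b' : B} (hab : a ≠ b)
    (h : bv a + bv b = (bv a' + bv b' : B →₀ ℤ)) :
    (a = a' ∧ b = b') ∨ (a = b' ∧ b = a') := by
  classical
  have hinj : ∀ x y : B, (bv x : B →₀ ℤ) = bv y → x = y := fun x y hxy =>
    Finsupp.single_left_injective (one_ne_zero) hxy
  by_cases h1 : a' = a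
  · left
    refine ⟨h1.symm, ?_⟩
    rw [h1] at h
    exact hinj _ _ (add_left_cancel h)
  · right
    have h2 := congrArg (fun f : B →₀ ℤ => f a) h
    simp only [bv, Finsupp.add_apply, Finsupp.single_apply] at h2
    rw [if_pos trivial, if_neg (Ne.symm hab), if_neg h1] at h2
    have h3 : b' = a := by
      by_contra h4
      rw [if_neg h4] at h2
      norm_num at h2
    refine ⟨h3.symm, ?_⟩
    rw [h3, add_comm] at h
    exact hinj _ _ (add_right_cancel h)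

/-- labelled lines when nothing is known about the arrows between them -/
theorem lab (hG : A.Good) (hp : A.p = 2) :
    ∃ (c d : ℤ → G.B) (mid : Bool),
    (∀ j : ℤ, 1 ≤ j → j ≤ n → A.u j = bv (c j) + bv (d j) ∧ c j ≠ d j) ∧
    (∀ j : ℤ, 1 ≤ j → j ≤ n →
      G.bar (c j) = (if 2 * j = n + 1 ∧ mid = true then d (n + 1 - j) else c (n + 1 - j)) ∧
      G.bar (d j) = (if 2 * j = n + 1 ∧ mid = true then c (n + 1 - j) else d (n + 1 - j))) := by
  have hex : ∀ j : ℤ, ∃ b c : G.B, 1 ≤ j → j ≤ n → b ≠ c ∧ A.u j = bv b + bv c := by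
    intro j
    by_cases hj : 1 ≤ j ∧ j ≤ n
    · have h1 : ip (A.u j) (A.u j) = 2 := by
        rw [A.ip_u_self hG (by omega) (by omega), hp]
      obtain ⟨b, c, h2, h3⟩ := G.norm_two (A.u_nonneg hG j) h1
      exact ⟨b, c, fun _ _ => ⟨h2, h3⟩⟩
    · exact ⟨A.V 0 0, A.V 0 0, fun h1 h2 => absurd ⟨h1, h2⟩ hj⟩
  choose c0 d0 h0 using hex
  have hn2 : 2 ≤ n := by have := hG.hn; omega
  set c : ℤ → G.B := fun j => if 2 * j ≤ n + 1 then c0 j else G.bar (c0 (n + 1 - j)) with hc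
  set d : ℤ → G.B := fun j => if 2 * j ≤ n + 1 then d0 j else G.bar (d0 (n + 1 - j)) with hd
  have hclo : ∀ j : ℤ, 2 * j ≤ n + 1 → c j = c0 j := fun j hj => by
    rw [hc]; simp only; rw [if_pos hj]
  have hdlo : ∀ j : ℤ, 2 * j ≤ n + 1 → d j = d0 j := fun j hj => by
    rw [hd]; simp only; rw [if_pos hj]
  have hchi : ∀ j : ℤ, ¬ 2 * j ≤ n + 1 → c j = G.bar (c0 (n + 1 - j)) := fun j hj => by
    rw [hc]; simp only; rw [if_neg hj]
  have hdhi : ∀ j : ℤ, ¬ 2 * j ≤ n + 1 → d j = G.bar (d0 (n + 1 - j)) := fun j hj => by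
    rw [hd]; simp only; rw [if_neg hj]
  have hu : ∀ j : ℤ, 1 ≤ j → j ≤ n → A.u j = bv (c j) + bv (d j) ∧ c j ≠ d j := by
    intro j h1 h2
    by_cases hj : 2 * j ≤ n + 1
    · rw [hclo j hj, hdlo j hj]
      exact ⟨(h0 j h1 h2).2, (h0 j h1 h2).1⟩
    · rw [hchi j hj, hdhi j hj]
      obtain ⟨h3, h4⟩ := h0 (n + 1 - j) (by omega) (by omega)
      have h5 := A.bar_u hn2 (n + 1 - j)
      rw [h4, map_add, G.bar'_bv, G.bar'_bv] at h5
      have h6 : (n : ℤ) + 1 - (n + 1 - j) = j := by ring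
      rw [h6] at h5
      exact ⟨h5.symm, fun h => h3 (G.bar_inj h)⟩
  have hlt : ∀ j : ℤ, 1 ≤ j → j ≤ n → 2 * j ≠ n + 1 →
      G.bar (c j) = c (n + 1 - j) ∧ G.bar (d j) = d (n + 1 - j) := by
    intro j h1 h2 h3
    rcases lt_or_gt_of_ne h3 with h4 | h4
    · have h6 : (n : ℤ) + 1 - (n + 1 - j) = j := by ring
      rw [hclo j h4.le, hdlo j h4.le, hchi _ (by omega), hdhi _ (by omega), h6]
      exact ⟨rfl, rfl⟩
    · rw [hchi j (by omega), hdhi j (by omega), hclo _ (by omega), hdlo _ (by omega),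
        G.bar_bar, G.bar_bar]
      exact ⟨rfl, rfl⟩
  have hmid : ∀ j : ℤ, 1 ≤ j → j ≤ n → 2 * j = n + 1 →
      (G.bar (c j) = c j ∧ G.bar (d j) = d j) ∨ (G.bar (c j) = d j ∧ G.bar (d j) = c j) := by
    intro j h1 h2 h3
    obtain ⟨h4, h5⟩ := hu j h1 h2
    have h6 := A.bar_u hn2 j
    have h7 : (n : ℤ) + 1 - j = j := by omega
    rw [h7, h4, map_add, G.bar'_bv, G.bar'_bv] at h6
    exact lab_pair (fun h => h5 (G.bar_inj h)) h6
  by_cases hm : ∃ j : ℤ, 1 ≤ j ∧ j ≤ n ∧ 2 * j = n + 1 ∧ G.bar (c j) = d j ∧ G.bar (d j) = c j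
  · obtain ⟨m, -, -, hm3, hm4, hm5⟩ := hm
    refine ⟨c, d, true, hu, ?_⟩
    intro j h1 h2
    by_cases h3 : 2 * j = n + 1
    · have hjm : j = m := by omega
      have h7 : (n : ℤ) + 1 - j = j := by omega
      rw [if_pos ⟨h3, rfl⟩, if_pos ⟨h3, rfl⟩, h7, hjm]
      exact ⟨hm4, hm5⟩
    · rw [if_neg (fun h => h3 h.1), if_neg (fun h => h3 h.1)]
      exact hlt j h1 h2 h3
  · refine ⟨c, d, false, hu, ?_⟩
    intro j h1 h2
    rw [if_neg (fun h => Bool.false_ne_true h.2), if_neg (fun h => Bool.false_ne_true h.2)]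
    by_cases h3 : 2 * j = n + 1
    · have h7 : (n : ℤ) + 1 - j = j := by omega
      rw [h7]
      rcases hmid j h1 h2 h3 with h8 | h8
      · exact h8
      · exact absurd ⟨j, h1, h2, h3, h8⟩ hm
    · exact hlt j h1 h2 h3

end Arr
end Pool.Agent.Helper363.Nita
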