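import Pool.Agent.Helper363.Nita.Chain

namespace Pool.Agent.Helper363.Nita

open Finsupp

variable {G : NG} {n : ℕ}

namespace Arr
variable (A : Arr G n)

theorem E_at_u_12632 (hG : A.Good) {j : ℤ} {c : G.B} (hc : A.u j c ≠ 0) (a b : ℤ) :
    A.E a b c = 0 := by
  have h := A.ip_u_E hG j a b
  have h1 := mul_le_ip (A.u_nonneg hG j) (A.E_nonneg a b) c
  rw [h] at h1
  have h2 := A.u_nonneg hG j c
  have h3 := A.E_nonneg a b c
  simp only [Finsupp.coe_zero, Pi.zero_apply] at h2 h3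
  have h4 : 1 ≤ A.u j c := by omega
  have h5 : A.E a b c ≤ A.u j c * A.E a b c := by
    have := mul_le_mul_of_nonneg_right h4 h3
    linarith
  linarith

theorem sum_two_le_12632 {B : Type} {a b z : B →₀ ℤ} (_hb : 0 ≤ b) (_ha : 0 ≤ a)
    (_hz : 0 ≤ z) (h1 : a ≤ z) (h2 : b ≤ z) (hab : ∀ c, a c = 0 ∨ b c = 0) : a + b ≤ z := by
  intro c
  have h3 := h1 c
  have h4 := h2 c
  rw [Finsupp.add_apply]
  rcases hab c with h | h
  · rw [h, zero_add]; exact h4
  · rw [h, add_zero]; exact h3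

theorem bv_le_of_12632 {B : Type} {z : B →₀ ℤ} (hz : 0 ≤ z) {c : B} (h : 1 ≤ z c) : bv c ≤ z := by
  intro a
  by_cases ha : c = a
  · subst ha; simpa [bv] using h
  · simpa [bv, Finsupp.single_apply, ha] using hz a

theorem bv_apply_ne_12632 {B : Type} {c a : B} (h : c ≠ a) : (bv c : B →₀ ℤ) a = 0 := by
  simp [bv, Finsupp.single_apply, h]

theorem bv_apply_self_12632 {B : Type} (c : B) : (bv c : B →₀ ℤ) c = 1 := by
  simp [bv]

theorem smul_le_of_12632 {B : Type} {k : ℤ} {v z : B →₀ ℤ} (hk : 1 ≤ k) (hv : 0 ≤ v)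
    (h : k • v ≤ z) : v ≤ z := by
  intro a
  have h1 := h a
  have h2 := hv a
  simp only [Finsupp.coe_zero, Pi.zero_apply, Finsupp.smul_apply, smul_eq_mul] at h1 h2 ⊢
  have h3 := mul_le_mul_of_nonneg_right hk h2
  linarith

theorem disj_t_12632 (A : Arr G 4) (hG : A.Good) {i j : ℤ} (hi : 0 ≤ i ∧ i ≤ 4) (hj : 0 ≤ j ∧ j ≤ 4)
    (hij : i ≠ j) (c : G.B) : A.t i c = 0 ∨ A.t j c = 0 := by
  have h := hG.ip_E ((4:ℕ) - i) i ((4:ℕ) - j) j ⟨by push_cast; omega, hi.1, by push_cast; omega⟩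
    ⟨by push_cast; omega, hj.1, by push_cast; omega⟩
  rw [if_neg (by rintro ⟨-, h⟩; exact hij h)] at h
  have h1 := mul_le_ip (A.t_nonneg i) (A.t_nonneg j) c
  have h2 := A.t_nonneg i c
  have h3 := A.t_nonneg j c
  unfold t at h1 h2 h3 ⊢
  rw [h] at h1
  simp only [Finsupp.coe_zero, Pi.zero_apply] at h2 h3
  have h4 := mul_nonneg h2 h3
  have h5 : A.E ((4:ℕ) - i) i c * A.E ((4:ℕ) - j) j c = 0 := le_antisymm h1 h4
  exact mul_eq_zero.1 h5

/-- a constituent of `u 0` and `u 3` -/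
theorem low_12632 (A : Arr G 4) (hG : A.Good) {x : G.B} (hx0 : 1 ≤ A.u 0 x) (hx3 : 1 ≤ A.u 3 x) :
    39 ≤ 3 * G.d x := by
  have h1 := A.S_ge hG (j := 0) (by norm_num) (by norm_num) x
  have h2 := A.S_ge hG (j := 3) (by norm_num) (by norm_num) x
  have h3 := smul_le_of_12632 hx0 (A.t_nonneg 0) h1
  have h4 := smul_le_of_12632 hx3 (A.t_nonneg 3) h2
  have hpos : 0 ≤ G.S (bv x) := fun y => G.S_nonneg x y
  have h5 := sum_two_le_12632 (A.t_nonneg 3) (A.t_nonneg 0) hpos h3 h4
    (fun c => A.disj_t_12632 hG (by norm_num) (by norm_num) (by norm_num) c)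
  have h6 := G.dg_mono h5
  rw [G.dg_add, G.dg_S, G.dg_bv, A.dg_t (by norm_num) (by norm_num),
    A.dg_t (by norm_num) (by norm_num)] at h6
  norm_num [dimZ] at h6
  linarith

theorem u0_form_12632 (A : Arr G 4) (hG : A.Good) (_hp : 2 ≤ A.p) {x : G.B} (hx0 : 1 ≤ A.u 0 x)
    (hd : 39 ≤ 3 * G.d x) (hd' : G.d x ≤ 16) : A.u 0 x = 1 ∧ A.p = 2 := by
  have hdg : G.dg (A.u 0) = 21 := by
    rw [A.dg_u (by norm_num) (by norm_num)]; norm_num [dimZ]
  have h1 := G.mul_d_le_dg (A.u_nonneg hG 0) x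
  rw [hdg] at h1
  have hx1 : A.u 0 x = 1 := by
    by_contra hne
    have h2 : 2 ≤ A.u 0 x := by omega
    have h3 := mul_le_mul_of_nonneg_right h2 (by linarith : 0 ≤ G.d x)
    linarith
  refine ⟨hx1, ?_⟩
  -- constituents of `u 0` have degree at least 5
  have h5 : ∀ c, 1 ≤ A.u 0 c → 5 ≤ G.d c := by
    intro c hc
    have h1 := A.S_ge hG (j := 0) (by norm_num) (by norm_num) c
    have h3 := smul_le_of_12632 hc (A.t_nonneg 0) h1
    have h6 := G.dg_mono h3
    rw [G.dg_S, G.dg_bv, A.dg_t (by norm_num) (by norm_num)] at h6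
    norm_num [dimZ] at h6
    linarith
  have hv : bv x ≤ A.u 0 := bv_le_of_12632 (A.u_nonneg hG 0) hx0
  have hv0 : 0 ≤ A.u 0 - bv x := by intro b; simpa using hv b
  have hvd : G.dg (A.u 0 - bv x) = 21 - G.d x := by rw [G.dg_sub, hdg, G.dg_bv]
  have hvne : A.u 0 - bv x ≠ 0 := by
    intro h
    rw [h, G.dg_zero] at hvd
    linarith
  obtain ⟨c, hc⟩ := Finsupp.ne_iff.1 hvne
  have hc1 : 1 ≤ (A.u 0 - bv x) c := by
    have := hv0 c
    simp only [Finsupp.coe_zero, Pi.zero_apply] at this hc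
    omega
  have hcu : 1 ≤ A.u 0 c := by
    have h : (A.u 0 - bv x) c ≤ A.u 0 c := by
      rw [Finsupp.sub_apply]
      have : 0 ≤ (bv x : G.B →₀ ℤ) c := by
        by_cases h : x = c
        · subst h; rw [bv_apply_self_12632]; norm_num
        · rw [bv_apply_ne_12632 h]
      linarith
    linarith
  have hdc := h5 c hcu
  have hw : bv c ≤ A.u 0 - bv x := bv_le_of_12632 hv0 hc1
  have hw0 : 0 ≤ A.u 0 - bv x - bv c := by
    intro b
    have := hw b
    rw [Finsupp.sub_apply]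
    simp only [Finsupp.coe_zero, Pi.zero_apply]
    linarith
  have hwd : G.dg (A.u 0 - bv x - bv c) = 21 - G.d x - G.d c := by rw [G.dg_sub, hvd, G.dg_bv]
  have hwz : A.u 0 - bv x - bv c = 0 := by
    by_contra hne
    obtain ⟨e, he⟩ := Finsupp.ne_iff.1 hne
    have he1 : 1 ≤ (A.u 0 - bv x - bv c) e := by
      have := hw0 e
      simp only [Finsupp.coe_zero, Pi.zero_apply] at this he
      omega
    have hnb : ∀ z b : G.B, 0 ≤ (bv z : G.B →₀ ℤ) b := by
      intro z b
      by_cases h : z = b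
      · subst h; rw [bv_apply_self_12632]; norm_num
      · rw [bv_apply_ne_12632 h]
    have heu : 1 ≤ A.u 0 e := by
      rw [Finsupp.sub_apply, Finsupp.sub_apply] at he1
      have a1 := hnb x e
      have a2 := hnb c e
      linarith
    have hde := h5 e heu
    have h7 := G.mul_d_le_dg hw0 e
    rw [hwd] at h7
    have h8 := mul_le_mul_of_nonneg_right he1 (by linarith : 0 ≤ G.d e)
    linarith
  have hu : A.u 0 = bv x + bv c := by
    have : A.u 0 = (A.u 0 - bv x - bv c) + bv x + bv c := by abel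
    rw [hwz] at this
    rw [this]; abel
  have hxc : x ≠ c := by
    rintro rfl
    rw [hu, Finsupp.add_apply, bv_apply_self_12632] at hx1
    norm_num at hx1
  unfold p
  rw [hu, ip_add_left, ip_bv_left, ip_bv_left, Finsupp.add_apply, Finsupp.add_apply,
    bv_apply_self_12632, bv_apply_self_12632, bv_apply_ne_12632 hxc, bv_apply_ne_12632 hxc.symm]
  norm_num

theorem u3_form_12632 (A : Arr G 4) (hG : A.Good) (hp : A.p = 2) {x : G.B} (hx3 : 1 ≤ A.u 3 x) :
    ∃ y, x ≠ y ∧ A.u 3 = bv x + bv y := by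
  have h1 := A.ip_u_self hG (j := 3) (by norm_num) (by norm_num)
  rw [hp] at h1
  obtain ⟨b, c, hbc, hu⟩ := G.norm_two (A.u_nonneg hG 3) h1
  rw [hu, Finsupp.add_apply] at hx3
  by_cases hb : b = x
  · subst hb; exact ⟨c, hbc, hu⟩
  · by_cases hc : c = x
    · subst hc; exact ⟨b, hbc.symm, by rw [hu, add_comm]⟩
    · rw [bv_apply_ne_12632 hb, bv_apply_ne_12632 hc] at hx3
      norm_num at hx3

theorem e_three_12632 (A : Arr G 4) (hG : A.Good) (hp : 2 ≤ A.p) : ip (A.u 0) (A.u 3) = 0 := by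
  by_contra hne
  obtain ⟨x, hx0, hx3⟩ : ∃ x, A.u 0 x ≠ 0 ∧ A.u 3 x ≠ 0 := by
    by_contra hcon
    push Not at hcon
    apply hne
    unfold ip
    apply Finset.sum_eq_zero
    intro b hb
    show A.u 0 b * A.u 3 b = 0
    rw [hcon b (Finsupp.mem_support_iff.1 hb), mul_zero]
  have hd16 : G.d x ≤ 16 := by
    have := A.d_le_corner hG hp hx0
    push_cast at this
    linarith
  have hE : ∀ a b : ℤ, A.E a b x = 0 := fun a b => A.E_at_u_12632 hG hx0 a b
  have hx0' : 1 ≤ A.u 0 x := by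
    have := A.u_nonneg hG 0 x
    simp only [Finsupp.coe_zero, Pi.zero_apply] at this
    omega
  have hx3' : 1 ≤ A.u 3 x := by
    have := A.u_nonneg hG 3 x
    simp only [Finsupp.coe_zero, Pi.zero_apply] at this
    omega
  have hd := A.low_12632 hG hx0' hx3'
  obtain ⟨hux, hp2⟩ := A.u0_form_12632 hG hp hx0' hd hd16
  obtain ⟨y, hxy, hu3⟩ := A.u3_form_12632 hG hp2 hx3'
  have hu3x : A.u 3 x = 1 := by
    rw [hu3, Finsupp.add_apply, bv_apply_self_12632, bv_apply_ne_12632 hxy.symm]; norm_num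
  have hu3y : A.u 3 y = 1 := by
    rw [hu3, Finsupp.add_apply, bv_apply_self_12632, bv_apply_ne_12632 hxy]; norm_num
  have hEy : ∀ a b : ℤ, A.E a b y = 0 := fun a b => A.E_at_u_12632 hG (j := 3)
    (by rw [hu3y]; norm_num) a b
  have hdy : G.d y = 42 - G.d x := by
    have := A.dg_u (j := 3) (by norm_num) (by norm_num)
    rw [hu3, G.dg_add, G.dg_bv, G.dg_bv] at this
    norm_num [dimZ] at this
    linarith
  -- the bar of x
  have hu2 : A.u 2 (G.bar x) = 1 := by
    have h := A.bar_u (by norm_num) 3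
    norm_num at h
    rw [← h, G.bar'_apply, G.bar_bar, hu3x]
  have hu5 : A.u 5 (G.bar x) = 1 := by
    have h := A.bar_u (by norm_num) 0
    norm_num at h
    rw [← h, G.bar'_apply, G.bar_bar, hux]
  have hE' : ∀ a b : ℤ, A.E a b (G.bar x) = 0 := fun a b => A.E_at_u_12632 hG (j := 2)
    (by rw [hu2]; norm_num) a b
  have hTx : A.t 1 + A.t 4 ≤ G.T (bv (G.bar x)) := by
    have h1 := A.T_ge hG (j := 2) (by norm_num) (by norm_num) (G.bar x)
    have h2 := A.T_ge hG (j := 5) (by norm_num) (by norm_num) (G.bar x)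
    rw [hu2, one_smul] at h1
    rw [hu5, one_smul] at h2
    norm_num at h1 h2
    exact sum_two_le_12632 (A.t_nonneg 4) (A.t_nonneg 1) (fun y => G.T_nonneg _ y) h1 h2
      (fun c => A.disj_t_12632 hG (by norm_num) (by norm_num) (by norm_num) c)
  have hno : ∀ z : G.B, (∀ a b : ℤ, A.E a b z = 0) → 3 * G.d x < 39 + G.d z →
      G.T (bv (G.bar x)) z = 0 := by
    intro z hz hlt
    by_contra hne
    have hge : 1 ≤ G.T (bv (G.bar x)) z := by
      have := G.T_nonneg (G.bar x) z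
      omega
    have hbz := bv_le_of_12632 (fun y => G.T_nonneg (G.bar x) y) hge
    have hle : A.t 1 + A.t 4 + bv z ≤ G.T (bv (G.bar x)) := by
      refine sum_two_le_12632 ?_ ?_ (fun y => G.T_nonneg _ y) hTx hbz ?_
      · intro b
        by_cases h : z = b
        · subst h; rw [bv_apply_self_12632]; norm_num
        · rw [bv_apply_ne_12632 h]; norm_num
      · exact add_nonneg (A.t_nonneg 1) (A.t_nonneg 4)
      · intro c
        by_cases h : z = c
        · left
          subst h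
          rw [Finsupp.add_apply]
          unfold t
          rw [hz, hz, add_zero]
        · right
          exact bv_apply_ne_12632 h
    have h6 := G.dg_mono hle
    rw [G.dg_add, G.dg_add, G.dg_T, G.dg_bv, G.dg_bv, G.d_bar, A.dg_t (by norm_num) (by norm_num),
      A.dg_t (by norm_num) (by norm_num)] at h6
    norm_num [dimZ] at h6
    linarith
  have hTu3 : ip (A.u 3) (G.T (bv (G.bar x))) = 0 := by
    rw [hu3, ip_add_left, ip_bv_left, ip_bv_left, hno x hE (by linarith),
      hno y hEy (by linarith)]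
    norm_num
  -- normality
  have hL : ip (G.T (A.t 3)) (G.T (bv (G.bar x))) = 1 := by
    rw [A.Tt (by norm_num) (by norm_num), ip_add_left, ip_add_left, hTu3, ← G.adjoint',
      ← G.adjoint', ip_bv_right, ip_bv_right]
    norm_num
    rw [A.St (by norm_num) (by norm_num) (by norm_num), A.S_s (by norm_num) (by norm_num)]
    norm_num
    rw [hu5]
    unfold t s r
    simp only [hE']
    norm_num
  have hR : ip (G.S (A.t 3)) (G.S (bv (G.bar x))) = 1 + ip (A.u 4) (G.S (bv (G.bar x))) := by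
    rw [A.St (by norm_num) (by norm_num) (by norm_num), ip_add_left, ip_add_left, ← G.adjoint,
      ← G.adjoint, ip_bv_right, ip_bv_right]
    norm_num
    rw [A.Tt (by norm_num) (by norm_num), A.T_s (by norm_num) (by norm_num)]
    norm_num
    rw [hu2]
    unfold t s r
    simp only [hE']
    norm_num
  have h4 : ip (A.u 4) (G.S (bv (G.bar x))) = 0 := by
    have := G.normal (A.t 3) (bv (G.bar x))
    rw [hL, hR] at this
    linarith
  have h1 : ip (A.u 1) (G.T (bv x)) = 0 := by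
    have h := A.bar_u (by norm_num) 4
    norm_num at h
    rw [← G.ip_bar_bar, h, G.bar_S, G.bar'_bv, G.bar_bar] at h4
    exact h4
  -- the triangle
  obtain ⟨a', b', ha', hb', hab', hE0⟩ := A.E_ex (a := (4:ℕ)) (b := 0) ⟨by norm_num, by norm_num, by norm_num⟩
  have ht0 : A.t 0 = bv (A.V a' b') := by
    unfold t
    rw [← hE0, sub_zero]
  have htri := G.tri x (A.V a' b')
  have hS : 1 ≤ G.S (bv x) (A.V a' b') := by
    have h1 := A.S_ge hG (j := 0) (by norm_num) (by norm_num) x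
    have h3 := smul_le_of_12632 hx0' (A.t_nonneg 0) h1
    have h4 := h3 (A.V a' b')
    rw [ht0, bv_apply_self_12632] at h4
    exact h4
  have hTT : G.T (G.T (bv x)) (A.V a' b') = 0 := by
    rw [← ip_bv_right, ← ht0, G.adjoint, A.St (by norm_num) (by norm_num) (by norm_num),
      ip_add_right, ip_add_right, A.t_out (by norm_num), ip_zero_right, zero_add, G.adjoint,
      A.S_s (by norm_num) (by norm_num), ip_bv_left]
    rw [show (0:ℤ) + 1 = 1 by norm_num, ip_comm (G.T (bv x)) (A.u 1), h1]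
    rw [Finsupp.add_apply, Finsupp.add_apply]
    unfold t s r
    simp only [hE]
    norm_num
  rw [hTT] at htri
  linarith


theorem e_zero_four (hG : A.Good) (hn : n = 4) (hp : 2 ≤ A.p) {k : ℤ} (h1 : 1 ≤ k) (h2 : k ≤ n) :
    ip (A.u 0) (A.u k) = 0 := by
  subst hn
  by_cases hk : k = 3
  · subst hk; exact A.e_three_12632 hG hp
  · have hk' : k = 1 ∨ k = 2 ∨ k = 4 := by push_cast at h2; omega
    apply G.ip_grade (A.Gr_u 0) (A.Gr_u k)
    rcases hk' with rfl | rfl | rfl <;> decide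

end Arr
end Pool.Agent.Helper363.Nita
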