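import Pool.Agent.Helper363.Nita.K2.TV
import Pool.Agent.Helper363.Nita.K2.TN4

namespace Pool.Agent.Helper363.Nita

open Finsupp

variable {G : NG} {n : ℕ}

namespace Arr
variable (A : Arr G n)

theorem aux4_dg_ge {x w : G.B →₀ ℤ} (c : ℤ) (hx : 0 ≤ x) (h : ∀ y, c * w y ≤ G.d y) :
    c * ip x w ≤ G.dg x := by
  unfold ip NG.dg Finsupp.sum
  rw [Finset.mul_sum]
  apply Finset.sum_le_sum
  intro y _
  have h1 := hx y
  have h2 := h y
  simp only [Finsupp.coe_zero, Pi.zero_apply] at h1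
  nlinarith

theorem p_le_three_four (hG : A.Good) (hn : n = 4) (hp : 2 ≤ A.p) : A.p ≤ 3 := by
  have h3 : ip (A.u 0) (A.u 3) = 0 := A.e_zero_four hG hn hp (by norm_num) (by omega)
  have h1 := G.dg_nonneg (A.v_nonneg hG h3 (j := 2) (by norm_num) (by omega))
  rw [A.dg_v (by norm_num) (by omega)] at h1
  subst hn
  norm_num [dimZ] at h1
  omega

/-- a positive inner product gives a common constituent -/
theorem aux4_common {x y : G.B →₀ ℤ} (hx : 0 ≤ x) (hy : 0 ≤ y) (h : 0 < ip x y) :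
    ∃ b, 1 ≤ x b ∧ 1 ≤ y b := by
  by_contra hc
  push Not at hc
  have h1 : ip x y = 0 := by
    unfold ip Finsupp.sum
    apply Finset.sum_eq_zero
    intro b _
    have h2 := hx b
    have h3 := hy b
    simp only [Finsupp.coe_zero, Pi.zero_apply] at h2 h3
    by_cases h4 : 1 ≤ x b
    · have h5 := hc b h4
      have h6 : y b = 0 := by omega
      change x b * y b = 0
      rw [h6, mul_zero]
    · have h6 : x b = 0 := by omega
      change x b * y b = 0
      rw [h6, zero_mul]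
  omega

/-- two distinct constituents -/
theorem aux4_two {x : G.B →₀ ℤ} (hx : 0 ≤ x) {b c : G.B} (hbc : b ≠ c) (hb : 1 ≤ x b)
    (hc : 1 ≤ x c) : G.d b + G.d c ≤ G.dg x := by
  have h : bv b + bv c ≤ x := by
    intro a
    have h1 := hx a
    simp only [Finsupp.coe_zero, Pi.zero_apply] at h1
    simp only [Finsupp.coe_add, Pi.add_apply]
    by_cases h2 : b = a
    · subst h2
      have h3 : (bv c : G.B →₀ ℤ) b = 0 := by simp [bv, Finsupp.single_apply, hbc.symm]
      have h4 : (bv b : G.B →₀ ℤ) b = 1 := by simp [bv]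
      omega
    · have h4 : (bv b : G.B →₀ ℤ) a = 0 := by simp [bv, Finsupp.single_apply, h2]
      by_cases h5 : c = a
      · subst h5
        have h3 : (bv c : G.B →₀ ℤ) c = 1 := by simp [bv]
        omega
      · have h3 : (bv c : G.B →₀ ℤ) a = 0 := by simp [bv, Finsupp.single_apply, h5]
        omega
  have h1 := G.dg_mono h
  rwa [G.dg_add, G.dg_bv, G.dg_bv] at h1

/-- structure for norm three -/
theorem three_four (hG : A.Good) (hn : n = 4) (hp : A.p = 3) :
    (∀ j : ℤ, 0 ≤ j → j ≤ n → ip (G.T (A.u j)) (A.u (j + 1)) = 3) ∧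
    (∀ j : ℤ, 0 ≤ j → j ≤ n - 1 → ip (G.T (A.u (j + 2))) (A.u j) = 0) ∧
    (∀ j : ℤ, 1 ≤ j → j ≤ n → ip (G.T (A.u j)) (G.T (A.u j)) = ip (G.T (A.u 1)) (G.T (A.u 1))) ∧
    (ip (G.T (A.u 1)) (G.T (A.u 1)) = 13 ∨ ip (G.T (A.u 1)) (G.T (A.u 1)) = 14) := by
  have hp2 : 2 ≤ A.p := by omega
  have h0 : ∀ k : ℤ, 1 ≤ k → k ≤ n → ip (A.u 0) (A.u k) = 0 := fun k h1 h2 =>
    A.e_zero_four hG hn hp2 h1 h2
  have h3 : ip (A.u 0) (A.u 3) = 0 := h0 3 (by norm_num) (by omega)
  subst hn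
  -- inner products of level five
  have huu : ∀ i k : ℤ, 0 ≤ i → 1 ≤ k → k ≤ 4 → i + k ≤ 5 → ip (A.u i) (A.u (i + k)) = 0 := by
    intro i k h1 h2 h4 h5
    rw [A.ip_u_u hG h1 (by omega) (by push_cast; omega)]
    exact h0 k h2 (by push_cast; omega)
  have hself : ∀ j : ℤ, 0 ≤ j → j ≤ 5 → ip (A.u j) (A.u j) = 3 := by
    intro j h1 h2
    rw [A.ip_u_self hG h1 (by push_cast; omega), hp]
  have hut : ∀ i j : ℤ, ip (A.u i) (A.t j) = 0 := fun i j => A.ip_u_E hG i _ _
  have hus : ∀ i j : ℤ, ip (A.u i) (A.s j) = 0 := fun i j => A.ip_u_E hG i _ _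
  have hunn := A.u_nonneg hG
  -- kap and g
  have k1 : ∀ j : ℤ, 0 ≤ j → j ≤ 3 →
      ip (G.T (A.u j)) (A.u (j + 1)) = 3 + ip (G.T (A.u (j + 2))) (A.u j) := by
    intro j h1 h2
    rw [A.kap_eq hG h3 h1 (by push_cast; omega), hp]
  have k2 : ∀ j : ℤ, 0 ≤ j → j ≤ 3 →
      ip (G.T (A.u (j + 1))) (A.u (j + 2)) = 3 + ip (G.T (A.u (j + 2))) (A.u j) := by
    intro j h1 h2
    rw [A.kap_eq' hG h3 h1 (by push_cast; omega), hp]
  have a0 := k1 0 (by norm_num) (by norm_num)
  have a1 := k1 1 (by norm_num) (by norm_num)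
  have a2 := k1 2 (by norm_num) (by norm_num)
  have a3 := k1 3 (by norm_num) (by norm_num)
  have b0 := k2 0 (by norm_num) (by norm_num)
  have b1 := k2 1 (by norm_num) (by norm_num)
  have b2 := k2 2 (by norm_num) (by norm_num)
  have b3 := k2 3 (by norm_num) (by norm_num)
  norm_num at a0 a1 a2 a3 b0 b1 b2 b3
  -- the vector v 3
  have hv3 : 0 ≤ A.v 3 := A.v_nonneg hG h3 (by norm_num) (by norm_num)
  have hdv : G.dg (A.v 3) = 10 := by
    rw [A.dg_v (by norm_num) (by norm_num), hp]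
    norm_num [dimZ]
  have hTu3 : G.T (A.u 3) = A.v 3 + A.u 4 + (3 : ℤ) • A.t 2 := by
    have := A.T_u_eq (j := 3) (by norm_num)
    rw [hp] at this
    norm_num at this
    exact this
  have hSu2 : G.S (A.u 2) = A.v 3 + A.u 1 + (3 : ℤ) • A.t 2 := by
    have := A.S_u_eq (by norm_num) (j := 3) (by norm_num) (by norm_num)
    rw [hp] at this
    norm_num at this
    exact this
  have hv3eq : A.v 3 = G.T (A.u 3) - A.u 4 - (3 : ℤ) • A.t 2 := by
    rw [hTu3]; abel
  have hv1 : ip (A.v 3) (A.u 1) = ip (G.T (A.u 3)) (A.u 1) := by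
    rw [hv3eq, ip_sub_left, ip_sub_left, ip_smul_left, ip_comm (A.u 4), ip_comm (A.t 2), hut]
    have := huu 1 3 (by norm_num) (by norm_num) (by norm_num) (by norm_num)
    norm_num at this
    rw [this]; ring
  have hv4 : ip (A.v 3) (A.u 4) = ip (G.T (A.u 3)) (A.u 4) - 3 := by
    rw [hv3eq, ip_sub_left, ip_sub_left, ip_smul_left, ip_comm (A.t 2), hut,
      hself 4 (by norm_num) (by norm_num)]
    ring
  have hlam1 : ∀ c, A.u 1 c ≠ 0 → 9 ≤ G.d c := by
    intro c hc
    have := A.lam hG h3 (q := 1) (by norm_num) (by norm_num) hc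
    norm_num [dimZ] at this
    omega
  have hlam2 : ∀ c, A.u 2 c ≠ 0 → 12 ≤ G.d c := by
    intro c hc
    have := A.lam hG h3 (q := 2) (by norm_num) (by norm_num) hc
    norm_num [dimZ] at this
    omega
  have hlam4 : ∀ c, A.u 4 c ≠ 0 → 9 ≤ G.d c := by
    intro c hc
    have h1 := A.bar_u (by norm_num) 4
    norm_num at h1
    rw [← G.d_bar]
    apply hlam1
    rw [← h1, G.bar'_apply, G.bar_bar]
    exact hc
  have hg1 : ip (G.T (A.u 3)) (A.u 1) = 0 := by
    have hnn : 0 ≤ ip (G.T (A.u 3)) (A.u 1) := ip_nonneg (G.T_pos (hunn 3)) (hunn 1)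
    by_contra hne
    have hpos : 0 < ip (A.v 3) (A.u 1) := by rw [hv1]; omega
    have hpos' : 0 < ip (A.v 3) (A.u 4) := by rw [hv4]; omega
    obtain ⟨b, hb1, hb2⟩ := aux4_common hv3 (hunn 1) hpos
    obtain ⟨c, hc1, hc2⟩ := aux4_common hv3 (hunn 4) hpos'
    have hbc : b ≠ c := by
      rintro rfl
      have h5 := mul_le_ip (hunn 1) (hunn 4) b
      have := huu 1 3 (by norm_num) (by norm_num) (by norm_num) (by norm_num)
      norm_num at this
      rw [this] at h5
      nlinarith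
    have h6 := aux4_two hv3 hbc hb1 hc1
    have h7 := hlam1 b (by omega)
    have h8 := hlam4 c (by omega)
    omega
  have hkap : ∀ j : ℤ, 0 ≤ j → j ≤ (4 : ℤ) → ip (G.T (A.u j)) (A.u (j + 1)) = 3 := by
    intro j h1 h2
    obtain rfl | rfl | rfl | rfl | rfl : j = 0 ∨ j = 1 ∨ j = 2 ∨ j = 3 ∨ j = 4 := by omega
    all_goals norm_num
    all_goals omega
  have hgz : ∀ j : ℤ, 0 ≤ j → j ≤ (3 : ℤ) → ip (G.T (A.u (j + 2))) (A.u j) = 0 := by
    intro j h1 h2
    have h4 := k1 j h1 h2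
    have h5 := hkap j h1 (by omega)
    omega
  -- constant norms
  have hN : ∀ j : ℤ, 1 ≤ j → j ≤ (3 : ℤ) →
      ip (G.T (A.u (j + 1))) (G.T (A.u (j + 1))) = ip (G.T (A.u j)) (G.T (A.u j)) := by
    intro j h1 h2
    have h4 := A.R2 (by norm_num) (j := j) (by omega) (by push_cast; omega)
    have h5 : G.T (A.u (j + 1)) - A.u (j + 2) = G.S (A.u j) - A.u (j - 1) := by
      rw [sub_eq_sub_iff_add_eq_add, h4]
    have h6 := congrArg (fun x => ip x x) h5
    simp only [ip_sub_left, ip_sub_right] at h6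
    have e1 : ip (G.T (A.u (j + 1))) (A.u (j + 2)) = 3 := by
      have := hkap (j + 1) (by omega) (by omega)
      rwa [show j + 1 + 1 = j + 2 by ring] at this
    have e2 : ip (G.S (A.u j)) (A.u (j - 1)) = 3 := by
      rw [G.adjoint', ip_comm]
      have := hkap (j - 1) (by omega) (by omega)
      rwa [show j - 1 + 1 = j by ring] at this
    rw [ip_comm (A.u (j + 2)), ip_comm (A.u (j - 1)), e1, e2, hself (j + 2) (by omega) (by omega),
      hself (j - 1) (by omega) (by omega), ← G.normal] at h6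
    linarith
  have hN' : ∀ j : ℤ, 1 ≤ j → j ≤ (4 : ℤ) →
      ip (G.T (A.u j)) (G.T (A.u j)) = ip (G.T (A.u 1)) (G.T (A.u 1)) := by
    intro j h1 h2
    have n1 := hN 1 (by norm_num) (by norm_num)
    have n2 := hN 2 (by norm_num) (by norm_num)
    have n3 := hN 3 (by norm_num) (by norm_num)
    norm_num at n1 n2 n3
    obtain rfl | rfl | rfl | rfl : j = 1 ∨ j = 2 ∨ j = 3 ∨ j = 4 := by omega
    · rfl
    · exact n1
    · rw [n2, n1]
    · rw [n3, n2, n1]
  -- the norm of v 3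
  have hTt : ip (G.T (A.u 3)) (A.t 2) = 3 := by
    rw [G.adjoint, A.St (by norm_num) (by norm_num) (by norm_num), ip_add_right, ip_add_right,
      hut, hus]
    norm_num
    exact hself 3 (by norm_num) (by norm_num)
  have htt : ip (A.t 2) (A.t 2) = 1 := by
    rw [A.ip_t_t (by norm_num) (by norm_num) (by norm_num) (by norm_num) (by norm_num)]
    simp
  have hk3 := hkap 3 (by norm_num) (by norm_num)
  norm_num at hk3
  have hP : ip (A.v 3) (A.v 3) = ip (G.T (A.u 1)) (G.T (A.u 1)) - 12 := by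
    rw [← hN' 3 (by norm_num) (by norm_num)]
    conv_lhs => rw [hv3eq]
    simp only [ip_sub_left, ip_sub_right, ip_smul_left, ip_smul_right]
    rw [ip_comm (A.u 4) (G.T (A.u 3)), ip_comm (A.t 2) (G.T (A.u 3)), ip_comm (A.t 2) (A.u 4),
      hTt, htt, hk3, hut, hself 4 (by norm_num) (by norm_num)]
    ring
  have hd : ∀ z, 4 * A.v 3 z ≤ G.d z := by
    intro z
    have h4 : 12 * ip (G.T (bv z)) (A.u 2) ≤ G.dg (G.T (bv z)) := by
      apply aux4_dg_ge 12
      · exact G.T_nonneg z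
      · intro y
        have h5 := mul_le_ip (hunn 2) (hunn 2) y
        rw [hself 2 (by norm_num) (by norm_num)] at h5
        have h6 := hunn 2 y
        simp only [Finsupp.coe_zero, Pi.zero_apply] at h6
        have h7 : A.u 2 y ≤ 1 := by nlinarith
        by_cases h8 : A.u 2 y = 0
        · rw [h8]
          have := G.d_pos y
          omega
        · have := hlam2 y h8
          omega
    rw [G.dg_T, G.dg_bv, G.adjoint, ip_bv_left, hSu2] at h4
    simp only [Finsupp.coe_add, Pi.add_apply, Finsupp.coe_smul, Pi.smul_apply, smul_eq_mul] at h4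
    have h5 := hunn 1 z
    have h6 := A.t_nonneg 2 z
    simp only [Finsupp.coe_zero, Pi.zero_apply] at h5 h6
    omega
  have hPle : ip (A.v 3) (A.v 3) ≤ 2 := by
    have := aux4_dg_ge 4 hv3 hd
    rw [hdv] at this
    omega
  have hPge : 1 ≤ ip (A.v 3) (A.v 3) := by
    have h4 := ip_self_nonneg (A.v 3)
    by_contra hlt
    have h5 : ip (A.v 3) (A.v 3) = 0 := by omega
    have h6 := ip_self_eq_zero h5
    rw [h6, G.dg_zero] at hdv
    omega
  refine ⟨fun j h1 h2 => hkap j h1 (by push_cast at h2; omega),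
    fun j h1 h2 => hgz j h1 (by push_cast at h2; omega),
    fun j h1 h2 => hN' j h1 (by push_cast at h2; omega), by omega⟩

end Arr
end Pool.Agent.Helper363.Nita
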