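import Pool.Agent.Helper363.Nita.K2.TV

namespace Pool.Agent.Helper363.Nita

open Finsupp

variable {G : NG} {n : ℕ}

namespace Arr
variable (A : Arr G n)

/-- a common constituent of two rests -/
theorem y_ex (h : A.Good2) (hn : n ≤ 6) {k : ℤ} (h1 : 1 ≤ k) (h2 : k + 3 ≤ n + 1)
    (hk : ip (A.v k) (A.v (k + 3)) ≠ 0) :
    ∃ y : G.B, 1 ≤ A.v k y ∧ 1 ≤ A.v (k + 3) y ∧ (∀ j, A.u j y = 0) ∧ (∀ a b, A.E a b y = 0) ∧
      G.gr y = (n : ZMod 3) + 2 - 2 * k := by
  have hn4 := h.good.hn
  have h3 : ip (A.u 0) (A.u 3) = 0 := h.e0 3 (by norm_num) (by omega)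
  have hv1 := A.v_nonneg h.good h3 h1 (by linarith : k ≤ n + 1)
  have hv2 := A.v_nonneg h.good h3 (by linarith : 1 ≤ k + 3) h2
  obtain ⟨y, hy⟩ : ∃ y, A.v k y * A.v (k + 3) y ≠ 0 := by
    by_contra hcon
    push Not at hcon
    apply hk
    unfold ip
    exact Finset.sum_eq_zero fun b _ => hcon b
  have hy1 : A.v k y ≠ 0 := left_ne_zero_of_mul hy
  have hy2 : A.v (k + 3) y ≠ 0 := right_ne_zero_of_mul hy
  have e1 : 1 ≤ A.v k y := by
    have := hv1 y
    simp only [Finsupp.coe_zero, Pi.zero_apply] at this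
    omega
  have e2 : 1 ≤ A.v (k + 3) y := by
    have := hv2 y
    simp only [Finsupp.coe_zero, Pi.zero_apply] at this
    omega
  have hgr := A.Gr_v h1 (by linarith : k ≤ n + 1) y hy1
  refine ⟨y, e1, e2, ?_, ?_, hgr⟩
  · intro j
    by_cases hj : j < 0 ∨ (n : ℤ) + 1 < j
    · rw [A.u_out hj]; rfl
    · push Not at hj
      by_contra hne
      have hu := A.u_nonneg h.good j y
      simp only [Finsupp.coe_zero, Pi.zero_apply] at hu
      have hu1 : 1 ≤ A.u j y := by omega
      have hgr2 := A.Gr_u j y hne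
      have hz : ((j - (k + 1) : ℤ) : ZMod 3) = 0 := by
        rw [hgr] at hgr2
        have h3' : (3 : ZMod 3) = 0 := by decide
        push_cast
        linear_combination 2 * hgr2 + (k - j - 1) * h3'
      have hdvd : (3 : ℤ) ∣ j - (k + 1) := by
        have := (ZMod.intCast_zmod_eq_zero_iff_dvd (j - (k + 1)) 3).1 hz
        simpa using this
      have hcase : j = k + 1 ∨ j = k - 2 ∨ j = k + 3 + 1 := by omega
      rcases hcase with hj1 | hj1 | hj1
      · have h5 := mul_le_ip hv1 (A.u_nonneg h.good j) y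
        rw [hj1, A.ip_v_next h h1 (by linarith)] at h5
        rw [hj1] at hu1
        nlinarith
      · have h5 := mul_le_ip hv1 (A.u_nonneg h.good j) y
        rw [hj1, A.ip_v_prev h h1 (by linarith)] at h5
        rw [hj1] at hu1
        nlinarith
      · have h5 := mul_le_ip hv2 (A.u_nonneg h.good j) y
        rw [hj1, A.ip_v_next h (by linarith) h2] at h5
        rw [hj1] at hu1
        nlinarith
  · intro a b
    have h5 := mul_le_ip hv1 (A.E_nonneg a b) y
    rw [A.ip_v_E h.good h.e0 h1 (by linarith) a b] at h5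
    have h6 := A.E_nonneg a b y
    simp only [Finsupp.coe_zero, Pi.zero_apply] at h6
    nlinarith

end Arr
end Pool.Agent.Helper363.Nita
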