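import Pool.Agent.Helper363.Nita.K2.SB1
import Pool.Agent.Helper363.Nita.K2.SB2
import Pool.Agent.Helper363.Nita.K2.SB3
import Pool.Agent.Helper363.Nita.K2.SB4
import Pool.Agent.Helper363.Nita.K2.DefF
import Pool.Agent.Helper363.Nita.K2.Sound
import Pool.Agent.Helper363.Nita.K2.TE
import Pool.Agent.Helper363.Nita.K2.TY
import Pool.Agent.Helper363.Nita.K2.TF
import Pool.Agent.Helper363.Nita.K2.TL
import Pool.Agent.Helper363.Nita.K2.TP4
import Pool.Agent.Helper363.Nita.K2.TC3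

namespace Pool.Agent.Helper363.Nita.K2

variable {G : NG} {n : ℕ}

theorem contra_3_aux {A : Arr G 4} (hG : A.Good) (R : ℕ) (hR0 : R ≠ 0)
    (h0 : ∀ k : ℤ, 1 ≤ k → k ≤ 4 → ip (A.u 0) (A.u k) = 0)
    (hkap : ∀ j : ℤ, 0 ≤ j → j ≤ 4 → ip (G.T (A.u j)) (A.u (j + 1)) = 3)
    (hg : ∀ j : ℤ, 0 ≤ j → j ≤ 3 → ip (G.T (A.u (j + 2))) (A.u j) = 0)
    (hR : ∀ j : ℤ, 1 ≤ j → j ≤ 4 → ip (G.T (A.u j)) (G.T (A.u j)) = R)
    (z : ℤ → ℕ → G.B)
    (hz1 : ∀ j : ℤ, 1 ≤ j → j ≤ 4 → A.u j = bv (z j 0) + bv (z j 1) + bv (z j 2) ∧ z j 0 ≠ z j 1 ∧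
      z j 0 ≠ z j 2 ∧ z j 1 ≠ z j 2)
    (hz2 : ∀ j : ℤ, 1 ≤ j → j ≤ 3 → ∀ w < 3, 1 ≤ G.T (bv (z j w)) (z (j + 1) w))
    (sw : Bool)
    (hz3 : ∀ j : ℕ, 1 ≤ j → j ≤ 4 → ∀ w < 3, sgS sw 4 j w < 3 ∧
      G.bar (z j w) = z ((4 : ℤ) + 1 - j) (sgS sw 4 j w))
    (hc : C3 R sw) : False := by
  have horth : ∀ i j : ℤ, ((1 : ℕ) : ℤ) ≤ i → i ≤ ((4 : ℕ) : ℤ) + 1 - ((1 : ℕ) : ℤ) → 0 ≤ j →
      j ≤ ((4 : ℕ) : ℤ) + 1 → i ≠ j → ip (A.u i) (A.u j) = 0 := by
    intro i j hi hi' hj hj' hij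
    push_cast at hi hi' hj'
    rcases lt_or_gt_of_ne hij with h | h
    · have h1 := A.ip_u_u hG (i := i) (k := j - i) (by linarith) (by linarith) (by push_cast; linarith)
      rw [show i + (j - i) = j by ring] at h1
      rw [h1]
      exact h0 _ (by linarith) (by linarith)
    · have h1 := A.ip_u_u hG (i := j) (k := i - j) (by linarith) (by linarith) (by push_cast; linarith)
      rw [show j + (i - j) = i by ring] at h1
      rw [ip_comm, h1]
      exact h0 _ (by linarith) (by linarith)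
  have hu : ∀ j : ℤ, ((1 : ℕ) : ℤ) ≤ j → j ≤ ((4 : ℕ) : ℤ) + 1 - ((1 : ℕ) : ℤ) →
      A.u j = ∑ w ∈ Finset.range 3, bv (z j w) := by
    intro j hj hj'
    push_cast at hj hj'
    rw [(hz1 j (by linarith) (by linarith)).1]
    simp [Finset.sum_range_succ]
  have hne : ∀ j : ℤ, ((1 : ℕ) : ℤ) ≤ j → j ≤ ((4 : ℕ) : ℤ) + 1 - ((1 : ℕ) : ℤ) → ∀ w < 3, ∀ w' < 3,
      z j w = z j w' → w = w' := by
    intro j hj hj' w hw w' hw' h
    push_cast at hj hj'
    obtain ⟨-, a1, a2, a3⟩ := hz1 j (by linarith) (by linarith)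
    interval_cases w <;> interval_cases w'
    · rfl
    · exact absurd h a1
    · exact absurd h a2
    · exact absurd h.symm a1
    · rfl
    · exact absurd h a3
    · exact absurd h.symm a2
    · exact absurd h.symm a3
    · rfl
  have hX : XSat A (xz 1 3 z) (xwin 4 1 3 (sgS sw 4) true []) := by
    refine xwin_sat hG (le_refl 1) (by norm_num) hu hne ?_ ?_ ?_ horth
    · intro j hj hj' w hw
      have := hz3 j hj (by omega) w hw
      exact_mod_cast this
    · intro _ j hj hj' w hw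
      have := hz2 j (by exact_mod_cast hj) (by omega) w hw
      exact this
    · intro q hq
      simp at hq
  have hC : CSat A (xz 1 3 z) (xwin 4 1 3 (sgS sw 4) true []).nodes.length
      (ctxW 4 1 3 [(1, R, R), (2, R, R), (3, R, R), (4, R, R)] (bK 4 1 3) [] [] []) := by
    refine ctxW_ok (le_refl 1) (by norm_num) (by rw [xwin_length]) (fun i _ => rfl) hu ?_ ?_ ?_ ?_ ?_
    · intro q hq
      have h1 := hR 1 (by norm_num) (by norm_num)
      have h2 := hR 2 (by norm_num) (by norm_num)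
      have h3 := hR 3 (by norm_num) (by norm_num)
      have h4 := hR 4 (by norm_num) (by norm_num)
      simp only [List.mem_cons, List.not_mem_nil, or_false] at hq
      rcases hq with rfl | rfl | rfl | rfl
      · refine ⟨⟨by norm_num, by norm_num⟩, ?_, ?_⟩
        · simp only [Nat.cast_one]; exact h1.ge
        · intro _; simp only [Nat.cast_one]; exact h1.le
      · refine ⟨⟨by norm_num, by norm_num⟩, ?_, ?_⟩
        · exact h2.ge
        · intro _; exact h2.le
      · refine ⟨⟨by norm_num, by norm_num⟩, ?_, ?_⟩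
        · exact h3.ge
        · intro _; exact h3.le
      · refine ⟨⟨by norm_num, by norm_num⟩, ?_, ?_⟩
        · exact h4.ge
        · intro _; exact h4.le
    · intro q hq
      have hb : bK 4 1 3 = [(1, 2, 3, 4), (2, 3, 3, 4), (3, 4, 3, 4), (3, 1, 0, 1), (4, 2, 0, 1)] := by
        decide
      rw [hb] at hq
      have k1 := hkap 1 (by norm_num) (by norm_num)
      have k2 := hkap 2 (by norm_num) (by norm_num)
      have k3 := hkap 3 (by norm_num) (by norm_num)
      have g1 := hg 1 (by norm_num) (by norm_num)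
      have g2 := hg 2 (by norm_num) (by norm_num)
      norm_num at k1 k2 k3 g1 g2
      simp only [List.mem_cons, List.not_mem_nil, or_false] at hq
      rcases hq with rfl | rfl | rfl | rfl | rfl
      · refine ⟨⟨by norm_num, by norm_num⟩, ⟨by norm_num, by norm_num⟩, ?_, ?_⟩
        · push_cast; exact k1.ge
        · intro _; push_cast; rw [k1]; norm_num
      · refine ⟨⟨by norm_num, by norm_num⟩, ⟨by norm_num, by norm_num⟩, ?_, ?_⟩
        · push_cast; exact k2.ge
        · intro _; push_cast; rw [k2]; norm_num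
      · refine ⟨⟨by norm_num, by norm_num⟩, ⟨by norm_num, by norm_num⟩, ?_, ?_⟩
        · push_cast; exact k3.ge
        · intro _; push_cast; rw [k3]; norm_num
      · refine ⟨⟨by norm_num, by norm_num⟩, ⟨by norm_num, by norm_num⟩, ?_, ?_⟩
        · push_cast; exact g1.ge
        · intro _; push_cast; rw [g1]; norm_num
      · refine ⟨⟨by norm_num, by norm_num⟩, ⟨by norm_num, by norm_num⟩, ?_, ?_⟩
        · push_cast; exact g2.ge
        · intro _; push_cast; rw [g2]; norm_num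
    · intro q hq; simp at hq
    · intro q hq; simp at hq
    · intro q hq; simp at hq
  obtain ⟨k, m, hrun⟩ := hc
  unfold run at hrun
  refine sound _ _ _ (build_sat hG hX ?_ (xwin_td (le_refl 1) (by norm_num) hu) hC) hrun
  cases sw <;> decide

theorem contra_3 {A : Arr G n} (hn : n = 4) (hG : A.Good) (hp : A.p = 3)
    (hc : ∀ sw, C3 13 sw ∧ C3 14 sw) : False := by
  subst hn
  have h0 : ∀ k : ℤ, 1 ≤ k → k ≤ (4 : ℕ) → ip (A.u 0) (A.u k) = 0 := fun k h1 h2 =>
    A.e_zero_four hG rfl (by rw [hp]; norm_num) h1 h2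
  obtain ⟨hkap, hg, hR, hR'⟩ := A.three_four hG rfl hp
  obtain ⟨z, hz1, hz2, hz3⟩ := A.chain3 hG h0 hp hkap
  push_cast at h0 hkap hg hR hz1 hz2 hz3
  norm_num at hg hz2
  have key : ∀ sw : Bool, (∀ j : ℕ, 1 ≤ j → j ≤ 4 → ∀ w < 3, sgS sw 4 j w < 3 ∧
      G.bar (z j w) = z ((4 : ℤ) + 1 - j) (sgS sw 4 j w)) → False := by
    intro sw h3
    rcases hR' with h | h
    · exact contra_3_aux hG 13 (by norm_num) h0 hkap hg (fun j h1 h2 => by rw [hR j h1 h2, h]; norm_num)
        z hz1 hz2 sw h3 (hc sw).1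
    · exact contra_3_aux hG 14 (by norm_num) h0 hkap hg (fun j h1 h2 => by rw [hR j h1 h2, h]; norm_num)
        z hz1 hz2 sw h3 (hc sw).2
  rcases hz3 with h | h
  · refine key false ?_
    intro j hj hj' w hw
    have h1 : sgS false 4 j w = w := by simp [sgS]
    rw [h1]
    exact ⟨hw, h j (by exact_mod_cast hj) (by exact_mod_cast hj') w hw⟩
  · refine key true ?_
    intro j hj hj' w hw
    obtain ⟨b0, b1, b2⟩ := h j (by exact_mod_cast hj) (by exact_mod_cast hj')
    have e0 : sgS true 4 j 0 = 1 := by interval_cases j <;> decide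
    have e1 : sgS true 4 j 1 = 0 := by interval_cases j <;> decide
    have e2 : sgS true 4 j 2 = 2 := by interval_cases j <;> decide
    interval_cases w
    · rw [e0]; exact ⟨by norm_num, b0⟩
    · rw [e1]; exact ⟨by norm_num, b1⟩
    · rw [e2]; exact ⟨by norm_num, b2⟩

end Pool.Agent.Helper363.Nita.K2
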