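import Pool.Agent.Helper363.Nita.K2.SB1
import Pool.Agent.Helper363.Nita.K2.SB2
import Pool.Agent.Helper363.Nita.K2.SB3
import Pool.Agent.Helper363.Nita.K2.SB4
import Pool.Agent.Helper363.Nita.K2.DefF
import Pool.Agent.Helper363.Nita.K2.Sound
import Pool.Agent.Helper363.Nita.K2.TE
import Pool.Agent.Helper363.Nita.K2.TY
import Pool.Agent.Helper363.Nita.K2.TF
import Pool.Agent.Helper363.Nita.K2.TL

namespace Pool.Agent.Helper363.Nita.K2

variable {G : NG} {n : ℕ}

theorem flat_eq (N : ℕ) : ((List.range N).flatMap fun k => (List.range 2).map fun w =>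
      (wix 0 2 (k + 1) w, wix 0 2 (k + 2) w)) = (List.range (2 * N)).map fun i => (i + 2, i + 4) := by
  induction N with
  | zero => rfl
  | succ N ih =>
    have e : 2 * (N + 1) = 2 * N + 1 + 1 := by ring
    rw [e, List.range_succ (n := 2 * N + 1), List.range_succ (n := 2 * N), List.range_succ (n := N),
      List.flatMap_append, ih]
    have e2 : List.range 2 = [0, 1] := rfl
    rw [e2]
    simp [wix]
    omega

theorem sgS_zero (sw : Bool) (n w : ℕ) : sgS sw n 0 w = w := by
  unfold sgS
  cases sw
  · rfl
  · have : Nat.ble 1 0 = false := rfl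
    rw [this]; rfl

theorem sgS_lt (sw : Bool) (n j w : ℕ) (hw : w < 2) : sgS sw n j w < 2 := by
  unfold sgS
  have hw2 : w = 0 ∨ w = 1 := by omega
  cases (sw && Nat.ble 1 j && Nat.ble j n)
  · exact hw
  · rcases hw2 with rfl | rfl
    · exact (by decide : 1 < 2)
    · exact (by decide : 0 < 2)

theorem arrows_nodup (n : ℕ) (hn : 4 ≤ n) (sw f : Bool) :
    (xwin n 0 2 (sgS sw n) true [(0, 0), (1, bif f then 0 else 1)]).arrows.Nodup := by
  have e : (xwin n 0 2 (sgS sw n) true [(0, 0), (1, bif f then 0 else 1)]).arrows =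
      ((List.range (2 * (n - 1))).map fun i => (i + 2, i + 4)) ++
        [(0, 2), (2 * n + sgS sw n 1 0, 2 * n + 2), (1, 2 + (bif f then 0 else 1)),
          (2 * n + sgS sw n 1 (bif f then 0 else 1), 2 * n + 3)] := by
    unfold xwin
    simp only [cond_true]
    rw [flat_eq]
    congr 1
    simp [wix, sgS_zero]
    omega
  rw [e]
  refine List.Nodup.append ?_ ?_ ?_
  · refine List.Nodup.map ?_ List.nodup_range
    intro a b hab
    simp only [Prod.mk.injEq] at hab
    omega
  · have h1 : sgS sw n 1 0 < 2 := sgS_lt _ _ _ _ (by norm_num)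
    have h2 : sgS sw n 1 (bif f then 0 else 1) < 2 := sgS_lt _ _ _ _ (by cases f <;> decide)
    generalize sgS sw n 1 0 = x at *
    generalize sgS sw n 1 (bif f then 0 else 1) = y at *
    cases f <;> simp <;> omega
  · intro q hq hq2
    simp only [List.mem_map, List.mem_range] at hq
    obtain ⟨i, hi, rfl⟩ := hq
    simp only [List.mem_cons, Prod.mk.injEq, List.not_mem_nil, or_false] at hq2
    omega

theorem contra_E {A : Arr G n} (h : A.EZ) (he : ip (A.u 0) (A.u (n + 1)) = 0) {R : ℕ}
    (hR : ip (G.T (A.u 1)) (G.T (A.u 1)) = R) (hc : ∀ sw f, CE n R sw f) : False := by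
  obtain ⟨c, d, sw, f, hu, har, hbar, ⟨hbc, hbd⟩, h01, h02⟩ := A.chainF h.good2 he
  have hG := h.good2.good
  have hn : 4 ≤ n := hG.hn
  obtain ⟨z, hz0, hz1⟩ : ∃ z : ℤ → ℕ → G.B, (∀ j, z j 0 = c j) ∧ (∀ j, z j 1 = d j) :=
    ⟨fun j w => if w = 0 then c j else d j, fun j => by simp, fun j => by simp⟩
  have hu' : ∀ j : ℤ, ((0 : ℕ) : ℤ) ≤ j → j ≤ n + 1 - ((0 : ℕ) : ℤ) →
      A.u j = ∑ w ∈ Finset.range 2, bv (z j w) := by
    intro j h1 h2
    rw [Finset.sum_range_succ, Finset.sum_range_one, hz0, hz1]
    exact (hu j (by simpa using h1) (by simpa using h2)).1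
  have horth : ∀ i j : ℤ, ((0 : ℕ) : ℤ) ≤ i → i ≤ n + 1 - ((0 : ℕ) : ℤ) → 0 ≤ j → j ≤ n + 1 → i ≠ j →
      ip (A.u i) (A.u j) = 0 := by
    have key : ∀ i j : ℤ, 0 ≤ i → j ≤ n + 1 → i < j → ip (A.u i) (A.u j) = 0 := by
      intro i j h1 h2 h3
      have h4 := A.ip_u_u hG (i := i) (k := j - i) h1 (by omega) (by omega)
      have e : i + (j - i) = j := by ring
      rw [e] at h4
      rw [h4]
      by_cases h5 : j - i ≤ n
      · exact h.good2.e0 _ (by omega) h5
      · have e2 : j - i = n + 1 := by omega
        rw [e2]; exact he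
    intro i j h1 h2 h3 h4 h5
    rcases lt_or_gt_of_ne h5 with h6 | h6
    · exact key i j (by simpa using h1) h4 h6
    · rw [ip_comm]
      exact key j i h3 (by simpa using h2) h6
  have hX : XSat A (xz 0 2 z) (xwin n 0 2 (sgS sw n) true [(0, 0), (1, bif f then 0 else 1)]) := by
    refine xwin_sat hG (by norm_num) (by norm_num) hu' ?_ ?_ ?_ ?_ horth
    · intro j h1 h2 w hw w' hw' hww
      have hne := (hu j (by simpa using h1) (by simpa using h2)).2
      have hw2 : w = 0 ∨ w = 1 := by omega
      have hw2' : w' = 0 ∨ w' = 1 := by omega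
      rcases hw2 with rfl | rfl <;> rcases hw2' with rfl | rfl
      · rfl
      · rw [hz0, hz1] at hww; exact absurd hww hne
      · rw [hz0, hz1] at hww; exact absurd hww.symm hne
      · rfl
    · intro j h1 h2 w hw
      have hw2 : w = 0 ∨ w = 1 := by omega
      by_cases hj0 : j = 0
      · subst hj0
        rw [sgS_zero]
        refine ⟨hw, ?_⟩
        have e : (n : ℤ) + 1 - ((0 : ℕ) : ℤ) = n + 1 := by simp
        rw [e]
        rcases hw2 with rfl | rfl
        · rw [hz0, hz0]; exact_mod_cast hbc
        · rw [hz1, hz1]; exact_mod_cast hbd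
      by_cases hj1 : j = n + 1
      · subst hj1
        have e0 : sgS sw n (n + 1) w = w := by
          unfold sgS
          have : Nat.ble (n + 1) n = false := by
            rw [Bool.eq_false_iff]; intro h; have := Nat.le_of_ble_eq_true h; omega
          simp [this]
        rw [e0]
        refine ⟨hw, ?_⟩
        have e : (n : ℤ) + 1 - ((n + 1 : ℕ) : ℤ) = 0 := by push_cast; ring
        have e' : ((n + 1 : ℕ) : ℤ) = (n : ℤ) + 1 := by push_cast; ring
        rw [e, e']
        rcases hw2 with rfl | rfl
        · rw [hz0, hz0, ← hbc, G.bar_bar]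
        · rw [hz1, hz1, ← hbd, G.bar_bar]
      · have hj2 : 1 ≤ j := by omega
        have hj3 : j ≤ n := by omega
        have hb := hbar (j : ℤ) (by exact_mod_cast hj2) (by exact_mod_cast hj3)
        have t1 : Nat.ble 1 j = true := Nat.ble_eq_true_of_le hj2
        have t2 : Nat.ble j n = true := Nat.ble_eq_true_of_le hj3
        cases sw
        · have e0 : sgS false n j w = w := by simp [sgS]
          rw [e0]
          refine ⟨hw, ?_⟩
          simp only [Bool.false_eq_true, if_false] at hb
          rcases hw2 with rfl | rfl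
          · rw [hz0, hz0, hb.1]
          · rw [hz1, hz1, hb.2]
        · simp only [if_true] at hb
          rcases hw2 with rfl | rfl
          · have e0 : sgS true n j 0 = 1 := by unfold sgS; rw [t1, t2]; rfl
            rw [e0]
            refine ⟨by norm_num, ?_⟩
            rw [hz0, hz1, hb.1]
          · have e0 : sgS true n j 1 = 0 := by unfold sgS; rw [t1, t2]; rfl
            rw [e0]
            refine ⟨by norm_num, ?_⟩
            rw [hz0, hz1, hb.2]
    · intro _ j h1 h2 w hw
      have hw2 : w = 0 ∨ w = 1 := by omega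
      have ha := har (j : ℤ) (by exact_mod_cast h1) (by omega)
      rcases hw2 with rfl | rfl
      · rw [hz0, hz0, ha.1]
      · rw [hz1, hz1, ha.2.2.2]
    · intro q hq
      simp only [List.mem_cons, List.not_mem_nil, or_false] at hq
      rcases hq with rfl | rfl
      · refine ⟨rfl, by norm_num, by norm_num, ?_⟩
        show 1 ≤ G.T (bv (z 0 0)) (z 1 0)
        rw [hz0, hz0]; exact h01
      · refine ⟨rfl, by norm_num, by cases f <;> simp, ?_⟩
        show 1 ≤ G.T (bv (z 0 1)) (z 1 (bif f then 0 else 1))
        rw [hz1]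
        cases f
        · simp only [cond_false]
          rw [hz1]; simpa using h02
        · simp only [cond_true]
          rw [hz0]; simpa using h02
  have hTn : ip (G.T (A.u (n + 1))) (G.T (A.u (n + 1))) = ip (G.T (A.u 0)) (G.T (A.u 0)) := by
    rw [G.normal]
    have e : A.u ((n : ℤ) + 1) = G.bar' (A.u 0) := by
      rw [A.bar_u (by omega) 0]; simp
    rw [e, ← G.bar_T, G.ip_bar_bar]
  have hR8 : 8 ≤ R := by
    have := A.corner h.good2
    rw [hR] at this
    exact_mod_cast this
  have hR0 : ip (G.T (A.u 0)) (G.T (A.u 0)) = ((R - 2 : ℕ) : ℤ) := by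
    rw [A.R_end h.good2, hR]
    push_cast [show 2 ≤ R by omega]
    ring
  have hC : CSat A (xz 0 2 z) (xwin n 0 2 (sgS sw n) true [(0, 0), (1, bif f then 0 else 1)]).nodes.length
      (ctxW n 0 2 (lR n R) (bK n 0 2 ++ bE n) (pE n) [] []) := by
    rw [xwin_length]
    refine ctxW_ok (by norm_num) (by norm_num) le_rfl (fun i _ => rfl) hu' ?_ ?_ ?_ ?_ ?_
    · intro q hq
      simp only [lR, List.mem_map, List.mem_range] at hq
      obtain ⟨j, hj, rfl⟩ := hq
      by_cases hj0 : j = 0
      · subst hj0
        simp only [Nat.beq_refl, Bool.true_or, cond_true]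
        refine ⟨⟨by omega, by omega⟩, ?_, fun _ => ?_⟩
        · have := hR0; push_cast at this ⊢; exact this.ge
        · have := hR0; push_cast at this ⊢; exact this.le
      by_cases hj1 : j = n + 1
      · subst hj1
        simp only [Nat.beq_refl, Bool.or_true, cond_true]
        refine ⟨⟨by omega, by omega⟩, ?_, fun _ => ?_⟩
        · have := hTn.trans hR0; push_cast at this ⊢; exact this.ge
        · have := hTn.trans hR0; push_cast at this ⊢; exact this.le
      · have b1 : Nat.beq j 0 = false := by
          rw [Bool.eq_false_iff]; intro h; exact hj0 (Nat.eq_of_beq_eq_true h)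
        have b2 : Nat.beq j (n + 1) = false := by
          rw [Bool.eq_false_iff]; intro h; exact hj1 (Nat.eq_of_beq_eq_true h)
        rw [b1, b2]
        simp only [Bool.or_false, cond_false]
        have hRj := A.R_const h.good2 (j := (j : ℤ)) (by omega) (by omega)
        rw [hR] at hRj
        exact ⟨⟨by omega, by omega⟩, hRj.ge, fun _ => hRj.le⟩
    · intro q hq
      rw [List.mem_append] at hq
      rcases hq with hq | hq
      · simp only [bK, List.mem_append, List.mem_map, List.mem_range] at hq
        rcases hq with ⟨k, hk, rfl⟩ | ⟨k, hk, rfl⟩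
        · have h1 := h.good2.kap (k : ℤ) (by omega) (by omega)
          simp only [Nat.zero_add]
          refine ⟨⟨by omega, by omega⟩, ⟨by omega, by omega⟩, ?_, fun _ => ?_⟩
          · push_cast; rw [h1]
          · push_cast; rw [h1]; norm_num
        · have h1 := h.good2.gz (k : ℤ) (by omega) (by omega)
          simp only [Nat.zero_add]
          refine ⟨⟨by omega, by omega⟩, ⟨by omega, by omega⟩, ?_, fun _ => ?_⟩
          · push_cast; rw [h1]
          · push_cast; rw [h1]; norm_num
      · simp only [bE, List.mem_append, List.mem_map, List.mem_range] at hq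
        rcases hq with ⟨k, hk, rfl⟩ | ⟨k, hk, rfl⟩
        · have h1 := h.g4 (k : ℤ) (by omega) (by omega)
          refine ⟨⟨by omega, by show _ ≤ n + 1 - 0; simp only []; omega⟩, ⟨by omega, by show _ ≤ n + 1 - 0; simp only []; omega⟩, ?_, fun _ => ?_⟩
          · push_cast; rw [h1]
          · push_cast; rw [h1]; norm_num
        · have h1 := h.g5 (k : ℤ) (by omega) (by omega)
          refine ⟨⟨by omega, by show _ ≤ n + 1 - 0; simp only []; omega⟩, ⟨by omega, by show _ ≤ n + 1 - 0; simp only []; omega⟩, ?_, fun _ => ?_⟩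
          · push_cast; rw [h1]
          · push_cast; rw [h1]; norm_num
    · intro q hq
      simp only [pE, List.mem_map, List.mem_range] at hq
      obtain ⟨k, hk, rfl⟩ := hq
      have h1 := h.ee (k : ℤ) (by omega) (by omega)
      refine ⟨⟨by omega, by omega⟩, ⟨by omega, by omega⟩, ?_⟩
      push_cast; rw [h1]
    · intro q hq; simp at hq
    · intro q hq; simp at hq
  have htd := xwin_td (A := A) (n := n) (a := 0) (m := 2) (sg := sgS sw n) (st := true)
    (en := [(0, 0), (1, bif f then 0 else 1)]) (by norm_num) (by norm_num) hu'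
  have hsat := build_sat hG hX (arrows_nodup n hn sw f) htd hC
  obtain ⟨k, m, hrun⟩ := hc sw f
  exact sound _ _ _ hsat hrun

end Pool.Agent.Helper363.Nita.K2
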