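import Pool.Agent.Helper363.Nita.K2.SB1
import Pool.Agent.Helper363.Nita.K2.SB2
import Pool.Agent.Helper363.Nita.K2.SB3
import Pool.Agent.Helper363.Nita.K2.SB4
import Pool.Agent.Helper363.Nita.K2.DefF
import Pool.Agent.Helper363.Nita.K2.Sound
import Pool.Agent.Helper363.Nita.K2.TE
import Pool.Agent.Helper363.Nita.K2.TY
import Pool.Agent.Helper363.Nita.K2.TF
import Pool.Agent.Helper363.Nita.K2.TL

namespace Pool.Agent.Helper363.Nita.K2

variable {G : NG} {n : ℕ}

theorem contra_G {A : Arr G n} (hG : A.Good) (hp : A.p = 2)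
    (h0 : ∀ k : ℤ, 1 ≤ k → k ≤ n → ip (A.u 0) (A.u k) = 0)
    (hc : ∀ mid, CG n mid) : A.Good2 := by
  have hn := hG.hn
  have h3 : ip (A.u 0) (A.u 3) = 0 := h0 3 (by norm_num) (by exact_mod_cast (by omega : 3 ≤ n))
  have hg : ∀ k : ℕ, (k : ℤ) ≤ n - 1 →
      ip (G.T (A.u ((k : ℤ) + 2))) (A.u k) = ip (G.T (A.u 2)) (A.u 0) := by
    intro k
    induction k with
    | zero => intro _; norm_num
    | succ k ih =>
      intro hk
      have e1 := A.kap_eq hG h3 (j := (k : ℤ) + 1) (by omega) (by push_cast at hk; omega)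
      have e2 := A.kap_eq' hG h3 (j := (k : ℤ)) (by omega) (by push_cast at hk; omega)
      have e3 := ih (by push_cast at hk; omega)
      rw [show (k:ℤ) + 1 + 1 = k + 2 by ring] at e1
      rw [e1] at e2
      push_cast
      linarith
  have hg' : ∀ j : ℤ, 0 ≤ j → j ≤ n - 1 →
      ip (G.T (A.u (j + 2))) (A.u j) = ip (G.T (A.u 2)) (A.u 0) := by
    intro j hj hj'
    lift j to ℕ using hj
    exact hg j hj'
  have hg0 : 0 ≤ ip (G.T (A.u 2)) (A.u 0) :=
    ip_nonneg (G.T_pos (A.u_nonneg hG _)) (A.u_nonneg hG _)
  rcases hg0.eq_or_lt with hz | hpos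
  · refine ⟨hG, hp, h0, ?_, ?_⟩
    · intro j hj hj'
      by_cases hjn : j ≤ n - 1
      · rw [A.kap_eq hG h3 hj hjn, hp, hg' j hj hjn, ← hz]; norm_num
      · have h4 := A.kap_eq' hG h3 (j := j - 1) (by omega) (by omega)
        have h5 := hg' (j-1) (by omega) (by omega)
        rw [show j - 1 + 1 = j by ring, show j - 1 + 2 = j + 1 by ring] at h4
        rw [show j - 1 + 2 = j + 1 by ring] at h5
        rw [h4, hp, h5, ← hz]; norm_num
    · intro j hj hj'
      rw [hg' j hj hj', ← hz]
  · exfalso
    obtain ⟨c, d, mid, hu, hb⟩ := A.lab hG hp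
    have hkap : ∀ j : ℤ, 1 ≤ j → j ≤ n - 1 → 3 ≤ ip (G.T (A.u j)) (A.u (j + 1)) := by
      intro j hj hj'
      rw [A.kap_eq hG h3 (by omega) hj', hp, hg' j (by omega) hj']
      omega
    let z : ℤ → ℕ → G.B := fun j w => if w = 0 then c j else d j
    have hz0 : ∀ j, z j 0 = c j := fun j => rfl
    have hz1 : ∀ j, z j 1 = d j := fun j => rfl
    have hu1 : ∀ j : ℤ, ((1 : ℕ) : ℤ) ≤ j → j ≤ n + 1 - ((1 : ℕ) : ℤ) →
        A.u j = ∑ w ∈ Finset.range 2, bv (z j w) := by
      intro j hj hj'
      push_cast at hj hj'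
      rw [Finset.sum_range_succ, Finset.sum_range_one, hz0, hz1]
      exact (hu j hj (by omega)).1
    have huz : ∀ j : ℤ, 1 ≤ j → j ≤ n → ∀ w < 2, A.u j (z j w) = 1 := by
      intro j hj hj' w hw
      obtain ⟨h1, h2⟩ := hu j hj hj'
      have : w = 0 ∨ w = 1 := by omega
      rcases this with rfl | rfl
      · rw [hz0, h1]
        simp [bv, Finsupp.single_apply, h2.symm]
      · rw [hz1, h1]
        simp [bv, Finsupp.single_apply, h2]
    have hne : ∀ j : ℤ, ((1 : ℕ) : ℤ) ≤ j → j ≤ n + 1 - ((1 : ℕ) : ℤ) →
        ∀ w < 2, ∀ w' < 2, z j w = z j w' → w = w' := by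
      intro j hj hj' w hw w' hw' h
      push_cast at hj hj'
      have h2 := (hu j hj (by omega)).2
      have a1 : w = 0 ∨ w = 1 := by omega
      have a2 : w' = 0 ∨ w' = 1 := by omega
      rcases a1 with rfl | rfl <;> rcases a2 with rfl | rfl
      · rfl
      · rw [hz0, hz1] at h; exact absurd h h2
      · rw [hz0, hz1] at h; exact absurd h.symm h2
      · rfl
    have hbar : ∀ j : ℕ, 1 ≤ j → j ≤ n + 1 - 1 → ∀ w < 2, sgM mid n j w < 2 ∧
        G.bar (z j w) = z ((n : ℤ) + 1 - j) (sgM mid n j w) := by
      intro j hj hj' w hw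
      obtain ⟨b1, b2⟩ := hb j (by exact_mod_cast hj) (by omega)
      have a1 : w = 0 ∨ w = 1 := by omega
      by_cases hm : 2 * j = n + 1
      · have hbeq : Nat.beq (2 * j) (n + 1) = true := by
          rw [hm]; exact Nat.beq_refl _
        have hmz : 2 * (j : ℤ) = n + 1 := by exact_mod_cast hm
        cases mid with
        | true =>
          simp only [hmz, and_self, if_true] at b1 b2
          rcases a1 with rfl | rfl
          · have : sgM true n j 0 = 1 := by simp [sgM, hbeq]
            rw [this, hz0, hz1]; exact ⟨by norm_num, b1⟩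
          · have : sgM true n j 1 = 0 := by
              simp only [sgM, hbeq, Bool.and_self, cond_true]; rfl
            rw [this, hz0, hz1]; exact ⟨by norm_num, b2⟩
        | false =>
          simp at b1 b2
          have : ∀ w, sgM false n j w = w := by intro w; simp [sgM]
          rw [this]
          rcases a1 with rfl | rfl
          · rw [hz0, hz0]; exact ⟨by norm_num, b1⟩
          · rw [hz1, hz1]; exact ⟨by norm_num, b2⟩
      · have hbeq : Nat.beq (2 * j) (n + 1) = false := by
          rw [← Bool.not_eq_true]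
          intro h; exact hm (Nat.eq_of_beq_eq_true h)
        have hmz : ¬ (2 * (j : ℤ) = n + 1 ∧ mid = true) := by
          rintro ⟨h, -⟩; exact hm (by exact_mod_cast h)
        rw [if_neg hmz] at b1 b2
        have : ∀ w, sgM mid n j w = w := by intro w; simp [sgM, hbeq]
        rw [this]
        rcases a1 with rfl | rfl
        · rw [hz0, hz0]; exact ⟨by norm_num, b1⟩
        · rw [hz1, hz1]; exact ⟨by norm_num, b2⟩
    have horth : ∀ i j : ℤ, ((1 : ℕ) : ℤ) ≤ i → i ≤ n + 1 - ((1 : ℕ) : ℤ) → 0 ≤ j → j ≤ n + 1 →
        i ≠ j → ip (A.u i) (A.u j) = 0 := by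
      intro i j hi hi' hj hj' hij
      push_cast at hi hi'
      rcases lt_or_gt_of_ne hij with h | h
      · have := A.ip_u_u hG (i := i) (k := j - i) (by omega) (by omega) (by omega)
        rw [show i + (j - i) = j by ring] at this
        rw [this]
        exact h0 _ (by omega) (by omega)
      · have := A.ip_u_u hG (i := j) (k := i - j) (by omega) (by omega) (by omega)
        rw [show j + (i - j) = i by ring] at this
        rw [ip_comm, this]
        exact h0 _ (by omega) (by omega)
    have hX : XSat A (xz 1 2 z) (xwin n 1 2 (sgM mid n) false []) :=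
      xwin_sat hG (a := 1) (m := 2) le_rfl (by norm_num) hu1 hne hbar
        (by intro h; cases h) (by intro q hq; cases hq) horth
    have htd := xwin_td (A := A) (a := 1) (m := 2) le_rfl (by norm_num) (z := z)
      (sg := sgM mid n) (st := false) (en := []) hu1
    have hC : CSat A (xz 1 2 z) (xwin n 1 2 (sgM mid n) false []).nodes.length
        (ctxW n 1 2 [] (bG n 1) [] (sO n) (sI n)) := by
      refine ctxW_ok (a := 1) (m := 2) le_rfl (by norm_num) (z := z) ?_ (fun i _ => rfl) hu1
        ?_ ?_ ?_ ?_ ?_
      · rw [xwin_length]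
      · intro q hq; cases hq
      · intro q hq
        unfold bG at hq
        rw [List.mem_append, List.mem_map, List.mem_map] at hq
        rcases hq with ⟨k, hk, rfl⟩ | ⟨k, hk, rfl⟩
        · rw [List.mem_range] at hk
          refine ⟨⟨by dsimp only; omega, by dsimp only; omega⟩,
            ⟨by dsimp only; omega, by dsimp only; omega⟩, ?_, fun h => absurd rfl h⟩
          dsimp only
          have := hkap ((1 + k : ℕ) : ℤ) (by push_cast; omega) (by push_cast; omega)
          push_cast at this ⊢
          exact this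
        · rw [List.mem_range] at hk
          refine ⟨⟨by dsimp only; omega, by dsimp only; omega⟩,
            ⟨by dsimp only; omega, by dsimp only; omega⟩, ?_, fun h => absurd rfl h⟩
          dsimp only
          have := hg' ((1 + k : ℕ) : ℤ) (by push_cast; omega) (by push_cast; omega)
          push_cast at this ⊢
          rw [this]
          omega
      · intro q hq; cases hq
      · intro q hq
        unfold sO at hq
        rw [List.mem_flatMap] at hq
        obtain ⟨k, hk, hq⟩ := hq
        rw [List.mem_range] at hk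
        have hq' : ∃ w < 2, q = (k + 1, w) := by
          simp only [List.mem_cons, List.not_mem_nil, or_false] at hq
          rcases hq with rfl | rfl
          · exact ⟨0, by norm_num, rfl⟩
          · exact ⟨1, by norm_num, rfl⟩
        obtain ⟨w, hw, rfl⟩ := hq'
        refine ⟨by dsimp only; omega, by dsimp only; omega, hw, ?_⟩
        dsimp only
        rw [G.adjoint, ip_bv_left]
        have e1 := A.S_u_ge hG h3 (j := ((k + 1 : ℕ) : ℤ)) (by positivity) (by push_cast; omega)
          (z ((k + 1 : ℕ) : ℤ) w)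
        rw [huz _ (by push_cast; omega) (by push_cast; omega) w hw] at e1
        exact e1
      · intro q hq
        unfold sI at hq
        rw [List.mem_flatMap] at hq
        obtain ⟨k, hk, hq⟩ := hq
        rw [List.mem_range] at hk
        have hq' : ∃ w < 2, q = (k + 2, w) := by
          simp only [List.mem_cons, List.not_mem_nil, or_false] at hq
          rcases hq with rfl | rfl
          · exact ⟨0, by norm_num, rfl⟩
          · exact ⟨1, by norm_num, rfl⟩
        obtain ⟨w, hw, rfl⟩ := hq'
        refine ⟨by dsimp only; omega, by dsimp only; omega, hw, ?_⟩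
        dsimp only
        rw [ip_bv_right]
        have e1 := A.T_u_ge hG h3 (j := ((k + 2 : ℕ) : ℤ)) (by push_cast; omega)
          (by push_cast; omega) (z ((k + 2 : ℕ) : ℤ) w)
        rw [huz _ (by push_cast; omega) (by push_cast; omega) w hw] at e1
        exact e1
    have hnd : (xwin n 1 2 (sgM mid n) false []).arrows.Nodup := by
      simp [xwin]
    have hSat := build_sat hG hX hnd htd hC
    obtain ⟨k, m, hrun⟩ := hc mid
    exact sound _ _ _ hSat hrun

end Pool.Agent.Helper363.Nita.K2
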