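import Pool.Agent.Helper363.Nita.K2.SB1
import Pool.Agent.Helper363.Nita.K2.SB2
import Pool.Agent.Helper363.Nita.K2.SB3
import Pool.Agent.Helper363.Nita.K2.SB4
import Pool.Agent.Helper363.Nita.K2.DefF
import Pool.Agent.Helper363.Nita.K2.Sound
import Pool.Agent.Helper363.Nita.K2.TE
import Pool.Agent.Helper363.Nita.K2.TY
import Pool.Agent.Helper363.Nita.K2.TF
import Pool.Agent.Helper363.Nita.K2.TL

namespace Pool.Agent.Helper363.Nita.K2

variable {G : NG} {n : ℕ}

theorem yX_sat_sg (sw : Bool) (n j w : ℕ) (hw : w < 2) : sgS sw n j w < 2 := by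
  unfold sgS
  interval_cases w <;> cases (sw && Nat.ble 1 j && Nat.ble j n) <;> decide

theorem yX_sat_xz {B : Type} {a j w : ℕ} (z : ℤ → ℕ → B) (haj : a ≤ j) (hw : w < 2) :
    xz a 2 z (wix a 2 j w) = z (j : ℤ) w := by
  unfold xz wix
  have h1 : (2 * (j - a) + w) / 2 = j - a := by omega
  have h2 : (2 * (j - a) + w) % 2 = w := by omega
  have h3 : a + (j - a) = j := by omega
  rw [h1, h2, h3]

theorem yX_sat_u1 {A : Arr G n} {a : ℕ} {z : ℤ → ℕ → G.B}
    (hu : ∀ j : ℤ, a ≤ j → j ≤ n + 1 - a → A.u j = ∑ w ∈ Finset.range 2, bv (z j w))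
    (j : ℤ) (h1 : a ≤ j) (h2 : j ≤ n + 1 - a) (w : ℕ) (hw : w < 2) : 1 ≤ A.u j (z j w) := by
  classical
  have h3 : (∑ w ∈ Finset.range 2, bv (z j w)) = bv (z j 0) + bv (z j 1) := by
    simp [Finset.sum_range_succ]
  rw [hu j h1 h2, h3, Finsupp.add_apply]
  interval_cases w
  · simp only [bv, Finsupp.single_apply]
    split_ifs <;> norm_num at *
  · simp only [bv, Finsupp.single_apply]
    split_ifs <;> norm_num at *

theorem yX_sat_dim {n : ℕ} (h4 : 4 ≤ n) (hn : n ≤ 6) {j : ℤ} (h1 : 0 ≤ j) (h2 : j ≤ n + 1) :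
    dimZ (n + 1 - j) j ≤ 90 := by
  interval_cases n <;> (norm_num at h2; interval_cases j <;> norm_num [dimZ])

theorem yX_sat_orth {A : Arr G n} (h : A.Good2) {a : ℕ} (ha : a ≤ 1)
    (he : a = 0 → ip (A.u 0) (A.u (n + 1)) = 0) :
    ∀ i j : ℤ, a ≤ i → i ≤ n + 1 - a → 0 ≤ j → j ≤ n + 1 → i ≠ j → ip (A.u i) (A.u j) = 0 := by
  intro i j h1 h2 h3 h4 hij
  have ha' : (0 : ℤ) ≤ a := Int.natCast_nonneg a
  rcases lt_or_gt_of_ne hij with hlt | hlt
  · have e := A.ip_u_u h.good (i := i) (k := j - i) (by omega) (by omega) (by omega)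
    have e2 : i + (j - i) = j := by ring
    rw [e2] at e
    rw [e]
    by_cases hk : j - i ≤ n
    · exact h.e0 _ (by omega) hk
    · have ha0 : a = 0 := by omega
      have e3 : j - i = n + 1 := by omega
      rw [e3]
      exact he ha0
  · have e := A.ip_u_u h.good (i := j) (k := i - j) (by omega) (by omega) (by omega)
    have e2 : j + (i - j) = i := by ring
    rw [e2] at e
    rw [ip_comm, e]
    by_cases hk : i - j ≤ n
    · exact h.e0 _ (by omega) hk
    · have ha0 : a = 0 := by omega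
      have e3 : i - j = n + 1 := by omega
      rw [e3]
      exact he ha0

/-- the data of a window with a pair of nodes outside the lines -/
theorem yX_sat {A : Arr G n} (h : A.Good2) (hn : n ≤ 6) {a k : ℕ} (ha : a ≤ 1) (hk1 : 1 ≤ k)
    (hk2 : k + 3 ≤ n)
    (he : a = 0 → ip (A.u 0) (A.u (n + 1)) = 0) {z : ℤ → ℕ → G.B} {sw f : Bool}
    (hu : ∀ j : ℤ, a ≤ j → j ≤ n + 1 - a → A.u j = ∑ w ∈ Finset.range 2, bv (z j w))
    (hne : ∀ j : ℤ, a ≤ j → j ≤ n + 1 - a → z j 0 ≠ z j 1)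
    (hbar : ∀ j : ℕ, a ≤ j → j ≤ n + 1 - a → ∀ w < 2,
      G.bar (z j w) = z ((n : ℤ) + 1 - j) (sgS sw n j w))
    (hst : ∀ j : ℕ, 1 ≤ j → j ≤ n - 1 → ∀ w < 2, 1 ≤ G.T (bv (z j w)) (z (j + 1) w))
    (hen : a = 0 → 1 ≤ G.T (bv (z 0 0)) (z 1 0) ∧
      1 ≤ G.T (bv (z 0 1)) (z 1 (bif f then 0 else 1)))
    {y : G.B} (hy : ∀ j, A.u j y = 0) (hyE : ∀ a b, A.E a b y = 0)
    (hgr : G.gr y = (n : ZMod 3) + 2 - 2 * k) {is os : List (ℕ × ℕ)}
    (his : ∀ q ∈ is, (a ≤ q.1 ∧ q.1 ≤ n + 1 - a) ∧ q.2 < 2 ∧ 1 ≤ G.T (bv (z q.1 q.2)) y)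
    (hos : ∀ q ∈ os, (a ≤ q.1 ∧ q.1 ≤ n + 1 - a) ∧ q.2 < 2 ∧ 1 ≤ G.T (bv y) (z q.1 q.2))
    (hisne : is ≠ []) (hmod : (n + 2 + k) % 3 ≠ 0) :
    XSat A (fun i => if i < 2 * (n + 2 - 2 * a) then xz a 2 z i else
      if i = 2 * (n + 2 - 2 * a) then y else G.bar y) (yX n a k sw f is os) := by
  have hXs : XSat A (xz a 2 z) (xwin n a 2 (sgS sw n) true
      (bif Nat.beq a 0 then [(0, 0), (1, bif f then 0 else 1)] else [])) := by
    refine xwin_sat h.good ha (by norm_num) hu ?_ ?_ ?_ ?_ (yX_sat_orth h ha he)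
    · intro j h1 h2 w hw w' hw' hww
      have h3 := hne j h1 h2
      interval_cases w <;> interval_cases w'
      · rfl
      · exact absurd hww h3
      · exact absurd hww.symm h3
      · rfl
    · intro j h1 h2 w hw
      exact ⟨yX_sat_sg sw n j w hw, hbar j h1 h2 w hw⟩
    · intro _
      exact hst
    · intro q hq
      rcases Nat.lt_or_ge a 1 with ha1 | ha1
      · have ha0 : a = 0 := by omega
        subst ha0
        obtain ⟨e1, e2⟩ := hen rfl
        have hq' : q ∈ [((0 : ℕ), (0 : ℕ)), (1, bif f then 0 else 1)] := hq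
        rw [List.mem_cons, List.mem_singleton] at hq'
        rcases hq' with rfl | rfl
        · exact ⟨rfl, by norm_num, by norm_num, e1⟩
        · refine ⟨rfl, by norm_num, ?_, e2⟩
          cases f <;> decide
      · have ha0 : a = 1 := by omega
        subst ha0
        have hq' : q ∈ ([] : List (ℕ × ℕ)) := hq
        simp at hq'
  have hlen : (xwin n a 2 (sgS sw n) true
      (bif Nat.beq a 0 then [(0, 0), (1, bif f then 0 else 1)] else [])).nodes.length
      = 2 * (n + 2 - 2 * a) := xwin_length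
  have hu1 := yX_sat_u1 hu
  -- numbers of nodes
  have hwix : ∀ j w : ℕ, a ≤ j → j ≤ n + 1 - a → w < 2 → wix a 2 j w < 2 * (n + 2 - 2 * a) := by
    intro j w h1 h2 hw
    unfold wix
    omega
  -- degree
  have hdy : G.d y ≤ 400 := by
    obtain ⟨q, hq⟩ := List.exists_mem_of_ne_nil is hisne
    obtain ⟨⟨q1, q2⟩, q3, q4⟩ := his q hq
    have i1 : (a : ℤ) ≤ (q.1 : ℤ) := by exact_mod_cast q1
    have i2 : (q.1 : ℤ) ≤ n + 1 - a := by omega
    have h1 := hu1 (q.1 : ℤ) i1 i2 q.2 q3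
    have h2 := G.mul_d_le_dg (A.u_nonneg h.good (q.1 : ℤ)) (z q.1 q.2)
    rw [A.dg_u (by omega) (by omega)] at h2
    have h3 := yX_sat_dim (by omega : 4 ≤ n) hn (j := (q.1 : ℤ)) (by omega) (by omega)
    have h4 : G.d (z q.1 q.2) ≤ A.u (q.1 : ℤ) (z q.1 q.2) * G.d (z q.1 q.2) :=
      le_mul_of_one_le_left (G.d_pos _).le h1
    have h5 := G.mul_d_le_dg (x := G.T (bv (z q.1 q.2))) (fun b => G.T_nonneg _ _) y
    rw [G.dg_T, G.dg_bv] at h5
    have h6 : G.d y ≤ G.T (bv (z q.1 q.2)) y * G.d y :=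
      le_mul_of_one_le_left (G.d_pos _).le q4
    linarith
  -- grade
  have hg1 : G.gr y = ((Nat.mod (n + 2 + k) 3 : ℕ) : ZMod 3) := by
    rw [hgr]
    have e1 : ((Nat.mod (n + 2 + k) 3 : ℕ) : ZMod 3) = ((n + 2 + k : ℕ) : ZMod 3) :=
      ZMod.natCast_mod (n + 2 + k) 3
    rw [e1]
    push_cast
    have e2 : (3 : ZMod 3) = 0 := by decide
    linear_combination (-(k : ZMod 3)) * e2
  have hyb : G.bar y ≠ y := by
    intro hb
    have e1 := G.gr_bar y
    rw [hb] at e1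
    have e2 : G.gr y = 0 := by
      revert e1
      generalize G.gr y = g
      revert g
      decide
    rw [hg1] at e2
    have e3 : 3 ∣ Nat.mod (n + 2 + k) 3 := (ZMod.natCast_eq_zero_iff _ _).1 e2
    have e4 : Nat.mod (n + 2 + k) 3 < 3 := Nat.mod_lt _ (by norm_num)
    have e5 : Nat.mod (n + 2 + k) 3 = 0 := Nat.eq_zero_of_dvd_of_lt e3 e4
    exact hmod e5
  have hTb : ∀ b c : G.B, G.T (bv (G.bar b)) (G.bar c) = G.T (bv c) b := by
    intro b c
    rw [G.T_bar, ← G.adj]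
  have hcast : ∀ j : ℕ, a ≤ j → j ≤ n + 1 - a → (((n + 1 - j : ℕ) : ℤ)) = (n : ℤ) + 1 - j := by
    intro j h1 h2
    omega
  have key := add2_sat (A := A) (x := xz a 2 z) (by omega : 2 ≤ n) hXs (y := y)
    (r := ⟨Nat.mod (n + 2 + k) 3, 2 * (n + 2 - 2 * a) + 1, 400, []⟩)
    (r' := ⟨negGr (Nat.mod (n + 2 + k) 3), 2 * (n + 2 - 2 * a), 400, []⟩)
    (ar := ((is.flatMap fun q => [(wix a 2 q.1 q.2, 2 * (n + 2 - 2 * a)),
        (2 * (n + 2 - 2 * a) + 1, wix a 2 (n + 1 - q.1) (sgS sw n q.1 q.2))]) ++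
      os.flatMap fun q => [(2 * (n + 2 - 2 * a), wix a 2 q.1 q.2),
        (wix a 2 (n + 1 - q.1) (sgS sw n q.1 q.2), 2 * (n + 2 - 2 * a) + 1)]))
    (by
      rw [hlen]
      intro i hi hxy
      have j1 : (a : ℤ) ≤ ((a + i / 2 : ℕ) : ℤ) := by omega
      have j2 : ((a + i / 2 : ℕ) : ℤ) ≤ n + 1 - a := by omega
      have h1 := hu1 ((a + i / 2 : ℕ) : ℤ) j1 j2 (i % 2) (Nat.mod_lt _ (by norm_num))
      have h2 : z ((a + i / 2 : ℕ) : ℤ) (i % 2) = y := hxy
      rw [h2, hy] at h1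
      norm_num at h1)
    hyb hyE (by rw [hlen]) (by rw [hlen]) (Nat.mod_lt _ (by norm_num)) hg1 rfl (fun _ => hdy) rfl
    (by
      intro k' _
      rw [hy]
      simp [memN])
    (by simp) (by simp) rfl (fun _ _ => rfl)
    (by
      rw [hlen]
      intro q hq
      rw [List.mem_append, List.mem_flatMap, List.mem_flatMap] at hq
      rcases hq with ⟨p, hp, hq⟩ | ⟨p, hp, hq⟩
      · obtain ⟨⟨p1, p2⟩, p3, p4⟩ := his p hp
        have w1 := hwix p.1 p.2 p1 p2 p3
        have w2 := hwix (n + 1 - p.1) (sgS sw n p.1 p.2) (by omega) (by omega)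
          (yX_sat_sg sw n p.1 p.2 p3)
        rw [List.mem_cons, List.mem_singleton] at hq
        rcases hq with rfl | rfl
        · refine ⟨by simp only; omega, by simp only; omega, ?_⟩
          simp only [w1, if_true, lt_irrefl, if_false]
          rw [yX_sat_xz z p1 p3]
          exact p4
        · refine ⟨by simp only; omega, by simp only; omega, ?_⟩
          have c1 : ¬ (2 * (n + 2 - 2 * a) + 1 < 2 * (n + 2 - 2 * a)) := by omega
          have c2 : ¬ (2 * (n + 2 - 2 * a) + 1 = 2 * (n + 2 - 2 * a)) := by omega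
          simp only [w2, if_true, c1, c2, if_false]
          rw [yX_sat_xz z (by omega) (yX_sat_sg sw n p.1 p.2 p3), hcast p.1 p1 p2,
            ← hbar p.1 p1 p2 p.2 p3, hTb]
          exact p4
      · obtain ⟨⟨p1, p2⟩, p3, p4⟩ := hos p hp
        have w1 := hwix p.1 p.2 p1 p2 p3
        have w2 := hwix (n + 1 - p.1) (sgS sw n p.1 p.2) (by omega) (by omega)
          (yX_sat_sg sw n p.1 p.2 p3)
        rw [List.mem_cons, List.mem_singleton] at hq
        rcases hq with rfl | rfl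
        · refine ⟨by simp only; omega, by simp only; omega, ?_⟩
          simp only [w1, if_true, lt_irrefl, if_false]
          rw [yX_sat_xz z p1 p3]
          exact p4
        · refine ⟨by simp only; omega, by simp only; omega, ?_⟩
          have c1 : ¬ (2 * (n + 2 - 2 * a) + 1 < 2 * (n + 2 - 2 * a)) := by omega
          have c2 : ¬ (2 * (n + 2 - 2 * a) + 1 = 2 * (n + 2 - 2 * a)) := by omega
          simp only [w2, if_true, c1, c2, if_false]
          rw [yX_sat_xz z (by omega) (yX_sat_sg sw n p.1 p.2 p3), hcast p.1 p1 p2,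
            ← hbar p.1 p1 p2 p.2 p3, hTb]
          exact p4)
  rw [hlen] at key
  exact key

end Pool.Agent.Helper363.Nita.K2
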