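import Pool.Agent.Helper363.Nita.K2.SB1
import Pool.Agent.Helper363.Nita.K2.SB2
import Pool.Agent.Helper363.Nita.K2.SB3
import Pool.Agent.Helper363.Nita.K2.SB4
import Pool.Agent.Helper363.Nita.K2.DefF
import Pool.Agent.Helper363.Nita.K2.Sound
import Pool.Agent.Helper363.Nita.K2.TE
import Pool.Agent.Helper363.Nita.K2.TY
import Pool.Agent.Helper363.Nita.K2.TF
import Pool.Agent.Helper363.Nita.K2.TL
import Pool.Agent.Helper363.Nita.K2.FY

namespace Pool.Agent.Helper363.Nita.K2

variable {G : NG} {n : ℕ}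

/-- the two labels of a line -/
def zz834 {B : Type} (c d : ℤ → B) (j : ℤ) (w : ℕ) : B := if w = 0 then c j else d j

theorem core834 {A : Arr G n} (h : A.Good2) (hn : n ≤ 6) (he : ip (A.u 0) (A.u (n + 1)) = 0)
    (h2 : 4 ≤ n) (hmod : (n + 3) % 3 ≠ 0) (c d : ℤ → G.B) (sw f : Bool)
    (hu : ∀ j : ℤ, 0 ≤ j → j ≤ n + 1 → A.u j = bv (c j) + bv (d j) ∧ c j ≠ d j)
    (hst : ∀ j : ℤ, 1 ≤ j → j ≤ n - 1 → 1 ≤ G.T (bv (c j)) (c (j + 1)) ∧
      1 ≤ G.T (bv (d j)) (d (j + 1)))
    (hbar : ∀ j : ℤ, 1 ≤ j → j ≤ n →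
      G.bar (c j) = (if sw = true then d (n + 1 - j) else c (n + 1 - j)) ∧
      G.bar (d j) = (if sw = true then c (n + 1 - j) else d (n + 1 - j)))
    (hb0 : G.bar (c 0) = c (n + 1) ∧ G.bar (d 0) = d (n + 1))
    (he0 : 1 ≤ G.T (bv (c 0)) (c 1) ∧ 1 ≤ G.T (bv (d 0)) (if f = true then c 1 else d 1))
    {y : G.B} (hy : ∀ j, A.u j y = 0) (hyE : ∀ a b, A.E a b y = 0)
    (hgr : G.gr y = (n : ZMod 3) + 2 - 2 * 1) {w1 w4 w3 w0 : ℕ} (hw1 : w1 < 2) (hw4 : w4 < 2)
    (hw3 : w3 < 2) (hw0 : w0 < 2)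
    (a1 : 1 ≤ G.T (bv (zz834 c d 1 w1)) y) (a4 : 1 ≤ G.T (bv (zz834 c d 4 w4)) y)
    (b3 : 1 ≤ G.T (bv y) (zz834 c d 3 w3)) (b0 : 1 ≤ G.T (bv y) (zz834 c d 0 w0))
    (hc : CY n 0 1 sw f [(1, w1), (4, w4)] [(3, w3), (0, w0)]) : False := by
  set z := zz834 c d with hz
  have hu' : ∀ j : ℤ, ((0 : ℕ) : ℤ) ≤ j → j ≤ n + 1 - ((0 : ℕ) : ℤ) →
      A.u j = ∑ w ∈ Finset.range 2, bv (z j w) := by
    intro j h1 h3
    rw [(hu j (by simpa using h1) (by simpa using h3)).1, Finset.sum_range_succ,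
      Finset.sum_range_succ, Finset.sum_range_zero, zero_add]
    simp [hz, zz834]
  have hne' : ∀ j : ℤ, ((0 : ℕ) : ℤ) ≤ j → j ≤ n + 1 - ((0 : ℕ) : ℤ) → z j 0 ≠ z j 1 := by
    intro j h1 h3
    have := (hu j (by simpa using h1) (by simpa using h3)).2
    simpa [hz, zz834] using this
  have hbar' : ∀ j : ℕ, 0 ≤ j → j ≤ n + 1 - 0 → ∀ w < 2,
      G.bar (z j w) = z ((n : ℤ) + 1 - j) (sgS sw n j w) := by
    intro j _ h3 w hw
    rcases Nat.eq_zero_or_pos j with rfl | hj
    · have hs : sgS sw n 0 w = w := by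
        unfold sgS
        have : Nat.ble 1 0 = false := rfl
        rw [this, Bool.and_false, Bool.false_and]
        rfl
      rw [hs]
      interval_cases w
      · simpa [hz, zz834] using hb0.1
      · simpa [hz, zz834] using hb0.2
    · rcases Nat.lt_or_ge n j with hj2 | hj2
      · have hjn : j = n + 1 := by omega
        subst hjn
        have hs : sgS sw n (n + 1) w = w := by
          unfold sgS
          have : Nat.ble (n + 1) n = false := by
            rw [Bool.eq_false_iff, ne_eq, Nat.ble_eq]; omega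
          rw [this, Bool.and_false]
          rfl
        rw [hs]
        have e1 : G.bar (c (n + 1)) = c 0 := by rw [← hb0.1, G.bar_bar]
        have e2 : G.bar (d (n + 1)) = d 0 := by rw [← hb0.2, G.bar_bar]
        have e3 : ((n : ℤ) + 1 - ((n + 1 : ℕ) : ℤ)) = 0 := by push_cast; ring
        rw [e3]
        interval_cases w
        · simpa [hz, zz834] using e1
        · simpa [hz, zz834] using e2
      · have hb := hbar j (by omega) (by omega)
        have t1 : Nat.ble 1 j = true := by rw [Nat.ble_eq]; omega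
        have t2 : Nat.ble j n = true := by rw [Nat.ble_eq]; omega
        have hs : sgS sw n j w = if sw = true then 1 - w else w := by
          unfold sgS
          rw [t1, t2]
          cases sw <;> interval_cases w <;> rfl
        rw [hs]
        cases sw
        · interval_cases w
          · simpa [hz, zz834] using hb.1
          · simpa [hz, zz834] using hb.2
        · interval_cases w
          · simpa [hz, zz834] using hb.1
          · simpa [hz, zz834] using hb.2
  have hst' : ∀ j : ℕ, 1 ≤ j → j ≤ n - 1 → ∀ w < 2, 1 ≤ G.T (bv (z j w)) (z (j + 1) w) := by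
    intro j h1 h3 w hw
    have := hst j (by omega) (by omega)
    interval_cases w
    · simpa [hz, zz834] using this.1
    · simpa [hz, zz834] using this.2
  have hen' : (0 : ℕ) = 0 → 1 ≤ G.T (bv (z 0 0)) (z 1 0) ∧
      1 ≤ G.T (bv (z 0 1)) (z 1 (bif f then 0 else 1)) := by
    intro _
    cases f
    · simpa [hz, zz834] using he0
    · simpa [hz, zz834] using he0
  have hX := yX_sat (a := 0) (k := 1) h hn (by omega) le_rfl (by omega) (fun _ => he) (z := z)
    (sw := sw) (f := f) hu' hne' hbar' hst' hen' hy hyE (by simpa using hgr)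
    (is := [(1, w1), (4, w4)]) (os := [(3, w3), (0, w0)])
    (by
      intro q hq
      simp only [List.mem_cons, List.not_mem_nil, or_false] at hq
      rcases hq with rfl | rfl
      · exact ⟨⟨by omega, by omega⟩, hw1, by simpa using a1⟩
      · exact ⟨⟨by omega, by omega⟩, hw4, by simpa using a4⟩)
    (by
      intro q hq
      simp only [List.mem_cons, List.not_mem_nil, or_false] at hq
      rcases hq with rfl | rfl
      · exact ⟨⟨by omega, by omega⟩, hw3, by simpa using b3⟩
      · exact ⟨⟨by omega, by omega⟩, hw0, by simpa using b0⟩)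
    (by simp) (by omega)
  obtain ⟨K, m, hrun⟩ := hc
  have hlen : (yX n 0 1 sw f [(1, w1), (4, w4)] [(3, w3), (0, w0)]).nodes.length =
      2 * (n + 2 - 2 * 0) + 2 := by
    show (_ ++ _ : List XNode).length = _
    rw [List.length_append, xwin_length]
    rfl
  refine sound _ _ _ (build_sat h.good hX ?_ ?_ ?_) hrun
  · -- no repetitions
    clear hX hrun a1 a4 b3 b0 hen' hst' hbar' hne' hu' hgr hyE hy he0 hb0 hbar hst hu he h hmod hlen
    interval_cases n <;> interval_cases w1 <;> interval_cases w4 <;> interval_cases w3 <;>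
      interval_cases w0 <;> cases sw <;> cases f <;> decide
  · intro k hk htd b hb
    obtain ⟨i, hi, hbi⟩ := xwin_td (a := 0) (m := 2) (sg := sgS sw n) (st := true)
      (en := (bif Nat.beq 0 0 then [(0, 0), (1, bif f then 0 else 1)] else []))
      (by omega) (by omega) hu' k hk htd b hb
    rw [xwin_length] at hi
    refine ⟨i, by rw [hlen]; omega, ?_⟩
    rw [if_pos hi]
    exact hbi
  · rw [hlen]
    refine ctxW_ok (by omega) (by omega) (by omega) (fun i hi => if_pos hi) hu' (by simp) ?_ (by simp)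
      (by simp) (by simp)
    intro q hq
    unfold bK at hq
    rw [List.mem_append] at hq
    rcases hq with hq | hq
    · rw [List.mem_map] at hq
      obtain ⟨k, hk, rfl⟩ := hq
      rw [List.mem_range] at hk
      have hkap := h.kap k (by omega) (by omega)
      simp only [Nat.zero_add]
      refine ⟨⟨by omega, by omega⟩, ⟨by omega, by omega⟩, ?_, ?_⟩
      · push_cast; rw [hkap]
      · intro _; push_cast; rw [hkap]; norm_num
    · rw [List.mem_map] at hq
      obtain ⟨k, hk, rfl⟩ := hq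
      rw [List.mem_range] at hk
      have hgz := h.gz k (by omega) (by omega)
      simp only [Nat.zero_add]
      refine ⟨⟨by omega, by omega⟩, ⟨by omega, by omega⟩, ?_, ?_⟩
      · push_cast; rw [hgz]
      · intro _; push_cast; rw [hgz]; norm_num

theorem y_contra0 {A : Arr G n} (h : A.Good2) (hn : n ≤ 6) (he : ip (A.u 0) (A.u (n + 1)) = 0)
    (h2 : 4 ≤ n) (hmod : (n + 3) % 3 ≠ 0)
    (hc : ∀ sw, ∀ w < 2, ∀ w' < 2, ∀ w'' < 2,
      CY n 0 1 sw false [(1, 0), (4, w)] [(3, w'), (0, w'')] ∧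
      CY n 0 1 sw true [(1, w''), (4, w)] [(3, w'), (0, 0)]) :
    ip (A.v 1) (A.v 4) = 0 := by
  by_contra hne
  obtain ⟨y, hv1, hv4, hy, hyE, hgr⟩ := A.y_ex h hn (k := 1) le_rfl (by omega) (by simpa using hne)
  obtain ⟨c, d, sw, f, hu, hst, hbar, hb0, he0, he1⟩ := A.chainF h he
  have key : ∀ w1 < 2, ∀ w4 < 2, ∀ w3 < 2, ∀ w0 < 2,
      1 ≤ G.T (bv (zz834 c d 1 w1)) y → 1 ≤ G.T (bv (zz834 c d 4 w4)) y →
      1 ≤ G.T (bv y) (zz834 c d 3 w3) → 1 ≤ G.T (bv y) (zz834 c d 0 w0) → False := by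
    intro w1 hw1 w4 hw4 w3 hw3 w0 hw0 a1 a4 b3 b0
    cases f
    · interval_cases w1
      · exact core834 h hn he h2 hmod c d sw false hu
          (fun j h1 h2 => ⟨(hst j h1 h2).1.ge, (hst j h1 h2).2.2.2.ge⟩) hbar hb0 ⟨he0, he1⟩ hy hyE
          (by simpa using hgr) (by norm_num) hw4 hw3 hw0 a1 a4 b3 b0 (hc sw w4 hw4 w3 hw3 w0 hw0).1
      · have hsw : ∀ (j : ℤ) (w : ℕ), w < 2 → zz834 d c j (1 - w) = zz834 c d j w := by
          intro j w hw
          interval_cases w <;> simp [zz834]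
        refine core834 h hn he h2 hmod d c sw false
          (fun j h1 h2 => ⟨by rw [(hu j h1 h2).1, add_comm], (hu j h1 h2).2.symm⟩)
          (fun j h1 h2 => ⟨(hst j h1 h2).2.2.2.ge, (hst j h1 h2).1.ge⟩)
          (fun j h1 h2 => ⟨(hbar j h1 h2).2, (hbar j h1 h2).1⟩) ⟨hb0.2, hb0.1⟩ ⟨he1, he0⟩ hy hyE
          (by simpa using hgr) (w1 := 0) (w4 := 1 - w4) (w3 := 1 - w3) (w0 := 1 - w0)
          (by norm_num) (by omega) (by omega) (by omega) ?_ ?_ ?_ ?_
          (hc sw (1 - w4) (by omega) (1 - w3) (by omega) (1 - w0) (by omega)).1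
        · have := hsw 1 1 (by norm_num)
          rw [show (0 : ℕ) = 1 - 1 by rfl, this]; exact a1
        · rw [hsw 4 w4 hw4]; exact a4
        · rw [hsw 3 w3 hw3]; exact b3
        · rw [hsw 0 w0 hw0]; exact b0
    · interval_cases w0
      · exact core834 h hn he h2 hmod c d sw true hu
          (fun j h1 h2 => ⟨(hst j h1 h2).1.ge, (hst j h1 h2).2.2.2.ge⟩) hbar hb0 ⟨he0, he1⟩ hy hyE
          (by simpa using hgr) hw1 hw4 hw3 (by norm_num) a1 a4 b3 b0 (hc sw w4 hw4 w3 hw3 w1 hw1).2
      · -- exchange the names in the lines 0 and n + 1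
        set c' : ℤ → G.B := fun j => if j = 0 ∨ j = n + 1 then d j else c j with hc'
        set d' : ℤ → G.B := fun j => if j = 0 ∨ j = n + 1 then c j else d j with hd'
        have m1 : ∀ j : ℤ, 1 ≤ j → j ≤ n → c' j = c j ∧ d' j = d j := by
          intro j h1 h2
          constructor
          · simp only [hc']; rw [if_neg (by omega)]
          · simp only [hd']; rw [if_neg (by omega)]
        have m0 : c' 0 = d 0 ∧ d' 0 = c 0 := ⟨by simp [hc'], by simp [hd']⟩
        have mn : c' (n + 1) = d (n + 1) ∧ d' (n + 1) = c (n + 1) := ⟨by simp [hc'], by simp [hd']⟩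
        have hzz : ∀ j : ℤ, 1 ≤ j → j ≤ n → ∀ w, zz834 c' d' j w = zz834 c d j w := by
          intro j h1 h2 w
          unfold zz834
          rw [(m1 j h1 h2).1, (m1 j h1 h2).2]
        refine core834 h hn he h2 hmod c' d' sw true ?_ ?_ ?_ ?_ ?_ hy hyE
          (by simpa using hgr) (w1 := w1) (w4 := w4) (w3 := w3) (w0 := 0)
          hw1 hw4 hw3 (by norm_num) ?_ ?_ ?_ ?_
          (hc sw w4 hw4 w3 hw3 w1 hw1).2
        · intro j h1 h3
          simp only [hc', hd']
          split_ifs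
          · exact ⟨by rw [(hu j h1 h3).1, add_comm], (hu j h1 h3).2.symm⟩
          · exact hu j h1 h3
        · intro j h1 h3
          rw [(m1 j h1 (by omega)).1, (m1 j h1 (by omega)).2, (m1 (j + 1) (by omega) (by omega)).1,
            (m1 (j + 1) (by omega) (by omega)).2]
          exact ⟨(hst j h1 h3).1.ge, (hst j h1 h3).2.2.2.ge⟩
        · intro j h1 h3
          rw [(m1 j h1 h3).1, (m1 j h1 h3).2, (m1 (n + 1 - j) (by omega) (by omega)).1,
            (m1 (n + 1 - j) (by omega) (by omega)).2]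
          exact hbar j h1 h3
        · rw [m0.1, m0.2, mn.1, mn.2]
          exact ⟨hb0.2, hb0.1⟩
        · rw [m0.1, m0.2, (m1 1 le_rfl (by omega)).1]
          exact ⟨by simpa using he1, by simpa using he0⟩
        · rw [hzz 1 le_rfl (by omega)]; exact a1
        · rw [hzz 4 (by norm_num) (by omega)]; exact a4
        · rw [hzz 3 (by norm_num) (by omega)]; exact b3
        · have : zz834 c' d' 0 0 = zz834 c d 0 1 := by
            simp [zz834, hc']
          rw [this]; exact b0
  -- find the arrows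
  have hTj : ∀ j : ℤ, 0 ≤ j → j ≤ n + 1 → 1 ≤ G.T (A.u j) y →
      ∃ w < 2, 1 ≤ G.T (bv (zz834 c d j w)) y := by
    intro j h1 h3 h4
    rw [(hu j h1 h3).1, map_add, Finsupp.add_apply] at h4
    by_contra hcon
    push Not at hcon
    have e0 := hcon 0 (by norm_num)
    have e1 := hcon 1 (by norm_num)
    simp only [zz834, if_true, one_ne_zero, if_false] at e0 e1
    omega
  have hSj : ∀ j : ℤ, 0 ≤ j → j ≤ n + 1 → 1 ≤ G.S (A.u j) y →
      ∃ w < 2, 1 ≤ G.T (bv y) (zz834 c d j w) := by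
    intro j h1 h3 h4
    rw [(hu j h1 h3).1, map_add, Finsupp.add_apply, ← G.adj, ← G.adj] at h4
    by_contra hcon
    push Not at hcon
    have e0 := hcon 0 (by norm_num)
    have e1 := hcon 1 (by norm_num)
    simp only [zz834, if_true, one_ne_zero, if_false] at e0 e1
    omega
  have ht : ∀ j : ℤ, A.t j y = 0 := fun j => hyE _ _
  obtain ⟨w1, hw1, a1⟩ := hTj 1 (by norm_num) (by omega) (by
    rw [A.T_u_eq (j := 1) (by omega), Finsupp.add_apply, Finsupp.add_apply, Finsupp.smul_apply, hy,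
      ht]
    simpa using hv1)
  obtain ⟨w4, hw4, a4⟩ := hTj 4 (by norm_num) (by omega) (by
    rw [A.T_u_eq (j := 4) (by omega), Finsupp.add_apply, Finsupp.add_apply, Finsupp.smul_apply, hy,
      ht]
    simpa using hv4)
  obtain ⟨w3, hw3, b3⟩ := hSj 3 (by norm_num) (by omega) (by
    have := A.S_u_eq (j := 4) (by omega) (by norm_num) (by omega)
    rw [show (4 : ℤ) - 1 = 3 by norm_num] at this
    rw [this, Finsupp.add_apply, Finsupp.add_apply, Finsupp.smul_apply, hy, ht]
    simpa using hv4)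
  obtain ⟨w0, hw0, b0⟩ := hSj 0 (by norm_num) (by omega) (by
    have := A.S_u_eq (j := 1) (by omega) (by norm_num) (by omega)
    rw [show (1 : ℤ) - 1 = 0 by norm_num] at this
    rw [this, Finsupp.add_apply, Finsupp.add_apply, Finsupp.smul_apply, hy, ht]
    simpa using hv1)
  exact key w1 hw1 w4 hw4 w3 hw3 w0 hw0 a1 a4 b3 b0

end Pool.Agent.Helper363.Nita.K2
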