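import Pool.Agent.Helper363.Nita.K2.SB1
import Pool.Agent.Helper363.Nita.K2.SB2
import Pool.Agent.Helper363.Nita.K2.SB3
import Pool.Agent.Helper363.Nita.K2.SB4
import Pool.Agent.Helper363.Nita.K2.DefF
import Pool.Agent.Helper363.Nita.K2.Sound
import Pool.Agent.Helper363.Nita.K2.TE
import Pool.Agent.Helper363.Nita.K2.TY
import Pool.Agent.Helper363.Nita.K2.TF
import Pool.Agent.Helper363.Nita.K2.TL
import Pool.Agent.Helper363.Nita.K2.FY

namespace Pool.Agent.Helper363.Nita.K2

variable {G : NG} {n : ℕ}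

theorem yX_nodup (n k w w' w'' : ℕ) (sw : Bool) (hn : n ≤ 6) (h1 : 1 ≤ k) (h2 : k + 3 ≤ n)
    (hw : w < 2) (hw' : w' < 2) (hw'' : w'' < 2) :
    (yX n 1 k sw false [(k, 0), (k + 3, w)]
      (if 2 ≤ k then [(k + 2, w'), (k - 1, w'')] else [(k + 2, w')])).arrows.Nodup := by
  have hk : k ≤ 3 := by omega
  have hn4 : 4 ≤ n := by omega
  interval_cases n <;> interval_cases k <;> first
    | omega
    | (interval_cases w <;> interval_cases w' <;> interval_cases w'' <;> cases sw <;> decide)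

theorem y_one_of_two {a b : ℤ} (h : 1 ≤ a + b) : 1 ≤ a ∨ 1 ≤ b := by omega

theorem y_TS {A : Arr G n} {y : G.B} (hu0 : ∀ j, A.u j y = 0) (hE0 : ∀ a b, A.E a b y = 0)
    (hn : 2 ≤ n) {j : ℤ} (h1 : 1 ≤ j) (h2 : j ≤ n + 1) (hv : 1 ≤ A.v j y) :
    1 ≤ G.T (A.u j) y ∧ 1 ≤ G.S (A.u (j - 1)) y := by
  have ht : A.t (j - 1) y = 0 := hE0 _ _
  constructor
  · rw [A.T_u_eq h2, Finsupp.add_apply, Finsupp.add_apply, Finsupp.smul_apply, ht, hu0]
    simpa using hv
  · rw [A.S_u_eq hn h1 (by linarith), Finsupp.add_apply, Finsupp.add_apply, Finsupp.smul_apply, ht,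
      hu0]
    simpa using hv

theorem y_core {A : Arr G n} (h : A.Good2) (hn : n ≤ 6) {k : ℕ} (h1 : 1 ≤ k) (h2 : k + 3 ≤ n)
    (hmod : (n + 2 + k) % 3 ≠ 0)
    (hc : ∀ sw, ∀ w < 2, ∀ w' < 2, ∀ w'' < 2, CY n 1 k sw false [(k, 0), (k + 3, w)]
      (if 2 ≤ k then [(k + 2, w'), (k - 1, w'')] else [(k + 2, w')]))
    {y : G.B} (hv1 : 1 ≤ A.v k y) (hv2 : 1 ≤ A.v (k + 3) y) (hu0 : ∀ j, A.u j y = 0)
    (hE0 : ∀ a b, A.E a b y = 0) (hgr : G.gr y = (n : ZMod 3) + 2 - 2 * k)
    {z : ℤ → ℕ → G.B} {sw : Bool}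
    (hu : ∀ j : ℤ, 1 ≤ j → j ≤ n → A.u j = bv (z j 0) + bv (z j 1))
    (hne : ∀ j : ℤ, 1 ≤ j → j ≤ n → z j 0 ≠ z j 1)
    (hst : ∀ j : ℤ, 1 ≤ j → j ≤ n - 1 → ∀ w < 2, 1 ≤ G.T (bv (z j w)) (z (j + 1) w))
    (hbar : ∀ j : ℕ, 1 ≤ j → j ≤ n → ∀ w < 2,
      G.bar (z j w) = z ((n : ℤ) + 1 - j) (sgS sw n j w))
    (hT : 1 ≤ G.T (bv (z k 0)) y) : False := by
  have hn2 : 2 ≤ n := by omega
  -- arrow from line k+3
  obtain ⟨w, hw, hTw⟩ : ∃ w < 2, 1 ≤ G.T (bv (z (k + 3) w)) y := by
    have e1 := (y_TS hu0 hE0 hn2 (j := (k : ℤ) + 3) (by omega) (by omega) hv2).1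
    rw [hu _ (by omega) (by omega), map_add, Finsupp.add_apply] at e1
    rcases y_one_of_two e1 with e | e
    · exact ⟨0, by norm_num, e⟩
    · exact ⟨1, by norm_num, e⟩
  obtain ⟨w', hw', hTw'⟩ : ∃ w < 2, 1 ≤ G.T (bv y) (z (k + 2) w) := by
    have e1 := (y_TS hu0 hE0 hn2 (j := (k : ℤ) + 3) (by omega) (by omega) hv2).2
    rw [show (k : ℤ) + 3 - 1 = k + 2 by ring, hu _ (by omega) (by omega), map_add,
      Finsupp.add_apply, ← G.adj, ← G.adj] at e1
    rcases y_one_of_two e1 with e | e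
    · exact ⟨0, by norm_num, e⟩
    · exact ⟨1, by norm_num, e⟩
  obtain ⟨w'', hw'', hTw''⟩ : ∃ w < 2, 2 ≤ k → 1 ≤ G.T (bv y) (z ((k : ℤ) - 1) w) := by
    by_cases hk : 2 ≤ k
    · have e1 := (y_TS hu0 hE0 hn2 (j := (k : ℤ)) (by omega) (by omega) hv1).2
      rw [hu _ (by omega) (by omega), map_add, Finsupp.add_apply, ← G.adj, ← G.adj] at e1
      rcases y_one_of_two e1 with e | e
      · exact ⟨0, by norm_num, fun _ => e⟩
      · exact ⟨1, by norm_num, fun _ => e⟩
    · exact ⟨0, by norm_num, fun h => absurd h hk⟩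
  have hu' : ∀ j : ℤ, ((1 : ℕ) : ℤ) ≤ j → j ≤ (n : ℤ) + 1 - ((1 : ℕ) : ℤ) →
      A.u j = ∑ w ∈ Finset.range 2, bv (z j w) := by
    intro j hj hj'
    rw [Finset.sum_range_succ, Finset.sum_range_one]
    exact hu j (by push_cast at hj; exact hj) (by push_cast at hj'; linarith)
  have hsat := yX_sat h hn (a := 1) (k := k) le_rfl h1 h2 (fun h => absurd h one_ne_zero)
    (z := z) (sw := sw) (f := false) hu'
    (fun j hj hj' => hne j (by push_cast at hj; exact hj) (by push_cast at hj'; linarith))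
    (fun j hj hj' w hw => hbar j hj (by omega) w hw)
    (fun j hj hj' w hw => hst j (by exact_mod_cast hj) (by omega) w hw)
    (fun h => absurd h one_ne_zero) hu0 hE0 hgr
    (is := [(k, 0), (k + 3, w)])
    (os := if 2 ≤ k then [(k + 2, w'), (k - 1, w'')] else [(k + 2, w')])
    (by
      intro q hq
      simp only [List.mem_cons, List.not_mem_nil, or_false] at hq
      rcases hq with rfl | rfl
      · exact ⟨⟨h1, by show k ≤ n + 1 - 1; omega⟩, by norm_num, hT⟩
      · refine ⟨⟨by show 1 ≤ k + 3; omega, by show k + 3 ≤ n + 1 - 1; omega⟩, hw, ?_⟩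
        have := hTw
        push_cast
        exact this)
    (by
      intro q hq
      have hq' : q = (k + 2, w') ∨ (2 ≤ k ∧ q = (k - 1, w'')) := by
        by_cases hk : 2 ≤ k
        · rw [if_pos hk] at hq
          simp only [List.mem_cons, List.not_mem_nil, or_false] at hq
          rcases hq with hq | hq
          · exact Or.inl hq
          · exact Or.inr ⟨hk, hq⟩
        · rw [if_neg hk] at hq
          simp only [List.mem_cons, List.not_mem_nil, or_false] at hq
          exact Or.inl hq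
      rcases hq' with rfl | ⟨hk, rfl⟩
      · refine ⟨⟨by show 1 ≤ k + 2; omega, by show k + 2 ≤ n + 1 - 1; omega⟩, hw', ?_⟩
        push_cast
        exact hTw'
      · refine ⟨⟨by show 1 ≤ k - 1; omega, by show k - 1 ≤ n + 1 - 1; omega⟩, hw'', ?_⟩
        have := hTw'' hk
        push_cast [Nat.cast_sub h1]
        exact this)
    (by simp) hmod
  obtain ⟨kk, m, hrun⟩ := hc sw w hw w' hw' w'' hw''
  have hlen : (yX n 1 k sw false [(k, 0), (k + 3, w)]
      (if 2 ≤ k then [(k + 2, w'), (k - 1, w'')] else [(k + 2, w')])).nodes.length =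
      2 * (n + 2 - 2 * 1) + 2 := by
    unfold yX XData.add2
    rw [List.length_append, xwin_length]
    rfl
  have hnd : (yX n 1 k sw false [(k, 0), (k + 3, w)]
      (if 2 ≤ k then [(k + 2, w'), (k - 1, w'')] else [(k + 2, w')])).arrows.Nodup :=
    yX_nodup n k w w' w'' sw hn h1 h2 hw hw' hw''
  have hCS : CSat A (fun i => if i < 2 * (n + 2 - 2 * 1) then xz 1 2 z i else
      if i = 2 * (n + 2 - 2 * 1) then y else G.bar y) (yX n 1 k sw false [(k, 0), (k + 3, w)]
      (if 2 ≤ k then [(k + 2, w'), (k - 1, w'')] else [(k + 2, w')])).nodes.length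
      (ctxW n 1 2 [] (bK n 1 2) [] [] []) := by
    refine ctxW_ok le_rfl (by norm_num) (by rw [hlen]; omega)
      (fun i hi => by simp only [if_pos hi]) hu' ?_ ?_ ?_ ?_ ?_
    · intro q hq; simp at hq
    · intro q hq
      unfold bK at hq
      simp only [List.mem_append, List.mem_map, List.mem_range] at hq
      rcases hq with ⟨i, hi, rfl⟩ | ⟨i, hi, rfl⟩
      · have e := h.kap (1 + i) (by omega) (by omega)
        refine ⟨⟨by show 1 ≤ 1 + i; omega, by show 1 + i ≤ n + 1 - 1; omega⟩,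
          ⟨by show 1 ≤ 1 + i + 1; omega, by show 1 + i + 1 ≤ n + 1 - 1; omega⟩, ?_, ?_⟩
        · show ((2 : ℕ) : ℤ) ≤ ip (G.T (A.u ((1 + i : ℕ) : ℤ))) (A.u ((1 + i + 1 : ℕ) : ℤ))
          push_cast
          rw [e]
        · intro _
          show ip (G.T (A.u ((1 + i : ℕ) : ℤ))) (A.u ((1 + i + 1 : ℕ) : ℤ)) < ((2 + 1 : ℕ) : ℤ)
          push_cast
          rw [e]; norm_num
      · have e := h.gz (1 + i) (by omega) (by omega)
        refine ⟨⟨by show 1 ≤ 1 + i + 2; omega, by show 1 + i + 2 ≤ n + 1 - 1; omega⟩,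
          ⟨by show 1 ≤ 1 + i; omega, by show 1 + i ≤ n + 1 - 1; omega⟩, ?_, ?_⟩
        · show ((0 : ℕ) : ℤ) ≤ ip (G.T (A.u ((1 + i + 2 : ℕ) : ℤ))) (A.u ((1 + i : ℕ) : ℤ))
          push_cast
          rw [e]
        · intro _
          show ip (G.T (A.u ((1 + i + 2 : ℕ) : ℤ))) (A.u ((1 + i : ℕ) : ℤ)) < ((1 : ℕ) : ℤ)
          push_cast
          rw [e]; norm_num
    · intro q hq; simp at hq
    · intro q hq; simp at hq
    · intro q hq; simp at hq
  have hb := build_sat (td := wtd n 1) h.good hsat hnd (by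
    intro j hj htd b hb
    obtain ⟨i, hi, hbi⟩ := xwin_td (A := A) (a := 1) (m := 2) (z := z) (sg := sgS sw n)
      (st := true) (en := []) le_rfl (by norm_num) hu' j hj htd b hb
    rw [xwin_length] at hi
    refine ⟨i, by rw [hlen]; omega, ?_⟩
    simp only [if_pos hi]
    exact hbi) hCS
  exact sound _ _ _ hb hrun

theorem y_contra1 {A : Arr G n} (h : A.Good2) (hn : n ≤ 6) {k : ℕ} (h1 : 1 ≤ k) (h2 : k + 3 ≤ n)
    (hmod : (n + 2 + k) % 3 ≠ 0)
    (hc : ∀ sw, ∀ w < 2, ∀ w' < 2, ∀ w'' < 2, CY n 1 k sw false [(k, 0), (k + 3, w)]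
      (if 2 ≤ k then [(k + 2, w'), (k - 1, w'')] else [(k + 2, w')])) :
    ip (A.v k) (A.v (k + 3)) = 0 := by
  by_contra hk
  obtain ⟨y, hv1, hv2, hu0, hE0, hgr⟩ := A.y_ex h hn (k := (k : ℤ)) (by omega) (by omega) hk
  obtain ⟨c, d, hcd, hstr, hb⟩ := A.chain h
  have hgr' : G.gr y = (n : ZMod 3) + 2 - 2 * k := by
    rw [hgr]; push_cast; ring
  have e1 := (y_TS hu0 hE0 (by omega) (j := (k : ℤ)) (by omega) (by omega) hv1).1
  rw [(hcd k (by omega) (by omega)).1, map_add, Finsupp.add_apply] at e1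
  have hsg0 : ∀ (j w : ℕ), sgS false n j w = w := fun j w => rfl
  have hsg1 : ∀ (j : ℕ), 1 ≤ j → j ≤ n → sgS true n j 0 = 1 ∧ sgS true n j 1 = 0 := by
    intro j hj hj'
    have e1 : Nat.ble 1 j = true := by rw [Nat.ble_eq]; exact hj
    have e2 : Nat.ble j n = true := by rw [Nat.ble_eq]; exact hj'
    unfold sgS
    rw [e1, e2]
    exact ⟨rfl, rfl⟩
  rcases y_one_of_two e1 with e | e
  · -- straight naming
    rcases hb with hb | hb
    · refine y_core h hn h1 h2 hmod hc hv1 hv2 hu0 hE0 hgr'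
        (z := fun j w => if w = 0 then c j else d j) (sw := false) ?_ ?_ ?_ ?_ ?_
      · intro j hj hj'
        exact (hcd j hj hj').1
      · intro j hj hj'
        exact (hcd j hj hj').2
      · intro j hj hj' w hw
        obtain ⟨g1, g2, g3, g4⟩ := hstr j hj hj'
        interval_cases w
        · exact g1.ge
        · exact g4.ge
      · intro j hj hj' w hw
        rw [hsg0]
        obtain ⟨g1, g2⟩ := hb j (by exact_mod_cast hj) (by exact_mod_cast hj')
        interval_cases w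
        · exact g1
        · exact g2
      · exact e
    · refine y_core h hn h1 h2 hmod hc hv1 hv2 hu0 hE0 hgr'
        (z := fun j w => if w = 0 then c j else d j) (sw := true) ?_ ?_ ?_ ?_ ?_
      · intro j hj hj'
        exact (hcd j hj hj').1
      · intro j hj hj'
        exact (hcd j hj hj').2
      · intro j hj hj' w hw
        obtain ⟨g1, g2, g3, g4⟩ := hstr j hj hj'
        interval_cases w
        · exact g1.ge
        · exact g4.ge
      · intro j hj hj' w hw
        obtain ⟨g1, g2⟩ := hb j (by exact_mod_cast hj) (by exact_mod_cast hj')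
        obtain ⟨s0, s1⟩ := hsg1 j hj hj'
        interval_cases w
        · rw [s0]; exact g1
        · rw [s1]; exact g2
      · exact e
  · rcases hb with hb | hb
    · refine y_core h hn h1 h2 hmod hc hv1 hv2 hu0 hE0 hgr'
        (z := fun j w => if w = 0 then d j else c j) (sw := false) ?_ ?_ ?_ ?_ ?_
      · intro j hj hj'
        rw [(hcd j hj hj').1, add_comm]
        rfl
      · intro j hj hj'
        exact (hcd j hj hj').2.symm
      · intro j hj hj' w hw
        obtain ⟨g1, g2, g3, g4⟩ := hstr j hj hj'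
        interval_cases w
        · exact g4.ge
        · exact g1.ge
      · intro j hj hj' w hw
        rw [hsg0]
        obtain ⟨g1, g2⟩ := hb j (by exact_mod_cast hj) (by exact_mod_cast hj')
        interval_cases w
        · exact g2
        · exact g1
      · exact e
    · refine y_core h hn h1 h2 hmod hc hv1 hv2 hu0 hE0 hgr'
        (z := fun j w => if w = 0 then d j else c j) (sw := true) ?_ ?_ ?_ ?_ ?_
      · intro j hj hj'
        rw [(hcd j hj hj').1, add_comm]
        rfl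
      · intro j hj hj'
        exact (hcd j hj hj').2.symm
      · intro j hj hj' w hw
        obtain ⟨g1, g2, g3, g4⟩ := hstr j hj hj'
        interval_cases w
        · exact g4.ge
        · exact g1.ge
      · intro j hj hj' w hw
        obtain ⟨g1, g2⟩ := hb j (by exact_mod_cast hj) (by exact_mod_cast hj')
        obtain ⟨s0, s1⟩ := hsg1 j hj hj'
        interval_cases w
        · rw [s0]; exact g2
        · rw [s1]; exact g1
      · exact e

end Pool.Agent.Helper363.Nita.K2
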