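import Pool.Agent.Helper363.Nita.K2.SB1
import Pool.Agent.Helper363.Nita.K2.SB2
import Pool.Agent.Helper363.Nita.K2.SB3
import Pool.Agent.Helper363.Nita.K2.SB4
import Pool.Agent.Helper363.Nita.K2.DefF
import Pool.Agent.Helper363.Nita.K2.Sound
import Pool.Agent.Helper363.Nita.K2.TE
import Pool.Agent.Helper363.Nita.K2.TY
import Pool.Agent.Helper363.Nita.K2.TF
import Pool.Agent.Helper363.Nita.K2.TL

namespace Pool.Agent.Helper363.Nita.K2

variable {G : NG} {n : ℕ}

/-- the numbering of the two sheets -/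
def contra_Z_z {B : Type} (c d : ℤ → B) (j : ℤ) (w : ℕ) : B := if w = 0 then c j else d j

theorem contra_Z_core {A : Arr G 5} (h : A.Good2) (hc : ∀ sw re, CZ sw re) (c d : ℤ → G.B) (sw : Bool)
    (h1 : ∀ j : ℤ, 1 ≤ j → j ≤ 5 → A.u j = bv (c j) + bv (d j) ∧ c j ≠ d j)
    (h2 : ∀ j : ℤ, 1 ≤ j → j ≤ 4 → 1 ≤ G.T (bv (c j)) (c (j + 1)) ∧ 1 ≤ G.T (bv (d j)) (d (j + 1)))
    (h3 : ∀ j : ℤ, 1 ≤ j → j ≤ 5 → G.bar (c j) = (if sw = true then d (6 - j) else c (6 - j)) ∧
      G.bar (d j) = (if sw = true then c (6 - j) else d (6 - j)))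
    (y : G.B) (hy0 : A.u 0 y = 1) (hy6 : A.u 6 y = 1) (hyj : ∀ j : ℤ, 1 ≤ j → j ≤ 5 → A.u j y = 0)
    (hgr : G.gr y = 0) (hd : G.d y ≤ 28) (hE : ∀ a b, A.E a b y = 0)
    (hT : 1 ≤ G.T (bv y) (c 1)) : False := by
  have hG := h.good
  have hu : ∀ j : ℤ, ((1 : ℕ) : ℤ) ≤ j → j ≤ ((5 : ℕ) : ℤ) + 1 - ((1 : ℕ) : ℤ) →
      A.u j = ∑ w ∈ Finset.range 2, bv (contra_Z_z c d j w) := by
    intro j hj1 hj2
    rw [(h1 j (by simpa using hj1) (by simpa using hj2)).1]
    simp [Finset.sum_range_succ, contra_Z_z]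
  have hne : ∀ j : ℤ, ((1 : ℕ) : ℤ) ≤ j → j ≤ ((5 : ℕ) : ℤ) + 1 - ((1 : ℕ) : ℤ) →
      ∀ w < 2, ∀ w' < 2, contra_Z_z c d j w = contra_Z_z c d j w' → w = w' := by
    intro j hj1 hj2 w hw w' hw' he
    have hcd := (h1 j (by simpa using hj1) (by simpa using hj2)).2
    interval_cases w <;> interval_cases w' <;> simp [contra_Z_z] at he ⊢
    · exact hcd he
    · exact hcd he.symm
  have hbar : ∀ j : ℕ, 1 ≤ j → j ≤ 5 + 1 - 1 → ∀ w < 2, sgS sw 5 j w < 2 ∧
      G.bar (contra_Z_z c d j w) = contra_Z_z c d (((5 : ℕ) : ℤ) + 1 - j) (sgS sw 5 j w) := by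
    intro j hj1 hj2 w hw
    have hb := h3 j (by omega) (by omega)
    have e : ((5 : ℕ) : ℤ) + 1 - j = 6 - j := by norm_num
    rw [e]
    have hb1 : Nat.ble 1 j = true := by rw [Nat.ble_eq]; exact hj1
    have hb2 : Nat.ble j 5 = true := by rw [Nat.ble_eq]; omega
    have hq1 : Nat.beq 1 0 = false := rfl
    have hq2 : Nat.beq 0 0 = true := rfl
    have hq3 : Nat.beq 1 1 = true := rfl
    cases sw <;> interval_cases w <;> simp [sgS, contra_Z_z, hb1, hb2, hb.1, hb.2, hq1, hq2, hq3]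
  have hst : ∀ j : ℕ, 1 ≤ j → j ≤ 5 - 1 → ∀ w < 2,
      1 ≤ G.T (bv (contra_Z_z c d j w)) (contra_Z_z c d (j + 1) w) := by
    intro j hj1 hj2 w hw
    have hb := h2 j (by omega) (by omega)
    interval_cases w
    · simpa [contra_Z_z] using hb.1
    · simpa [contra_Z_z] using hb.2
  have horth : ∀ i j : ℤ, ((1 : ℕ) : ℤ) ≤ i → i ≤ ((5 : ℕ) : ℤ) + 1 - ((1 : ℕ) : ℤ) → 0 ≤ j →
      j ≤ ((5 : ℕ) : ℤ) + 1 → i ≠ j → ip (A.u i) (A.u j) = 0 := by
    intro i j hi1 hi2 hj1 hj2 hij
    push_cast at hi1 hi2 hj2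
    rcases lt_or_gt_of_ne hij with hlt | hgt
    · have e := Arr.ip_u_u A hG (i := i) (k := j - i) (by omega) (by omega) (by push_cast; omega)
      rw [show i + (j - i) = j by ring] at e
      rw [e]
      exact h.e0 _ (by omega) (by push_cast; omega)
    · have e := Arr.ip_u_u A hG (i := j) (k := i - j) (by omega) (by omega) (by push_cast; omega)
      rw [show j + (i - j) = i by ring] at e
      rw [ip_comm, e]
      exact h.e0 _ (by omega) (by push_cast; omega)
  have hX := xwin_sat (A := A) hG (a := 1) (m := 2) (le_refl 1) (by norm_num) (z := contra_Z_z c d)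
    (sg := sgS sw 5) (st := true) (en := []) hu hne hbar (fun _ => hst) (by simp) horth
  have hlen : (xwin 5 1 2 (sgS sw 5) true []).nodes.length = 10 := xwin_length
  have htd0 := xwin_td (A := A) (a := 1) (m := 2) (le_refl 1) (by norm_num) (z := contra_Z_z c d)
    (sg := sgS sw 5) (st := true) (en := []) hu
  have hny : ∀ i < (xwin 5 1 2 (sgS sw 5) true []).nodes.length, xz 1 2 (contra_Z_z c d) i ≠ y := by
    intro i hi he
    rw [hlen] at hi
    have hj1 : (1 : ℤ) ≤ ((1 + i / 2 : ℕ) : ℤ) := by push_cast; omega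
    have hj2 : ((1 + i / 2 : ℕ) : ℤ) ≤ 5 := by push_cast; omega
    have h0 := hyj _ hj1 hj2
    rw [(h1 _ hj1 hj2).1, ← he] at h0
    have hcd := (h1 _ hj1 hj2).2
    have key2 : ∀ (a b : G.B), a ≠ b → (bv a + bv b : G.B →₀ ℤ) a = 1 := by
      intro a b hab
      classical
      rw [Finsupp.add_apply, Finsupp.single_apply, Finsupp.single_apply, if_pos rfl, if_neg hab.symm]
      norm_num
    unfold xz contra_Z_z at h0
    split_ifs at h0 with hw
    · rw [key2 _ _ hcd] at h0; norm_num at h0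
    · rw [add_comm, key2 _ _ hcd.symm] at h0; norm_num at h0
  have hmu : ∀ k : ℕ, k ≤ 5 + 1 → A.u (k : ℤ) y = if memN k [0, 6] = true then 1 else 0 := by
    intro k hk
    interval_cases k
    · simpa [memN] using hy0
    · simpa [memN] using hyj 1 (by norm_num) (by norm_num)
    · simpa [memN] using hyj 2 (by norm_num) (by norm_num)
    · simpa [memN] using hyj 3 (by norm_num) (by norm_num)
    · simpa [memN] using hyj 4 (by norm_num) (by norm_num)
    · simpa [memN] using hyj 5 (by norm_num) (by norm_num)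
    · simpa [memN] using hy6
  -- arrows
  have hx0 : xz 1 2 (contra_Z_z c d) (wix 1 2 1 0) = c 1 := by
    simp [xz, wix, contra_Z_z]
  have hx5 : xz 1 2 (contra_Z_z c d) (wix 1 2 5 (sgS sw 5 1 0)) = G.bar (c 1) := by
    have hb := (h3 1 (by norm_num) (by norm_num)).1
    cases sw
    · rw [show wix 1 2 5 (sgS false 5 1 0) = 8 from by decide, hb]
      simp [xz, contra_Z_z]
    · rw [show wix 1 2 5 (sgS true 5 1 0) = 9 from by decide, hb]
      simp [xz, contra_Z_z]
  have hw5 : wix 1 2 5 (sgS sw 5 1 0) < 10 := by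
    cases sw <;> decide
  have hw0 : wix 1 2 1 0 < 10 := by simp [wix]
  have hT' : 1 ≤ G.T (bv (G.bar (c 1))) (G.bar y) := by
    rw [G.T_bar, ← G.adj]; exact hT
  have hbs : ∀ q ∈ bK 5 1 2, ((1 ≤ q.1 ∧ q.1 ≤ 5 + 1 - 1) ∧ (1 ≤ q.2.1 ∧ q.2.1 ≤ 5 + 1 - 1) ∧
      (q.2.2.1 : ℤ) ≤ ip (G.T (A.u q.1)) (A.u q.2.1) ∧
      (q.2.2.2 ≠ 0 → ip (G.T (A.u q.1)) (A.u q.2.1) < q.2.2.2)) := by
    intro q hq
    unfold bK at hq
    rw [List.mem_append, List.mem_map, List.mem_map] at hq
    rcases hq with ⟨k, hk, rfl⟩ | ⟨k, hk, rfl⟩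
    · rw [List.mem_range] at hk
      have e := h.kap ((1 + k : ℕ) : ℤ) (by positivity) (by push_cast; omega)
      have e' : (((1 + k + 1 : ℕ) : ℤ)) = ((1 + k : ℕ) : ℤ) + 1 := by push_cast; ring
      refine ⟨⟨by simp only; omega, by simp only; omega⟩, ⟨by simp only; omega, by simp only; omega⟩, ?_, ?_⟩
      · show ((2 : ℕ) : ℤ) ≤ ip (G.T (A.u ((1 + k : ℕ) : ℤ))) (A.u ((1 + k + 1 : ℕ) : ℤ))
        rw [e', e]; norm_num
      · intro _
        show ip (G.T (A.u ((1 + k : ℕ) : ℤ))) (A.u ((1 + k + 1 : ℕ) : ℤ)) < ((2 + 1 : ℕ) : ℤ)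
        rw [e', e]; norm_num
    · rw [List.mem_range] at hk
      have e := h.gz ((1 + k : ℕ) : ℤ) (by positivity) (by push_cast; omega)
      have e' : (((1 + k + 2 : ℕ) : ℤ)) = ((1 + k : ℕ) : ℤ) + 2 := by push_cast; ring
      refine ⟨⟨by simp only; omega, by simp only; omega⟩, ⟨by simp only; omega, by simp only; omega⟩, ?_, ?_⟩
      · show ((0 : ℕ) : ℤ) ≤ ip (G.T (A.u ((1 + k + 2 : ℕ) : ℤ))) (A.u ((1 + k : ℕ) : ℤ))
        rw [e', e]; norm_num
      · intro _
        show ip (G.T (A.u ((1 + k + 2 : ℕ) : ℤ))) (A.u ((1 + k : ℕ) : ℤ)) < ((1 : ℕ) : ℤ)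
        rw [e', e]; norm_num
  by_cases hyb : G.bar y = y
  · obtain ⟨k, m, hrun⟩ := hc sw true
    have hS := add1_sat (A := A) hX (y := y) (r := ⟨0, 10, 28, [0, 6]⟩)
      (ar := [(10, wix 1 2 1 0), (wix 1 2 5 (sgS sw 5 1 0), 10)]) hny hE (by rw [hlen]) hyb
      (by norm_num) (by simpa using hgr) (by intro _; simpa using hd) hmu (by decide) (by decide)
      (by
        rw [hlen]
        intro q hq
        simp only [List.mem_cons, List.not_mem_nil, or_false] at hq
        rcases hq with rfl | rfl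
        · refine ⟨by norm_num, by simp only; omega, ?_⟩
          simp only [lt_irrefl, if_false, hw0, if_true]
          rw [hx0]; exact hT
        · refine ⟨by simp only; omega, by norm_num, ?_⟩
          simp only [lt_irrefl, if_false, hw5, if_true]
          rw [hx5]
          have := hT'
          rwa [hyb] at this)
    have hCS := ctxW_ok (A := A) (a := 1) (m := 2) (le_refl 1) (by norm_num) (z := contra_Z_z c d)
      (x := fun i => if i < (xwin 5 1 2 (sgS sw 5) true []).nodes.length then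
        xz 1 2 (contra_Z_z c d) i else y) (K := (zX sw true).nodes.length)
      (by simp only [zX, cond_true, XData.add1, List.length_append, hlen]; norm_num)
      (by
        intro i hi
        simp only [hlen]
        rw [if_pos (by omega)])
      hu (ls := []) (bs := bK 5 1 2) (is := []) (so := []) (si := []) (by simp) hbs (by simp)
      (by simp) (by simp)
    have hSat := build_sat (A := A) hG (X := zX sw true) (td := wtd 5 1) hS
      (by cases sw <;> decide)
      (by
        intro k hk htk b hb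
        obtain ⟨i, hi, hbi⟩ := htd0 k hk htk b hb
        refine ⟨i, ?_, ?_⟩
        · simp only [zX, cond_true, XData.add1, List.length_append]
          omega
        · simp only [hi, if_true]
          exact hbi) hCS
    exact sound _ _ _ hSat hrun
  · obtain ⟨k, m, hrun⟩ := hc sw false
    have hS := add2_sat (A := A) (by norm_num) hX (y := y) (r := ⟨0, 11, 28, [0, 6]⟩)
      (r' := ⟨0, 10, 28, [0, 6]⟩)
      (ar := [(10, wix 1 2 1 0), (wix 1 2 5 (sgS sw 5 1 0), 11)]) hny hyb hE (by rw [hlen])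
      (by rw [hlen]) (by norm_num) (by simpa using hgr) (by decide) (by intro _; simpa using hd) rfl hmu
      (by decide) (by decide) rfl
      (by
        intro k hk
        interval_cases k <;> decide)
      (by
        rw [hlen]
        intro q hq
        simp only [List.mem_cons, List.not_mem_nil, or_false] at hq
        rcases hq with rfl | rfl
        · refine ⟨by norm_num, by simp only; omega, ?_⟩
          simp only [lt_irrefl, if_false, hw0, if_true]
          rw [hx0]; exact hT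
        · refine ⟨by simp only; omega, by norm_num, ?_⟩
          simp only [hw5, if_true, show ¬ (11 < 10) by norm_num, if_false, show ¬ (11 = 10) by norm_num]
          rw [hx5]
          exact hT')
    have hCS := ctxW_ok (A := A) (a := 1) (m := 2) (le_refl 1) (by norm_num) (z := contra_Z_z c d)
      (x := fun i => if i < (xwin 5 1 2 (sgS sw 5) true []).nodes.length then
        xz 1 2 (contra_Z_z c d) i else if i = (xwin 5 1 2 (sgS sw 5) true []).nodes.length then y
        else G.bar y) (K := (zX sw false).nodes.length)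
      (by simp only [zX, cond_false, XData.add2, List.length_append, hlen]; norm_num)
      (by
        intro i hi
        simp only [hlen]
        rw [if_pos (by omega)])
      hu (ls := []) (bs := bK 5 1 2) (is := []) (so := []) (si := []) (by simp) hbs (by simp)
      (by simp) (by simp)
    have hSat := build_sat (A := A) hG (X := zX sw false) (td := wtd 5 1) hS
      (by cases sw <;> decide)
      (by
        intro k hk htk b hb
        obtain ⟨i, hi, hbi⟩ := htd0 k hk htk b hb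
        refine ⟨i, ?_, ?_⟩
        · simp only [zX, cond_false, XData.add2, List.length_append]
          omega
        · simp only [hi, if_true]
          exact hbi) hCS
    exact sound _ _ _ hSat hrun

theorem contra_Z {A : Arr G n} (hn : n = 5) (h : A.Good2) (hc : ∀ sw re, CZ sw re) :
    ip (A.u 0) (A.u 6) = 0 := by
  subst hn
  by_contra hne
  have hG := h.good
  have hu0 := A.u_nonneg hG 0
  have hu6 := A.u_nonneg hG 6
  -- a common constituent
  obtain ⟨y, hy⟩ : ∃ y, A.u 0 y ≠ 0 ∧ A.u 6 y ≠ 0 := by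
    by_contra hcon
    push Not at hcon
    apply hne
    unfold ip
    apply Finset.sum_eq_zero
    intro b hb
    simp only [hcon b (Finsupp.mem_support_iff.1 hb), mul_zero]
  have hn0 : ip (A.u 0) (A.u 0) = 2 := by rw [← h.p2]; rfl
  have hn6 : ip (A.u 6) (A.u 6) = 2 := by
    rw [A.ip_u_self hG (by norm_num) (by norm_num), h.p2]
  have key : ∀ x : G.B →₀ ℤ, 0 ≤ x → ip x x = 2 → x y ≠ 0 → x y = 1 := by
    intro x hx hxx hxy
    have h0 := mul_le_ip hx hx y
    rw [hxx] at h0
    have h1 := hx y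
    simp only [Finsupp.coe_zero, Pi.zero_apply] at h1
    have h2 : 1 ≤ x y := by omega
    nlinarith
  have hy0 := key _ hu0 hn0 hy.1
  have hy6 := key _ hu6 hn6 hy.2
  have hyj : ∀ j : ℤ, 1 ≤ j → j ≤ 5 → A.u j y = 0 := by
    intro j hj1 hj2
    have e := h.e0 j hj1 (by push_cast; exact hj2)
    have h1 := mul_le_ip hu0 (A.u_nonneg hG j) y
    have h2 := A.u_nonneg hG j y
    simp only [Finsupp.coe_zero, Pi.zero_apply] at h2
    rw [e, hy0] at h1
    linarith
  have hgr : G.gr y = 0 := by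
    have := A.Gr_u 0 y hy.1
    rw [this]
    decide
  have hd : G.d y ≤ 28 := by
    have h1 := G.mul_d_le_dg hu0 y
    rw [hy0, A.dg_u (by norm_num) (by norm_num)] at h1
    have : dimZ (((5 : ℕ) : ℤ) + 1 - 0) 0 = 28 := by norm_num [dimZ]
    rw [this] at h1
    linarith
  have hE : ∀ a b, A.E a b y = 0 := by
    intro a b
    have h1 := mul_le_ip hu0 (A.E_nonneg a b) y
    rw [A.ip_u_E hG, hy0] at h1
    have h2 := A.E_nonneg a b y
    simp only [Finsupp.coe_zero, Pi.zero_apply] at h2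
    linarith
  obtain ⟨c, d, h1, h2, h3⟩ := A.chain h
  have hS := A.S_u_ge hG (h.e0 3 (by norm_num) (by norm_num)) (j := 0) (le_refl 0) (by norm_num) y
  rw [hy0, zero_add, (h1 1 (le_refl 1) (by norm_num)).1, map_add, Finsupp.add_apply, ← G.adj,
    ← G.adj] at hS
  have h1' : ∀ j : ℤ, 1 ≤ j → j ≤ 5 → A.u j = bv (c j) + bv (d j) ∧ c j ≠ d j :=
    fun j hj1 hj2 => h1 j hj1 (by push_cast; exact hj2)
  have h2' : ∀ j : ℤ, 1 ≤ j → j ≤ 4 → 1 ≤ G.T (bv (c j)) (c (j + 1)) ∧ 1 ≤ G.T (bv (d j)) (d (j + 1)) := by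
    intro j hj1 hj2
    have := h2 j hj1 (by push_cast; linarith)
    exact ⟨this.1.ge, this.2.2.2.ge⟩
  obtain ⟨sw, h3'⟩ : ∃ sw : Bool, ∀ j : ℤ, 1 ≤ j → j ≤ 5 →
      G.bar (c j) = (if sw = true then d (6 - j) else c (6 - j)) ∧
      G.bar (d j) = (if sw = true then c (6 - j) else d (6 - j)) := by
    have e : ∀ j : ℤ, ((5 : ℕ) : ℤ) + 1 - j = 6 - j := by intro j; norm_num
    rcases h3 with h3 | h3
    · refine ⟨false, fun j hj1 hj2 => ?_⟩
      have := h3 j hj1 (by push_cast; exact hj2)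
      rw [e] at this
      simpa using this
    · refine ⟨true, fun j hj1 hj2 => ?_⟩
      have := h3 j hj1 (by push_cast; exact hj2)
      rw [e] at this
      simpa using this
  by_cases hT : 1 ≤ G.T (bv y) (c 1)
  · exact contra_Z_core h hc c d sw h1' h2' h3' y hy0 hy6 hyj hgr hd hE hT
  · have hT2 : 1 ≤ G.T (bv y) (d 1) := by
      have := G.T_nonneg y (c 1)
      omega
    refine contra_Z_core h hc d c sw (fun j hj1 hj2 => ?_) (fun j hj1 hj2 => ?_)
      (fun j hj1 hj2 => ?_) y hy0 hy6 hyj hgr hd hE hT2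
    · obtain ⟨e1, e2⟩ := h1' j hj1 hj2
      exact ⟨by rw [e1, add_comm], e2.symm⟩
    · obtain ⟨e1, e2⟩ := h2' j hj1 hj2
      exact ⟨e2, e1⟩
    · obtain ⟨e1, e2⟩ := h3' j hj1 hj2
      exact ⟨e2, e1⟩

end Pool.Agent.Helper363.Nita.K2
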