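import Pool.Agent.Helper363.Nita.Chain

namespace Pool.Agent.Helper363.Nita

open Finsupp

variable {G : NG} {n : ℕ}

namespace Arr
variable (A : Arr G n)

theorem bv_nonneg_TG4 {B : Type} (b : B) : (0 : B →₀ ℤ) ≤ bv b := by
  intro a
  by_cases h : b = a
  · subst h; simp [bv]
  · simp [bv, Finsupp.single_apply, h]

theorem sub_bv_nonneg' {B : Type} {x : B →₀ ℤ} (hx : 0 ≤ x) {b : B} (hb : 1 ≤ x b) :
    0 ≤ x - bv b := by
  intro a
  by_cases ha : b = a
  · subst ha; simp [bv]; linarith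
  · simpa [bv, Finsupp.single_apply, ha] using hx a

theorem one_le_of_ne' {B : Type} {x : B →₀ ℤ} (hx : 0 ≤ x) (h : x ≠ 0) : ∃ b, 1 ≤ x b := by
  obtain ⟨b, hb⟩ := Finsupp.ne_iff.1 h
  refine ⟨b, ?_⟩
  have := hx b
  simp only [Finsupp.coe_zero, Pi.zero_apply] at this hb ⊢
  omega

theorem d_le_T' {b y : G.B} (h : 1 ≤ G.T (bv b) y) : G.d y ≤ 3 * G.d b := by
  have h1 := G.mul_d_le_dg (x := G.T (bv b)) (fun z => G.T_nonneg b z) y
  rw [G.dg_T, G.dg_bv] at h1
  have h2 := G.d_pos y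
  nlinarith

theorem d_le_S' {b y : G.B} (h : 1 ≤ G.S (bv b) y) : G.d y ≤ 3 * G.d b := by
  have h1 := G.mul_d_le_dg (x := G.S (bv b)) (fun z => G.S_nonneg b z) y
  rw [G.dg_S, G.dg_bv] at h1
  have h2 := G.d_pos y
  nlinarith

theorem single_small' {x : G.B →₀ ℤ} (hx : 0 ≤ x) (D : ℤ) (hD : ∀ b, 1 ≤ x b → D ≤ G.d b)
    (h0 : 0 < G.dg x) (h1 : G.dg x < 2 * D) : ∃ b, x = bv b ∧ G.d b = G.dg x := by
  have hne : x ≠ 0 := by
    rintro rfl
    rw [G.dg_zero] at h0
    exact lt_irrefl _ h0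
  obtain ⟨b, hb1⟩ := one_le_of_ne' hx hne
  have h2 : 0 ≤ x - bv b := sub_bv_nonneg' hx hb1
  by_cases h3 : x - bv b = 0
  · have h4 : x = bv b := sub_eq_zero.1 h3
    refine ⟨b, h4, ?_⟩
    rw [h4, G.dg_bv]
  · exfalso
    obtain ⟨c, hc1⟩ := one_le_of_ne' h2 h3
    have hc2 : 1 ≤ x c := by
      have h5 := bv_nonneg_TG4 b c
      simp only [Finsupp.coe_sub, Pi.sub_apply, Finsupp.coe_zero, Pi.zero_apply] at hc1 h5
      linarith
    have h5 := G.mul_d_le_dg h2 c
    rw [G.dg_sub, G.dg_bv] at h5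
    have h6 := hD b hb1
    have h7 := hD c hc2
    have h8 := G.d_pos c
    nlinarith

theorem t_ex' (A : Arr G n) {j : ℤ} (h1 : 0 ≤ j) (h2 : j ≤ n) :
    ∃ v, A.t j = bv v ∧ G.d v = dimZ (n - j) j := by
  obtain ⟨a', b', -, -, -, h⟩ := A.E_ex (a := n - j) (b := j) ⟨by omega, h1, by omega⟩
  have h3 : A.t j = bv (A.V a' b') := h
  refine ⟨_, h3, ?_⟩
  rw [← G.dg_bv, ← h3, A.dg_t h1 h2]

theorem s_ex' (A : Arr G n) {j : ℤ} (h1 : 0 ≤ j) (h2 : j < n) :
    ∃ v, A.s j = bv v ∧ G.d v = dimZ (n - 1 - j) j := by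
  obtain ⟨a', b', -, -, -, h⟩ := A.E_ex (a := n - 1 - j) (b := j) ⟨by omega, h1, by omega⟩
  have h3 : A.s j = bv (A.V a' b') := h
  refine ⟨_, h3, ?_⟩
  rw [← G.dg_bv, ← h3, A.dg_s h1 h2]

theorem ip_t_s' (A : Arr G n) (hn : 4 ≤ n) {i : ℤ} (h1 : 0 ≤ i) (h2 : i ≤ n) (j : ℤ) :
    ip (A.t i) (A.s j) = 0 := by
  by_cases h : 0 ≤ j ∧ j < n
  · exact A.ip_t_E hn h1 h2 ⟨by omega, h.1, by omega⟩
  · rw [A.s_out (by omega), ip_zero_right]

theorem ip_t_r' (A : Arr G n) (hn : 4 ≤ n) {i : ℤ} (h1 : 0 ≤ i) (h2 : i ≤ n) (j : ℤ) :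
    ip (A.t i) (A.r j) = 0 := by
  by_cases h : 0 ≤ j ∧ j < n - 1
  · exact A.ip_t_E hn h1 h2 ⟨by omega, h.1, by omega⟩
  · rw [A.r_out (by omega), ip_zero_right]

theorem ip_s_s' (A : Arr G n) (hn : 4 ≤ n) {i j : ℤ} (h1 : 0 ≤ i) (h2 : i < n) (h3 : 0 ≤ j)
    (h4 : j < n) : ip (A.s i) (A.s j) = if i = j then 1 else 0 := by
  unfold s
  rw [A.ip_E hn _ _ _ _ ⟨by omega, h1, by omega⟩ ⟨by omega, h3, by omega⟩]
  by_cases h : i = j
  · rw [if_pos h, if_pos ⟨by omega, h⟩]
  · rw [if_neg h, if_neg (fun h' => h h'.2)]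

theorem m_zero' (A : Arr G 4) : ip (G.T (A.t 0)) (A.t 1) = 1 := by
  have h1 := A.Md_flip (by norm_num) (i := 0) (j := 1) (by norm_num) (by norm_num)
    (by norm_num) (by norm_num)
  unfold Md at h1
  norm_num at h1
  have h2 := A.ip_T_nonneg 2 0
  obtain ⟨v0, hv0, dv0⟩ := A.t_ex' (j := 0) (by norm_num) (by norm_num)
  obtain ⟨v1, hv1, dv1⟩ := A.t_ex' (j := 1) (by norm_num) (by norm_num)
  have h3 := G.mul_d_le_dg (x := G.T (A.t 0)) (G.T_pos (A.t_nonneg 0)) v1
  rw [G.dg_T, ← ip_bv_right, ← hv1] at h3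
  have h4 : G.dg (A.t 0) = 15 := by
    rw [A.dg_t (by norm_num) (by norm_num)]
    norm_num [dimZ]
  have h5 : G.d v1 = 24 := by rw [dv1]; norm_num [dimZ]
  rw [h4, h5] at h3
  omega

theorem Md_zero' (A : Arr G 4) : A.Md 0 1 = 0 := by
  unfold Md
  rw [A.m_zero']
  norm_num

theorem Md_shift' (A : Arr G 4) {i j : ℤ} (h1 : 0 ≤ i) (h2 : i < 4) (h3 : 0 ≤ j) (h4 : j < 4) :
    A.Md (i + 1) (j + 1) = A.Md i j :=
  A.Md_toep (by norm_num) h1 (by exact_mod_cast h2) h3 (by exact_mod_cast h4)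

theorem Md_flip' (A : Arr G 4) {i j : ℤ} (h1 : 0 ≤ i) (h2 : i ≤ 4) (h3 : 0 ≤ j) (h4 : j < 4) :
    A.Md (j + 1) i = A.Md i j :=
  A.Md_flip (by norm_num) h1 (by exact_mod_cast h2) h3 (by exact_mod_cast h4)

set_option maxHeartbeats 4000000 in
theorem no_f4_aux (A : Arr G 4) : ip (G.T (A.t 0)) (A.t 4) = 0 := by
  classical
  have hn : 4 ≤ 4 := le_refl _
  have hn2 : 2 ≤ 4 := by norm_num
  by_contra hf0
  have hf1 : 1 ≤ ip (G.T (A.t 0)) (A.t 4) := by
    have := A.ip_T_nonneg 0 4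
    omega
  obtain ⟨v0, hv0, dv0⟩ := A.t_ex' (j := 0) (by norm_num) (by norm_num)
  obtain ⟨v1, hv1, dv1⟩ := A.t_ex' (j := 1) (by norm_num) (by norm_num)
  obtain ⟨v3, hv3, dv3⟩ := A.t_ex' (j := 3) (by norm_num) (by norm_num)
  obtain ⟨v4, hv4, dv4⟩ := A.t_ex' (j := 4) (by norm_num) (by norm_num)
  obtain ⟨z0, hz0, dz0⟩ := A.s_ex' (j := 0) (by norm_num) (by norm_num)
  obtain ⟨z1, hz1, dz1⟩ := A.s_ex' (j := 1) (by norm_num) (by norm_num)
  have dv0 : G.d v0 = 15 := by rw [dv0]; norm_num [dimZ]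
  have dv1 : G.d v1 = 24 := by rw [dv1]; norm_num [dimZ]
  have dv3 : G.d v3 = 24 := by rw [dv3]; norm_num [dimZ]
  have dv4 : G.d v4 = 15 := by rw [dv4]; norm_num [dimZ]
  have dz0 : G.d z0 = 10 := by rw [dz0]; norm_num [dimZ]
  have dz1 : G.d z1 = 15 := by rw [dz1]; norm_num [dimZ]
  -- inner products of the top level
  have itt : ∀ i j : ℤ, 0 ≤ i → i ≤ 4 → 0 ≤ j → j ≤ 4 →
      ip (A.t i) (A.t j) = if i = j then 1 else 0 := fun i j h1 h2 h3 h4 =>
    A.ip_t_t hn h1 (by exact_mod_cast h2) h3 (by exact_mod_cast h4)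
  have its : ∀ i j : ℤ, 0 ≤ i → i ≤ 4 → ip (A.t i) (A.s j) = 0 := fun i j h1 h2 =>
    A.ip_t_s' hn h1 (by exact_mod_cast h2) j
  have itr : ∀ i j : ℤ, 0 ≤ i → i ≤ 4 → ip (A.t i) (A.r j) = 0 := fun i j h1 h2 =>
    A.ip_t_r' hn h1 (by exact_mod_cast h2) j
  have n01 : v0 ≠ v1 := by rintro rfl; omega
  have n14 : v1 ≠ v4 := by rintro rfl; omega
  have n03 : v0 ≠ v3 := by rintro rfl; omega
  have n04 : v0 ≠ v4 := by
    rintro rfl
    have := itt 0 4 (by norm_num) (by norm_num) (by norm_num) (by norm_num)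
    rw [hv0, hv4, ip_bv_self] at this
    norm_num at this
  -- values of T t_0
  have T0_1 : G.T (bv v0) v1 = 1 := by
    have := A.m_zero'
    rwa [hv0, hv1, ip_bv_right] at this
  have T0_4 : 1 ≤ G.T (bv v0) v4 := by
    have := hf1
    rwa [hv0, hv4, ip_bv_right] at this
  have T0_nn : 0 ≤ G.T (bv v0) := fun z => G.T_nonneg v0 z
  obtain ⟨w, hw⟩ : ∃ w, w = G.T (bv v0) - bv v1 - bv v4 := ⟨_, rfl⟩
  have hw1 : 0 ≤ G.T (bv v0) - bv v1 := sub_bv_nonneg' T0_nn (by omega)
  have hw0 : 0 ≤ w := by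
    rw [hw]
    apply sub_bv_nonneg' hw1
    simp [bv, Finsupp.single_apply, n14]
    exact T0_4
  have dgw : G.dg w = 6 := by
    rw [hw, G.dg_sub, G.dg_sub, G.dg_T, G.dg_bv, G.dg_bv, G.dg_bv]
    omega
  have wle : ∀ b, w b ≤ G.T (bv v0) b := by
    intro b
    rw [hw]
    have e1 := bv_nonneg_TG4 v1 b
    have e2 := bv_nonneg_TG4 v4 b
    simp only [Finsupp.coe_sub, Pi.sub_apply, Finsupp.coe_zero, Pi.zero_apply] at e1 e2 ⊢
    linarith
  have T0eq : G.T (bv v0) = bv v1 + bv v4 + w := by rw [hw]; abel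
  obtain ⟨b0, hb0, db0⟩ := single_small' (G := G) hw0 5 (fun b hb => by
    have h1 := wle b
    have h2 : 1 ≤ G.S (bv b) v0 := by rw [← G.adj]; linarith
    have h3 := d_le_S' h2
    omega) (by omega) (by omega)
  rw [dgw] at db0
  have n10 : v1 ≠ b0 := by rintro rfl; omega
  have n40 : v4 ≠ b0 := by rintro rfl; omega
  have n00 : v0 ≠ b0 := by rintro rfl; omega
  -- norm of T t_0
  have normT0 : ip (G.T (bv v0)) (G.T (bv v0)) = 3 := by
    rw [T0eq, hb0]
    simp only [ip_add_left, ip_add_right, ip_bv_bv]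
    simp [n14, n14.symm, n10, n10.symm, n40, n40.symm]
  have normS0 : ip (G.S (bv v0)) (G.S (bv v0)) = 3 := by rw [← G.normal, normT0]
  -- S t_0 = s_0 + u_1
  have St0 : G.S (bv v0) = bv z0 + A.u 1 := by
    have h1 := A.St hn2 (j := 0) (by norm_num) (by norm_num)
    norm_num at h1
    rw [A.t_out (j := -1) (Or.inl (by norm_num)), hv0, hz0, zero_add] at h1
    exact h1
  have Ts0 : G.T (bv z0) = bv v0 + bv z1 := by
    have h1 := A.T_s (j := 0) (by norm_num) (by norm_num)
    norm_num at h1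
    rw [A.r_out (j := -1) (Or.inl (by norm_num)), hv0, hz0, hz1, add_zero] at h1
    exact h1
  have iv0z : ∀ z, A.s z = A.s z → ip (bv v0) (A.s z) = 0 := fun z _ => by
    rw [← hv0]; exact its 0 z (by norm_num) (by norm_num)
  have S0z0 : ip (G.S (bv v0)) (bv z0) = 1 := by
    rw [G.adjoint', Ts0, ip_add_right, ip_bv_self, ← hz1, iv0z _ rfl]
    norm_num
  have u1nn : 0 ≤ A.u 1 := by
    have h1 : A.u 1 = G.S (bv v0) - bv z0 := by rw [St0]; abel
    rw [h1]
    apply sub_bv_nonneg' (fun z => G.S_nonneg v0 z)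
    rw [← ip_bv_right, S0z0]
  have u1z0 : ip (A.u 1) (bv z0) = 0 := by
    have h1 := S0z0
    rw [St0, ip_add_left, ip_bv_self] at h1
    linarith
  have normu1 : ip (A.u 1) (A.u 1) = 2 := by
    have h1 := normS0
    rw [St0] at h1
    simp only [ip_add_left, ip_add_right, ip_bv_self] at h1
    rw [ip_comm (bv z0) (A.u 1), u1z0] at h1
    linarith
  -- S t_4
  have bt : ∀ j : ℤ, G.bar' (A.t j) = A.t (4 - j) := fun j => by
    have := A.bar_t j
    exact_mod_cast this
  have St4 : G.S (bv v4) = bv v3 + bv v0 + bv (G.bar b0) := by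
    have h1 := congrArg G.bar' T0eq
    rw [G.bar_T, map_add, map_add, ← hv0, ← hv1, ← hv4, hb0, bt, bt, bt, G.bar'_bv] at h1
    norm_num at h1
    rw [hv4, hv3, hv0] at h1
    exact h1
  have dbb0 : G.d (G.bar b0) = 6 := by rw [G.d_bar, db0]
  -- T t_1, T t_4
  have Tt1 : G.T (bv v1) = A.t 2 + bv z0 + A.u 1 := by
    have h1 := A.Tt (j := 1) (by norm_num) (by norm_num)
    norm_num at h1
    rw [hv1, hz0] at h1
    exact h1
  have Tt4 : G.T (bv v4) = A.s 3 + A.u 4 := by
    have h1 := A.Tt (j := 4) (by norm_num) (by norm_num)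
    norm_num at h1
    rw [A.t_out (j := 5) (Or.inr (by norm_num)), zero_add, hv4] at h1
    exact h1
  have left : ip (G.T (bv v1)) (G.T (bv v4)) = ip (A.u 1) (A.u 4) := by
    -- t_2 against T t_4
    have e1 : ip (A.t 2) (G.T (bv v4)) = 0 := by
      have h1 := A.Md_flip' (i := 2) (j := 3) (by norm_num) (by norm_num) (by norm_num) (by norm_num)
      have h2 := A.Md_shift' (i := 1) (j := 2) (by norm_num) (by norm_num) (by norm_num) (by norm_num)
      have h3 := A.Md_shift' (i := 0) (j := 1) (by norm_num) (by norm_num) (by norm_num) (by norm_num)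
      have h4 := A.Md_zero'
      norm_num at h1 h2 h3
      rw [h2, h3, h4] at h1
      unfold Md at h1
      norm_num at h1
      rw [hv4, ip_comm] at h1
      exact h1
    have e2 : ip (bv z0) (G.T (bv v4)) = 0 := by
      have h1 := A.S_s (j := 0) (by norm_num) (by norm_num)
      rw [← G.adjoint', ← hz0, h1]
      rw [A.s_out (Or.inl (by norm_num)), ip_add_left, ip_add_left, ip_zero_left, ← hv4]
      have h2 := itt 1 4 (by norm_num) (by norm_num) (by norm_num) (by norm_num)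
      have h3 := itr 4 0 (by norm_num) (by norm_num)
      rw [ip_comm] at h3
      norm_num at h2 ⊢
      rw [h2, h3]
      norm_num
    have e3 : ip (A.u 1) (A.s 3) = 0 := by
      have h1 : A.u 1 = G.S (bv v0) - A.s 0 := by rw [St0, hz0]; abel
      have h2 := A.T_s (j := 3) (by norm_num) (by norm_num)
      rw [h1, ip_sub_left, G.adjoint', h2]
      have h3 := A.ip_s_s' hn (i := 0) (j := 3) (by norm_num) (by norm_num) (by norm_num)
        (by norm_num)
      rw [h3, ip_add_right, ip_add_right, ← hv0, itt 0 3 (by norm_num) (by norm_num)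
        (by norm_num) (by norm_num), its 0 _ (by norm_num) (by norm_num),
        itr 0 _ (by norm_num) (by norm_num)]
      norm_num
    rw [Tt1, ip_add_left, ip_add_left, e1, e2, Tt4, ip_add_right, e3]
    ring
  have right : ip (G.S (bv v1)) (G.S (bv v4)) = 1 := by
    have e1 : ip (G.S (bv v1)) (bv v3) = 0 := by
      have h1 := A.Md_flip' (i := 1) (j := 2) (by norm_num) (by norm_num) (by norm_num) (by norm_num)
      have h3 := A.Md_shift' (i := 0) (j := 1) (by norm_num) (by norm_num) (by norm_num) (by norm_num)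
      have h4 := A.Md_zero'
      norm_num at h1 h3
      rw [h3, h4] at h1
      unfold Md at h1
      norm_num at h1
      rw [G.adjoint', ip_comm, ← hv3, ← hv1]
      exact h1
    have e2 : ip (G.S (bv v1)) (bv v0) = 1 := by
      rw [G.adjoint', ip_bv_left, T0_1]
    have e3 : ip (G.S (bv v1)) (bv (G.bar b0)) = 0 := by
      rw [ip_bv_right]
      by_contra h
      have h1 := G.S_nonneg v1 (G.bar b0)
      have h2 : 1 ≤ G.T (bv (G.bar b0)) v1 := by rw [G.adj]; omega
      have h3 := d_le_T' h2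
      omega
    rw [St4, ip_add_right, ip_add_right, e1, e2, e3]
    norm_num
  have iu14 : ip (A.u 1) (A.u 4) = 1 := by rw [← left, G.normal, right]
  have bu1 : G.bar' (A.u 1) = A.u 4 := by
    have h1 := A.bar_u hn2 1
    norm_num at h1
    exact h1
  -- the final contradiction, for a self-dual `a`
  have final : ∀ a b : G.B, a ≠ b → A.u 1 = bv a + bv b → G.bar a = a → False := by
    intro a b hab hu hba
    have dab : G.d a + G.d b = 35 := by
      have h1 := A.dg_u (j := 1) (by norm_num) (by norm_num)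
      rw [hu, G.dg_add, G.dg_bv, G.dg_bv] at h1
      norm_num [dimZ] at h1
      exact h1
    have u1a : 1 ≤ A.u 1 a := by
      rw [hu]
      have e2 := bv_nonneg_TG4 b a
      simp only [Finsupp.coe_add, Pi.add_apply, Finsupp.coe_zero, Pi.zero_apply] at e2 ⊢
      simp only [bv, Finsupp.single_eq_same] at e2 ⊢
      linarith
    have u1b : 1 ≤ A.u 1 b := by
      rw [hu]
      have e2 := bv_nonneg_TG4 a b
      simp only [Finsupp.coe_add, Pi.add_apply, Finsupp.coe_zero, Pi.zero_apply] at e2 ⊢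
      simp only [bv, Finsupp.single_eq_same] at e2 ⊢
      linarith
    have u4a : 1 ≤ A.u 4 a := by
      rw [← bu1, G.bar'_apply, hba]; exact u1a
    -- T a
    have Ta0 : 1 ≤ G.T (bv a) v0 := by
      rw [G.adj, St0]
      have e2 := bv_nonneg_TG4 z0 a
      simp only [Finsupp.coe_add, Pi.add_apply, Finsupp.coe_zero, Pi.zero_apply] at e2 ⊢
      linarith
    have Tb0 : 1 ≤ G.T (bv b) v0 := by
      rw [G.adj, St0]
      have e2 := bv_nonneg_TG4 z0 b
      simp only [Finsupp.coe_add, Pi.add_apply, Finsupp.coe_zero, Pi.zero_apply] at e2 ⊢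
      linarith
    have Ta3 : 1 ≤ G.T (bv a) v3 := by
      rw [G.adj, ← hv3]
      have h1 := A.St hn2 (j := 3) (by norm_num) (by norm_num)
      rw [h1]
      have e1 := A.t_nonneg (3 - 1) a
      have e2 := A.s_nonneg 3 a
      norm_num at e1 e2 ⊢
      linarith
    have Tann : 0 ≤ G.T (bv a) := fun z => G.T_nonneg a z
    have Tbnn : 0 ≤ G.T (bv b) := fun z => G.T_nonneg b z
    obtain ⟨za, hza⟩ : ∃ za, za = G.T (bv a) - bv v0 - bv v3 := ⟨_, rfl⟩
    have hza0 : 0 ≤ za := by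
      rw [hza]
      apply sub_bv_nonneg' (sub_bv_nonneg' Tann Ta0)
      simp [bv, Finsupp.single_apply, n03]
      exact Ta3
    have da13 : 13 ≤ G.d a := by
      have h1 := G.dg_nonneg hza0
      rw [hza, G.dg_sub, G.dg_sub, G.dg_T, G.dg_bv, G.dg_bv, G.dg_bv] at h1
      omega
    -- S w = t_0 + x
    have T0b0 : G.T (bv v0) b0 = 1 := by
      rw [T0eq, hb0]
      simp [bv, Finsupp.single_apply, n10, n40]
    have Sb0 : 1 ≤ G.S (bv b0) v0 := by rw [← G.adj, T0b0]
    obtain ⟨x, hx⟩ : ∃ x, x = G.S (bv b0) - bv v0 := ⟨_, rfl⟩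
    have hx0 : 0 ≤ x := by
      rw [hx]; exact sub_bv_nonneg' (fun z => G.S_nonneg b0 z) Sb0
    have dgx : G.dg x = 3 := by
      rw [hx, G.dg_sub, G.dg_S, G.dg_bv, G.dg_bv]
      omega
    have xle : ∀ e, x e ≤ G.S (bv b0) e := by
      intro e
      rw [hx]
      have e2 := bv_nonneg_TG4 v0 e
      simp only [Finsupp.coe_sub, Pi.sub_apply, Finsupp.coe_zero, Pi.zero_apply] at e2 ⊢
      linarith
    obtain ⟨e, he, de⟩ := single_small' (G := G) hx0 2 (fun e he => by
      have h1 := xle e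
      have h2 : 1 ≤ G.T (bv e) b0 := by rw [G.adj]; linarith
      have h3 := d_le_T' h2
      omega) (by omega) (by omega)
    rw [dgx] at de
    -- u_2
    have St1 : G.S (bv v1) = bv v0 + bv z1 + A.u 2 := by
      have h1 := A.St hn2 (j := 1) (by norm_num) (by norm_num)
      norm_num at h1
      rw [hv1, hv0, hz1] at h1
      exact h1
    have n0z1 : v0 ≠ z1 := by
      rintro rfl
      have := iv0z 1 rfl
      rw [hz1, ip_bv_self] at this
      norm_num at this
    have S1_0 : G.S (bv v1) v0 = 1 := by rw [← G.adj, T0_1]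
    have S1_z1 : G.S (bv v1) z1 = 1 := by
      rw [← ip_bv_right, G.adjoint', ← hz1, ← hv1]
      have h2 := A.T_s (j := 1) (by norm_num) (by norm_num)
      rw [h2, ip_add_right, ip_add_right, itt 1 1 (by norm_num) (by norm_num)
        (by norm_num) (by norm_num), its 1 _ (by norm_num) (by norm_num),
        itr 1 _ (by norm_num) (by norm_num)]
      norm_num
    have u2nn : 0 ≤ A.u 2 := by
      have h1 : A.u 2 = G.S (bv v1) - bv v0 - bv z1 := by rw [St1]; abel
      rw [h1]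
      apply sub_bv_nonneg' (sub_bv_nonneg' (fun z => G.S_nonneg v1 z) (by omega))
      simp [bv, Finsupp.single_apply, n0z1]
      exact S1_z1.ge
    -- commutation
    have comm : G.T (bv a) + G.T (bv b) = A.u 2 + bv v3 + bv v0 + bv v0 + bv (G.bar b0) + bv e := by
      have h1 := G.comm (bv v0)
      rw [St0, T0eq, hb0, hu] at h1
      simp only [map_add] at h1
      rw [Ts0, St1, St4] at h1
      have h2 : G.S (bv b0) = bv v0 + bv e := by
        rw [← he, hx]; abel
      rw [h2] at h1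
      have h3 : G.T (bv a) + G.T (bv b) =
        (bv v0 + bv z1 + (G.T (bv a) + G.T (bv b))) - bv v0 - bv z1 := by abel
      rw [h3, h1]
      abel
    have commv : ∀ y, G.T (bv a) y + G.T (bv b) y = A.u 2 y + bv v3 y + bv v0 y + bv v0 y +
        bv (G.bar b0) y + bv e y := by
      intro y
      have := congrArg (fun f => f y) comm
      simpa using this
    -- e is not in T a
    have Tae : G.T (bv a) e = 0 := by
      by_contra h
      have h1 := G.T_nonneg a e
      have h2 : 1 ≤ G.S (bv e) a := by rw [← G.adj]; omega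
      have h3 := d_le_S' h2
      omega
    have Tbe : 1 ≤ G.T (bv b) e := by
      have h1 := commv e
      have p1 := u2nn e
      have p2 := bv_nonneg_TG4 v3 e
      have p3 := bv_nonneg_TG4 v0 e
      have p4 := bv_nonneg_TG4 (G.bar b0) e
      have p5 : (bv e : G.B →₀ ℤ) e = 1 := by simp [bv]
      simp only [Finsupp.coe_zero, Pi.zero_apply] at p1 p2 p3 p4
      linarith
    have db9 : G.d b ≤ 9 := by
      have h2 : 1 ≤ G.S (bv e) b := by rw [← G.adj]; omega
      have h3 := d_le_S' h2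
      omega
    have Tab : G.T (bv a) (G.bar b0) = 0 := by
      by_contra h
      have h1 := G.T_nonneg a (G.bar b0)
      have h2 : 1 ≤ G.S (bv (G.bar b0)) a := by rw [← G.adj]; omega
      have h3 := d_le_S' h2
      omega
    have Tbb : 1 ≤ G.T (bv b) (G.bar b0) := by
      have h1 := commv (G.bar b0)
      have p1 := u2nn (G.bar b0)
      have p2 := bv_nonneg_TG4 v3 (G.bar b0)
      have p3 := bv_nonneg_TG4 v0 (G.bar b0)
      have p4 := bv_nonneg_TG4 e (G.bar b0)
      have p5 : (bv (G.bar b0) : G.B →₀ ℤ) (G.bar b0) = 1 := by simp [bv]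
      simp only [Finsupp.coe_zero, Pi.zero_apply] at p1 p2 p3 p4
      linarith
    have m1 : v0 ≠ G.bar b0 := by rintro h; rw [← h] at dbb0; omega
    have m2 : v0 ≠ e := by rintro h; rw [← h] at de; omega
    have m3 : G.bar b0 ≠ e := by rintro h; rw [← h] at de; omega
    obtain ⟨y, hy⟩ : ∃ y, y = G.T (bv b) - bv v0 - bv (G.bar b0) - bv e := ⟨_, rfl⟩
    have hy0 : 0 ≤ y := by
      rw [hy]
      apply sub_bv_nonneg' (sub_bv_nonneg' (sub_bv_nonneg' Tbnn Tb0) _)
      · simp [bv, Finsupp.single_apply, m2, m3]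
        exact Tbe
      · simp [bv, Finsupp.single_apply, m1]
        exact Tbb
    have dgy : G.dg y = 3 * G.d b - 24 := by
      rw [hy, G.dg_sub, G.dg_sub, G.dg_sub, G.dg_T, G.dg_bv, G.dg_bv, G.dg_bv, G.dg_bv]
      omega
    have hyz : y = 0 := by
      by_contra hne
      obtain ⟨g, hg⟩ := one_le_of_ne' hy0 hne
      have h1 : za + y = A.u 2 := by
        rw [hza, hy]
        have h3 : G.T (bv a) - bv v0 - bv v3 + (G.T (bv b) - bv v0 - bv (G.bar b0) - bv e) =
          (G.T (bv a) + G.T (bv b)) - bv v0 - bv v3 - bv v0 - bv (G.bar b0) - bv e := by abel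
        rw [h3, comm]
        abel
      have h2 : 1 ≤ A.u 2 g := by
        rw [← h1]
        have p1 := hza0 g
        simp only [Finsupp.coe_add, Pi.add_apply, Finsupp.coe_zero, Pi.zero_apply] at p1 ⊢
        linarith
      have h3 : 1 ≤ G.T (bv g) v1 := by
        rw [G.adj, St1]
        have p1 := bv_nonneg_TG4 v0 g
        have p2 := bv_nonneg_TG4 z1 g
        simp only [Finsupp.coe_add, Pi.add_apply, Finsupp.coe_zero, Pi.zero_apply] at p1 p2 ⊢
        linarith
      have h4 := d_le_T' h3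
      have h5 := G.mul_d_le_dg hy0 g
      have h6 := G.d_pos g
      have h7 : G.d g ≤ G.dg y := by nlinarith
      omega
    have db8 : G.d b = 8 := by
      rw [hyz, G.dg_zero] at dgy
      omega
    have Tbeq : G.T (bv b) = bv v0 + bv (G.bar b0) + bv e := by
      have h1 := hyz
      rw [hy] at h1
      have h3 : G.T (bv b) =
        (G.T (bv b) - bv v0 - bv (G.bar b0) - bv e) + bv v0 + bv (G.bar b0) + bv e := by abel
      rw [h3, h1]
      abel
    have normTb : ip (G.T (bv b)) (G.T (bv b)) = 3 := by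
      rw [Tbeq]
      simp only [ip_add_left, ip_add_right, ip_bv_bv]
      simp [m1, m1.symm, m2, m2.symm, m3, m3.symm]
    have Sb1 : 1 ≤ G.S (bv b) v1 := by
      rw [← G.adj, Tt1]
      have p1 := A.t_nonneg 2 b
      have p2 := bv_nonneg_TG4 z0 b
      simp only [Finsupp.coe_add, Pi.add_apply, Finsupp.coe_zero, Pi.zero_apply] at p1 p2 ⊢
      linarith
    have Sbeq : G.S (bv b) - bv v1 = 0 := by
      apply G.dg_eq_zero (sub_bv_nonneg' (fun z => G.S_nonneg b z) Sb1)
      rw [G.dg_sub, G.dg_S, G.dg_bv, G.dg_bv]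
      omega
    have Sbeq' : G.S (bv b) = bv v1 := sub_eq_zero.1 Sbeq
    have h9 := G.normal (bv b) (bv b)
    rw [normTb, Sbeq', ip_bv_self] at h9
    norm_num at h9
  obtain ⟨a, b, hab, hu⟩ := G.norm_two u1nn normu1
  have hu4 : A.u 4 = bv (G.bar a) + bv (G.bar b) := by
    rw [← bu1, hu, map_add, G.bar'_bv, G.bar'_bv]
  have key := iu14
  rw [hu, hu4] at key
  simp only [ip_add_left, ip_add_right, ip_bv_bv] at key
  by_cases h1 : G.bar a = a
  · exact final a b hab hu h1
  · by_cases h2 : G.bar b = b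
    · exact final b a hab.symm (by rw [hu, add_comm]) h2
    · have q1 : ¬ a = G.bar a := fun h => h1 h.symm
      have q2 : ¬ b = G.bar b := fun h => h2 h.symm
      by_cases h3 : a = G.bar b
      · have h4 : b = G.bar a := by rw [h3, G.bar_bar]
        rw [if_neg q1, if_neg q2, if_pos h3, if_pos h4] at key
        norm_num at key
      · have h4 : ¬ b = G.bar a := by
          intro h; apply h3; rw [h, G.bar_bar]
        rw [if_neg q1, if_neg q2, if_neg h3, if_neg h4] at key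
        norm_num at key

/-- depth four: the corner of the array is not joined to the opposite corner -/
theorem no_f4 (hn : n = 4) : ip (G.T (A.t 0)) (A.t 4) = 0 := by
  subst hn
  exact no_f4_aux A

theorem good_four (hn : n = 4) : A.Good := by
  subst hn
  have g0 : ∀ k : ℤ, 0 ≤ k → k ≤ 4 → A.Md 0 k = 0 := by
    intro k h1 h2
    have h4 := A.Md_zero'
    have h5 := A.no_f4_aux
    interval_cases k
    · unfold Md
      rw [A.ip_T_grade (by decide)]
      norm_num
    · exact h4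
    · unfold Md
      rw [A.ip_T_grade (by decide)]
      norm_num
    · unfold Md
      rw [A.ip_T_grade (by decide)]
      norm_num
    · unfold Md
      rw [h5]
      norm_num
  have g1 : ∀ (i : ℕ) (k : ℤ), 0 ≤ k → (i : ℤ) + k ≤ 4 → A.Md i (i + k) = 0 := by
    intro i
    induction i with
    | zero => intro k h1 h2; simpa using g0 k h1 (by simpa using h2)
    | succ i ih =>
      intro k h1 h2
      push_cast at h2 ⊢
      have h3 := A.Md_shift' (i := (i : ℤ)) (j := (i : ℤ) + k) (by positivity) (by omega)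
        (by positivity) (by omega)
      have h4 : (i : ℤ) + 1 + k = i + k + 1 := by ring
      rw [h4, h3]
      exact ih k h1 (by omega)
  have g2 : ∀ i j : ℤ, 0 ≤ i → i ≤ j → j ≤ 4 → A.Md i j = 0 := by
    intro i j h1 h2 h3
    lift i to ℕ using h1
    have := g1 i (j - i) (by omega) (by omega)
    rwa [show (i : ℤ) + (j - i) = j by ring] at this
  refine ⟨le_refl _, fun a b c d h1 h2 => A.ip_E (le_refl _) a b c d h1 h2, ?_⟩
  intro i j h1 h2 h3 h4
  have h2' : i ≤ 4 := by exact_mod_cast h2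
  have h4' : j ≤ 4 := by exact_mod_cast h4
  have h5 : A.Md i j = 0 := by
    rcases le_or_gt i j with h | h
    · exact g2 i j h1 h h4'
    · have h6 := A.Md_flip' (i := j) (j := i - 1) h3 h4' (by omega) (by omega)
      rw [sub_add_cancel] at h6
      rw [h6]
      exact g2 j (i - 1) h3 (by omega) (by omega)
  unfold Md at h5
  linarith

end Arr
end Pool.Agent.Helper363.Nita
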