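import Pool.Agent.Helper363.Nita.Chain

namespace Pool.Agent.Helper363.Nita

open Finsupp

variable {G : NG} {n : ℕ}

namespace Arr
variable (A : Arr G n)

theorem t_bv_five {j : ℤ} (h1 : 0 ≤ j) (h2 : j ≤ n) : ∃ v, A.t j = bv v := by
  obtain ⟨a', b', -, -, -, h⟩ := A.E_ex (a := n - j) (b := j) ⟨by omega, h1, by omega⟩
  exact ⟨A.V a' b', h⟩

theorem exists_common_five {B : Type} {x y : B →₀ ℤ} (h : ip x y ≠ 0) : ∃ b, x b ≠ 0 ∧ y b ≠ 0 := by
  by_contra hc
  push Not at hc
  apply h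
  unfold ip
  apply Finset.sum_eq_zero
  intro b hb
  simp [hc b (Finsupp.mem_support_iff.1 hb)]

theorem one_le_of_five {B : Type} {x : B →₀ ℤ} (hx : 0 ≤ x) {b : B} (h : x b ≠ 0) : 1 ≤ x b := by
  have := hx b
  simp only [Finsupp.coe_zero, Pi.zero_apply] at this
  omega

theorem smul_ge_five {B : Type} {x : B →₀ ℤ} (hx : 0 ≤ x) {m : ℤ} (h : 1 ≤ m) : x ≤ m • x := by
  intro b
  have := hx b
  simp only [Finsupp.coe_zero, Pi.zero_apply] at this
  rw [Finsupp.smul_apply, smul_eq_mul]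
  nlinarith

theorem bv_add_le_five {B : Type} {z : B →₀ ℤ} {v w : B} (hvw : v ≠ w) (hz : 0 ≤ z) (h1 : bv v ≤ z)
    (h2 : bv w ≤ z) : bv v + bv w ≤ z := by
  classical
  intro b
  have h0 := hz b
  have h1' := h1 b
  have h2' := h2 b
  simp only [Finsupp.coe_zero, Pi.zero_apply] at h0
  simp only [bv, Finsupp.single_apply, Finsupp.add_apply] at *
  by_cases hb : v = b
  · subst hb
    rw [if_neg (Ne.symm hvw)] at *
    simpa using h1'
  · rw [if_neg hb] at *
    simpa using h2'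

theorem e_three_five (A : Arr G 5) (hG : A.Good) (hp : 2 ≤ A.p) :
    ip (A.u 0) (A.u 3) = 0 := by
  by_contra hne
  obtain ⟨c, hc0, hc3⟩ := exists_common_five hne
  have u0 := A.u_nonneg hG 0
  have u3 := A.u_nonneg hG 3
  have h0 := one_le_of_five u0 hc0
  have h3 := one_le_of_five u3 hc3
  have hd := A.d_le_corner hG hp hc0
  norm_num at hd
  have hS0 : A.t 0 ≤ G.S (bv c) :=
    (smul_ge_five (A.t_nonneg 0) h0).trans (A.S_ge hG (j := 0) (by norm_num) (by norm_num) c)
  have hS3 : A.t 3 ≤ G.S (bv c) :=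
    (smul_ge_five (A.t_nonneg 3) h3).trans (A.S_ge hG (j := 3) (by norm_num) (by norm_num) c)
  obtain ⟨v0, hv0⟩ := A.t_bv_five (j := 0) (by norm_num) (by norm_num)
  obtain ⟨v3, hv3⟩ := A.t_bv_five (j := 3) (by norm_num) (by norm_num)
  have hv03 : v0 ≠ v3 := by
    intro h
    have h1 := A.ip_t_t hG.hn (i := 0) (j := 3) (by norm_num) (by norm_num) (by norm_num) (by norm_num)
    rw [hv0, hv3, h, ip_bv_self] at h1
    norm_num at h1
  have hS : A.t 0 + A.t 3 ≤ G.S (bv c) := by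
    rw [hv0] at hS0 ⊢
    rw [hv3] at hS3 ⊢
    exact bv_add_le_five hv03 (fun b => G.S_nonneg c b) hS0 hS3
  have dt0 : G.dg (A.t 0) = 21 := by
    rw [A.dg_t (by norm_num) (by norm_num)]; norm_num [dimZ]
  have dt3 : G.dg (A.t 3) = 42 := by
    rw [A.dg_t (by norm_num) (by norm_num)]; norm_num [dimZ]
  have du0 : G.dg (A.u 0) = 28 := by
    rw [A.dg_u (by norm_num) (by norm_num)]; norm_num [dimZ]
  have du3 : G.dg (A.u 3) = 64 := by
    rw [A.dg_u (by norm_num) (by norm_num)]; norm_num [dimZ]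
  have hdS : G.dg (G.S (bv c)) = 3 * G.d c := by rw [G.dg_S, G.dg_bv]
  have hdc : G.d c = 21 := by
    have h1 := G.dg_mono hS
    rw [G.dg_add, dt0, dt3, hdS] at h1
    linarith
  have hSc : G.S (bv c) = A.t 0 + A.t 3 := by
    have h1 : 0 ≤ G.S (bv c) - (A.t 0 + A.t 3) := by
      intro b
      have := hS b
      simpa using this
    have h2 : G.dg (G.S (bv c) - (A.t 0 + A.t 3)) = 0 := by
      rw [G.dg_sub, G.dg_add, dt0, dt3, hdS, hdc]; norm_num
    have h3 := G.dg_eq_zero h1 h2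
    exact sub_eq_zero.1 h3
  -- `u 0`
  have hu0c : A.u 0 c = 1 := by
    have h1 := G.mul_d_le_dg u0 c
    rw [du0, hdc] at h1
    omega
  have hrest : 0 ≤ A.u 0 - bv c := by
    intro b
    by_cases hb : c = b
    · subst hb; simp [bv, hu0c]
    · simpa [bv, Finsupp.single_apply, hb] using u0 b
  have hdrest : G.dg (A.u 0 - bv c) = 7 := by
    rw [G.dg_sub, G.dg_bv, du0, hdc]; norm_num
  have hrne : A.u 0 - bv c ≠ 0 := by
    intro h
    rw [h, G.dg_zero] at hdrest
    norm_num at hdrest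
  obtain ⟨c', hc'⟩ := Finsupp.ne_iff.1 hrne
  have hc'1 := one_le_of_five hrest hc'
  have hcc' : c ≠ c' := by
    rintro rfl
    apply hc'
    simp [bv, hu0c]
  have hu0c' : A.u 0 c' ≠ 0 := by
    intro h
    rw [Finsupp.sub_apply, h] at hc'1
    simp [bv, Finsupp.single_apply, hcc'] at hc'1
  have hdc' : 7 ≤ G.d c' := by
    have h1 : A.t 0 ≤ G.S (bv c') :=
      (smul_ge_five (A.t_nonneg 0) (one_le_of_five u0 hu0c')).trans
        (A.S_ge hG (j := 0) (by norm_num) (by norm_num) c')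
    have h2 := G.dg_mono h1
    rw [dt0, G.dg_S, G.dg_bv] at h2
    linarith
  have hrest2 : A.u 0 - bv c = bv c' := by
    have h1 : 0 ≤ A.u 0 - bv c - bv c' := by
      intro b
      by_cases hb : c' = b
      · subst hb
        have : (1:ℤ) ≤ (A.u 0 - bv c) c' := hc'1
        rw [Finsupp.sub_apply]
        simp only [Finsupp.coe_zero, Pi.zero_apply]
        rw [show (bv c' : G.B →₀ ℤ) c' = 1 by simp [bv]]
        linarith
      · have := hrest b
        rw [Finsupp.sub_apply _ (bv c')]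
        rw [show (bv c' : G.B →₀ ℤ) b = 0 by simp [bv, Finsupp.single_apply, hb]]
        simpa using this
    have h2 : G.dg (A.u 0 - bv c - bv c') = 7 - G.d c' := by
      rw [G.dg_sub, hdrest, G.dg_bv]
    have h3 := G.dg_nonneg h1
    have h4 : G.dg (A.u 0 - bv c - bv c') = 0 := by linarith
    exact sub_eq_zero.1 (G.dg_eq_zero h1 h4)
  have hu0 : A.u 0 = bv c + bv c' := by rw [← hrest2]; abel
  have hp2 : A.p = 2 := by
    have h1 := A.ip_u_self hG (j := 0) (by norm_num) (by norm_num)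
    rw [← h1, hu0]
    classical
    rw [ip_add_left, ip_add_right, ip_add_right, ip_bv_self, ip_bv_self, ip_bv_bv, ip_bv_bv,
      if_neg hcc', if_neg hcc'.symm]
    norm_num
  -- `u 3`
  have hn3 : ip (A.u 3) (A.u 3) = 2 := by
    rw [A.ip_u_self hG (by norm_num) (by norm_num), hp2]
  have hy : ∃ y, c ≠ y ∧ A.u 3 = bv c + bv y := by
    classical
    obtain ⟨b1, b2, hb, hu⟩ := G.norm_two u3 hn3
    have h1 := hc3
    rw [hu] at h1
    simp only [bv, Finsupp.add_apply, Finsupp.single_apply] at h1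
    by_cases h2 : b1 = c
    · subst h2; exact ⟨b2, hb, hu⟩
    · by_cases h3 : b2 = c
      · subst h3; exact ⟨b1, fun h => h2 h.symm, by rw [hu]; abel⟩
      · exact absurd (by rw [if_neg h2, if_neg h3]; rfl) h1
  obtain ⟨y, hcy, hu3⟩ := hy
  have hbar3 : G.bar' (A.u 3) = A.u 3 := by
    have := A.bar_u (by norm_num) 3
    norm_num at this
    exact this
  have hbc : A.u 3 (G.bar c) ≠ 0 := by
    rw [← G.bar'_apply, hbar3]; exact hc3
  have hbc2 : G.bar c = c ∨ G.bar c = y := by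
    classical
    rw [hu3] at hbc
    simp only [bv, Finsupp.add_apply, Finsupp.single_apply] at hbc
    by_cases h2 : c = G.bar c
    · exact Or.inl h2.symm
    · by_cases h3 : y = G.bar c
      · exact Or.inr h3.symm
      · exact absurd (by rw [if_neg h2, if_neg h3]; rfl) hbc
  rcases hbc2 with hb | hb
  · have hT : G.T (bv c) = A.t 5 + A.t 2 := by
      have h1 : G.bar' (G.S (bv c)) = G.T (G.bar' (bv c)) := G.bar_S _
      rw [G.bar'_bv, hb, hSc, map_add, A.bar_t, A.bar_t] at h1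
      rw [← h1]
      norm_num
    have h1 := G.tri c v0
    rw [hSc, hT, map_add] at h1
    have h2 : G.T (A.t 5) v0 = 0 := by
      have := A.ip_Tt (le_refl 5) (i := 5) (j := 0) (by norm_num) (by norm_num) (by norm_num) (by norm_num)
      rw [hv0, ip_bv_right] at this
      rw [this]; norm_num
    have h3 : G.T (A.t 2) v0 = 0 := by
      have := A.ip_Tt (le_refl 5) (i := 2) (j := 0) (by norm_num) (by norm_num) (by norm_num) (by norm_num)
      rw [hv0, ip_bv_right] at this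
      rw [this]; norm_num
    have h4 : (A.t 0) v0 = 1 := by rw [hv0]; simp [bv]
    have h5 : 0 ≤ (A.t 3) v0 := A.t_nonneg 3 v0
    rw [Finsupp.add_apply, Finsupp.add_apply, h2, h3, h4] at h1
    linarith
  · have h1 : G.dg (A.u 3) = G.d c + G.d y := by rw [hu3, G.dg_add, G.dg_bv, G.dg_bv]
    rw [← hb, G.d_bar, hdc, du3] at h1
    norm_num at h1

theorem e_zero_five (hG : A.Good) (hn : n = 5) (hp : 2 ≤ A.p) {k : ℤ} (h1 : 1 ≤ k) (h2 : k ≤ n) :
    ip (A.u 0) (A.u k) = 0 := by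
  subst hn
  have h2' : k ≤ 5 := by exact_mod_cast h2
  have hk : k = 1 ∨ k = 2 ∨ k = 3 ∨ k = 4 ∨ k = 5 := by omega
  rcases hk with rfl | rfl | rfl | rfl | rfl
  · exact G.ip_grade (A.Gr_u 0) (A.Gr_u 1) (by decide)
  · exact G.ip_grade (A.Gr_u 0) (A.Gr_u 2) (by decide)
  · exact e_three_five A hG hp
  · exact G.ip_grade (A.Gr_u 0) (A.Gr_u 4) (by decide)
  · exact G.ip_grade (A.Gr_u 0) (A.Gr_u 5) (by decide)

theorem p_two_five (hG : A.Good) (hn : n = 5) (hp : 2 ≤ A.p) : A.p = 2 := by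
  subst hn
  have h03 := e_three_five A hG hp
  have u1 := A.u_nonneg hG 1
  have u2 := A.u_nonneg hG 2
  have u3 := A.u_nonneg hG 3
  have u4 := A.u_nonneg hG 4
  obtain ⟨v, hv⟩ := A.t_bv_five (j := 2) (by norm_num) (by norm_num)
  have dt2 : G.dg (A.t 2) = 42 := by
    rw [A.dg_t (by norm_num) (by norm_num)]; norm_num [dimZ]
  have du4 : G.dg (A.u 4) = 60 := by
    rw [A.dg_u (by norm_num) (by norm_num)]; norm_num [dimZ]
  have du3 : G.dg (A.u 3) = 64 := by
    rw [A.dg_u (by norm_num) (by norm_num)]; norm_num [dimZ]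
  have h43 : A.u 4 ≤ G.T (A.u 3) := by
    have := A.T_u_ge hG h03 (j := 4) (by norm_num) (by norm_num)
    norm_num at this
    exact this
  have hut : ∀ i j : ℤ, ip (A.u i) (A.t j) = 0 := fun i j => A.ip_u_E hG i _ _
  have hTv : G.T (A.u 3) v = A.p := by
    rw [G.T_apply, ← hv, A.St (by norm_num) (by norm_num) (by norm_num), ip_add_right, ip_add_right,
      hut]
    have h1 : ip (A.u 3) (A.s 2) = 0 := A.ip_u_E hG 3 _ _
    rw [h1]
    have h2 := A.ip_u_self hG (j := 3) (by norm_num) (by norm_num)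
    norm_num
    exact h2
  have hu4v : A.u 4 v = 0 := by
    rw [← ip_bv_right v (A.u 4), ← hv, hut]
  have hx : 0 ≤ G.T (A.u 3) - A.u 4 - A.p • A.t 2 := by
    intro b
    rw [Finsupp.sub_apply, Finsupp.sub_apply, Finsupp.smul_apply, hv]
    simp only [Finsupp.coe_zero, Pi.zero_apply, smul_eq_mul]
    by_cases hb : v = b
    · subst hb
      rw [hTv, hu4v, show (bv v : G.B →₀ ℤ) v = 1 by simp [bv]]
      linarith
    · rw [show (bv v : G.B →₀ ℤ) b = 0 by simp [bv, Finsupp.single_apply, hb]]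
      have := h43 b
      linarith
  have hdx : G.dg (G.T (A.u 3) - A.u 4 - A.p • A.t 2) = 132 - 42 * A.p := by
    rw [G.dg_sub, G.dg_sub, G.dg_smul, G.dg_T, du3, du4, dt2]; ring
  have hle : A.p ≤ 3 := by
    have := G.dg_nonneg hx
    rw [hdx] at this
    omega
  by_contra hne
  have hp3 : A.p = 3 := by omega
  rw [hp3] at hdx hx
  norm_num at hdx
  have hxne : G.T (A.u 3) - A.u 4 - (3:ℤ) • A.t 2 ≠ 0 := by
    intro h
    rw [h, G.dg_zero] at hdx
    norm_num at hdx
  obtain ⟨z, hz⟩ := Finsupp.ne_iff.1 hxne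
  have hz1 := one_le_of_five hx hz
  have hdz : G.d z ≤ 6 := by
    have h1 := G.mul_d_le_dg hx z
    rw [hdx] at h1
    have h2 := G.d_pos z
    nlinarith
  have hR := A.R2 (by norm_num) (j := 2) (by norm_num) (by norm_num)
  norm_num at hR
  have hSu : 1 ≤ G.S (A.u 2) z := by
    have h1 : G.S (A.u 2) = G.T (A.u 3) + A.u 1 - A.u 4 := by rw [hR]; abel
    rw [h1]
    have h2 := u1 z
    have h3 : 0 ≤ (A.t 2) z := A.t_nonneg 2 z
    rw [Finsupp.sub_apply, Finsupp.sub_apply, Finsupp.smul_apply, smul_eq_mul] at hz1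
    rw [Finsupp.sub_apply, Finsupp.add_apply]
    simp only [Finsupp.coe_zero, Pi.zero_apply] at h2
    linarith
  rw [G.S_apply] at hSu
  obtain ⟨w, hw1, hw2⟩ := exists_common_five (x := A.u 2) (y := G.T (bv z)) (by omega)
  have hlam := A.lam hG h03 (q := 2) (by norm_num) (by norm_num) hw1
  norm_num [dimZ] at hlam
  have hTz : (0 : G.B →₀ ℤ) ≤ G.T (bv z) := fun b => G.T_nonneg z b
  have h5 := G.mul_d_le_dg hTz w
  rw [G.dg_T, G.dg_bv] at h5
  have h6 := one_le_of_five hTz hw2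
  have h7 := G.d_pos w
  nlinarith

end Arr
end Pool.Agent.Helper363.Nita
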