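import Pool.Agent.Helper363.Nita.Chain

namespace Pool.Agent.Helper363.Nita

open Finsupp

variable {G : NG} {n : ℕ}

namespace Arr
variable (A : Arr G n)

theorem p_two_six (hG : A.Good) (hn : n = 6) (hp : 2 ≤ A.p) : A.p = 2 := by
  subst hn
  have h3 : ip (A.u 0) (A.u 3) = 0 := A.e_low hG hp (by norm_num) (by norm_num) (by norm_num)
  have hE : A.E 3 3 = bv (A.V 3 3) := by
    have := A.E_nat 3 3 (by norm_num)
    exact_mod_cast this
  have hb : A.t 3 = bv (A.V 3 3) := by
    rw [← hE]; unfold t; norm_num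
  have hu2 : A.u 2 (A.V 3 3) = 0 := by
    have := A.ip_u_E hG 2 3 3
    rwa [hE, ip_bv_right] at this
  have hyb : G.S (A.u 3) (A.V 3 3) = A.p := by
    rw [← ip_bv_right, ← hb, G.adjoint', A.Tt (by norm_num) (by norm_num), ip_add_right,
      ip_add_right, A.ip_u_self hG (by norm_num) (by norm_num)]
    have h1 : ip (A.u 3) (A.t (3 + 1)) = 0 := A.ip_u_E hG _ _ _
    have h2 : ip (A.u 3) (A.s (3 - 1)) = 0 := A.ip_u_E hG _ _ _
    rw [h1, h2]; ring
  have h2 : A.u 2 ≤ G.S (A.u 3) := A.S_u_ge hG h3 (j := 2) (by norm_num) (by norm_num)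
  have key : A.u 2 + A.p • bv (A.V 3 3) ≤ G.S (A.u 3) := by
    intro b
    by_cases h : A.V 3 3 = b
    · subst h
      rw [hyb]
      simp [hu2]
    · have := h2 b
      simpa [bv, Finsupp.single_apply, h] using this
  have hd := G.dg_mono key
  have e1 : G.dg (A.u 2) = 81 := by
    rw [A.dg_u (by norm_num) (by norm_num)]; norm_num [dimZ]
  have e2 : G.dg (A.u 3) = 90 := by
    rw [A.dg_u (by norm_num) (by norm_num)]; norm_num [dimZ]
  have e3 : G.d (A.V 3 3) = 64 := by
    rw [A.d_V 3 3 (by norm_num)]; norm_num [dimZ]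
  rw [G.dg_add, G.dg_smul, G.dg_bv, G.dg_S, e1, e2, e3] at hd
  omega

theorem e_zero_six (hG : A.Good) (hn : n = 6) (hp : 2 ≤ A.p) {k : ℤ} (h1 : 1 ≤ k) (h2 : k ≤ n) :
    ip (A.u 0) (A.u k) = 0 := by
  subst hn
  have h3 : ip (A.u 0) (A.u 3) = 0 := A.e_low hG hp (by norm_num) (by norm_num) (by norm_num)
  by_cases h4 : k ≤ 4
  · exact A.e_low hG hp (by norm_num) h1 (by push_cast; linarith)
  · by_cases h5 : k = 5
    · subst h5
      refine G.ip_grade (A.Gr_u 0) (A.Gr_u 5) ?_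
      decide
    · have h6 : k = 6 := by push_cast at h2; omega
      subst h6
      exact A.e_last hG hp (by norm_num) h3

end Arr
end Pool.Agent.Helper363.Nita
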