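import Pool.Agent.Helper363.Nita.K2.TE

namespace Pool.Agent.Helper363.Nita

open Finsupp

variable {G : NG} {n : ℕ}

namespace Arr
variable (A : Arr G n)

theorem R_le_five_aux (A : Arr G 5) (h : A.EZ) {c d : ℤ → G.B}
    (hu : ∀ j : ℤ, 1 ≤ j → j ≤ 5 → A.u j = bv (c j) + bv (d j) ∧ c j ≠ d j)
    (hm : ∀ j : ℤ, 1 ≤ j → j ≤ 4 → G.T (bv (c j)) (c (j + 1)) = 1 ∧
      G.T (bv (c j)) (d (j + 1)) = 0 ∧
      G.T (bv (d j)) (c (j + 1)) = 0 ∧ G.T (bv (d j)) (d (j + 1)) = 1)
    (hxy : G.d (c 2) ≤ G.d (d 2)) :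
    ip (G.T (A.u 1)) (G.T (A.u 1)) ≤ 9 := by
  classical
  by_contra hR
  push Not at hR
  have hG := h.good2.good
  have p2 := h.good2.p2
  have h3 : ip (A.u 0) (A.u 3) = 0 := h.good2.e0 3 (by norm_num) (by norm_num)
  obtain ⟨hu2, hne2⟩ := hu 2 (by norm_num) (by norm_num)
  obtain ⟨hu3, hne3⟩ := hu 3 (by norm_num) (by norm_num)
  obtain ⟨hm1, hm2, hm3, hm4⟩ := hm 2 (by norm_num) (by norm_num)
  norm_num at hm1 hm2 hm3 hm4
  have hv1 : 0 ≤ A.v 1 := A.v_nonneg hG h3 (by norm_num) (by norm_num)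
  have hv2 : 0 ≤ A.v 2 := A.v_nonneg hG h3 (by norm_num) (by norm_num)
  have hv3 : 0 ≤ A.v 3 := A.v_nonneg hG h3 (by norm_num) (by norm_num)
  have hv4 : 0 ≤ A.v 4 := A.v_nonneg hG h3 (by norm_num) (by norm_num)
  have hR3 := A.R3 (by norm_num : 2 ≤ 5) (j := 2) (by norm_num) (by norm_num)
  have hev := h.ev 1 (by norm_num) (by norm_num)
  norm_num at hR3 hev
  have hle : A.v 1 ≤ G.S (A.v 2) := by
    intro e
    have h1 := mul_le_ip hv1 hv4 e
    rw [hev] at h1
    have h2 := DFunLike.congr_fun hR3 e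
    simp only [Finsupp.add_apply] at h2
    have h5 := G.T_pos hv3 e
    have h6 := G.S_pos hv2 e
    have h7 := hv1 e
    have h8 := hv4 e
    simp only [Finsupp.coe_zero, Pi.zero_apply] at h5 h6 h7 h8
    rcases h7.eq_or_lt with h9 | h9
    · rw [← h9]; exact h6
    · have h10 : (A.v 4) e = 0 := by nlinarith
      rw [h10] at h2
      linarith
  -- degrees
  have du2 : G.d (c 2) + G.d (d 2) = 60 := by
    have h1 := A.dg_u (j := 2) (by norm_num) (by norm_num)
    rw [hu2, G.dg_add, G.dg_bv, G.dg_bv] at h1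
    rw [h1]; norm_num [dimZ]
  have du3 : G.d (c 3) + G.d (d 3) = 64 := by
    have h1 := A.dg_u (j := 3) (by norm_num) (by norm_num)
    rw [hu3, G.dg_add, G.dg_bv, G.dg_bv] at h1
    rw [h1]; norm_num [dimZ]
  have dv1 : G.dg (A.v 1) = 42 := by
    rw [A.dg_v (j := 1) (by norm_num) (by norm_num), p2]; norm_num [dimZ]
  have dv2 : G.dg (A.v 2) = 46 := by
    rw [A.dg_v (j := 2) (by norm_num) (by norm_num), p2]; norm_num [dimZ]
  have dt1 : G.dg (A.t 1) = 35 := by
    rw [A.dg_t (by norm_num) (by norm_num)]; norm_num [dimZ]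
  have u2c : A.u 2 (c 2) = 1 := by
    rw [hu2]; simp [bv, Finsupp.single_apply, hne2.symm]
  have u2d : A.u 2 (d 2) = 1 := by
    rw [hu2]; simp [bv, Finsupp.single_apply, hne2]
  have u3c : A.u 3 (c 3) = 1 := by
    rw [hu3]; simp [bv, Finsupp.single_apply, hne3.symm]
  have u3d : A.u 3 (d 3) = 1 := by
    rw [hu3]; simp [bv, Finsupp.single_apply, hne3]
  have hx : 19 ≤ G.d (c 2) := by
    have h1 := A.lam hG h3 (q := 2) (by norm_num) (by norm_num) (c := c 2) (by rw [u2c]; norm_num)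
    norm_num [dimZ] at h1
    omega
  have hc3 : 21 ≤ G.d (c 3) := by
    have h1 := A.lam hG h3 (q := 3) (by norm_num) (by norm_num) (c := c 3) (by rw [u3c]; norm_num)
    norm_num [dimZ] at h1
    omega
  -- the numbers a and b
  set a : ℤ := ip (A.v 2) (G.T (bv (c 2))) with ha
  set b : ℤ := ip (A.v 2) (G.T (bv (d 2))) with hb
  have hT0 : ∀ e : G.B, 0 ≤ G.T (bv e) := fun e y => G.T_nonneg e y
  have ha0 : 0 ≤ a := ip_nonneg hv2 (hT0 _)
  have hb0 : 0 ≤ b := ip_nonneg hv2 (hT0 _)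
  have hab : a + b = ip (G.T (A.u 1)) (G.T (A.u 1)) - 6 := by
    rw [← A.ip_v_T h.good2 (j := 2) (by norm_num) (by norm_num), hu2, map_add, ip_add_right]
  have hab4 : 4 ≤ a + b := by rw [hab]; linarith
  -- `v 1` vanishes on `u 2`
  have hv1u := A.ip_v_next h.good2 (j := 1) (by norm_num) (by norm_num)
  norm_num at hv1u
  rw [hu2, ip_add_right, ip_bv_right, ip_bv_right] at hv1u
  have v1c : A.v 1 (c 2) = 0 := by
    have h1 := hv1 (c 2); have h2 := hv1 (d 2)
    simp only [Finsupp.coe_zero, Pi.zero_apply] at h1 h2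
    linarith
  have v1d : A.v 1 (d 2) = 0 := by linarith
  have hSa : G.S (A.v 2) (c 2) = a := by rw [G.S_apply]
  have hSb : G.S (A.v 2) (d 2) = b := by rw [G.S_apply]
  have hle2 : A.v 1 + a • bv (c 2) + b • bv (d 2) ≤ G.S (A.v 2) := by
    intro e
    simp only [Finsupp.add_apply, Finsupp.smul_apply, smul_eq_mul]
    by_cases e1 : e = c 2
    · subst e1
      have : (bv (d 2) : G.B →₀ ℤ) (c 2) = 0 := by simp [bv, Finsupp.single_apply, hne2.symm]
      rw [this, v1c, hSa]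
      simp [bv]
    · by_cases e2 : e = d 2
      · subst e2
        have : (bv (c 2) : G.B →₀ ℤ) (d 2) = 0 := by simp [bv, Finsupp.single_apply, hne2]
        rw [this, v1d, hSb]
        simp [bv]
      · have q1 : (bv (c 2) : G.B →₀ ℤ) e = 0 := by
          simp [bv, Finsupp.single_apply, Ne.symm e1]
        have q2 : (bv (d 2) : G.B →₀ ℤ) e = 0 := by
          simp [bv, Finsupp.single_apply, Ne.symm e2]
        rw [q1, q2]
        simpa using hle e
  have hdeg : a * G.d (c 2) + b * G.d (d 2) ≤ 96 := by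
    have h1 := G.dg_mono hle2
    rw [G.dg_add, G.dg_add, G.dg_smul, G.dg_smul, G.dg_bv, G.dg_bv, G.dg_S, dv1, dv2] at h1
    linarith
  -- `b ≠ 0`
  have hbne : b ≠ 0 := by
    intro hb00
    -- al and be
    have hTge : ∀ e : G.B, A.u 2 e = 1 → A.t 1 ≤ G.T (bv e) := by
      intro e he
      have h1 := A.T_ge hG (j := 2) (by norm_num) (by norm_num) e
      rw [he, one_smul] at h1
      norm_num at h1
      exact h1
    have ht3 : ∀ e : G.B, A.u 3 e ≠ 0 → A.t 1 e = 0 := by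
      intro e he
      have h1 := A.ip_u_E hG 3 4 1
      have h2 : A.E 4 1 = A.t 1 := by unfold t; norm_num
      rw [h2] at h1
      have h4 := mul_le_ip (A.u_nonneg hG 3) (A.t_nonneg 1) e
      rw [h1] at h4
      have h5 := A.u_nonneg hG 3 e
      have h6 := A.t_nonneg 1 e
      simp only [Finsupp.coe_zero, Pi.zero_apply] at h5 h6
      have h7 : 0 < A.u 3 e := lt_of_le_of_ne h5 (Ne.symm he)
      nlinarith
    have key : ∀ e f g : G.B, A.u 2 e = 1 → A.u 3 f = 1 → G.T (bv e) f = 1 →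
        0 ≤ G.T (bv e) - bv f - A.t 1 := by
      intro e f _ he hf hef y
      have h1 := hTge e he y
      simp only [Finsupp.coe_zero, Pi.zero_apply, Finsupp.sub_apply]
      by_cases hy : y = f
      · subst hy
        have : A.t 1 y = 0 := ht3 y (by rw [hf]; norm_num)
        rw [this, hef]
        simp [bv]
      · have : (bv f : G.B →₀ ℤ) y = 0 := by simp [bv, Finsupp.single_apply, Ne.symm hy]
        rw [this]
        linarith
    have hal := key (c 2) (c 3) (c 3) u2c u3c hm1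
    have hbe := key (d 2) (d 3) (d 3) u2d u3d hm4
    set al := G.T (bv (c 2)) - bv (c 3) - A.t 1 with hal'
    set be := G.T (bv (d 2)) - bv (d 3) - A.t 1 with hbe'
    have hsum : A.v 2 = al + be := by
      have h1 := A.T_u_eq (j := 2) (by norm_num)
      rw [p2] at h1
      norm_num at h1
      rw [hu2, map_add, hu3] at h1
      have h2 : A.v 2 = G.T (bv (c 2)) + G.T (bv (d 2)) - (bv (c 3) + bv (d 3)) - (2:ℤ) • A.t 1 := by
        rw [h1]; abel
      rw [h2, hal', hbe', two_smul]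
      abel
    have hv2u := A.ip_v_next h.good2 (j := 2) (by norm_num) (by norm_num)
    norm_num at hv2u
    rw [hu3, ip_add_right, ip_bv_right, ip_bv_right] at hv2u
    have v2d : A.v 2 (d 3) = 0 := by
      have h1 := hv2 (c 3); have h2 := hv2 (d 3)
      simp only [Finsupp.coe_zero, Pi.zero_apply] at h1 h2
      linarith
    have v2t : ip (A.v 2) (A.t 1) = 0 := by
      have := A.ip_v_E hG h.good2.e0 (j := 2) (by norm_num) (by norm_num) 4 1
      have h2 : A.E 4 1 = A.t 1 := by unfold t; norm_num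
      rw [h2] at this
      exact this
    have hbe0 : ip (A.v 2) be = 0 := by
      rw [hbe', ip_sub_right, ip_sub_right, ip_bv_right, v2d, v2t, ← hb, hb00]
      ring
    have hbb : ip be be ≤ 0 := by
      have h1 : be ≤ A.v 2 := by
        rw [hsum]
        intro y
        have := hal y
        simp only [Finsupp.coe_zero, Pi.zero_apply] at this
        rw [Finsupp.add_apply]
        linarith
      have := ip_mono_left h1 hbe
      rwa [hbe0] at this
    have hbz : be = 0 := ip_self_eq_zero (le_antisymm hbb (ip_self_nonneg be))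
    have hd := congrArg G.dg hbz
    rw [hbe', G.dg_sub, G.dg_sub, G.dg_T, G.dg_bv, G.dg_bv, dt1, G.dg_zero] at hd
    omega
  have hb1 : 1 ≤ b := by omega
  have hy30 : 30 ≤ G.d (d 2) := by omega
  -- final arithmetic
  have hx0 : G.d (c 2) = 60 - G.d (d 2) := by omega
  by_cases hb2 : b = 1
  · rw [hb2] at hdeg hab4
    nlinarith
  · have hb3 : 2 ≤ b := by omega
    nlinarith

theorem R_le_five (h : A.EZ) (hn : n = 5) {c d : ℤ → G.B}
    (hu : ∀ j : ℤ, 1 ≤ j → j ≤ n → A.u j = bv (c j) + bv (d j) ∧ c j ≠ d j)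
    (hm : ∀ j : ℤ, 1 ≤ j → j ≤ n - 1 → G.T (bv (c j)) (c (j + 1)) = 1 ∧
      G.T (bv (c j)) (d (j + 1)) = 0 ∧
      G.T (bv (d j)) (c (j + 1)) = 0 ∧ G.T (bv (d j)) (d (j + 1)) = 1) :
    ip (G.T (A.u 1)) (G.T (A.u 1)) ≤ 9 := by
  subst hn
  have hu' : ∀ j : ℤ, 1 ≤ j → j ≤ 5 → A.u j = bv (c j) + bv (d j) ∧ c j ≠ d j := fun j h1 h2 =>
    hu j h1 (by push_cast; exact h2)
  have hm' : ∀ j : ℤ, 1 ≤ j → j ≤ 4 → G.T (bv (c j)) (c (j + 1)) = 1 ∧
      G.T (bv (c j)) (d (j + 1)) = 0 ∧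
      G.T (bv (d j)) (c (j + 1)) = 0 ∧ G.T (bv (d j)) (d (j + 1)) = 1 := fun j h1 h2 =>
    hm j h1 (by push_cast; linarith)
  rcases le_total (G.d (c 2)) (G.d (d 2)) with hc | hc
  · exact R_le_five_aux A h hu' hm' hc
  · refine R_le_five_aux A h (c := d) (d := c) (fun j h1 h2 => ?_) (fun j h1 h2 => ?_) hc
    · obtain ⟨e1, e2⟩ := hu' j h1 h2
      exact ⟨by rw [e1, add_comm], e2.symm⟩
    · obtain ⟨e1, e2, e3, e4⟩ := hm' j h1 h2
      exact ⟨e4, e3, e2, e1⟩

end Arr
end Pool.Agent.Helper363.Nita
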