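import Pool.Agent.Helper363.Nita.K2.TE

namespace Pool.Agent.Helper363.Nita

open Finsupp

variable {G : NG} {n : ℕ}

namespace Arr
variable (A : Arr G n)

set_option maxHeartbeats 4000000 in
theorem R_le_six_aux (h : A.EZ) (hn : n = 6) {c d : ℤ → G.B}
    (hu : ∀ j : ℤ, 1 ≤ j → j ≤ n → A.u j = bv (c j) + bv (d j) ∧ c j ≠ d j)
    (hm : ∀ j : ℤ, 1 ≤ j → j ≤ n - 1 → G.T (bv (c j)) (c (j + 1)) = 1 ∧
      G.T (bv (c j)) (d (j + 1)) = 0 ∧
      G.T (bv (d j)) (c (j + 1)) = 0 ∧ G.T (bv (d j)) (d (j + 1)) = 1)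
    (hxy : G.d (c 3) ≤ G.d (d 3)) :
    ip (G.T (A.u 1)) (G.T (A.u 1)) ≤ 8 := by
  classical
  subst hn
  have hG2 := h.good2
  have hG := hG2.good
  have h30 := hG2.e0 3 (by norm_num) (by norm_num)
  obtain ⟨hu3, hcd⟩ := hu 3 (by norm_num) (by norm_num)
  obtain ⟨hu4, hcd4⟩ := hu 4 (by norm_num) (by norm_num)
  obtain ⟨m1, m2, m3, m4⟩ := hm 3 (by norm_num) (by norm_num)
  have e4 : (3 : ℤ) + 1 = 4 := by norm_num
  have e2 : (3 : ℤ) - 1 = 2 := by norm_num
  rw [e4] at m1 m2 m3 m4
  -- evaluation at basis vectors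
  have bself : ∀ b : G.B, (bv b : G.B →₀ ℤ) b = 1 := fun b => by simp [bv]
  have bne : ∀ a b : G.B, a ≠ b → (bv a : G.B →₀ ℤ) b = 0 := fun a b hab => by
    simp [bv, Finsupp.single_apply, hab]
  have bnn : ∀ b : G.B, (0 : G.B →₀ ℤ) ≤ bv b := by
    intro b a
    by_cases hab : b = a
    · subst hab; rw [bself]; simp
    · rw [bne _ _ hab]; simp
  set x := G.d (c 3) with hx
  set y := G.d (d 3) with hy
  -- degrees of u 3, u 4
  have du3 : x + y = 90 := by
    have := A.dg_u (j := 3) (by norm_num) (by norm_num)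
    rw [hu3, G.dg_add, G.dg_bv, G.dg_bv] at this
    rw [hx, hy, this]; norm_num [dimZ]
  have du4 : G.d (c 4) + G.d (d 4) = 90 := by
    have := A.dg_u (j := 4) (by norm_num) (by norm_num)
    rw [hu4, G.dg_add, G.dg_bv, G.dg_bv] at this
    rw [this]; norm_num [dimZ]
  have u3c : A.u 3 (c 3) = 1 := by
    rw [hu3, Finsupp.add_apply, bself, bne _ _ hcd.symm]; norm_num
  have u3d : A.u 3 (d 3) = 1 := by
    rw [hu3, Finsupp.add_apply, bself, bne _ _ hcd]; norm_num
  have u4c : A.u 4 (c 4) = 1 := by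
    rw [hu4, Finsupp.add_apply, bself, bne _ _ hcd4.symm]; norm_num
  have u4d : A.u 4 (d 4) = 1 := by
    rw [hu4, Finsupp.add_apply, bself, bne _ _ hcd4]; norm_num
  have lx : 30 ≤ x := by
    have := A.lam hG h30 (q := 3) (by norm_num) (by norm_num) (c := c 3) (by rw [u3c]; norm_num)
    norm_num [dimZ] at this
    linarith
  have lc4 : 30 ≤ G.d (c 4) := by
    have := A.lam hG h30 (q := 4) (by norm_num) (by norm_num) (c := c 4) (by rw [u4c]; norm_num)
    norm_num [dimZ] at this
    linarith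
  have ld4 : 30 ≤ G.d (d 4) := by
    have := A.lam hG h30 (q := 4) (by norm_num) (by norm_num) (c := d 4) (by rw [u4d]; norm_num)
    norm_num [dimZ] at this
    linarith
  -- the vector t 2
  have ht2 : A.t 2 = bv (A.V 4 2) := by
    have := A.E_nat 4 2 (by norm_num)
    unfold t
    norm_num at this ⊢
    exact this
  have dt2 : G.dg (A.t 2) = 60 := by
    rw [A.dg_t (by norm_num) (by norm_num)]; norm_num [dimZ]
  -- u 4 is orthogonal to t 2
  have hc4 : c 4 ≠ A.V 4 2 := by
    intro hc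
    have h1 := A.ip_u_E hG 4 4 2
    have h2 : A.E 4 2 = bv (A.V 4 2) := by
      have := A.E_nat 4 2 (by norm_num)
      norm_num at this ⊢
      exact this
    rw [h2, ip_bv_right, ← hc, u4c] at h1
    norm_num at h1
  have hd4 : d 4 ≠ A.V 4 2 := by
    intro hc
    have h1 := A.ip_u_E hG 4 4 2
    have h2 : A.E 4 2 = bv (A.V 4 2) := by
      have := A.E_nat 4 2 (by norm_num)
      norm_num at this ⊢
      exact this
    rw [h2, ip_bv_right, ← hc, u4d] at h1
    norm_num at h1
  have Tc2 : 1 ≤ G.T (bv (c 3)) (A.V 4 2) := by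
    have := A.T_ge hG (j := 3) (by norm_num) (by norm_num) (c 3)
    rw [u3c, e2, ht2, one_smul] at this
    have h1 := this (A.V 4 2)
    rw [bself] at h1
    exact h1
  have Td2 : 1 ≤ G.T (bv (d 3)) (A.V 4 2) := by
    have := A.T_ge hG (j := 3) (by norm_num) (by norm_num) (d 3)
    rw [u3d, e2, ht2, one_smul] at this
    have h1 := this (A.V 4 2)
    rw [bself] at h1
    exact h1
  set al := G.T (bv (c 3)) - bv (c 4) - A.t 2 with hal
  set be := G.T (bv (d 3)) - bv (d 4) - A.t 2 with hbe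
  have aln : 0 ≤ al := by
    intro b
    rw [hal, ht2, Finsupp.sub_apply, Finsupp.sub_apply]
    by_cases h1 : c 4 = b
    · subst h1
      rw [bself, bne _ _ hc4.symm, m1]; simp
    · by_cases h2 : A.V 4 2 = b
      · subst h2
        rw [bself, bne _ _ hc4]
        simp only [Finsupp.coe_zero, Pi.zero_apply]
        linarith
      · rw [bne _ _ h1, bne _ _ h2]
        have := G.T_nonneg (c 3) b
        simp only [Finsupp.coe_zero, Pi.zero_apply]
        linarith
  have ben : 0 ≤ be := by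
    intro b
    rw [hbe, ht2, Finsupp.sub_apply, Finsupp.sub_apply]
    by_cases h1 : d 4 = b
    · subst h1
      rw [bself, bne _ _ hd4.symm, m4]; simp
    · by_cases h2 : A.V 4 2 = b
      · subst h2
        rw [bself, bne _ _ hd4]
        simp only [Finsupp.coe_zero, Pi.zero_apply]
        linarith
      · rw [bne _ _ h1, bne _ _ h2]
        have := G.T_nonneg (d 3) b
        simp only [Finsupp.coe_zero, Pi.zero_apply]
        linarith
  have hTc : G.T (bv (c 3)) = al + bv (c 4) + A.t 2 := by rw [hal]; abel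
  have hTd : G.T (bv (d 3)) = be + bv (d 4) + A.t 2 := by rw [hbe]; abel
  -- al + be = v 3
  have hv3 : A.v 3 = al + be := by
    have h1 := A.T_u_eq (j := 3) (by norm_num)
    rw [e4, e2, hG2.p2, hu3, hu4, map_add, hTc, hTd, two_smul] at h1
    have h2 : al + bv (c 4) + A.t 2 + (be + bv (d 4) + A.t 2) =
        (al + be) + (bv (c 4) + bv (d 4) + (A.t 2 + A.t 2)) := by abel
    have h3 : A.v 3 + (bv (c 4) + bv (d 4)) + (A.t 2 + A.t 2) =
        A.v 3 + (bv (c 4) + bv (d 4) + (A.t 2 + A.t 2)) := by abel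
    rw [h2, h3] at h1
    exact (add_right_cancel h1).symm
  have v3n : 0 ≤ A.v 3 := A.v_nonneg hG h30 (by norm_num) (by norm_num)
  -- v 3 vanishes at c 4, d 4, V 4 2
  have v3u4 : ip (A.v 3) (A.u 4) = 0 := by
    have := A.ip_v_next hG2 (j := 3) (by norm_num) (by norm_num)
    rwa [e4] at this
  have v3c4 : A.v 3 (c 4) = 0 ∧ A.v 3 (d 4) = 0 := by
    rw [hu4, ip_add_right, ip_bv_right, ip_bv_right] at v3u4
    have h1 := v3n (c 4)
    have h2 := v3n (d 4)
    simp only [Finsupp.coe_zero, Pi.zero_apply] at h1 h2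
    constructor <;> linarith
  have v3t : A.v 3 (A.V 4 2) = 0 := by
    have h1 := A.ip_v_E hG hG2.e0 (j := 3) (by norm_num) (by norm_num) 4 2
    have h2 : A.E 4 2 = bv (A.V 4 2) := by
      have := A.E_nat 4 2 (by norm_num)
      norm_num at this ⊢
      exact this
    rw [h2, ip_bv_right] at h1
    exact h1
  have split0 : ∀ b, A.v 3 b = 0 → al b = 0 ∧ be b = 0 := by
    intro b hb
    rw [hv3, Finsupp.add_apply] at hb
    have h1 := aln b
    have h2 := ben b
    simp only [Finsupp.coe_zero, Pi.zero_apply] at h1 h2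
    constructor <;> linarith
  -- the numbers a, b
  set a := ip (A.v 3) (G.T (bv (c 3))) with ha
  set b := ip (A.v 3) (G.T (bv (d 3))) with hb
  have ha' : a = ip al al + ip be al := by
    rw [ha, hTc, ip_add_right, ip_add_right, ht2, ip_bv_right, ip_bv_right, v3c4.1, v3t, hv3,
      ip_add_left]; ring
  have hb' : b = ip al be + ip be be := by
    rw [hb, hTd, ip_add_right, ip_add_right, ht2, ip_bv_right, ip_bv_right, v3c4.2, v3t, hv3,
      ip_add_left]; ring
  have hab : a + b = ip (G.T (A.u 1)) (G.T (A.u 1)) - 6 := by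
    rw [← A.ip_v_T hG2 (j := 3) (by norm_num) (by norm_num), hu3, map_add, ip_add_right]
  have an : 0 ≤ a := ip_nonneg v3n (G.T_pos (bnn _))
  have bn : 0 ≤ b := ip_nonneg v3n (G.T_pos (bnn _))
  -- v 2 ≤ S (v 3)
  have v2n : 0 ≤ A.v 2 := A.v_nonneg hG h30 (by norm_num) (by norm_num)
  have v4n : 0 ≤ A.v 4 := A.v_nonneg hG h30 (by norm_num) (by norm_num)
  have v5n : 0 ≤ A.v 5 := A.v_nonneg hG h30 (by norm_num) (by norm_num)
  have hR3 : G.T (A.v 4) + A.v 2 = G.S (A.v 3) + A.v 5 := by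
    have := A.R3 (by norm_num) (j := 3) (by norm_num) (by norm_num)
    norm_num at this
    exact this
  have hev : ip (A.v 2) (A.v 5) = 0 := by
    have := h.ev 2 (by norm_num) (by norm_num)
    norm_num at this
    exact this
  have v2u3 : ip (A.v 2) (A.u 3) = 0 := by
    have := A.ip_v_next hG2 (j := 2) (by norm_num) (by norm_num)
    norm_num at this
    exact this
  have v2c3 : A.v 2 (c 3) = 0 ∧ A.v 2 (d 3) = 0 := by
    rw [hu3, ip_add_right, ip_bv_right, ip_bv_right] at v2u3
    have h1 := v2n (c 3)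
    have h2 := v2n (d 3)
    simp only [Finsupp.coe_zero, Pi.zero_apply] at h1 h2
    constructor <;> linarith
  have hS : A.v 2 + a • bv (c 3) + b • bv (d 3) ≤ G.S (A.v 3) := by
    intro w
    rw [Finsupp.add_apply, Finsupp.add_apply, Finsupp.smul_apply, Finsupp.smul_apply, smul_eq_mul,
      smul_eq_mul]
    by_cases h1 : c 3 = w
    · subst h1
      rw [bself, bne _ _ hcd.symm, v2c3.1, G.S_apply, ← ha]; linarith
    · by_cases h2 : d 3 = w
      · subst h2
        rw [bself, bne _ _ hcd, v2c3.2, G.S_apply, ← hb]; linarith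
      · rw [bne _ _ h1, bne _ _ h2]
        have h3 := congrArg (fun f => f w) hR3
        simp only [Finsupp.add_apply] at h3
        have h4 := G.T_pos v4n w
        have h5 := G.S_pos v3n w
        have h6 := mul_le_ip v2n v5n w
        rw [hev] at h6
        have h7 := v2n w
        have h8 := v5n w
        simp only [Finsupp.coe_zero, Pi.zero_apply] at h4 h5 h7 h8
        rcases h7.lt_or_eq with h9 | h9
        · have : A.v 5 w = 0 := by nlinarith
          linarith
        · linarith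
  have hdeg : a * x + b * y ≤ 123 := by
    have h1 := G.dg_mono hS
    rw [G.dg_S, G.dg_add, G.dg_add, G.dg_smul, G.dg_smul, G.dg_bv, G.dg_bv,
      A.dg_v (j := 3) (by norm_num) (by norm_num), A.dg_v (j := 2) (by norm_num) (by norm_num),
      hG2.p2] at h1
    norm_num [dimZ] at h1
    linarith
  have dal : G.dg al = 3 * x - G.d (c 4) - 60 := by
    rw [hal, G.dg_sub, G.dg_sub, G.dg_T, G.dg_bv, G.dg_bv, dt2]
  have dbe : G.dg be = 3 * y - G.d (d 4) - 60 := by
    rw [hbe, G.dg_sub, G.dg_sub, G.dg_T, G.dg_bv, G.dg_bv, dt2]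
  have iab := ip_nonneg aln ben
  have ibb := ip_self_nonneg be
  have iaa := ip_self_nonneg al
  have icomm := ip_comm al be
  by_contra hcon
  push Not at hcon
  have hP : 3 ≤ a + b := by linarith
  have hb1 : 1 ≤ b := by
    by_contra hb0
    have hb0' : b = 0 := by omega
    have : be = 0 := ip_self_eq_zero (by linarith)
    rw [this, G.dg_zero] at dbe
    linarith
  have hy : 45 ≤ y := by linarith
  have hb2 : b = 1 := by
    by_contra hb2
    have hb3 : 2 ≤ b := by omega
    nlinarith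
  have ha2 : a = 2 := by
    have : 2 ≤ a := by linarith
    by_contra ha3
    have : 3 ≤ a := by omega
    nlinarith
  have hx33 : x ≤ 33 := by rw [ha2, hb2] at hdeg; linarith
  have hbe0 : 1 ≤ ip be be := by
    by_contra h0
    have h1 : ip be be = 0 := by omega
    have h2 := ip_self_eq_zero h1
    rw [h2, ip_zero_right, ip_zero_right] at hb'
    omega
  have h1 : ip al be = 0 := by omega
  have h2 : ip al al = 2 := by omega
  have h3 : G.S al (c 3) = 2 := by
    rw [G.S_apply, hTc, ip_add_right, ip_add_right, ht2, ip_bv_right, ip_bv_right,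
      (split0 _ v3c4.1).1, (split0 _ v3t).1, h2]; norm_num
  have h4 := G.mul_d_le_dg (G.S_pos aln) (c 3)
  rw [h3, G.dg_S, dal] at h4
  linarith

theorem R_le_six (h : A.EZ) (hn : n = 6) {c d : ℤ → G.B}
    (hu : ∀ j : ℤ, 1 ≤ j → j ≤ n → A.u j = bv (c j) + bv (d j) ∧ c j ≠ d j)
    (hm : ∀ j : ℤ, 1 ≤ j → j ≤ n - 1 → G.T (bv (c j)) (c (j + 1)) = 1 ∧
      G.T (bv (c j)) (d (j + 1)) = 0 ∧
      G.T (bv (d j)) (c (j + 1)) = 0 ∧ G.T (bv (d j)) (d (j + 1)) = 1) :
    ip (G.T (A.u 1)) (G.T (A.u 1)) ≤ 8 := by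
  rcases le_total (G.d (c 3)) (G.d (d 3)) with h1 | h1
  · exact A.R_le_six_aux h hn hu hm h1
  · refine A.R_le_six_aux h hn (c := d) (d := c) ?_ ?_ h1
    · intro j hj1 hj2
      obtain ⟨h2, h3⟩ := hu j hj1 hj2
      exact ⟨by rw [h2, add_comm], h3.symm⟩
    · intro j hj1 hj2
      obtain ⟨h2, h3, h4, h5⟩ := hm j hj1 hj2
      exact ⟨h5, h4, h3, h2⟩

end Arr
end Pool.Agent.Helper363.Nita
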