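import Pool.Agent.Helper363.Nita.K2.FE
import Pool.Agent.Helper363.Nita.K2.FY1
import Pool.Agent.Helper363.Nita.K2.FY0
import Pool.Agent.Helper363.Nita.K2.F3
import Pool.Agent.Helper363.Nita.K2.FG
import Pool.Agent.Helper363.Nita.K2.FZ
import Pool.Agent.Helper363.Nita.K2.TN6
import Pool.Agent.Helper363.Nita.K2.TN5
import Pool.Agent.Helper363.Nita.K2.TG4
import Pool.Agent.Helper363.Nita.K2.TR6
import Pool.Agent.Helper363.Nita.K2.TR5
import Pool.Agent.Helper363.Nita.K2.TR4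

namespace Pool.Agent.Helper363.Nita.K2

variable {G : NG} {n : ℕ}

/-- auxiliary: orthogonality of rows of different grade -/
theorem orth12695 (A : Arr G n) (i j : ℤ) (h : ((n : ZMod 3) + 1 - 2 * (i : ZMod 3)) ≠ ((n : ZMod 3) + 1 - 2 * (j : ZMod 3))) :
    ip (A.u i) (A.u j) = 0 :=
  G.ip_grade (A.Gr_u i) (A.Gr_u j) h

theorem contra_six {A : Arr G n} (hn : n = 6) (hp : A.p ≠ 1) (hg : ∀ mid, CG 6 mid)
    (hy : ∀ sw, ∀ w < 2, ∀ w' < 2, ∀ w'' < 2, CY 6 1 2 sw false [(2, 0), (5, w)] [(4, w'), (1, w'')])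
    (he : ∀ sw f, CE 6 8 sw f) : False := by
  subst hn
  have hG : A.Good :=
    { hn := by norm_num
      ip_E := fun a b c d h1 h2 => A.ip_E (by norm_num) a b c d h1 h2
      ip_Tt := fun i j h1 h2 h3 h4 => A.ip_Tt (by norm_num) h1 h2 h3 h4 }
  have hp1 := A.one_le_p hG
  have hp2 : 2 ≤ A.p := by omega
  have hp3 := A.p_two_six hG rfl hp2
  have h0 : ∀ k : ℤ, 1 ≤ k → k ≤ (6 : ℕ) → ip (A.u 0) (A.u k) = 0 :=
    fun k h1 h2 => A.e_zero_six hG rfl hp2 h1 h2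
  have hG2 : A.Good2 := contra_G hG hp3 h0 hg
  have hv : ip (A.v ((2 : ℕ) : ℤ)) (A.v (((2 : ℕ) : ℤ) + 3)) = 0 := by
    refine y_contra1 hG2 (le_refl 6) (k := 2) (by norm_num) (by norm_num) (by norm_num) ?_
    intro sw w hw w' hw' w'' hw''
    rw [if_pos (le_refl 2)]
    exact hy sw w hw w' hw' w'' hw''
  have hez : A.EZ := by
    refine A.ez_of hG2 (le_refl 6) (h0 6 (by norm_num) (by norm_num)) (k := ((2 : ℕ) : ℤ)) (by norm_num) (by norm_num) hv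
  have he7 : ip (A.u 0) (A.u (((6 : ℕ) : ℤ) + 1)) = 0 := by
    apply orth12695
    push_cast
    decide
  obtain ⟨c, d, hu, hm, -⟩ := A.chain hG2
  have hR1 := A.corner hG2
  have hR2 := A.R_le_six hez rfl hu hm
  have hR : ip (G.T (A.u 1)) (G.T (A.u 1)) = ((8 : ℕ) : ℤ) := by
    push_cast
    omega
  exact contra_E hez he7 hR he

theorem contra_five {A : Arr G n} (hn : n = 5) (hp : A.p ≠ 1) (hg : ∀ mid, CG 5 mid)
    (hz : ∀ sw re, CZ sw re)
    (hy : ∀ sw, ∀ w < 2, ∀ w' < 2, CY 5 1 1 sw false [(1, 0), (4, w)] [(3, w')])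
    (he : ∀ sw f, CE 5 8 sw f ∧ CE 5 9 sw f) : False := by
  subst hn
  have hG : A.Good :=
    { hn := by norm_num
      ip_E := fun a b c d h1 h2 => A.ip_E (by norm_num) a b c d h1 h2
      ip_Tt := fun i j h1 h2 h3 h4 => A.ip_Tt (by norm_num) h1 h2 h3 h4 }
  have hp1 := A.one_le_p hG
  have hp2 : 2 ≤ A.p := by omega
  have hp3 := A.p_two_five hG rfl hp2
  have h0 : ∀ k : ℤ, 1 ≤ k → k ≤ (5 : ℕ) → ip (A.u 0) (A.u k) = 0 :=
    fun k h1 h2 => A.e_zero_five hG rfl hp2 h1 h2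
  have hG2 : A.Good2 := contra_G hG hp3 h0 hg
  have h6 : ip (A.u 0) (A.u 6) = 0 := contra_Z rfl hG2 hz
  have hv : ip (A.v ((1 : ℕ) : ℤ)) (A.v (((1 : ℕ) : ℤ) + 3)) = 0 := by
    refine y_contra1 hG2 (by norm_num) (k := 1) (by norm_num) (by norm_num) (by norm_num) ?_
    intro sw w hw w' hw' w'' hw''
    rw [if_neg (by norm_num)]
    exact hy sw w hw w' hw'
  have hez : A.EZ := by
    refine A.ez_of hG2 (by norm_num) h6 (k := ((1 : ℕ) : ℤ)) (by norm_num) (by norm_num) hv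
  have he7 : ip (A.u 0) (A.u (((5 : ℕ) : ℤ) + 1)) = 0 := by
    have : (((5 : ℕ) : ℤ) + 1) = 6 := by norm_num
    rw [this]
    exact h6
  obtain ⟨c, d, hu, hm, -⟩ := A.chain hG2
  have hR1 := A.corner hG2
  have hR2 := A.R_le_five hez rfl hu hm
  have hR : ip (G.T (A.u 1)) (G.T (A.u 1)) = ((8 : ℕ) : ℤ) ∨ ip (G.T (A.u 1)) (G.T (A.u 1)) = ((9 : ℕ) : ℤ) := by
    push_cast
    omega
  rcases hR with hR | hR
  · exact contra_E hez he7 hR (fun sw f => (he sw f).1)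
  · exact contra_E hez he7 hR (fun sw f => (he sw f).2)

theorem contra_four {A : Arr G n} (hn : n = 4) (hp : A.p ≠ 1) (h3 : ∀ sw, C3 13 sw ∧ C3 14 sw)
    (hg : ∀ mid, CG 4 mid)
    (hy : ∀ sw, ∀ w < 2, ∀ w' < 2, ∀ w'' < 2,
      CY 4 0 1 sw false [(1, 0), (4, w)] [(3, w'), (0, w'')] ∧
      CY 4 0 1 sw true [(1, w''), (4, w)] [(3, w'), (0, 0)])
    (he : ∀ sw f, CE 4 8 sw f ∧ CE 4 9 sw f) : False := by
  subst hn
  have hG : A.Good := A.good_four rfl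
  have hp1 := A.one_le_p hG
  have hp2 : 2 ≤ A.p := by omega
  have hp3 := A.p_le_three_four hG rfl hp2
  have h0 : ∀ k : ℤ, 1 ≤ k → k ≤ (4 : ℕ) → ip (A.u 0) (A.u k) = 0 :=
    fun k h1 h2 => A.e_zero_four hG rfl hp2 h1 h2
  by_cases hp4 : A.p = 3
  · exact contra_3 rfl hG hp4 h3
  have hp5 : A.p = 2 := by omega
  have hG2 : A.Good2 := contra_G hG hp5 h0 hg
  have h6 : ip (A.u 0) (A.u 6) = 0 := by
    rw [A.u_out (j := 6) (by right; norm_num)]
    exact ip_zero_right _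
  have he7 : ip (A.u 0) (A.u (((4 : ℕ) : ℤ) + 1)) = 0 := by
    apply orth12695
    push_cast
    decide
  have hv : ip (A.v 1) (A.v 4) = 0 :=
    y_contra0 hG2 (by norm_num) he7 (by norm_num) (by norm_num) hy
  have hez : A.EZ := by
    refine A.ez_of hG2 (by norm_num) h6 (k := 1) (by norm_num) (by norm_num) ?_
    have : (1 : ℤ) + 3 = 4 := by norm_num
    rw [this]
    exact hv
  obtain ⟨c, d, hu, hm, -⟩ := A.chain hG2
  have hR1 := A.corner hG2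
  have hR2 := A.R_le_four hez rfl hu hm
  have hR : ip (G.T (A.u 1)) (G.T (A.u 1)) = ((8 : ℕ) : ℤ) ∨ ip (G.T (A.u 1)) (G.T (A.u 1)) = ((9 : ℕ) : ℤ) := by
    push_cast
    omega
  rcases hR with hR | hR
  · exact contra_E hez he7 hR (fun sw f => (he sw f).1)
  · exact contra_E hez he7 hR (fun sw f => (he sw f).2)

end Pool.Agent.Helper363.Nita.K2
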