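import Pool.Agent.Helper363.Nita.K2.ChkDef

namespace Pool.Agent.Helper363.Nita.K2

noncomputable section

def nthF (l : List Row) : Nat → Row :=
  List.rec (motive := fun _ => Nat → Row) (fun _ => Row.dflt)
    (fun r _ ih n => Nat.rec (motive := fun _ => Row) r (fun m _ => ih m) n) l

def updF (l : List Row) : Nat → (Row → Row) → List Row :=
  List.rec (motive := fun _ => Nat → (Row → Row) → List Row) (fun _ _ => [])
    (fun r l ih n f => Nat.rec (motive := fun _ => List Row) (f r :: l) (fun m _ => r :: ih m f) n) l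

def cntF (x : Nat) (l : List Nat) : Nat :=
  List.rec (motive := fun _ => Nat) 0 (fun y _ ih => Bool.rec ih (Nat.succ ih) (Nat.beq x y)) l

/-- inner product of two multisets -/
def iplF (l : List Nat) (m : List Nat) : Nat :=
  List.rec (motive := fun _ => Nat) 0 (fun x _ ih => Nat.add (cntF x m) ih) l

/-- the entry `(x, y)` is exactly known -/
def exF (S : List Row) (x y : Nat) : Bool :=
  (nthF S x).done || tb (nthF S x).dec y ||
    (((nthF S (nthF S y).cj).done || tb (nthF S (nthF S y).cj).dec (nthF S x).cj) &&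
      Nat.beq (cntF (nthF S x).cj (nthF S (nthF S y).cj).out) (cntF y (nthF S x).out))

def allExF (S : List Row) (x : Nat) (l : List Nat) : Bool :=
  List.rec (motive := fun _ => Bool) true (fun y _ ih => Bool.rec false ih (exF S x y)) l

/-- `x` is done and all cells `(y, z)`, `z` in the row of `x`, are exact -/
def ipEx1F (S : List Row) (x y : Nat) : Bool := (nthF S x).done && allExF S y (nthF S x).out

def ipExF (C : Ctx) (S : List Row) (x y : Nat) : Bool :=
  (Nat.ble C.nt x || Nat.ble C.nt y) && (ipEx1F S x y || ipEx1F S y x)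

def setBitsF (m : Nat) (l : List Nat) : Nat :=
  List.rec (motive := fun _ => Nat) m (fun y _ ih => Nat.lor (Nat.shiftLeft 1 y) ih) l

def appF (a b : List Nat) : List Nat := List.rec (motive := fun _ => List Nat) b (fun x _ ih => x :: ih) a
def outsF (S : List Row) (l : List Nat) : List Nat :=
  List.rec (motive := fun _ => List Nat) [] (fun c _ ih => appF (nthF S c).out ih) l

def allDoneF (S : List Row) : List Nat → Bool
  | [] => true
  | c :: l => (nthF S c).done && allDoneF S l

def setDoneF (S : List Row) : List Nat → List Row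
  | [] => S
  | c :: l => setDoneF (updF S c fun r => { r with done := true }) l

def sumColF (S : List Row) (x : Nat) (l : List Nat) : Nat :=
  List.rec (motive := fun _ => Nat) 0 (fun z _ ih => Nat.add (cntF x (nthF S z).out) ih) l

def allExColF (S : List Row) (x : Nat) (l : List Nat) : Bool :=
  List.rec (motive := fun _ => Bool) true (fun z _ ih => Bool.rec false ih (exF S z x)) l

/-- violated triangle inequality at the arrow `x → y` -/
def xt1F (C : Ctx) (S : List Row) (x y : Nat) : Bool :=
  (Nat.ble C.nt x || Nat.ble C.nt y) && (nthF S y).done && allExColF S x (nthF S y).out &&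
    Nat.blt (sumColF S x (nthF S y).out) (cntF y (nthF S x).out)

/-! blocks -/
def cntLF (l : List Nat) : List Nat → Nat
  | [] => 0
  | y :: m => Nat.add (cntF y l) (cntLF l m)

def blkSumF (S : List Row) (tgt : List Nat) : List Nat → Nat
  | [] => 0
  | x :: l => Nat.add (cntLF (nthF S x).out tgt) (blkSumF S tgt l)

def blkExF (S : List Row) (tgt : List Nat) : List Nat → Bool
  | [] => true
  | x :: l => allExF S x tgt && blkExF S tgt l

def blkSetF (S : List Row) (tgt : List Nat) : List Nat → List Row
  | [] => S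
  | x :: l => blkSetF (updF S x fun r => { r with dec := setBitsF r.dec tgt }) tgt l

def decLF (S : List Row) (z : List Nat) : List Nat → List Row
  | [] => S
  | x :: l => decLF (updF S x fun r => { r with dec := setBitsF r.dec z }) z l

/-! linear programming -/

def addPF (l : List Ent) (v w : Nat) : List Ent :=
  List.rec (motive := fun _ => List Ent) [⟨v, w, 0⟩]
    (fun e l ih => Bool.rec (e :: ih) (⟨e.v, Nat.add e.p w, e.q⟩ :: l) (Nat.beq e.v v)) l

def addQF (l : List Ent) (v w : Nat) : List Ent :=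
  List.rec (motive := fun _ => List Ent) [⟨v, 0, w⟩]
    (fun e l ih => Bool.rec (e :: ih) (⟨e.v, e.p, Nat.add e.q w⟩ :: l) (Nat.beq e.v v)) l

def addQsF (w : Nat) (l : List Nat) : List Ent → List Ent :=
  List.rec (motive := fun _ => List Ent → List Ent) (fun a => a) (fun v _ ih a => ih (addQF a v w)) l

def addPsF (w : Nat) (l : List Nat) : List Ent → List Ent :=
  List.rec (motive := fun _ => List Ent → List Ent) (fun a => a) (fun v _ ih a => ih (addPF a v w)) l

def accumF (K : Nat) (S : List Row) (l : List Mul) : Acc → Option Acc :=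
  List.rec (motive := fun _ => Acc → Option Acc) (fun a => some a)
    (fun m _ ih a => Bool.rec none (Bool.rec (Bool.rec none (ih ⟨addQF (addPsF m.w (nthF S m.x).out a.es) m.x (Nat.mul 3 m.w),
          Nat.add a.cp (Nat.mul m.w (nthF S m.x).off), a.cq⟩) (nthF S m.x).done) (ih ⟨addPF (addQsF m.w (nthF S m.x).out a.es) m.x (Nat.mul 3 m.w), a.cp,
          Nat.add a.cq (Nat.mul m.w (nthF S m.x).off)⟩) m.s) (Nat.blt m.x K)) l

/-- identify a node with its conjugate -/
def repF (S : List Row) (v : Nat) : Nat :=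
  bif Nat.blt (nthF S v).cj v then (nthF S v).cj else v

def mergeF (S : List Row) (l : List Ent) : List Ent → List Ent :=
  List.rec (motive := fun _ => List Ent → List Ent) (fun a => a)
    (fun e _ ih a => ih (addQF (addPF a (repF S e.v) e.p) (repF S e.v) e.q)) l

/-- total upper estimate: returns (positive part, negative part) -/
def evalEF (S : List Row) (l : List Ent) : Nat → Nat → Bool :=
  List.rec (motive := fun _ => Nat → Nat → Bool) (fun P Q => Nat.blt P Q)
    (fun e _ ih P Q => Bool.rec (Bool.rec (ih (Nat.add P (Nat.mul (Nat.sub e.p e.q) (nthF S e.v).hi)) Q) false (Nat.beq (nthF S e.v).hi 0)) (ih P (Nat.add Q (Nat.mul (Nat.sub e.q e.p) (nthF S e.v).lo))) (Nat.ble e.p e.q)) l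

def xlF (S : List Row) (ms : List Mul) : Bool :=
  match accumF S.length S ms ⟨[], 0, 0⟩ with
  | none => false
  | some a => evalEF S (mergeF S a.es []) a.cp a.cq

def lineAtF : List Line → Nat → Line
  | [], _ => ⟨[], 0, 0⟩
  | r :: _, 0 => r
  | _ :: l, n + 1 => lineAtF l n

def blkAtF : List Blk → Nat → Blk
  | [], _ => ⟨[], [], 0, 0⟩
  | r :: _, 0 => r
  | _ :: l, n + 1 => blkAtF l n

def iplAtF : List IpL → Nat → IpL
  | [], _ => ⟨[], [], 0⟩
  | r :: _, 0 => r
  | _ :: l, n + 1 => iplAtF l n

/-- all cells `(a, y)` with `y ≥ i` of the right grade are exact -/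
def rowExF (S : List Row) (a g : Nat) (l : List Row) : Nat → Bool :=
  List.rec (motive := fun _ => Nat → Bool) (fun _ => true)
    (fun r _ ih i => Bool.rec (ih (Nat.succ i)) (Bool.rec false (ih (Nat.succ i)) (exF S a i)) (Nat.beq r.gr g)) l

def newPairF (S : List Row) (a : Nat) : List Row :=
  updF S a (ins S.length) ++
    [⟨succGr (nthF S a).gr, Nat.succ S.length, 1, Nat.mul 3 (nthF S a).hi, 0, [], 0, false⟩,
     ⟨negGr (succGr (nthF S a).gr), S.length, 1, Nat.mul 3 (nthF S a).hi, 0, [(nthF S a).cj], 0, false⟩]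

def newRealF (S : List Row) (a : Nat) : List Row :=
  updF S a (ins S.length) ++ [⟨0, S.length, 1, Nat.mul 3 (nthF S a).hi, 0, [(nthF S a).cj], 0, false⟩]

def checkF (C : Ctx) : Cert → List Row → Bool
  | .E a b c1 c2, S =>
    Nat.ble C.nt a && Nat.ble C.nt b && Nat.blt a S.length && Nat.blt b S.length &&
    Nat.ble (cntF (nthF S a).cj (nthF S (nthF S b).cj).out) (cntF b (nthF S a).out) &&
    (bif Nat.beq (nthF S b).cj a then checkF C c1 (updF S a (ins b))
     else checkF C c1 (updF (updF S a (ins b)) (nthF S b).cj (ins (nthF S a).cj))) &&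
    checkF C c2 (updF S a fun r => { r with dec := setBitsF r.dec [b] })
  | .NO a c1 c2 c3, S =>
    Nat.ble C.nt a && Nat.blt a S.length && rowExF S a (succGr (nthF S a).gr) S 0 &&
    checkF C c1 (updF S a fun r => { r with done := true }) && checkF C c2 (newPairF S a) &&
    checkF C c3 (newRealF S a)
  | .NP a c1 c2, S =>
    Nat.ble C.nt a && Nat.blt a S.length && !(Nat.beq (succGr (nthF S a).gr) 0) &&
    rowExF S a (succGr (nthF S a).gr) S 0 &&
    checkF C c1 (updF S a fun r => { r with done := true }) && checkF C c2 (newPairF S a)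
  | .SP a k c1 c2, S =>
    Nat.blt a S.length && !(Nat.beq k 0) &&
    checkF C c1 (updF (updF S a fun r => { r with hi := k }) (nthF S a).cj fun r => { r with hi := k }) &&
    checkF C c2 (updF (updF S a fun r => { r with lo := Nat.succ k }) (nthF S a).cj
      fun r => { r with lo := Nat.succ k })
  | .CO a c, S =>
    Nat.ble C.nt a && Nat.ble C.nt (nthF S a).cj && Nat.blt a S.length && (nthF S (nthF S a).cj).done &&
    Nat.ble (iplF (nthF S (nthF S a).cj).out (nthF S (nthF S a).cj).out) (iplF (nthF S a).out (nthF S a).out) &&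
    checkF C c (updF S a fun r => { r with done := true })
  | .Z x y c, S =>
    Nat.blt x S.length && Nat.blt y S.length && ipExF C S x y &&
    Nat.ble (iplF (nthF S x).out (nthF S y).out) (iplF (nthF S (nthF S x).cj).out (nthF S (nthF S y).cj).out) &&
    checkF C c (updF (updF S (nthF S y).cj
        fun r => { r with dec := setBitsF r.dec (nthF S (nthF S x).cj).out }) (nthF S x).cj
        fun r => { r with dec := setBitsF r.dec (nthF S (nthF S y).cj).out })
  | .LC l c, S =>
    (!(Nat.beq (lineAtF C.lines l).hi 0)) &&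
    Nat.ble (lineAtF C.lines l).hi (iplF (outsF S (lineAtF C.lines l).nodes) (outsF S (lineAtF C.lines l).nodes)) &&
    checkF C c (setDoneF S (lineAtF C.lines l).nodes)
  | .BC l c, S =>
    (!(Nat.beq (blkAtF C.blks l).hi 0)) &&
    Nat.ble (blkAtF C.blks l).hi (Nat.succ (blkSumF S (blkAtF C.blks l).tgt (blkAtF C.blks l).src)) &&
    checkF C c (blkSetF S (blkAtF C.blks l).tgt (blkAtF C.blks l).src)
  | .LX l, S =>
    ((!(Nat.beq (lineAtF C.lines l).hi 0)) &&
      Nat.blt (lineAtF C.lines l).hi
        (iplF (outsF S (lineAtF C.lines l).nodes) (outsF S (lineAtF C.lines l).nodes))) ||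
    (allDoneF S (lineAtF C.lines l).nodes &&
      Nat.blt (iplF (outsF S (lineAtF C.lines l).nodes) (outsF S (lineAtF C.lines l).nodes))
        (lineAtF C.lines l).lo)
  | .BX l, S =>
    ((!(Nat.beq (blkAtF C.blks l).hi 0)) &&
      Nat.ble (blkAtF C.blks l).hi (blkSumF S (blkAtF C.blks l).tgt (blkAtF C.blks l).src)) ||
    (blkExF S (blkAtF C.blks l).tgt (blkAtF C.blks l).src &&
      Nat.blt (blkSumF S (blkAtF C.blks l).tgt (blkAtF C.blks l).src) (blkAtF C.blks l).lo)
  | .XN x y, S =>
    Nat.blt x S.length && Nat.blt y S.length && ipExF C S x y &&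
    Nat.blt (iplF (nthF S x).out (nthF S y).out)
      (iplF (nthF S (nthF S x).cj).out (nthF S (nthF S y).cj).out)
  | .XT x y, S =>
    Nat.blt x S.length && Nat.blt y S.length &&
    (xt1F C S x y || xt1F C S (nthF S y).cj (nthF S x).cj)
  | .XL ms, S => xlF S ms
  | .IC l c, S =>
    (!(Nat.beq (iplAtF C.ipls l).hi 0)) &&
    Nat.ble (iplAtF C.ipls l).hi
      (Nat.succ (iplF (outsF S (iplAtF C.ipls l).src) (outsF S (iplAtF C.ipls l).tgt))) &&
    checkF C c (decLF (decLF S (outsF S (iplAtF C.ipls l).tgt) (iplAtF C.ipls l).src)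
      (outsF S (iplAtF C.ipls l).src) (iplAtF C.ipls l).tgt)
  | .IX l, S =>
    (!(Nat.beq (iplAtF C.ipls l).hi 0)) &&
    Nat.ble (iplAtF C.ipls l).hi (iplF (outsF S (iplAtF C.ipls l).src) (outsF S (iplAtF C.ipls l).tgt))


/-! splitting of large certificates -/

def stE (S : List Row) (a b : Nat) : List Row :=
  bif Nat.beq (nthF S b).cj a then updF S a (ins b)
  else updF (updF S a (ins b)) (nthF S b).cj (ins (nthF S a).cj)
def stX (S : List Row) (a b : Nat) : List Row := updF S a fun r => { r with dec := setBitsF r.dec [b] }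
def stD (S : List Row) (a : Nat) : List Row := updF S a fun r => { r with done := true }
def stH (S : List Row) (a k : Nat) : List Row :=
  updF (updF S a fun r => { r with hi := k }) (nthF S a).cj fun r => { r with hi := k }
def stL (S : List Row) (a k : Nat) : List Row :=
  updF (updF S a fun r => { r with lo := Nat.succ k }) (nthF S a).cj
      fun r => { r with lo := Nat.succ k }
def stZ (S : List Row) (x y : Nat) : List Row :=
  updF (updF S (nthF S y).cj
        fun r => { r with dec := setBitsF r.dec (nthF S (nthF S x).cj).out }) (nthF S x).cj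
        fun r => { r with dec := setBitsF r.dec (nthF S (nthF S y).cj).out }
def stLC (C : Ctx) (S : List Row) (l : Nat) : List Row := setDoneF S (lineAtF C.lines l).nodes
def stBC (C : Ctx) (S : List Row) (l : Nat) : List Row :=
  blkSetF S (blkAtF C.blks l).tgt (blkAtF C.blks l).src
def stIC (C : Ctx) (S : List Row) (l : Nat) : List Row :=
  decLF (decLF S (outsF S (iplAtF C.ipls l).tgt) (iplAtF C.ipls l).src)
      (outsF S (iplAtF C.ipls l).src) (iplAtF C.ipls l).tgt

/-- the top of a certificate -/
inductive Top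
  | hole (c : Cert)
  | leaf (c : Cert)
  | E (a b : Nat) (t1 t2 : Top)
  | NO (a : Nat) (t1 t2 t3 : Top)
  | NP (a : Nat) (t1 t2 : Top)
  | SP (a k : Nat) (t1 t2 : Top)
  | CO (a : Nat) (t : Top)
  | Z (x y : Nat) (t : Top)
  | LC (l : Nat) (t : Top)
  | BC (l : Nat) (t : Top)
  | IC (l : Nat) (t : Top)

def Top.cert : Top → Cert
  | .hole c => c
  | .leaf c => c
  | .E a b t1 t2 => .E a b t1.cert t2.cert
  | .NO a t1 t2 t3 => .NO a t1.cert t2.cert t3.cert
  | .NP a t1 t2 => .NP a t1.cert t2.cert
  | .SP a k t1 t2 => .SP a k t1.cert t2.cert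
  | .CO a t => .CO a t.cert
  | .Z x y t => .Z x y t.cert
  | .LC l t => .LC l t.cert
  | .BC l t => .BC l t.cert
  | .IC l t => .IC l t.cert

/-- the conditions of the top nodes -/
def topS (C : Ctx) : Top → List Row → Bool
  | .hole _, _ => true
  | .leaf c, S => checkF C c S
  | .E a b t1 t2, S =>
    Nat.ble C.nt a && Nat.ble C.nt b && Nat.blt a S.length && Nat.blt b S.length &&
    Nat.ble (cntF (nthF S a).cj (nthF S (nthF S b).cj).out) (cntF b (nthF S a).out) &&
    topS C t1 (stE S a b) && topS C t2 (stX S a b)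
  | .NO a t1 t2 t3, S =>
    Nat.ble C.nt a && Nat.blt a S.length && rowExF S a (succGr (nthF S a).gr) S 0 &&
    topS C t1 (stD S a) && topS C t2 (newPairF S a) && topS C t3 (newRealF S a)
  | .NP a t1 t2, S =>
    Nat.ble C.nt a && Nat.blt a S.length && !(Nat.beq (succGr (nthF S a).gr) 0) &&
    rowExF S a (succGr (nthF S a).gr) S 0 &&
    topS C t1 (stD S a) && topS C t2 (newPairF S a)
  | .SP a k t1 t2, S =>
    Nat.blt a S.length && !(Nat.beq k 0) && topS C t1 (stH S a k) && topS C t2 (stL S a k)
  | .CO a t, S =>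
    Nat.ble C.nt a && Nat.ble C.nt (nthF S a).cj && Nat.blt a S.length && (nthF S (nthF S a).cj).done &&
    Nat.ble (iplF (nthF S (nthF S a).cj).out (nthF S (nthF S a).cj).out) (iplF (nthF S a).out (nthF S a).out) &&
    topS C t (stD S a)
  | .Z x y t, S =>
    Nat.blt x S.length && Nat.blt y S.length && ipExF C S x y &&
    Nat.ble (iplF (nthF S x).out (nthF S y).out) (iplF (nthF S (nthF S x).cj).out (nthF S (nthF S y).cj).out) &&
    topS C t (stZ S x y)
  | .LC l t, S =>
    (!(Nat.beq (lineAtF C.lines l).hi 0)) &&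
    Nat.ble (lineAtF C.lines l).hi (iplF (outsF S (lineAtF C.lines l).nodes) (outsF S (lineAtF C.lines l).nodes)) &&
    topS C t (stLC C S l)
  | .BC l t, S =>
    (!(Nat.beq (blkAtF C.blks l).hi 0)) &&
    Nat.ble (blkAtF C.blks l).hi (Nat.succ (blkSumF S (blkAtF C.blks l).tgt (blkAtF C.blks l).src)) &&
    topS C t (stBC C S l)
  | .IC l t, S =>
    (!(Nat.beq (iplAtF C.ipls l).hi 0)) &&
    Nat.ble (iplAtF C.ipls l).hi
      (Nat.succ (iplF (outsF S (iplAtF C.ipls l).src) (outsF S (iplAtF C.ipls l).tgt))) &&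
    topS C t (stIC C S l)

/-- the holes are correct -/
def allP (C : Ctx) : Top → List Row → Prop
  | .hole c, S => checkF C c S = true
  | .leaf _, _ => True
  | .E a b t1 t2, S => allP C t1 (stE S a b) ∧ allP C t2 (stX S a b)
  | .NO a t1 t2 t3, S => allP C t1 (stD S a) ∧ allP C t2 (newPairF S a) ∧ allP C t3 (newRealF S a)
  | .NP a t1 t2, S => allP C t1 (stD S a) ∧ allP C t2 (newPairF S a)
  | .SP a k t1 t2, S => allP C t1 (stH S a k) ∧ allP C t2 (stL S a k)
  | .CO a t, S => allP C t (stD S a)
  | .Z x y t, S => allP C t (stZ S x y)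
  | .LC l t, S => allP C t (stLC C S l)
  | .BC l t, S => allP C t (stBC C S l)
  | .IC l t, S => allP C t (stIC C S l)

theorem and_mk {a b : Bool} (h1 : a = true) (h2 : b = true) : (a && b) = true := by rw [h1, h2]; rfl

theorem and_l {a b : Bool} (h : (a && b) = true) : a = true := by
  cases a
  · cases b <;> cases h
  · rfl

theorem and_r {a b : Bool} (h : (a && b) = true) : b = true := by
  cases a
  · cases b <;> cases h
  · cases b
    · cases h
    · rfl

theorem top_ok (C : Ctx) : ∀ (t : Top) (S : List Row), topS C t S = true → allP C t S →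
    checkF C t.cert S = true
  | .hole _, _, _, h => h
  | .leaf _, _, h, _ => h
  | .E a b t1 t2, S, h, h' => by
    have e1 := top_ok C t1 _ (and_r (and_l h)) h'.1
    have e2 := top_ok C t2 _ (and_r h) h'.2
    refine and_mk (and_mk (and_l (and_l h)) ?_) e2
    unfold stE at e1
    cases hb : Nat.beq (nthF S b).cj a with
    | true => rw [hb] at e1; exact e1
    | false => rw [hb] at e1; exact e1
  | .NO a t1 t2 t3, S, h, h' =>
    and_mk (and_mk (and_mk (and_l (and_l (and_l h))) (top_ok C t1 _ (and_r (and_l (and_l h))) h'.1))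
      (top_ok C t2 _ (and_r (and_l h)) h'.2.1)) (top_ok C t3 _ (and_r h) h'.2.2)
  | .NP a t1 t2, S, h, h' =>
    and_mk (and_mk (and_l (and_l h)) (top_ok C t1 _ (and_r (and_l h)) h'.1)) (top_ok C t2 _ (and_r h) h'.2)
  | .SP a k t1 t2, S, h, h' =>
    and_mk (and_mk (and_l (and_l h)) (top_ok C t1 _ (and_r (and_l h)) h'.1)) (top_ok C t2 _ (and_r h) h'.2)
  | .CO a t, S, h, h' => and_mk (and_l h) (top_ok C t _ (and_r h) h')
  | .Z x y t, S, h, h' => and_mk (and_l h) (top_ok C t _ (and_r h) h')
  | .LC l t, S, h, h' => and_mk (and_l h) (top_ok C t _ (and_r h) h')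
  | .BC l t, S, h, h' => and_mk (and_l h) (top_ok C t _ (and_r h) h')
  | .IC l t, S, h, h' => and_mk (and_l h) (top_ok C t _ (and_r h) h')

/-- joins blocks of 200 tokens -/
def jn : List Nat → Nat
  | [] => 0
  | x :: l => Nat.add x (Nat.mul (Nat.pow 2 6400) (jn l))

/-- there is a certificate -/
def OkF (n : Nat) (X : XData) (td : Nat → Bool) (C : Ctx) : Prop := ∃ (k : Cert) (_ : Nat), checkF C k (build n X td) = true

/-- full lines with all known inner products -/
def CEF (n R : Nat) (sw f : Bool) : Prop :=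
  OkF n (xwin n 0 2 (sgS sw n) true [(0, 0), (1, bif f then 0 else 1)]) (wtd n 0)
    (ctxW n 0 2 (lR n R) (bK n 0 2 ++ bE n) (pE n) [] [])

/-- a window together with a common constituent of two rests -/
def CYF (n a k : Nat) (sw f : Bool) (is os : List (Nat × Nat)) : Prop :=
  OkF n (yX n a k sw f is os) (wtd n a) (ctxW n a 2 [] (bK n a 2) [] [] [])

/-- norm three in depth four -/
def C3F (R : Nat) (sw : Bool) : Prop :=
  OkF 4 (xwin 4 1 3 (sgS sw 4) true []) (wtd 4 1)
    (ctxW 4 1 3 [(1, R, R), (2, R, R), (3, R, R), (4, R, R)] (bK 4 1 3) [] [] [])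

/-- positive `g` -/
def CGF (n : Nat) (mid : Bool) : Prop :=
  OkF n (xwin n 1 2 (sgM mid n) false []) (wtd n 1) (ctxW n 1 2 [] (bG n 1) [] (sO n) (sI n))

/-- depth five, a common constituent of `u 0` and `u 6` -/
def CZF (sw re : Bool) : Prop :=
  OkF 5 (zX sw re) (wtd 5 1) (ctxW 5 1 2 [] (bK 5 1 2) [] [] [])

/-- decoded certificate -/
def pc (k : Nat) (l : List Nat) : Cert := (parse k (digits k (jn l))).1

theorem OkF.mk {n : Nat} {X : XData} {td : Nat → Bool} {C : Ctx} (k : Nat) (l : List Nat)
    (h : checkF C (pc k l) (build n X td) = true) : OkF n X td C :=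
  ⟨pc k l, 0, h⟩

theorem OkF.top {n : Nat} {X : XData} {td : Nat → Bool} {C : Ctx} (t : Top)
    (h : topS C t (build n X td) = true) (h' : allP C t (build n X td)) : OkF n X td C :=
  ⟨t.cert, 0, top_ok C t _ h h'⟩

end

end Pool.Agent.Helper363.Nita.K2
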