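import Mathlib
import Pool.Agent.Helper363.Nita.K2.FastDef
import Pool.Agent.Helper363.Nita.K2.DefF

namespace Pool.Agent.Helper363.Nita.K2

theorem nthF_eq (l : List Row) (n : Nat) : nthF l n = nth l n := by
  induction l generalizing n with
  | nil => rfl
  | cons r l ih =>
    cases n with
    | zero => rfl
    | succ n => exact ih n

theorem updF_eq (l : List Row) (n : Nat) (f : Row → Row) : updF l n f = upd l n f := by
  induction l generalizing n with
  | nil => rfl
  | cons r l ih =>
    cases n with
    | zero => rfl
    | succ n => exact congrArg (List.cons r) (ih n)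

theorem cntF_eq (x : Nat) (l : List Nat) : cntF x l = cnt x l := by
  induction l with
  | nil => rfl
  | cons y l ih =>
    show Bool.rec (cntF x l) (Nat.succ (cntF x l)) (Nat.beq x y) =
      bif Nat.beq x y then Nat.succ (cnt x l) else cnt x l
    rw [ih]
    cases Nat.beq x y <;> rfl

theorem iplF_eq (l m : List Nat) : iplF l m = ipl l m := by
  induction l with
  | nil => rfl
  | cons x l ih =>
    show Nat.add (cntF x m) (iplF l m) = Nat.add (cnt x m) (ipl l m)
    rw [ih, cntF_eq]

theorem exF_eq (S : List Row) (x y : Nat) : exF S x y = ex S x y := by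
  unfold exF ex
  simp only [nthF_eq, cntF_eq]

theorem allExF_eq (S : List Row) (x : Nat) (l : List Nat) : allExF S x l = allEx S x l := by
  induction l with
  | nil => rfl
  | cons y l ih =>
    show Bool.rec false (allExF S x l) (exF S x y) = (ex S x y && allEx S x l)
    rw [ih, exF_eq]
    cases ex S x y <;> rfl

theorem ipEx1F_eq (S : List Row) (x y : Nat) : ipEx1F S x y = ipEx1 S x y := by
  unfold ipEx1F ipEx1
  simp only [nthF_eq, allExF_eq]

theorem ipExF_eq (C : Ctx) (S : List Row) (x y : Nat) : ipExF C S x y = ipEx C S x y := by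
  unfold ipExF ipEx
  simp only [ipEx1F_eq]

theorem setBitsF_eq (m : Nat) (l : List Nat) : setBitsF m l = setBits m l := by
  induction l with
  | nil => rfl
  | cons y l ih =>
    show Nat.lor (Nat.shiftLeft 1 y) (setBitsF m l) = Nat.lor (Nat.shiftLeft 1 y) (setBits m l)
    rw [ih]

theorem appF_eq (a b : List Nat) : appF a b = a ++ b := by
  induction a with
  | nil => rfl
  | cons x a ih => exact congrArg (List.cons x) ih

theorem outsF_eq (S : List Row) (l : List Nat) : outsF S l = outs S l := by
  induction l with
  | nil => rfl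
  | cons c l ih =>
    show appF (nthF S c).out (outsF S l) = (nth S c).out ++ outs S l
    rw [ih, appF_eq, nthF_eq]

theorem allDoneF_eq (S : List Row) (l : List Nat) : allDoneF S l = allDone S l := by
  induction l with
  | nil => rfl
  | cons c l ih => simp only [allDoneF, allDone, ih, nthF_eq]

theorem setDoneF_eq (S : List Row) (l : List Nat) : setDoneF S l = setDone S l := by
  induction l generalizing S with
  | nil => rfl
  | cons c l ih => simp only [setDoneF, setDone, ih, updF_eq]

theorem sumColF_eq (S : List Row) (x : Nat) (l : List Nat) : sumColF S x l = sumCol S x l := by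
  induction l with
  | nil => rfl
  | cons z l ih =>
    show Nat.add (cntF x (nthF S z).out) (sumColF S x l) = Nat.add (cnt x (nth S z).out) (sumCol S x l)
    rw [ih, cntF_eq, nthF_eq]

theorem allExColF_eq (S : List Row) (x : Nat) (l : List Nat) : allExColF S x l = allExCol S x l := by
  induction l with
  | nil => rfl
  | cons z l ih =>
    show Bool.rec false (allExColF S x l) (exF S z x) = (ex S z x && allExCol S x l)
    rw [ih, exF_eq]
    cases ex S z x <;> rfl

theorem xt1F_eq (C : Ctx) (S : List Row) (x y : Nat) : xt1F C S x y = xt1 C S x y := by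
  unfold xt1F xt1
  simp only [nthF_eq, cntF_eq, sumColF_eq, allExColF_eq]

theorem cntLF_eq (l m : List Nat) : cntLF l m = cntL l m := by
  induction m with
  | nil => rfl
  | cons y m ih => simp only [cntLF, cntL, ih, cntF_eq]

theorem blkSumF_eq (S : List Row) (tgt l : List Nat) : blkSumF S tgt l = blkSum S tgt l := by
  induction l with
  | nil => rfl
  | cons x l ih => simp only [blkSumF, blkSum, ih, cntLF_eq, nthF_eq]

theorem blkExF_eq (S : List Row) (tgt l : List Nat) : blkExF S tgt l = blkEx S tgt l := by
  induction l with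
  | nil => rfl
  | cons x l ih => simp only [blkExF, blkEx, ih, allExF_eq]

theorem blkSetF_eq (S : List Row) (tgt l : List Nat) : blkSetF S tgt l = blkSet S tgt l := by
  induction l generalizing S with
  | nil => rfl
  | cons x l ih => simp only [blkSetF, blkSet, ih, updF_eq, setBitsF_eq]

theorem decLF_eq (S : List Row) (z l : List Nat) : decLF S z l = decL S z l := by
  induction l generalizing S with
  | nil => rfl
  | cons x l ih => simp only [decLF, decL, ih, updF_eq, setBitsF_eq]

theorem addPF_eq (l : List Ent) (v w : Nat) : addPF l v w = addP l v w := by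
  induction l with
  | nil => rfl
  | cons e l ih =>
    show Bool.rec (e :: addPF l v w) (⟨e.v, Nat.add e.p w, e.q⟩ :: l) (Nat.beq e.v v) =
      bif Nat.beq e.v v then ⟨e.v, Nat.add e.p w, e.q⟩ :: l else e :: addP l v w
    rw [ih]
    cases Nat.beq e.v v <;> rfl

theorem addQF_eq (l : List Ent) (v w : Nat) : addQF l v w = addQ l v w := by
  induction l with
  | nil => rfl
  | cons e l ih =>
    show Bool.rec (e :: addQF l v w) (⟨e.v, e.p, Nat.add e.q w⟩ :: l) (Nat.beq e.v v) =
      bif Nat.beq e.v v then ⟨e.v, e.p, Nat.add e.q w⟩ :: l else e :: addQ l v w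
    rw [ih]
    cases Nat.beq e.v v <;> rfl

theorem addQsF_eq (w : Nat) (l : List Nat) (a : List Ent) : addQsF w l a = addQs w l a := by
  induction l generalizing a with
  | nil => rfl
  | cons v l ih =>
    show addQsF w l (addQF a v w) = addQs w l (addQ a v w)
    rw [ih, addQF_eq]

theorem addPsF_eq (w : Nat) (l : List Nat) (a : List Ent) : addPsF w l a = addPs w l a := by
  induction l generalizing a with
  | nil => rfl
  | cons v l ih =>
    show addPsF w l (addPF a v w) = addPs w l (addP a v w)
    rw [ih, addPF_eq]

theorem accumF_eq (K : Nat) (S : List Row) (l : List Mul) (a : Acc) :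
    accumF K S l a = accum K S l a := by
  induction l generalizing a with
  | nil => rfl
  | cons m l ih =>
    show Bool.rec none (Bool.rec (Bool.rec none (accumF K S l ⟨addQF (addPsF m.w (nthF S m.x).out a.es) m.x (Nat.mul 3 m.w),
          Nat.add a.cp (Nat.mul m.w (nthF S m.x).off), a.cq⟩) (nthF S m.x).done)
          (accumF K S l ⟨addPF (addQsF m.w (nthF S m.x).out a.es) m.x (Nat.mul 3 m.w), a.cp,
          Nat.add a.cq (Nat.mul m.w (nthF S m.x).off)⟩) m.s) (Nat.blt m.x K) = accum K S (m :: l) a
    rw [ih, ih]
    simp only [accum, addQF_eq, addPF_eq, addQsF_eq, addPsF_eq, nthF_eq]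
    cases Nat.blt m.x K <;> cases m.s <;> cases (nth S m.x).done <;> rfl

theorem repF_eq (S : List Row) (v : Nat) : repF S v = rep S v := by
  unfold repF rep
  simp only [nthF_eq]

theorem mergeF_eq (S : List Row) (l a : List Ent) : mergeF S l a = merge S l a := by
  induction l generalizing a with
  | nil => rfl
  | cons e l ih =>
    show mergeF S l (addQF (addPF a (repF S e.v) e.p) (repF S e.v) e.q) =
      merge S l (addQ (addP a (rep S e.v) e.p) (rep S e.v) e.q)
    rw [ih, addQF_eq, addPF_eq, repF_eq]

theorem evalEF_eq (S : List Row) (l : List Ent) (P Q : Nat) : evalEF S l P Q = evalE S l P Q := by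
  induction l generalizing P Q with
  | nil => rfl
  | cons e l ih =>
    show Bool.rec (Bool.rec (evalEF S l (Nat.add P (Nat.mul (Nat.sub e.p e.q) (nthF S e.v).hi)) Q) false
      (Nat.beq (nthF S e.v).hi 0)) (evalEF S l P (Nat.add Q (Nat.mul (Nat.sub e.q e.p) (nthF S e.v).lo)))
      (Nat.ble e.p e.q) = evalE S (e :: l) P Q
    rw [ih, ih]
    simp only [evalE, nthF_eq]
    cases Nat.ble e.p e.q <;> cases Nat.beq (nth S e.v).hi 0 <;> rfl

theorem xlF_eq (S : List Row) (ms : List Mul) : xlF S ms = xl S ms := by
  unfold xlF xl
  rw [accumF_eq]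
  cases accum S.length S ms ⟨[], 0, 0⟩ with
  | none => rfl
  | some a => simp only [evalEF_eq, mergeF_eq]

theorem lineAtF_eq (l : List Line) (n : Nat) : lineAtF l n = lineAt l n := by
  induction l generalizing n with
  | nil => rfl
  | cons r l ih =>
    cases n with
    | zero => rfl
    | succ n => exact ih n

theorem blkAtF_eq (l : List Blk) (n : Nat) : blkAtF l n = blkAt l n := by
  induction l generalizing n with
  | nil => rfl
  | cons r l ih =>
    cases n with
    | zero => rfl
    | succ n => exact ih n

theorem iplAtF_eq (l : List IpL) (n : Nat) : iplAtF l n = iplAt l n := by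
  induction l generalizing n with
  | nil => rfl
  | cons r l ih =>
    cases n with
    | zero => rfl
    | succ n => exact ih n

theorem rowExF_eq (S : List Row) (a g : Nat) (l : List Row) (i : Nat) :
    rowExF S a g l i = rowEx S a g l i := by
  induction l generalizing i with
  | nil => rfl
  | cons r l ih =>
    show Bool.rec (rowExF S a g l (Nat.succ i)) (Bool.rec false (rowExF S a g l (Nat.succ i)) (exF S a i))
      (Nat.beq r.gr g) = rowEx S a g (r :: l) i
    rw [ih, exF_eq]
    simp only [rowEx]
    cases Nat.beq r.gr g <;> cases ex S a i <;> rfl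

theorem newPairF_eq (S : List Row) (a : Nat) : newPairF S a = newPair S a := by
  unfold newPairF newPair
  simp only [updF_eq, nthF_eq]

theorem newRealF_eq (S : List Row) (a : Nat) : newRealF S a = newReal S a := by
  unfold newRealF newReal
  simp only [updF_eq, nthF_eq]

theorem checkF_eq (C : Ctx) (c : Cert) (S : List Row) : checkF C c S = check C c S := by
  induction c generalizing S <;>
    simp only [checkF, check, nthF_eq, updF_eq, cntF_eq, iplF_eq, ipExF_eq,
      setBitsF_eq, outsF_eq, allDoneF_eq, setDoneF_eq, xt1F_eq, blkSumF_eq, blkExF_eq, blkSetF_eq,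
      decLF_eq, xlF_eq, lineAtF_eq, blkAtF_eq, iplAtF_eq, rowExF_eq, newPairF_eq, newRealF_eq, *]

theorem Ok_of {n : ℕ} {X : XData} {td : ℕ → Bool} {C : Ctx} (h : OkF n X td C) : Ok n X td C := by
  obtain ⟨k, m, hk⟩ := h
  exact ⟨k, m, by unfold run; rw [← checkF_eq]; exact hk⟩

end Pool.Agent.Helper363.Nita.K2
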