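import Pool.Agent.Helper363.Nita.Chain
import Pool.Agent.Helper363.Nita.K2.SatDef

namespace Pool.Agent.Helper363.Nita.K2

variable {G : NG} {n : ℕ}

/-- the levels below `n` are invisible -/
noncomputable def world0 (A : Arr G n) : World G where
  nt := n + 1
  L := fun y => ∃ a b : ℕ, a + b < n ∧ y = A.V a b
  W := fun i => if i ≤ n then A.s ((i : ℤ) - 1) else 0
  W_nonneg := by
    intro i
    split_ifs
    · exact A.s_nonneg _
    · exact le_refl _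
  W_L := by
    intro i z hz
    split_ifs at hz with hi
    · by_cases h : 0 ≤ (n : ℤ) - 1 - ((i : ℤ) - 1) ∧ 0 ≤ (i : ℤ) - 1 ∧
          (n : ℤ) - 1 - ((i : ℤ) - 1) + ((i : ℤ) - 1) ≤ n
      · obtain ⟨a', b', h1, h2, h3, h4⟩ := A.E_ex h
        refine ⟨a', b', by omega, ?_⟩
        unfold Arr.s at hz
        rw [h4] at hz
        by_contra hne
        exact hz (by simp [bv, Finsupp.single_apply, Ne.symm hne])
      · unfold Arr.s at hz
        rw [A.E_out h] at hz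
        simp at hz
    · simp at hz
  W_zero := by
    intro i hi
    rw [if_neg (by omega)]
  L_bar := by
    rintro z ⟨a, b, h, rfl⟩
    exact ⟨b, a, by omega, A.bar_V a b h.le⟩

/-- the interpretation of the nodes -/
def phi1 (A : Arr G n) (x : ℕ → G.B) (i : ℕ) : G.B :=
  if i ≤ n then A.V (n - i) i else x (i - (n + 1))

/-- the numbers of the nodes `z j w` -/
def xz {B : Type} (a m : ℕ) (z : ℤ → ℕ → B) (i : ℕ) : B := z ((a + i / m : ℕ) : ℤ) (i % m)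

/-- meaning of the data of the nodes outside the array -/
structure XSat (A : Arr G n) (x : ℕ → G.B) (X : XData) : Prop where
  inj : ∀ i < X.nodes.length, ∀ j < X.nodes.length, x i = x j → i = j
  notE : ∀ i < X.nodes.length, ∀ a b, A.E a b (x i) = 0
  node : ∀ (i : ℕ) (r : XNode), X.nodes[i]? = some r →
    r.cj < X.nodes.length ∧ G.bar (x i) = x r.cj ∧ r.gr < 3 ∧ G.gr (x i) = (r.gr : ZMod 3) ∧
    (r.hi ≠ 0 → G.d (x i) ≤ (r.hi : ℤ)) ∧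
    (∀ k : ℕ, k ≤ n + 1 → A.u (k : ℤ) (x i) = if memN k r.mu = true then 1 else 0) ∧
    (∀ k ∈ r.mu, k ≤ n + 1) ∧ r.mu.Nodup
  arr : ∀ q ∈ X.arrows, q.1 < X.nodes.length ∧ q.2 < X.nodes.length ∧
    1 ≤ G.T (bv (x q.1)) (x q.2)

/-- meaning of the conditions -/
structure CSat (A : Arr G n) (x : ℕ → G.B) (K : ℕ) (C : Ctx) : Prop where
  nt : C.nt = n + 1
  lines : ∀ l ∈ C.lines, (∀ c ∈ l.nodes, n + 1 ≤ c ∧ c < n + 1 + K) ∧
    (l.lo : ℤ) ≤ ip (G.T (rv (phi1 A x) l.nodes)) (G.T (rv (phi1 A x) l.nodes)) ∧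
    (l.hi ≠ 0 → ip (G.T (rv (phi1 A x) l.nodes)) (G.T (rv (phi1 A x) l.nodes)) ≤ (l.hi : ℤ))
  blks : ∀ b ∈ C.blks, (∀ c ∈ b.src, c < n + 1 + K) ∧ (∀ c ∈ b.tgt, c < n + 1 + K) ∧
    (b.lo : ℤ) ≤ ip (G.T (rv (phi1 A x) b.src)) (rv (phi1 A x) b.tgt) ∧
    (b.hi ≠ 0 → ip (G.T (rv (phi1 A x) b.src)) (rv (phi1 A x) b.tgt) < (b.hi : ℤ))
  ipls : ∀ b ∈ C.ipls, (∀ c ∈ b.src, n + 1 ≤ c ∧ c < n + 1 + K) ∧
    (∀ c ∈ b.tgt, n + 1 ≤ c ∧ c < n + 1 + K) ∧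
    (b.hi ≠ 0 → ip (G.T (rv (phi1 A x) b.src)) (G.T (rv (phi1 A x) b.tgt)) < (b.hi : ℤ))

end Pool.Agent.Helper363.Nita.K2
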