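import Pool.Agent.Helper363.Nita.K2.FF
import Pool.Agent.Helper363.Nita.K2.Fast
import Pool.Agent.Helper363.Nita.K2.CeA
import Pool.Agent.Helper363.Nita.K2.CeB
import Pool.Agent.Helper363.Nita.K2.CeC
import Pool.Agent.Helper363.Nita.K2.CeD
import Pool.Agent.Helper363.Nita.K2.CeE
import Pool.Agent.Helper363.Nita.K2.CeF
import Pool.Agent.Helper363.Nita.K2.CeG
import Pool.Agent.Helper363.Nita.K2.CeH
import Pool.Agent.Helper363.Nita.K2.CeI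
import Pool.Agent.Helper363.Nita.K2.CeJ
import Pool.Agent.Helper363.Nita.K2.CeK
import Pool.Agent.Helper363.Nita.K2.CeL
import Pool.Agent.Helper363.Nita.K2.CeM
import Pool.Agent.Helper363.Nita.K2.CeN
import Pool.Agent.Helper363.Nita.K2.CeO
import Pool.Agent.Helper363.Nita.K2.CeP
import Pool.Agent.Helper363.Nita.Range

namespace Pool.Agent.Helper363.Nita.K2

theorem two_cases {P : ℕ → Prop} (h0 : P 0) (h1 : P 1) : ∀ w < 2, P w := by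
  intro w hw
  interval_cases w
  · exact h0
  · exact h1

theorem bool_cases {P : Bool → Prop} (h0 : P false) (h1 : P true) : ∀ w, P w := by
  intro w
  cases w
  · exact h0
  · exact h1

theorem c_E_4_8_0_0 : CE 4 8 false false := Ok_of cf_E_4_8_0_0
theorem c_E_4_8_0_1 : CE 4 8 false true := Ok_of cf_E_4_8_0_1
theorem c_E_4_8_1_0 : CE 4 8 true false := Ok_of cf_E_4_8_1_0
theorem c_E_4_8_1_1 : CE 4 8 true true := Ok_of cf_E_4_8_1_1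
theorem c_E_4_9_0_0 : CE 4 9 false false := Ok_of cf_E_4_9_0_0
theorem c_E_4_9_0_1 : CE 4 9 false true := Ok_of cf_E_4_9_0_1
theorem c_E_4_9_1_0 : CE 4 9 true false := Ok_of cf_E_4_9_1_0
theorem c_E_4_9_1_1 : CE 4 9 true true := Ok_of cf_E_4_9_1_1
theorem c_E_5_8_0_0 : CE 5 8 false false := Ok_of cf_E_5_8_0_0
theorem c_E_5_8_0_1 : CE 5 8 false true := Ok_of cf_E_5_8_0_1
theorem c_E_5_8_1_0 : CE 5 8 true false := Ok_of cf_E_5_8_1_0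
theorem c_E_5_8_1_1 : CE 5 8 true true := Ok_of cf_E_5_8_1_1
theorem c_E_5_9_0_0 : CE 5 9 false false := Ok_of cf_E_5_9_0_0
theorem c_E_5_9_0_1 : CE 5 9 false true := Ok_of cf_E_5_9_0_1
theorem c_E_5_9_1_0 : CE 5 9 true false := Ok_of cf_E_5_9_1_0
theorem c_E_5_9_1_1 : CE 5 9 true true := Ok_of cf_E_5_9_1_1
theorem c_E_6_8_0_0 : CE 6 8 false false := Ok_of cf_E_6_8_0_0
theorem c_E_6_8_0_1 : CE 6 8 false true := Ok_of cf_E_6_8_0_1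
theorem c_E_6_8_1_0 : CE 6 8 true false := Ok_of cf_E_6_8_1_0
theorem c_E_6_8_1_1 : CE 6 8 true true := Ok_of cf_E_6_8_1_1
theorem c_G_4_0 : CG 4 false := Ok_of cf_G_4_0
theorem c_G_4_1 : CG 4 true := Ok_of cf_G_4_1
theorem c_G_5_0 : CG 5 false := Ok_of cf_G_5_0
theorem c_G_5_1 : CG 5 true := Ok_of cf_G_5_1
theorem c_G_6_0 : CG 6 false := Ok_of cf_G_6_0
theorem c_G_6_1 : CG 6 true := Ok_of cf_G_6_1
theorem c_T_4_13_0 : C3 13 false := Ok_of cf_T_4_13_0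
theorem c_T_4_13_1 : C3 13 true := Ok_of cf_T_4_13_1
theorem c_T_4_14_0 : C3 14 false := Ok_of cf_T_4_14_0
theorem c_T_4_14_1 : C3 14 true := Ok_of cf_T_4_14_1
theorem c_Y_4a_0_0_0_0 : CY 4 0 1 false false [(1, 0), (4, 0)] [(3, 0), (0, 0)] := Ok_of cf_Y_4a_0_0_0_0
theorem c_Y_4a_0_0_0_1 : CY 4 0 1 false false [(1, 0), (4, 0)] [(3, 0), (0, 1)] := Ok_of cf_Y_4a_0_0_0_1
theorem c_Y_4a_0_0_1_0 : CY 4 0 1 false false [(1, 0), (4, 0)] [(3, 1), (0, 0)] := Ok_of cf_Y_4a_0_0_1_0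
theorem c_Y_4a_0_0_1_1 : CY 4 0 1 false false [(1, 0), (4, 0)] [(3, 1), (0, 1)] := Ok_of cf_Y_4a_0_0_1_1
theorem c_Y_4a_0_1_0_0 : CY 4 0 1 false false [(1, 0), (4, 1)] [(3, 0), (0, 0)] := Ok_of cf_Y_4a_0_1_0_0
theorem c_Y_4a_0_1_0_1 : CY 4 0 1 false false [(1, 0), (4, 1)] [(3, 0), (0, 1)] := Ok_of cf_Y_4a_0_1_0_1
theorem c_Y_4a_0_1_1_0 : CY 4 0 1 false false [(1, 0), (4, 1)] [(3, 1), (0, 0)] := Ok_of cf_Y_4a_0_1_1_0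
theorem c_Y_4a_0_1_1_1 : CY 4 0 1 false false [(1, 0), (4, 1)] [(3, 1), (0, 1)] := Ok_of cf_Y_4a_0_1_1_1
theorem c_Y_4a_1_0_0_0 : CY 4 0 1 true false [(1, 0), (4, 0)] [(3, 0), (0, 0)] := Ok_of cf_Y_4a_1_0_0_0
theorem c_Y_4a_1_0_0_1 : CY 4 0 1 true false [(1, 0), (4, 0)] [(3, 0), (0, 1)] := Ok_of cf_Y_4a_1_0_0_1
theorem c_Y_4a_1_0_1_0 : CY 4 0 1 true false [(1, 0), (4, 0)] [(3, 1), (0, 0)] := Ok_of cf_Y_4a_1_0_1_0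
theorem c_Y_4a_1_0_1_1 : CY 4 0 1 true false [(1, 0), (4, 0)] [(3, 1), (0, 1)] := Ok_of cf_Y_4a_1_0_1_1
theorem c_Y_4a_1_1_0_0 : CY 4 0 1 true false [(1, 0), (4, 1)] [(3, 0), (0, 0)] := Ok_of cf_Y_4a_1_1_0_0
theorem c_Y_4a_1_1_0_1 : CY 4 0 1 true false [(1, 0), (4, 1)] [(3, 0), (0, 1)] := Ok_of cf_Y_4a_1_1_0_1
theorem c_Y_4a_1_1_1_0 : CY 4 0 1 true false [(1, 0), (4, 1)] [(3, 1), (0, 0)] := Ok_of cf_Y_4a_1_1_1_0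
theorem c_Y_4a_1_1_1_1 : CY 4 0 1 true false [(1, 0), (4, 1)] [(3, 1), (0, 1)] := Ok_of cf_Y_4a_1_1_1_1
theorem c_Y_4b_0_0_0_0 : CY 4 0 1 false true [(1, 0), (4, 0)] [(3, 0), (0, 0)] := Ok_of cf_Y_4b_0_0_0_0
theorem c_Y_4b_0_0_0_1 : CY 4 0 1 false true [(1, 1), (4, 0)] [(3, 0), (0, 0)] := Ok_of cf_Y_4b_0_0_0_1
theorem c_Y_4b_0_0_1_0 : CY 4 0 1 false true [(1, 0), (4, 0)] [(3, 1), (0, 0)] := Ok_of cf_Y_4b_0_0_1_0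
theorem c_Y_4b_0_0_1_1 : CY 4 0 1 false true [(1, 1), (4, 0)] [(3, 1), (0, 0)] := Ok_of cf_Y_4b_0_0_1_1
theorem c_Y_4b_0_1_0_0 : CY 4 0 1 false true [(1, 0), (4, 1)] [(3, 0), (0, 0)] := Ok_of cf_Y_4b_0_1_0_0
theorem c_Y_4b_0_1_0_1 : CY 4 0 1 false true [(1, 1), (4, 1)] [(3, 0), (0, 0)] := Ok_of cf_Y_4b_0_1_0_1
theorem c_Y_4b_0_1_1_0 : CY 4 0 1 false true [(1, 0), (4, 1)] [(3, 1), (0, 0)] := Ok_of cf_Y_4b_0_1_1_0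
theorem c_Y_4b_0_1_1_1 : CY 4 0 1 false true [(1, 1), (4, 1)] [(3, 1), (0, 0)] := Ok_of cf_Y_4b_0_1_1_1
theorem c_Y_4b_1_0_0_0 : CY 4 0 1 true true [(1, 0), (4, 0)] [(3, 0), (0, 0)] := Ok_of cf_Y_4b_1_0_0_0
theorem c_Y_4b_1_0_0_1 : CY 4 0 1 true true [(1, 1), (4, 0)] [(3, 0), (0, 0)] := Ok_of cf_Y_4b_1_0_0_1
theorem c_Y_4b_1_0_1_0 : CY 4 0 1 true true [(1, 0), (4, 0)] [(3, 1), (0, 0)] := Ok_of cf_Y_4b_1_0_1_0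
theorem c_Y_4b_1_0_1_1 : CY 4 0 1 true true [(1, 1), (4, 0)] [(3, 1), (0, 0)] := Ok_of cf_Y_4b_1_0_1_1
theorem c_Y_4b_1_1_0_0 : CY 4 0 1 true true [(1, 0), (4, 1)] [(3, 0), (0, 0)] := Ok_of cf_Y_4b_1_1_0_0
theorem c_Y_4b_1_1_0_1 : CY 4 0 1 true true [(1, 1), (4, 1)] [(3, 0), (0, 0)] := Ok_of cf_Y_4b_1_1_0_1
theorem c_Y_4b_1_1_1_0 : CY 4 0 1 true true [(1, 0), (4, 1)] [(3, 1), (0, 0)] := Ok_of cf_Y_4b_1_1_1_0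
theorem c_Y_4b_1_1_1_1 : CY 4 0 1 true true [(1, 1), (4, 1)] [(3, 1), (0, 0)] := Ok_of cf_Y_4b_1_1_1_1
theorem c_Y_5_0_0_0 : CY 5 1 1 false false [(1, 0), (4, 0)] [(3, 0)] := Ok_of cf_Y_5_0_0_0
theorem c_Y_5_0_0_1 : CY 5 1 1 false false [(1, 0), (4, 0)] [(3, 1)] := Ok_of cf_Y_5_0_0_1
theorem c_Y_5_0_1_0 : CY 5 1 1 false false [(1, 0), (4, 1)] [(3, 0)] := Ok_of cf_Y_5_0_1_0
theorem c_Y_5_0_1_1 : CY 5 1 1 false false [(1, 0), (4, 1)] [(3, 1)] := Ok_of cf_Y_5_0_1_1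
theorem c_Y_5_1_0_0 : CY 5 1 1 true false [(1, 0), (4, 0)] [(3, 0)] := Ok_of cf_Y_5_1_0_0
theorem c_Y_5_1_0_1 : CY 5 1 1 true false [(1, 0), (4, 0)] [(3, 1)] := Ok_of cf_Y_5_1_0_1
theorem c_Y_5_1_1_0 : CY 5 1 1 true false [(1, 0), (4, 1)] [(3, 0)] := Ok_of cf_Y_5_1_1_0
theorem c_Y_5_1_1_1 : CY 5 1 1 true false [(1, 0), (4, 1)] [(3, 1)] := Ok_of cf_Y_5_1_1_1
theorem c_Y_6_0_0_0_0 : CY 6 1 2 false false [(2, 0), (5, 0)] [(4, 0), (1, 0)] := Ok_of cf_Y_6_0_0_0_0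
theorem c_Y_6_0_0_0_1 : CY 6 1 2 false false [(2, 0), (5, 0)] [(4, 0), (1, 1)] := Ok_of cf_Y_6_0_0_0_1
theorem c_Y_6_0_0_1_0 : CY 6 1 2 false false [(2, 0), (5, 0)] [(4, 1), (1, 0)] := Ok_of cf_Y_6_0_0_1_0
theorem c_Y_6_0_0_1_1 : CY 6 1 2 false false [(2, 0), (5, 0)] [(4, 1), (1, 1)] := Ok_of cf_Y_6_0_0_1_1
theorem c_Y_6_0_1_0_0 : CY 6 1 2 false false [(2, 0), (5, 1)] [(4, 0), (1, 0)] := Ok_of cf_Y_6_0_1_0_0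
theorem c_Y_6_0_1_0_1 : CY 6 1 2 false false [(2, 0), (5, 1)] [(4, 0), (1, 1)] := Ok_of cf_Y_6_0_1_0_1
theorem c_Y_6_0_1_1_0 : CY 6 1 2 false false [(2, 0), (5, 1)] [(4, 1), (1, 0)] := Ok_of cf_Y_6_0_1_1_0
theorem c_Y_6_0_1_1_1 : CY 6 1 2 false false [(2, 0), (5, 1)] [(4, 1), (1, 1)] := Ok_of cf_Y_6_0_1_1_1
theorem c_Y_6_1_0_0_0 : CY 6 1 2 true false [(2, 0), (5, 0)] [(4, 0), (1, 0)] := Ok_of cf_Y_6_1_0_0_0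
theorem c_Y_6_1_0_0_1 : CY 6 1 2 true false [(2, 0), (5, 0)] [(4, 0), (1, 1)] := Ok_of cf_Y_6_1_0_0_1
theorem c_Y_6_1_0_1_0 : CY 6 1 2 true false [(2, 0), (5, 0)] [(4, 1), (1, 0)] := Ok_of cf_Y_6_1_0_1_0
theorem c_Y_6_1_0_1_1 : CY 6 1 2 true false [(2, 0), (5, 0)] [(4, 1), (1, 1)] := Ok_of cf_Y_6_1_0_1_1
theorem c_Y_6_1_1_0_0 : CY 6 1 2 true false [(2, 0), (5, 1)] [(4, 0), (1, 0)] := Ok_of cf_Y_6_1_1_0_0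
theorem c_Y_6_1_1_0_1 : CY 6 1 2 true false [(2, 0), (5, 1)] [(4, 0), (1, 1)] := Ok_of cf_Y_6_1_1_0_1
theorem c_Y_6_1_1_1_0 : CY 6 1 2 true false [(2, 0), (5, 1)] [(4, 1), (1, 0)] := Ok_of cf_Y_6_1_1_1_0
theorem c_Y_6_1_1_1_1 : CY 6 1 2 true false [(2, 0), (5, 1)] [(4, 1), (1, 1)] := Ok_of cf_Y_6_1_1_1_1
theorem c_Z_5_0_0 : CZ false false := Ok_of cf_Z_5_0_0
theorem c_Z_5_0_1 : CZ false true := Ok_of cf_Z_5_0_1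
theorem c_Z_5_1_0 : CZ true false := Ok_of cf_Z_5_1_0
theorem c_Z_5_1_1 : CZ true true := Ok_of cf_Z_5_1_1

theorem false_six {G : NG} {n : ℕ} (A : Arr G n) (hn : n = 6) (hp : A.p ≠ 1) : False :=
  contra_six hn hp (bool_cases c_G_6_0 c_G_6_1)
    (bool_cases (two_cases (two_cases (two_cases c_Y_6_0_0_0_0 c_Y_6_0_0_0_1) (two_cases c_Y_6_0_0_1_0 c_Y_6_0_0_1_1)) (two_cases (two_cases c_Y_6_0_1_0_0 c_Y_6_0_1_0_1) (two_cases c_Y_6_0_1_1_0 c_Y_6_0_1_1_1)))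
      (two_cases (two_cases (two_cases c_Y_6_1_0_0_0 c_Y_6_1_0_0_1) (two_cases c_Y_6_1_0_1_0 c_Y_6_1_0_1_1)) (two_cases (two_cases c_Y_6_1_1_0_0 c_Y_6_1_1_0_1) (two_cases c_Y_6_1_1_1_0 c_Y_6_1_1_1_1))))
    (bool_cases (bool_cases c_E_6_8_0_0 c_E_6_8_0_1) (bool_cases c_E_6_8_1_0 c_E_6_8_1_1))

theorem false_five {G : NG} {n : ℕ} (A : Arr G n) (hn : n = 5) (hp : A.p ≠ 1) : False :=
  contra_five hn hp (bool_cases c_G_5_0 c_G_5_1)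
    (bool_cases (bool_cases c_Z_5_0_0 c_Z_5_0_1) (bool_cases c_Z_5_1_0 c_Z_5_1_1))
    (bool_cases (two_cases (two_cases c_Y_5_0_0_0 c_Y_5_0_0_1) (two_cases c_Y_5_0_1_0 c_Y_5_0_1_1))
      (two_cases (two_cases c_Y_5_1_0_0 c_Y_5_1_0_1) (two_cases c_Y_5_1_1_0 c_Y_5_1_1_1)))
    (bool_cases (bool_cases ⟨c_E_5_8_0_0, c_E_5_9_0_0⟩ ⟨c_E_5_8_0_1, c_E_5_9_0_1⟩)
      (bool_cases ⟨c_E_5_8_1_0, c_E_5_9_1_0⟩ ⟨c_E_5_8_1_1, c_E_5_9_1_1⟩))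

theorem false_four {G : NG} {n : ℕ} (A : Arr G n) (hn : n = 4) (hp : A.p ≠ 1) : False :=
  contra_four hn hp
    (bool_cases ⟨c_T_4_13_0, c_T_4_14_0⟩ ⟨c_T_4_13_1, c_T_4_14_1⟩) (bool_cases c_G_4_0 c_G_4_1)
    (bool_cases (two_cases (two_cases (two_cases ⟨c_Y_4a_0_0_0_0, c_Y_4b_0_0_0_0⟩
        ⟨c_Y_4a_0_0_0_1, c_Y_4b_0_0_0_1⟩)
        (two_cases ⟨c_Y_4a_0_0_1_0, c_Y_4b_0_0_1_0⟩
        ⟨c_Y_4a_0_0_1_1, c_Y_4b_0_0_1_1⟩))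
        (two_cases (two_cases ⟨c_Y_4a_0_1_0_0, c_Y_4b_0_1_0_0⟩
        ⟨c_Y_4a_0_1_0_1, c_Y_4b_0_1_0_1⟩)
        (two_cases ⟨c_Y_4a_0_1_1_0, c_Y_4b_0_1_1_0⟩
        ⟨c_Y_4a_0_1_1_1, c_Y_4b_0_1_1_1⟩)))
      (two_cases (two_cases (two_cases ⟨c_Y_4a_1_0_0_0, c_Y_4b_1_0_0_0⟩
        ⟨c_Y_4a_1_0_0_1, c_Y_4b_1_0_0_1⟩)
        (two_cases ⟨c_Y_4a_1_0_1_0, c_Y_4b_1_0_1_0⟩
        ⟨c_Y_4a_1_0_1_1, c_Y_4b_1_0_1_1⟩))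
        (two_cases (two_cases ⟨c_Y_4a_1_1_0_0, c_Y_4b_1_1_0_0⟩
        ⟨c_Y_4a_1_1_0_1, c_Y_4b_1_1_0_1⟩)
        (two_cases ⟨c_Y_4a_1_1_1_0, c_Y_4b_1_1_1_0⟩
        ⟨c_Y_4a_1_1_1_1, c_Y_4b_1_1_1_1⟩))))
    (bool_cases (bool_cases ⟨c_E_4_8_0_0, c_E_4_9_0_0⟩ ⟨c_E_4_8_0_1, c_E_4_9_0_1⟩)
      (bool_cases ⟨c_E_4_8_1_0, c_E_4_9_1_0⟩ ⟨c_E_4_8_1_1, c_E_4_9_1_1⟩))

end Pool.Agent.Helper363.Nita.K2

namespace Pool.Agent.Helper363.Nita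

/-- arrays of depth `4 ≤ n ≤ 42` can be extended -/
theorem extend_all {G : NG} {n : ℕ} (h4 : 4 ≤ n) (h42 : n ≤ 42) (A : Arr G n) :
    ∃ A' : Arr G (n + 1), ∀ a b : ℕ, a + b ≤ n → A'.V a b = A.V a b := by
  by_cases h7 : 7 ≤ n
  · exact extend_range h7 h42 A
  · by_cases h6 : n = 6
    · have hG := good_of_five A (by omega)
      by_cases hp : A.p = 1
      · exact A.extend hG hp
      · exact (K2.false_six A h6 hp).elim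
    · by_cases h5 : n = 5
      · have hG := good_of_five A (by omega)
        by_cases hp : A.p = 1
        · exact A.extend hG hp
        · exact (K2.false_five A h5 hp).elim
      · have h4' : n = 4 := by omega
        have hG := A.good_four h4'
        by_cases hp : A.p = 1
        · exact A.extend hG hp
        · exact (K2.false_four A h4' hp).elim

end Pool.Agent.Helper363.Nita
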