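import Pool.Agent.Helper363.Nita.K2.InitDef

namespace Pool.Agent.Helper363.Nita.K2

variable {G : NG} {n : ℕ}

theorem bs_beq_ne {x y : ℕ} (h : x ≠ y) : Nat.beq x y = false := by
  rw [Bool.eq_false_iff]; intro hb; exact h (Nat.eq_of_beq_eq_true hb)

theorem bs_cnt_cons (x y : ℕ) (l : List ℕ) : cnt x (y :: l) = (if x = y then 1 else 0) + cnt x l := by
  by_cases h : x = y
  · subst h
    have h1 : Nat.beq x x = true := Nat.beq_refl x
    rw [if_pos rfl]
    show (bif Nat.beq x x then Nat.succ (cnt x l) else cnt x l) = _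
    rw [h1]; simp only [cond_true]; omega
  · rw [if_neg h]
    show (bif Nat.beq x y then Nat.succ (cnt x l) else cnt x l) = _
    rw [bs_beq_ne h]; simp

theorem bs_cnt_append (x : ℕ) (a b : List ℕ) : cnt x (a ++ b) = cnt x a + cnt x b := by
  induction a with
  | nil => simp [cnt]
  | cons y l ih => rw [List.cons_append, bs_cnt_cons, bs_cnt_cons, ih]; omega

theorem bs_cnt_zero (x : ℕ) (l : List ℕ) (h : ∀ y ∈ l, x ≠ y) : cnt x l = 0 := by
  induction l with
  | nil => rfl
  | cons y l ih =>
    rw [bs_cnt_cons, if_neg (h y (by simp)), ih (fun z hz => h z (by simp [hz]))]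

theorem bs_cnt_pos (x : ℕ) (l : List ℕ) (h : cnt x l ≠ 0) : x ∈ l := by
  by_contra hx
  exact h (bs_cnt_zero x l (fun y hy hxy => hx (hxy ▸ hy)))

theorem bs_memN (k : ℕ) (l : List ℕ) : memN k l = true ↔ k ∈ l := by
  induction l with
  | nil => simp [memN]
  | cons y l ih =>
    show (Nat.beq k y || memN k l) = true ↔ _
    rw [Bool.or_eq_true, ih, List.mem_cons]
    constructor
    · rintro (h | h)
      · exact Or.inl (Nat.eq_of_beq_eq_true h)
      · exact Or.inr h
    · rintro (h | h)
      · subst h; exact Or.inl (Nat.beq_refl k)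
      · exact Or.inr h

theorem bs_cnt_nodup (x : ℕ) (l : List ℕ) (h : l.Nodup) : cnt x l = if memN x l = true then 1 else 0 := by
  induction l with
  | nil => simp [cnt, memN]
  | cons y l ih =>
    rw [List.nodup_cons] at h
    rw [bs_cnt_cons]
    by_cases hxy : x = y
    · subst hxy
      rw [if_pos rfl, bs_cnt_zero x l (fun z hz hxz => h.1 (hxz ▸ hz))]
      rw [if_pos ((bs_memN x (x :: l)).mpr (by simp))]
    · rw [if_neg hxy, ih h.2]
      have : (memN x l = true) ↔ (memN x (y :: l) = true) := by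
        rw [bs_memN, bs_memN, List.mem_cons]; simp [hxy]
      by_cases hm : memN x l = true
      · rw [if_pos hm, if_pos (this.mp hm)]
      · rw [if_neg hm, if_neg (fun h' => hm (this.mpr h'))]

theorem bs_rv_append {B : Type} (φ : ℕ → B) (a b : List ℕ) : rv φ (a ++ b) = rv φ a + rv φ b := by
  induction a with
  | nil => simp [rv]
  | cons y l ih => rw [List.cons_append]; simp only [rv]; rw [ih, add_assoc]

theorem bs_rv_apply {B : Type} (φ : ℕ → B) (K : ℕ) (hinj : ∀ i < K, ∀ j < K, φ i = φ j → i = j)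
    (l : List ℕ) (hl : ∀ j ∈ l, j < K) (i : ℕ) (hi : i < K) : rv φ l (φ i) = (cnt i l : ℤ) := by
  classical
  induction l with
  | nil => simp [rv, cnt]
  | cons y l ih =>
    rw [bs_cnt_cons]
    simp only [rv, Finsupp.add_apply]
    rw [ih (fun j hj => hl j (by simp [hj]))]
    push_cast
    congr 1
    by_cases h : i = y
    · subst h; simp [bv]
    · have h2 : φ y ≠ φ i := fun h' => h (hinj y (hl y (by simp)) i hi h').symm
      simp [bv, Finsupp.single_apply, h2, h]

theorem bs_rv_zero {B : Type} (φ : ℕ → B) (l : List ℕ) (y : B) (h : ∀ j ∈ l, φ j ≠ y) : rv φ l y = 0 := by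
  classical
  induction l with
  | nil => simp [rv]
  | cons j l ih =>
    simp only [rv, Finsupp.add_apply]
    rw [ih (fun k hk => h k (by simp [hk]))]
    simp [bv, Finsupp.single_apply, h j (by simp)]

theorem bs_occ_mem (k : ℕ) (l : List XNode) : ∀ (s j : ℕ), j ∈ occ k l s →
    ∃ i r, l[i]? = some r ∧ j = s + i ∧ memN k r.mu = true := by
  induction l with
  | nil => intro s j h; simp [occ] at h
  | cons x l ih =>
    intro s j h
    have h' : j ∈ (bif memN k x.mu then s :: occ k l (Nat.succ s) else occ k l (Nat.succ s)) := h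
    cases hm : memN k x.mu with
    | true =>
      rw [hm, cond_true, List.mem_cons] at h'
      rcases h' with h' | h'
      · exact ⟨0, x, by simp, by omega, hm⟩
      · obtain ⟨i, r, h1, h2, h3⟩ := ih _ _ h'
        exact ⟨i + 1, r, by simpa using h1, by omega, h3⟩
    | false =>
      rw [hm, cond_false] at h'
      obtain ⟨i, r, h1, h2, h3⟩ := ih _ _ h'
      exact ⟨i + 1, r, by simpa using h1, by omega, h3⟩

theorem bs_occ_lt (k : ℕ) (l : List XNode) (s j : ℕ) (hj : j < s) : cnt j (occ k l s) = 0 := by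
  apply bs_cnt_zero
  intro y hy h
  obtain ⟨i, r, _, h2, _⟩ := bs_occ_mem k l s y hy
  omega

theorem bs_occ_cnt (k : ℕ) (l : List XNode) : ∀ (s i : ℕ) (r : XNode), l[i]? = some r →
    cnt (s + i) (occ k l s) = if memN k r.mu = true then 1 else 0 := by
  induction l with
  | nil => intro s i r h; simp at h
  | cons x l ih =>
    intro s i r h
    have e : occ k (x :: l) s = (bif memN k x.mu then s :: occ k l (Nat.succ s) else occ k l (Nat.succ s)) := rfl
    rw [e]
    cases i with
    | zero =>
      have hx : x = r := by simpa using h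
      subst hx
      cases hm : memN k x.mu with
      | true =>
        rw [cond_true, bs_cnt_cons, bs_occ_lt k l _ _ (by omega)]
        simp
      | false =>
        rw [cond_false, bs_occ_lt k l _ _ (by omega)]
        simp
    | succ i =>
      have h' : l[i]? = some r := by simpa using h
      have h2 := ih (s + 1) i r h'
      have e2 : s + 1 + i = s + (i + 1) := by omega
      rw [e2] at h2
      cases hm : memN k x.mu with
      | true =>
        rw [cond_true, bs_cnt_cons, if_neg (by omega), zero_add]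
        exact h2
      | false =>
        rw [cond_false]
        exact h2

theorem bs_tgts_mem (s i : ℕ) (l : List (ℕ × ℕ)) (j : ℕ) (h : j ∈ tgts s i l) :
    ∃ q ∈ l, q.1 = i ∧ j = s + q.2 := by
  induction l with
  | nil => simp [tgts] at h
  | cons q l ih =>
    have h' : j ∈ (bif Nat.beq q.1 i then Nat.add s q.2 :: tgts s i l else tgts s i l) := h
    cases hb : Nat.beq q.1 i with
    | true =>
      rw [hb, cond_true, List.mem_cons] at h'
      rcases h' with h' | h'
      · exact ⟨q, by simp, Nat.eq_of_beq_eq_true hb, h'⟩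
      · obtain ⟨q', h1, h2⟩ := ih h'
        exact ⟨q', by simp [h1], h2⟩
    | false =>
      rw [hb, cond_false] at h'
      obtain ⟨q', h1, h2⟩ := ih h'
      exact ⟨q', by simp [h1], h2⟩

theorem bs_tgts_cnt (s i : ℕ) (l : List (ℕ × ℕ)) (hl : l.Nodup) (j : ℕ) : cnt j (tgts s i l) ≤ 1 := by
  induction l with
  | nil => simp [tgts, cnt]
  | cons q l ih =>
    rw [List.nodup_cons] at hl
    have e : tgts s i (q :: l) = (bif Nat.beq q.1 i then Nat.add s q.2 :: tgts s i l else tgts s i l) := rfl
    rw [e]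
    cases hb : Nat.beq q.1 i with
    | true =>
      rw [cond_true, bs_cnt_cons]
      by_cases hj : j = Nat.add s q.2
      · rw [if_pos hj]
        have : cnt j (tgts s i l) = 0 := by
          by_contra hne
          obtain ⟨q', h1, h2, h3⟩ := bs_tgts_mem s i l j (bs_cnt_pos _ _ hne)
          apply hl.1
          have e1 : q'.1 = q.1 := by rw [h2, Nat.eq_of_beq_eq_true hb]
          have e2 : q'.2 = q.2 := by
            have h4 : s + q.2 = s + q'.2 := by rw [← h3, hj]; rfl
            omega
          have : q' = q := Prod.ext e1 e2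
          rw [← this]; exact h1
        omega
      · rw [if_neg hj, zero_add]; exact ih hl.2
    | false =>
      rw [cond_false]; exact ih hl.2

theorem bs_preds_cnt (l : List ℕ) (j : ℕ) : cnt j (preds l) = cnt (j + 1) l := by
  induction l with
  | nil => rfl
  | cons k l ih =>
    cases k with
    | zero =>
      rw [bs_cnt_cons, if_neg (by omega), zero_add, ← ih]; rfl
    | succ k =>
      have e : preds ((k + 1) :: l) = k :: preds l := rfl
      rw [e, bs_cnt_cons, bs_cnt_cons, ih]
      by_cases h : j = k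
      · rw [if_pos h, if_pos (by omega)]
      · rw [if_neg h, if_neg (by omega)]

theorem bs_preds_mem (l : List ℕ) (j : ℕ) (h : j ∈ preds l) : j + 1 ∈ l := by
  induction l with
  | nil => simp [preds] at h
  | cons k l ih =>
    cases k with
    | zero =>
      have h' : j ∈ preds l := h
      exact List.mem_cons_of_mem _ (ih h')
    | succ k =>
      have h' : j ∈ k :: preds l := h
      rcases List.mem_cons.mp h' with h' | h'
      · subst h'; simp
      · exact List.mem_cons_of_mem _ (ih h')

theorem bs_DN (a b : ℕ) : (DN a b : ℤ) = dimZ a b := by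
  have : DN a b = ((a + 1) * (b + 1) * (a + b + 2)) / 2 := rfl
  rw [this]
  unfold dimZ
  rw [Int.natCast_div]
  push_cast
  rfl

theorem bs_nth_get (l : List Row) : ∀ (i : ℕ) (r : Row), l[i]? = some r → nth l i = r := by
  induction l with
  | nil => intro i r h; simp at h
  | cons x l ih =>
    intro i r h
    cases i with
    | zero =>
      have : x = r := by simpa using h
      subst this; rfl
    | succ i => exact ih i r (by simpa using h)

theorem bs_brXs_length (n : ℕ) (X : XData) (l : List XNode) : ∀ s, (brXs n X l s).length = l.length := by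
  induction l with
  | nil => intro s; rfl
  | cons x l ih => intro s; simp [brXs, ih]

theorem bs_brXs_nth (n : ℕ) (X : XData) (l : List XNode) : ∀ (s i : ℕ) (r : XNode), l[i]? = some r →
    nth (brXs n X l s) i = brX n X (s + i) r := by
  induction l with
  | nil => intro s i r h; simp at h
  | cons x l ih =>
    intro s i r h
    cases i with
    | zero =>
      have : x = r := by simpa using h
      subst this; rfl
    | succ i =>
      have h2 := ih (s + 1) i r (by simpa using h)
      have e : s + 1 + i = s + (i + 1) := by omega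
      rw [e] at h2
      exact h2

theorem bs_len (n : ℕ) (X : XData) (td : ℕ → Bool) : (build n X td).length = n + 1 + X.nodes.length := by
  unfold build
  rw [List.length_append, List.length_map, List.length_range, bs_brXs_length]

theorem bs_nthT (n : ℕ) (X : XData) (td : ℕ → Bool) (k : ℕ) (hk : k ≤ n) :
    nth (build n X td) k = brT n X td k := by
  unfold build
  rw [nth_append_left _ _ _ (by rw [List.length_map, List.length_range]; omega)]
  apply bs_nth_get
  rw [List.getElem?_map, List.getElem?_range (by omega)]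
  rfl

theorem bs_nthX (n : ℕ) (X : XData) (td : ℕ → Bool) (i : ℕ) (r : XNode) (h : X.nodes[i]? = some r) :
    nth (build n X td) (n + 1 + i) = brX n X i r := by
  unfold build
  have hlen : ((List.range (n + 1)).map (brT n X td)).length = n + 1 := by
    rw [List.length_map, List.length_range]
  have := nth_append_right ((List.range (n + 1)).map (brT n X td)) (brXs n X X.nodes 0) i
  rw [hlen] at this
  rw [this, bs_brXs_nth n X X.nodes 0 i r h, zero_add]

theorem bs_phiT (A : Arr G n) (x : ℕ → G.B) (i : ℕ) (hi : i ≤ n) : phi1 A x i = A.V (n - i) i := by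
  unfold phi1; rw [if_pos hi]

theorem bs_phiX (A : Arr G n) (x : ℕ → G.B) (i : ℕ) : phi1 A x (n + 1 + i) = x i := by
  unfold phi1
  rw [if_neg (by omega)]
  congr 1; omega

theorem bs_bvT (A : Arr G n) (x : ℕ → G.B) (i : ℕ) (hi : i ≤ n) : bv (phi1 A x i) = A.t (i : ℤ) := by
  rw [bs_phiT A x i hi]
  unfold Arr.t
  have := A.E_nat (n - i) i (by omega)
  rw [← this]
  congr 1
  push_cast [hi]; ring

/-- equal array elements have equal indices -/
theorem bs_Vinj {A : Arr G n} (hG : A.Good) {a b c d : ℕ} (h1 : a + b ≤ n) (h2 : c + d ≤ n)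
    (h : A.V a b = A.V c d) : a = c ∧ b = d := by
  have h3 := hG.ip_E a b c d ⟨by positivity, by positivity, by exact_mod_cast h1⟩
    ⟨by positivity, by positivity, by exact_mod_cast h2⟩
  rw [A.E_nat a b h1, A.E_nat c d h2, h, ip_bv_self] at h3
  by_contra hne
  rw [if_neg (by rintro ⟨h4, h5⟩; exact hne ⟨by exact_mod_cast h4, by exact_mod_cast h5⟩)] at h3
  exact one_ne_zero h3

theorem bs_xV {A : Arr G n} {x : ℕ → G.B} {X : XData} (hX : XSat A x X) {i : ℕ} (hi : i < X.nodes.length)
    {a b : ℕ} (h : a + b ≤ n) : x i ≠ A.V a b := by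
  intro he
  have h1 := hX.notE i hi a b
  rw [A.E_nat a b h, he] at h1
  simp [bv] at h1

theorem bs_get {l : List XNode} {i : ℕ} (h : i < l.length) : ∃ r, l[i]? = some r :=
  ⟨l[i], List.getElem?_eq_getElem h⟩

theorem bs_inj {A : Arr G n} (hG : A.Good) {x : ℕ → G.B} {X : XData} (hX : XSat A x X) :
    ∀ i < n + 1 + X.nodes.length, ∀ j < n + 1 + X.nodes.length, phi1 A x i = phi1 A x j → i = j := by
  intro i hi j hj h
  by_cases h1 : i ≤ n
  · rw [bs_phiT A x i h1] at h
    by_cases h2 : j ≤ n
    · rw [bs_phiT A x j h2] at h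
      exact (bs_Vinj hG (by omega) (by omega) h).2
    · obtain ⟨j', rfl⟩ : ∃ j', j = n + 1 + j' := ⟨j - (n + 1), by omega⟩
      rw [bs_phiX] at h
      exact absurd h.symm (bs_xV hX (by omega) (by omega))
  · obtain ⟨i', rfl⟩ : ∃ i', i = n + 1 + i' := ⟨i - (n + 1), by omega⟩
    rw [bs_phiX] at h
    by_cases h2 : j ≤ n
    · rw [bs_phiT A x j h2] at h
      exact absurd h (bs_xV hX (by omega) (by omega))
    · obtain ⟨j', rfl⟩ : ∃ j', j = n + 1 + j' := ⟨j - (n + 1), by omega⟩
      rw [bs_phiX] at h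
      rw [hX.inj i' (by omega) j' (by omega) h]

theorem bs_Eval {A : Arr G n} {a b : ℤ} {y : G.B} (h : A.E a b y ≠ 0) :
    ∃ a' b' : ℕ, a' + b' ≤ n ∧ y = A.V a' b' := by
  classical
  by_cases hr : 0 ≤ a ∧ 0 ≤ b ∧ a + b ≤ n
  · obtain ⟨a', b', _, _, h3, h4⟩ := A.E_ex hr
    refine ⟨a', b', h3, ?_⟩
    rw [h4] at h
    by_contra hne
    exact h (by simp [bv, Finsupp.single_apply, Ne.symm hne])
  · rw [A.E_out hr] at h
    simp at h

theorem bs_glob {A : Arr G n} (hG : A.Good) {x : ℕ → G.B} {X : XData}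
    (hX : XSat A x X) {C : Ctx} (hC : CSat A x X.nodes.length C) :
    Glob (world0 A) C (n + 1 + X.nodes.length) (phi1 A x) := by
  refine ⟨hC.nt, ?_, bs_inj hG hX, ?_, ?_, ?_, ?_, hC.lines, hC.blks, hC.ipls⟩
  · show n + 1 ≤ n + 1 + X.nodes.length
    omega
  · intro i hi hni j hj
    have hni' : n + 1 ≤ i := hni
    have hj' : j < n + 1 := hj
    obtain ⟨i', rfl⟩ : ∃ i', i = n + 1 + i' := ⟨i - (n + 1), by omega⟩
    rw [bs_phiX, bs_phiT A x j (by omega)]
    obtain ⟨r, hr⟩ := bs_get (l := X.nodes) (i := i') (by omega)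
    obtain ⟨h1, h2, _⟩ := hX.node i' r hr
    rw [h2]
    exact bs_xV hX h1 (by omega)
  · intro i hi
    rintro ⟨a, b, hab, he⟩
    by_cases h1 : i ≤ n
    · rw [bs_phiT A x i h1] at he
      have := bs_Vinj hG (by omega) (by omega) he
      omega
    · obtain ⟨i', rfl⟩ : ∃ i', i = n + 1 + i' := ⟨i - (n + 1), by omega⟩
      rw [bs_phiX] at he
      exact bs_xV hX (by omega) (by omega) he
  · intro i hi hni z hz
    have hni' : n + 1 ≤ i := hni
    obtain ⟨a, b, hab, rfl⟩ := hz
    obtain ⟨i', rfl⟩ : ∃ i', i = n + 1 + i' := ⟨i - (n + 1), by omega⟩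
    rw [bs_phiX, G.adj, ← A.E_nat a b hab.le, A.S_E (by positivity) (by positivity) (by exact_mod_cast hab)]
    simp only [Finsupp.add_apply]
    rw [hX.notE i' (by omega), hX.notE i' (by omega), hX.notE i' (by omega)]
    rfl
  · intro z hz y hy
    obtain ⟨a, b, hab, rfl⟩ := hz
    rw [G.adj, ← A.E_nat a b hab.le, A.S_E (by positivity) (by positivity) (by exact_mod_cast hab)] at hy
    simp only [Finsupp.add_apply] at hy
    have hy' : ∃ a' b' : ℕ, a' + b' ≤ n ∧ y = A.V a' b' := by
      by_cases c1 : A.E (a : ℤ) (b + 1) y = 0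
      · by_cases c2 : A.E ((a : ℤ) + 1) (b - 1) y = 0
        · by_cases c3 : A.E ((a : ℤ) - 1) b y = 0
          · rw [c1, c2, c3] at hy; simp at hy
          · exact bs_Eval c3
        · exact bs_Eval c2
      · exact bs_Eval c1
    obtain ⟨a', b', hab', rfl⟩ := hy'
    by_cases hlt : a' + b' < n
    · exact Or.inl ⟨a', b', hlt, rfl⟩
    · right
      refine ⟨b', ?_, ?_⟩
      · show b' < n + 1
        omega
      · rw [bs_phiT A x b' (by omega)]
        congr 1; omega

theorem bs_uocc {A : Arr G n} (hG : A.Good) {x : ℕ → G.B} {X : XData} (hX : XSat A x X) (k : ℕ) (hk : k ≤ n + 1)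
    (y : G.B) : (∃ i < X.nodes.length, y = x i) →
    rv (phi1 A x) (occ k X.nodes (n + 1)) y = A.u (k : ℤ) y := by
  rintro ⟨i, hi, rfl⟩
  obtain ⟨r, hr⟩ := bs_get (l := X.nodes) (i := i) hi
  have h1 := (hX.node i r hr).2.2.2.2.2.1 k hk
  rw [h1]
  have h2 : x i = phi1 A x (n + 1 + i) := (bs_phiX A x i).symm
  rw [h2, bs_rv_apply (phi1 A x) (n + 1 + X.nodes.length) (bs_inj hG hX) _ ?_ _ (by omega),
    bs_occ_cnt k X.nodes (n + 1) i r hr]
  · push_cast; rfl
  · intro j hj
    obtain ⟨i', r', h3, h4, _⟩ := bs_occ_mem k X.nodes (n + 1) j hj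
    have := (List.getElem?_eq_some_iff.mp h3).1
    omega

theorem bs_uocc0 {A : Arr G n} {x : ℕ → G.B} {X : XData} (k : ℕ)
    (y : G.B) (hy : ¬ ∃ i < X.nodes.length, y = x i) :
    rv (phi1 A x) (occ k X.nodes (n + 1)) y = 0 := by
  apply bs_rv_zero
  intro j hj he
  obtain ⟨i', r', h3, h4, _⟩ := bs_occ_mem k X.nodes (n + 1) j hj
  have := (List.getElem?_eq_some_iff.mp h3).1
  subst h4
  rw [bs_phiX] at he
  exact hy ⟨i', this, he.symm⟩

theorem bs_next {A : Arr G n} {x : ℕ → G.B} (k : ℕ) (hk : k ≤ n) :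
    rv (phi1 A x) (bif Nat.blt k n then [k + 1] else []) = A.t ((k : ℤ) + 1) := by
  by_cases h : k < n
  · have hb : Nat.blt k n = true := by
      simpa [Nat.blt_eq] using h
    rw [hb, cond_true]
    simp only [rv, add_zero]
    rw [bs_bvT A x (k + 1) (by omega)]
    push_cast; rfl
  · have hb : Nat.blt k n = false := by
      rw [Bool.eq_false_iff]
      intro hb
      apply h
      simpa [Nat.blt_eq] using hb
    rw [hb, cond_false, A.t_out (by right; omega)]
    rfl

theorem bs_nextcnt (k j : ℕ) (hk : k ≤ n) (hj : j ≤ n) :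
    cnt j (bif Nat.blt k n then [k + 1] else []) = if j = k + 1 then 1 else 0 := by
  by_cases h : k < n
  · have hb : Nat.blt k n = true := by
      simpa [Nat.blt_eq] using h
    rw [hb, cond_true, bs_cnt_cons]; rfl
  · have hb : Nat.blt k n = false := by
      rw [Bool.eq_false_iff]
      intro hb
      apply h
      simpa [Nat.blt_eq] using hb
    rw [hb, cond_false, if_neg (by omega)]; rfl

theorem bs_nextcnt' (k j : ℕ) (hj : n < j) :
    cnt j (bif Nat.blt k n then [k + 1] else []) = 0 := by
  by_cases h : k < n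
  · have hb : Nat.blt k n = true := by
      simpa [Nat.blt_eq] using h
    rw [hb, cond_true, bs_cnt_cons, if_neg (by omega)]; rfl
  · have hb : Nat.blt k n = false := by
      rw [Bool.eq_false_iff]
      intro hb
      apply h
      simpa [Nat.blt_eq] using hb
    rw [hb, cond_false]; rfl

theorem bs_rowT {A : Arr G n} (hG : A.Good) {x : ℕ → G.B} {X : XData} {td : ℕ → Bool}
    (hX : XSat A x X)
    (htd : ∀ k ≤ n, td k = true → ∀ b, A.u (k : ℤ) b ≠ 0 → ∃ i < X.nodes.length, b = x i)
    (k : ℕ) (hk : k ≤ n) :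
    RowSat (world0 A) (n + 1 + X.nodes.length) (phi1 A x) k (brT n X td k) := by
  have hTt : G.T (bv (phi1 A x k)) = A.t ((k : ℤ) + 1) + A.s ((k : ℤ) - 1) + A.u (k : ℤ) := by
    rw [bs_bvT A x k hk, A.Tt (by positivity) (by exact_mod_cast hk)]
  have hW : (world0 A).W k = A.s ((k : ℤ) - 1) := by
    show (if k ≤ n then A.s ((k : ℤ) - 1) else 0) = _
    rw [if_pos hk]
  have hout : (brT n X td k).out = (bif Nat.blt k n then [k + 1] else []) ++ occ k X.nodes (n + 1) := rfl
  have hoccK : ∀ j ∈ occ k X.nodes (n + 1), j < n + 1 + X.nodes.length := by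
    intro j hj
    obtain ⟨i', r', h3, h4, _⟩ := bs_occ_mem k X.nodes (n + 1) j hj
    have := (List.getElem?_eq_some_iff.mp h3).1
    omega
  have hrv : rv (phi1 A x) (brT n X td k).out = A.t ((k : ℤ) + 1) + rv (phi1 A x) (occ k X.nodes (n + 1)) := by
    rw [hout, bs_rv_append, bs_next k hk]
  have hd : G.d (A.V (n - k) k) = (DN (n - k) k : ℤ) := by
    rw [A.d_V _ _ (by omega), bs_DN]
  refine ⟨?_, ?_, ?_, ?_, ?_, ?_, ?_, ?_, ?_, ?_, ?_, ?_⟩
  · show n - k < n + 1 + X.nodes.length
    omega
  · show G.bar (phi1 A x k) = phi1 A x (n - k)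
    rw [bs_phiT A x k hk, bs_phiT A x (n - k) (by omega), A.bar_V _ _ (by omega)]
    congr 1; omega
  · exact Nat.mod_lt _ (by norm_num)
  · show G.gr (phi1 A x k) = (((n + k) % 3 : ℕ) : ZMod 3)
    rw [bs_phiT A x k hk, A.gr_V _ _ (by omega), ZMod.natCast_mod]
    push_cast [hk]
    have h3 : (3 : ZMod 3) = 0 := rfl
    linear_combination (-(k : ZMod 3)) * h3
  · show ((DN (n - k) k : ℕ) : ℤ) ≤ G.d (phi1 A x k)
    rw [bs_phiT A x k hk, hd]
  · intro _
    show G.d (phi1 A x k) ≤ ((DN (n - k) k : ℕ) : ℤ)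
    rw [bs_phiT A x k hk, hd]
  · rw [hW]
    show G.dg (A.s ((k : ℤ) - 1)) = ((bif Nat.beq k 0 then 0 else DN (n - k) (k - 1) : ℕ) : ℤ)
    by_cases h0 : k = 0
    · subst h0
      rw [A.s_out (by left; norm_num), G.dg_zero]
      rfl
    · rw [bs_beq_ne h0, cond_false, A.dg_s (by omega) (by omega), bs_DN]
      congr 1
      · push_cast [hk]; ring
      · push_cast [Nat.one_le_iff_ne_zero.mpr h0]; ring
  · intro j hj
    rw [hout, List.mem_append] at hj
    rcases hj with hj | hj
    · by_cases h : k < n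
      · have hb : Nat.blt k n = true := by
          simpa [Nat.blt_eq] using h
        rw [hb, cond_true, List.mem_singleton] at hj
        omega
      · have hb : Nat.blt k n = false := by
          rw [Bool.eq_false_iff]
          intro hb
          apply h
          simpa [Nat.blt_eq] using hb
        rw [hb, cond_false] at hj
        simp at hj
    · exact hoccK j hj
  · rw [hrv, hW, hTt]
    intro y
    simp only [Finsupp.add_apply]
    have hle : rv (phi1 A x) (occ k X.nodes (n + 1)) y ≤ A.u (k : ℤ) y := by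
      by_cases hy : ∃ i < X.nodes.length, y = x i
      · rw [bs_uocc hG hX k (by omega) y hy]
      · rw [bs_uocc0 k y hy]; exact A.u_nonneg hG _ y
    linarith
  · show 2 ^ (n + 1 + X.nodes.length) - 1 < 2 ^ (n + 1 + X.nodes.length)
    have : 0 < 2 ^ (n + 1 + X.nodes.length) := by positivity
    omega
  · intro j hj _
    rw [hout, bs_cnt_append]
    by_cases hjn : j ≤ n
    · have h1 := hG.ip_Tt k j (by positivity) (by exact_mod_cast hk) (by positivity) (by exact_mod_cast hjn)
      rw [← bs_bvT A x j hjn, ip_bv_right, ← bs_bvT A x k hk] at h1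
      rw [h1, bs_nextcnt k j hk hjn, bs_occ_lt k X.nodes (n + 1) j (by omega)]
      by_cases hjk : j = k + 1
      · rw [if_pos hjk, if_pos (by rw [hjk]; push_cast; rfl)]; rfl
      · rw [if_neg hjk, if_neg (by intro h; apply hjk; exact_mod_cast h)]; rfl
    · obtain ⟨i, rfl⟩ : ∃ i, j = n + 1 + i := ⟨j - (n + 1), by omega⟩
      rw [bs_nextcnt' k _ (by omega), zero_add, hTt, bs_phiX]
      simp only [Finsupp.add_apply]
      have e1 : A.t ((k : ℤ) + 1) (x i) = 0 := hX.notE i (by omega) _ _
      have e2 : A.s ((k : ℤ) - 1) (x i) = 0 := hX.notE i (by omega) _ _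
      obtain ⟨r, hr⟩ := bs_get (l := X.nodes) (i := i) (by omega)
      rw [e1, e2, (hX.node i r hr).2.2.2.2.2.1 k (by omega), bs_occ_cnt k X.nodes (n + 1) i r hr]
      push_cast; ring
  · intro hdone
    have htk : td k = true := hdone
    rw [hrv, hW, hTt]
    have hu : rv (phi1 A x) (occ k X.nodes (n + 1)) = A.u (k : ℤ) := by
      ext y
      by_cases hy : ∃ i < X.nodes.length, y = x i
      · rw [bs_uocc hG hX k (by omega) y hy]
      · rw [bs_uocc0 k y hy]
        by_contra hne
        exact hy (htd k hk htk y (fun h => hne h.symm))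
    rw [hu]; abel

theorem bs_tb (m j : ℕ) (h : tb (2 ^ m - 1) j = true) : j < m := by
  by_contra hj
  push Not at hj
  have h1 : 2 ^ m - 1 < 2 ^ j := by
    have h3 : 2 ^ m ≤ 2 ^ j := Nat.pow_le_pow_right (by norm_num) hj
    have h4 : 0 < 2 ^ m := by positivity
    omega
  have h2 : Nat.shiftRight (2 ^ m - 1) j = 0 := by
    have : (2 ^ m - 1) >>> j = 0 := by rw [Nat.shiftRight_eq_div_pow]; exact Nat.div_eq_of_lt h1
    exact this
  unfold tb at h
  rw [h2] at h
  revert h
  decide

theorem bs_rowX {A : Arr G n} (hG : A.Good) {x : ℕ → G.B} {X : XData}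
    (hX : XSat A x X) (hnd : X.arrows.Nodup) (i : ℕ) (r : XNode) (hr : X.nodes[i]? = some r) :
    RowSat (world0 A) (n + 1 + X.nodes.length) (phi1 A x) (n + 1 + i) (brX n X i r) := by
  have hi : i < X.nodes.length := (List.getElem?_eq_some_iff.mp hr).1
  obtain ⟨h1, h2, h3, h4, h5, h6, h7, h8⟩ := hX.node i r hr
  have hn4 := hG.hn
  have hW : (world0 A).W (n + 1 + i) = 0 := by
    show (if n + 1 + i ≤ n then A.s (((n + 1 + i : ℕ) : ℤ) - 1) else 0) = _
    rw [if_neg (by omega)]
  have hout : (brX n X i r).out = tgts (n + 1) i X.arrows ++ preds r.mu := rfl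
  have houtK : ∀ j ∈ (brX n X i r).out, j < n + 1 + X.nodes.length := by
    intro j hj
    rw [hout, List.mem_append] at hj
    rcases hj with hj | hj
    · obtain ⟨q, hq, _, h10⟩ := bs_tgts_mem _ _ _ _ hj
      have := (hX.arr q hq).2.1
      omega
    · have := h7 _ (bs_preds_mem _ _ hj)
      omega
  have hlow : ∀ j, j ≤ n → G.T (bv (x i)) (phi1 A x j) = (cnt j (brX n X i r).out : ℤ) := by
    intro j hj
    rw [hout, bs_cnt_append, G.adj, bs_bvT A x j hj, A.St (by omega) (by positivity) (by exact_mod_cast hj)]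
    simp only [Finsupp.add_apply]
    have e1 : A.t ((j : ℤ) - 1) (x i) = 0 := hX.notE i hi _ _
    have e2 : A.s (j : ℤ) (x i) = 0 := hX.notE i hi _ _
    have e3 := h6 (j + 1) (by omega)
    push_cast at e3
    rw [e1, e2, e3]
    have e4 : cnt j (tgts (n + 1) i X.arrows) = 0 := by
      apply bs_cnt_zero
      intro y hy he
      obtain ⟨q, _, _, h10⟩ := bs_tgts_mem _ _ _ _ hy
      omega
    rw [e4, bs_preds_cnt, bs_cnt_nodup _ _ h8]
    push_cast; ring
  refine ⟨?_, ?_, h3, ?_, ?_, ?_, ?_, houtK, ?_, ?_, ?_, ?_⟩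
  · show n + 1 + r.cj < n + 1 + X.nodes.length
    omega
  · show G.bar (phi1 A x (n + 1 + i)) = phi1 A x (n + 1 + r.cj)
    rw [bs_phiX, bs_phiX, h2]
  · show G.gr (phi1 A x (n + 1 + i)) = (r.gr : ZMod 3)
    rw [bs_phiX, h4]
  · show ((1 : ℕ) : ℤ) ≤ G.d (phi1 A x (n + 1 + i))
    have := G.d_pos (phi1 A x (n + 1 + i))
    push_cast; omega
  · show r.hi ≠ 0 → G.d (phi1 A x (n + 1 + i)) ≤ (r.hi : ℤ)
    rw [bs_phiX]; exact h5
  · rw [hW, G.dg_zero]; rfl
  · rw [hW, add_zero, bs_phiX]
    intro y
    by_cases hy : ∃ j ∈ (brX n X i r).out, phi1 A x j = y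
    · obtain ⟨j, hj, rfl⟩ := hy
      have hjK := houtK j hj
      rw [bs_rv_apply (phi1 A x) (n + 1 + X.nodes.length) (bs_inj hG hX) _ houtK _ hjK]
      by_cases hjn : j ≤ n
      · rw [hlow j hjn]
      · have e1 : cnt j (preds r.mu) = 0 := by
          apply bs_cnt_zero
          intro y hy he
          have := h7 _ (bs_preds_mem _ _ hy)
          omega
        rw [hout, List.mem_append] at hj
        have hj' : j ∈ tgts (n + 1) i X.arrows := by
          rcases hj with hj | hj
          · exact hj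
          · have := h7 _ (bs_preds_mem _ _ hj)
            omega
        obtain ⟨q, hq, h9, h10⟩ := bs_tgts_mem _ _ _ _ hj'
        have h11 := (hX.arr q hq).2.2
        have h12 := bs_tgts_cnt (n + 1) i X.arrows hnd j
        rw [hout, bs_cnt_append, e1, add_zero]
        have h13 : phi1 A x j = x q.2 := by rw [h10, bs_phiX]
        rw [h13, ← h9]
        have h14 : (cnt j (tgts (n + 1) i X.arrows) : ℤ) ≤ 1 := by exact_mod_cast h12
        rw [← h9] at h14
        linarith
    · rw [bs_rv_zero (phi1 A x) _ y (fun j hj he => hy ⟨j, hj, he⟩)]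
      exact G.T_nonneg _ _
  · show 2 ^ (n + 1) - 1 < 2 ^ (n + 1 + X.nodes.length)
    have h9 : 2 ^ (n + 1) ≤ 2 ^ (n + 1 + X.nodes.length) := Nat.pow_le_pow_right (by norm_num) (by omega)
    have h10 : 0 < 2 ^ (n + 1) := by positivity
    omega
  · intro j hj ht
    have hjn := bs_tb (n + 1) j ht
    rw [bs_phiX]
    exact hlow j (by omega)
  · intro hd
    exact absurd hd (by simp [brX])

/-- the initial state is correct -/
theorem build_sat {A : Arr G n} (hG : A.Good) {x : ℕ → G.B} {X : XData} {td : ℕ → Bool}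
    (hX : XSat A x X) (hnd : X.arrows.Nodup)
    (htd : ∀ k ≤ n, td k = true → ∀ b, A.u (k : ℤ) b ≠ 0 → ∃ i < X.nodes.length, b = x i)
    {C : Ctx} (hC : CSat A x X.nodes.length C) : Sat (world0 A) C (build n X td) (phi1 A x) := by
  have hlen := bs_len n X td
  refine ⟨?_, ?_⟩
  · rw [hlen]; exact bs_glob hG hX hC
  · intro i hi
    rw [hlen] at hi ⊢
    by_cases hin : i ≤ n
    · rw [bs_nthT n X td i hin]
      exact bs_rowT hG hX htd i hin
    · obtain ⟨i', rfl⟩ : ∃ i', i = n + 1 + i' := ⟨i - (n + 1), by omega⟩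
      obtain ⟨r, hr⟩ := bs_get (l := X.nodes) (i := i') (by omega)
      rw [bs_nthX n X td i' r hr]
      exact bs_rowX hG hX hnd i' r hr

end Pool.Agent.Helper363.Nita.K2
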