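import Pool.Agent.Helper363.Nita.K2.SndA

namespace Pool.Agent.Helper363.Nita.K2

section satbasic
variable {G : NG} {w : World G} {C : Ctx} {S : List Row} {φ : ℕ → G.B}

theorem cnt_le (h : Sat w C S φ) {x y : ℕ} (hx : x < S.length) (hy : y < S.length) :
    (cnt y (nth S x).out : ℤ) ≤ G.T (bv (φ x)) (φ y) := by
  have hW : w.W x (φ y) = 0 := by
    by_contra hne
    exact h.glob.nodeL y hy (w.W_L x _ hne)
  have h1 := (h.row x hx).low (φ y)
  rw [Finsupp.add_apply, rv_apply h.glob.inj (h.row x hx).outlt hy, hW, add_zero] at h1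
  exact h1

/-- the row vector is below the true row -/
theorem rv_le (h : Sat w C S φ) {x : ℕ} (hx : x < S.length) :
    rv φ (nth S x).out ≤ G.T (bv (φ x)) := by
  exact le_trans (le_add_of_nonneg_right (w.W_nonneg x)) (h.row x hx).low

theorem cj_cj (h : Sat w C S φ) {x : ℕ} (hx : x < S.length) : (nth S (nth S x).cj).cj = x := by
  have h1 := (h.row x hx).cjlt
  have h2 := (h.row _ h1).cjlt
  apply h.glob.inj _ h2 _ hx
  rw [← (h.row _ h1).bar, ← (h.row x hx).bar, G.bar_bar]

theorem cj_nt (h : Sat w C S φ) {x : ℕ} (hx : x < S.length) (hn : w.nt ≤ x) :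
    w.nt ≤ (nth S x).cj := by
  by_contra hlt
  push Not at hlt
  exact h.glob.barnt x hx hn _ hlt (h.row x hx).bar

theorem T_conj (h : Sat w C S φ) {x y : ℕ} (hx : x < S.length) (hy : y < S.length) :
    G.T (bv (φ x)) (φ y) = G.T (bv (φ (nth S y).cj)) (φ (nth S x).cj) := by
  rw [← (h.row y hy).bar, ← (h.row x hx).bar, G.T_bar, G.adj]

theorem h441_ex0 (h : Sat w C S φ) {x y : ℕ} (hx : x < S.length) (hy : y < S.length)
    (he : (nth S x).done = true ∨ tb (nth S x).dec y = true) :
    G.T (bv (φ x)) (φ y) = (cnt y (nth S x).out : ℤ) := by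
  have hW : w.W x (φ y) = 0 := by
    by_contra hne
    exact h.glob.nodeL y hy (w.W_L x _ hne)
  rcases he with he | he
  · rw [(h.row x hx).done he, Finsupp.add_apply, rv_apply h.glob.inj (h.row x hx).outlt hy, hW,
      add_zero]
  · exact (h.row x hx).dec y hy he


theorem ex_sound (h : Sat w C S φ) {x y : ℕ} (hx : x < S.length) (hy : y < S.length)
    (he : ex S x y = true) : G.T (bv (φ x)) (φ y) = (cnt y (nth S x).out : ℤ) := by
  unfold ex at he
  simp only [Bool.or_eq_true, Bool.and_eq_true] at he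
  rcases he with he | ⟨he1, he2⟩
  · exact h441_ex0 h hx hy he
  · have h1 := Nat.eq_of_beq_eq_true he2
    rw [T_conj h hx hy, h441_ex0 h (h.row y hy).cjlt (h.row x hx).cjlt he1, h1]

theorem allEx_sound (h : Sat w C S φ) {x : ℕ} (hx : x < S.length) {l : List ℕ}
    (hl : ∀ y ∈ l, y < S.length) (he : allEx S x l = true) :
    ∀ y ∈ l, G.T (bv (φ x)) (φ y) = (cnt y (nth S x).out : ℤ) := by
  induction l with
  | nil =>
    intro y hy
    simp at hy
  | cons a l ih =>
    unfold allEx at he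
    simp only [Bool.and_eq_true] at he
    intro y hy
    rcases List.mem_cons.mp hy with rfl | hy
    · exact ex_sound h hx (hl _ (by simp)) he.1
    · exact ih (fun z hz => hl z (by simp [hz])) he.2 y hy

theorem h441_ipl {y : ℕ} (l : List ℕ)
    (he : ∀ z ∈ l, G.T (bv (φ y)) (φ z) = (cnt z (nth S y).out : ℤ)) :
    ip (rv φ l) (G.T (bv (φ y))) = (ipl l (nth S y).out : ℤ) := by
  induction l with
  | nil => rw [ip_rv_nil]; rfl
  | cons a l ih =>
    rw [ip_rv_cons, he a (by simp), ih (fun z hz => he z (by simp [hz]))]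
    show _ = ((cnt a (nth S y).out + ipl l (nth S y).out : ℕ) : ℤ)
    push_cast
    rfl

theorem h441_ipEx1 (h : Sat w C S φ) {x y : ℕ} (hx : x < S.length) (hy : y < S.length)
    (hnt : w.nt ≤ x ∨ w.nt ≤ y) (he : ipEx1 S x y = true) :
    ip (G.T (bv (φ x))) (G.T (bv (φ y))) = (ipl (nth S x).out (nth S y).out : ℤ) := by
  unfold ipEx1 at he
  simp only [Bool.and_eq_true] at he
  have h1 := allEx_sound h hy (h.row x hx).outlt he.2
  have h2 : ip (w.W x) (G.T (bv (φ y))) = 0 := by
    rcases hnt with hnt | hnt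
    · rw [w.W_zero x hnt, ip_zero_left]
    · unfold ip
      apply Finset.sum_eq_zero
      intro b hb
      have h3 := h.glob.arrL y hy hnt b (w.W_L x b (Finsupp.mem_support_iff.1 hb))
      beta_reduce
      rw [h3, mul_zero]
  rw [(h.row x hx).done he.1, ip_add_left, h2, add_zero]
  exact h441_ipl _ h1

theorem h441_iplc (h : Sat w C S φ) {x y : ℕ} (hx : x < S.length) (hy : y < S.length) :
    (ipl (nth S x).out (nth S y).out : ℤ) = (ipl (nth S y).out (nth S x).out : ℤ) := by
  rw [← ip_rv_rv h.glob.inj (h.row x hx).outlt (h.row y hy).outlt, ip_comm,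
    ip_rv_rv h.glob.inj (h.row y hy).outlt (h.row x hx).outlt]


theorem ipEx_sound (h : Sat w C S φ) {x y : ℕ} (hx : x < S.length) (hy : y < S.length)
    (he : ipEx C S x y = true) :
    ip (G.T (bv (φ x))) (G.T (bv (φ y))) = (ipl (nth S x).out (nth S y).out : ℤ) := by
  unfold ipEx at he
  simp only [Bool.or_eq_true, Bool.and_eq_true] at he
  obtain ⟨he1, he2⟩ := he
  have hnt : w.nt ≤ x ∨ w.nt ≤ y := by
    rw [← h.glob.ntC]
    rcases he1 with h1 | h1
    · exact Or.inl (Nat.le_of_ble_eq_true h1)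
    · exact Or.inr (Nat.le_of_ble_eq_true h1)
  rcases he2 with h1 | h1
  · exact h441_ipEx1 h hx hy hnt h1
  · rw [ip_comm, h441_ipEx1 h hy hx hnt.symm h1, h441_iplc h hy hx]

theorem ipl_le (h : Sat w C S φ) {x y : ℕ} (hx : x < S.length) (hy : y < S.length) :
    (ipl (nth S x).out (nth S y).out : ℤ) ≤ ip (G.T (bv (φ x))) (G.T (bv (φ y))) := by
  rw [← ip_rv_rv h.glob.inj (h.row x hx).outlt (h.row y hy).outlt]
  exact (ip_mono_left (rv_le h hx) (rv_nonneg _ _)).trans
    (ip_mono_right (rv_le h hy) (fun z => G.T_nonneg _ z))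

theorem h441_Sb (h : Sat w C S φ) {x : ℕ} (hx : x < S.length) :
    G.S (bv (φ x)) = G.bar' (G.T (bv (φ (nth S x).cj))) := by
  rw [G.bar_T, G.bar'_bv, ← (h.row x hx).bar, G.bar_bar]


theorem ip_conj (h : Sat w C S φ) {x y : ℕ} (hx : x < S.length) (hy : y < S.length) :
    ip (G.T (bv (φ x))) (G.T (bv (φ y))) =
      ip (G.T (bv (φ (nth S x).cj))) (G.T (bv (φ (nth S y).cj))) := by
  rw [G.normal, h441_Sb h hx, h441_Sb h hy, G.ip_bar_bar]

end satbasic

end Pool.Agent.Helper363.Nita.K2
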