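import Pool.Agent.Helper363.Nita.Chain

namespace Pool.Agent.Helper363.Nita

open Finsupp

variable {G : NG} {n : ℕ}

namespace Arr
variable (A : Arr G n)

/-- a nonnegative vector of norm three is a sum of three distinct basis vectors -/
theorem chain3_norm_three {x : G.B →₀ ℤ} (hx : 0 ≤ x) (h : ip x x = 3) :
    ∃ b : Fin 3 → G.B, Function.Injective b ∧ x = ∑ w, bv (b w) := by
  classical
  have hne : x ≠ 0 := by rintro rfl; simp [ip_zero_left] at h
  obtain ⟨b, hb⟩ := Finsupp.ne_iff.1 hne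
  have hb1 : 1 ≤ x b := by
    have := hx b
    simp only [Finsupp.coe_zero, Pi.zero_apply] at this hb ⊢
    omega
  have h0 := mul_le_ip hx hx b
  rw [h] at h0
  have hb2 : x b = 1 := by nlinarith
  have h1 : 0 ≤ x - bv b := by
    intro a
    by_cases ha : b = a
    · subst ha; simp [bv, hb2]
    · simpa [bv, Finsupp.single_apply, ha] using hx a
  have h2 : ip (x - bv b) (x - bv b) = 2 := by
    rw [ip_sub_left, ip_sub_right, ip_sub_right, h, ip_bv_right, ip_bv_left, ip_bv_self, hb2]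
    ring
  obtain ⟨c, d, hcd, hc⟩ := G.norm_two h1 h2
  have hbc : b ≠ c := by
    rintro rfl
    have := congrArg (fun f => f b) hc
    simp [bv, hb2, Finsupp.single_apply, Ne.symm hcd] at this
  have hbd : b ≠ d := by
    rintro rfl
    have := congrArg (fun f => f b) hc
    simp [bv, hb2, Finsupp.single_apply, hcd] at this
  refine ⟨![b, c, d], ?_, ?_⟩
  · intro i j hij
    fin_cases i <;> fin_cases j <;> simp_all
  · rw [Fin.sum_univ_three]
    simp only [Matrix.cons_val_zero, Matrix.cons_val_one, Matrix.cons_val]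
    rw [add_assoc, ← hc]; abel

theorem chain3_one_le {x : G.B →₀ ℤ} {b : Fin 3 → G.B} (h : x = ∑ w, bv (b w)) (w : Fin 3) :
    1 ≤ x (b w) := by
  classical
  rw [h, Finsupp.finset_sum_apply]
  have h1 : (bv (b w) : G.B →₀ ℤ) (b w) = 1 := by simp [bv]
  have h2 : (bv (b w) : G.B →₀ ℤ) (b w) ≤ ∑ v, (bv (b v) : G.B →₀ ℤ) (b w) := by
    refine Finset.single_le_sum (f := fun v => (bv (b v) : G.B →₀ ℤ) (b w)) ?_ (Finset.mem_univ w)
    intro v _
    simp only [bv, Finsupp.single_apply]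
    split_ifs <;> norm_num
  linarith

theorem chain3_mem {x : G.B →₀ ℤ} {b : Fin 3 → G.B} (h : x = ∑ w, bv (b w)) {y : G.B}
    (hy : x y ≠ 0) : ∃ w, y = b w := by
  classical
  rw [h, Finsupp.finset_sum_apply] at hy
  obtain ⟨w, -, hw⟩ := Finset.exists_ne_zero_of_sum_ne_zero hy
  refine ⟨w, ?_⟩
  by_contra hne
  exact hw (by simp [bv, Finsupp.single_apply, Ne.symm hne])

theorem chain3_matrix (M : Fin 3 → Fin 3 → ℤ) (h0 : ∀ a b, 0 ≤ M a b)
    (ht : ∑ a, ∑ b, M a b = 3) (hr : ∀ a, 1 ≤ ∑ b, M a b) (hc : ∀ b, 1 ≤ ∑ a, M a b) :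
    ∃ e : Equiv.Perm (Fin 3), ∀ a a', M a (e a') = if a = a' then 1 else 0 := by
  classical
  have hrow : ∀ a, ∑ b, M a b = 1 := by
    have h1 := hr 0
    have h2 := hr 1
    have h3 := hr 2
    rw [Fin.sum_univ_three] at ht
    intro a
    fin_cases a
    · show ∑ b, M 0 b = 1
      linarith
    · show ∑ b, M 1 b = 1
      linarith
    · show ∑ b, M 2 b = 1
      linarith
  have hcol : ∀ b, ∑ a, M a b = 1 := by
    have h1 := hc 0
    have h2 := hc 1
    have h3 := hc 2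
    rw [Finset.sum_comm, Fin.sum_univ_three] at ht
    intro a
    fin_cases a
    · show ∑ b, M b 0 = 1
      linarith
    · show ∑ b, M b 1 = 1
      linarith
    · show ∑ b, M b 2 = 1
      linarith
  have hex : ∀ a, ∃ b, M a b = 1 := by
    intro a
    obtain ⟨b, -, hb⟩ := Finset.exists_ne_zero_of_sum_ne_zero
      (show ∑ b, M a b ≠ 0 by rw [hrow a]; norm_num)
    refine ⟨b, ?_⟩
    have h1 : M a b ≤ ∑ b, M a b :=
      Finset.single_le_sum (f := fun b => M a b) (fun b _ => h0 a b) (Finset.mem_univ b)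
    have h2 := h0 a b
    rw [hrow a] at h1
    omega
  choose e he using hex
  have hz : ∀ a a', a ≠ a' → M a (e a') = 0 := by
    intro a a' hne
    have h1 : ∑ c ∈ ({a, a'} : Finset (Fin 3)), M c (e a') ≤ ∑ c, M c (e a') :=
      Finset.sum_le_sum_of_subset_of_nonneg (Finset.subset_univ _) (fun c _ _ => h0 c _)
    rw [Finset.sum_pair hne, hcol, he a'] at h1
    have h2 := h0 a (e a')
    omega
  have hinj : Function.Injective e := by
    intro a a' h
    by_contra hne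
    have h1 := hz a a' hne
    rw [← h, he a] at h1
    exact one_ne_zero h1
  refine ⟨Equiv.ofBijective e (Finite.injective_iff_bijective.mp hinj), fun a a' => ?_⟩
  rw [Equiv.ofBijective_apply]
  split_ifs with h
  · rw [h]; exact he a'
  · exact hz a a' h

theorem chain3_perm (s : Fin 3 → Fin 3) (hs : ∀ w, s (s w) = w) :
    (∀ w, s w = w) ∨ ∃ r : Equiv.Perm (Fin 3), s (r 0) = r 1 ∧ s (r 1) = r 0 ∧ s (r 2) = r 2 := by
  revert s
  decide

/-- the three sheets, indexed by natural numbers -/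
theorem chain3_nat (hG : A.Good) (h0 : ∀ k : ℤ, 1 ≤ k → k ≤ n → ip (A.u 0) (A.u k) = 0)
    (hp : A.p = 3)
    (hk : ∀ j : ℤ, 0 ≤ j → j ≤ n → ip (G.T (A.u j)) (A.u (j + 1)) = 3) :
    ∃ z : ℕ → Fin 3 → G.B,
    (∀ j : ℕ, 1 ≤ j → j ≤ n → Function.Injective (z j) ∧ A.u (j : ℤ) = ∑ w, bv (z j w)) ∧
    (∀ j : ℕ, 1 ≤ j → j + 1 ≤ n → ∀ w w', G.T (bv (z j w)) (z (j + 1) w') =
      if w = w' then 1 else 0) := by
  classical
  have hn := hG.hn
  have h3 : ip (A.u 0) (A.u 3) = 0 := h0 3 (by norm_num) (by omega)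
  have hb : ∀ j : ℕ, ∃ b : Fin 3 → G.B, 1 ≤ j → j ≤ n →
      Function.Injective b ∧ A.u (j : ℤ) = ∑ w, bv (b w) := by
    intro j
    by_cases hj : 1 ≤ j ∧ j ≤ n
    · obtain ⟨b, h1, h2⟩ := chain3_norm_three (A.u_nonneg hG (j : ℤ))
        (by rw [A.ip_u_self hG (by omega) (by omega), hp])
      exact ⟨b, fun _ _ => ⟨h1, h2⟩⟩
    · exact ⟨fun _ => A.V 0 0, fun h h' => (hj ⟨h, h'⟩).elim⟩
  choose b hb using hb
  have he : ∀ j : ℕ, ∃ e : Equiv.Perm (Fin 3), 1 ≤ j → j + 1 ≤ n → ∀ a a',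
      G.T (bv (b j a)) (b (j + 1) (e a')) = if a = a' then 1 else 0 := by
    intro j
    by_cases hj : 1 ≤ j ∧ j + 1 ≤ n
    · obtain ⟨hj1, hj2⟩ := hj
      obtain ⟨-, hu⟩ := hb j hj1 (by omega)
      obtain ⟨-, hu'⟩ := hb (j + 1) (by omega) hj2
      push_cast at hu'
      have m1 : ∑ a, ∑ a', G.T (bv (b j a)) (b (j + 1) a') = 3 := by
        have h1 := hk (j : ℤ) (by omega) (by omega)
        rw [hu, hu', Fin.sum_univ_three, Fin.sum_univ_three] at h1
        simp only [map_add, ip_add_right, ip_bv_right, Finsupp.add_apply] at h1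
        simp only [Fin.sum_univ_three]
        linarith
      have m2 : ∀ a, 1 ≤ ∑ a', G.T (bv (b j a)) (b (j + 1) a') := by
        intro a
        have h1 := A.S_u_ge hG h3 (j := (j : ℤ)) (by omega) (by omega) (b j a)
        have h2 := chain3_one_le hu a
        rw [G.S_apply, hu', Fin.sum_univ_three] at h1
        simp only [ip_add_left, ip_bv_left] at h1
        simp only [Fin.sum_univ_three]
        linarith
      have m3 : ∀ a', 1 ≤ ∑ a, G.T (bv (b j a)) (b (j + 1) a') := by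
        intro a
        have h1 := A.T_u_ge hG h3 (j := (j : ℤ) + 1) (by omega) (by omega) (b (j + 1) a)
        have h2 := chain3_one_le hu' a
        rw [add_sub_cancel_right, hu, Fin.sum_univ_three] at h1
        simp only [map_add, Finsupp.add_apply] at h1
        simp only [Fin.sum_univ_three]
        linarith
      obtain ⟨e, he⟩ := chain3_matrix (fun a a' => G.T (bv (b j a)) (b (j + 1) a'))
        (fun a a' => G.T_nonneg _ _) m1 m2 m3
      exact ⟨e, fun _ _ => he⟩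
    · exact ⟨Equiv.refl _, fun h h' => (hj ⟨h, h'⟩).elim⟩
  choose e he using he
  let ρ : ℕ → Equiv.Perm (Fin 3) := fun j => Nat.rec (Equiv.refl _) (fun i r => r.trans (e i)) j
  have hρ : ∀ j, ρ (j + 1) = (ρ j).trans (e j) := fun j => rfl
  refine ⟨fun j w => b j (ρ j w), ?_, ?_⟩
  · intro j h1 h2
    obtain ⟨hi, hs⟩ := hb j h1 h2
    refine ⟨hi.comp (ρ j).injective, ?_⟩
    rw [hs]
    exact (Equiv.sum_comp (ρ j) (fun w => (bv (b j w) : G.B →₀ ℤ))).symm
  · intro j h1 h2 w w'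
    show G.T (bv (b j (ρ j w))) (b (j + 1) (ρ (j + 1) w')) = _
    rw [hρ, Equiv.trans_apply, he j h1 h2]
    simp only [EmbeddingLike.apply_eq_iff_eq]

theorem chain3_bar (b y : G.B) : G.T (bv (G.bar y)) (G.bar b) = G.T (bv b) y := by
  rw [G.T_bar, G.adj]

/-- three labelled sheets -/
theorem chain3 (hG : A.Good) (h0 : ∀ k : ℤ, 1 ≤ k → k ≤ n → ip (A.u 0) (A.u k) = 0) (hp : A.p = 3)
    (hk : ∀ j : ℤ, 0 ≤ j → j ≤ n → ip (G.T (A.u j)) (A.u (j + 1)) = 3) :
    ∃ z : ℤ → ℕ → G.B,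
    (∀ j : ℤ, 1 ≤ j → j ≤ n → A.u j = bv (z j 0) + bv (z j 1) + bv (z j 2) ∧ z j 0 ≠ z j 1 ∧
      z j 0 ≠ z j 2 ∧ z j 1 ≠ z j 2) ∧
    (∀ j : ℤ, 1 ≤ j → j ≤ n - 1 → ∀ w < 3, 1 ≤ G.T (bv (z j w)) (z (j + 1) w)) ∧
    ((∀ j : ℤ, 1 ≤ j → j ≤ n → ∀ w < 3, G.bar (z j w) = z (n + 1 - j) w) ∨
     (∀ j : ℤ, 1 ≤ j → j ≤ n → G.bar (z j 0) = z (n + 1 - j) 1 ∧ G.bar (z j 1) = z (n + 1 - j) 0 ∧
        G.bar (z j 2) = z (n + 1 - j) 2)) := by
  classical
  have hn := hG.hn
  obtain ⟨z, hz1, hz2⟩ := A.chain3_nat hG h0 hp hk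
  have hbar : ∀ j : ℕ, 1 ≤ j → j ≤ n → ∀ w, ∃ w', G.bar (z j w) = z (n + 1 - j) w' := by
    intro j h1 h2 w
    refine chain3_mem (hz1 (n + 1 - j) (by omega) (by omega)).2 ?_
    have h3 : (((n + 1 - j : ℕ)) : ℤ) = n + 1 - j := by omega
    rw [h3, ← A.bar_u (by omega), G.bar'_apply, G.bar_bar]
    have := chain3_one_le (hz1 j h1 h2).2 w
    omega
  have hs : ∀ w, ∃ w', G.bar (z 1 w) = z n w' := by
    intro w
    obtain ⟨w', hw'⟩ := hbar 1 le_rfl (by omega) w
    exact ⟨w', by simpa using hw'⟩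
  choose s hs using hs
  have hall : ∀ j : ℕ, 1 ≤ j → j ≤ n → ∀ w, G.bar (z j w) = z (n + 1 - j) (s w) := by
    intro j h1
    induction j, h1 using Nat.le_induction with
    | base => intro _ w; simpa using hs w
    | succ j hj ih =>
      intro h2 w
      obtain ⟨w', hw'⟩ := hbar (j + 1) (by omega) h2 w
      have h3 := chain3_bar (G := G) (z j w) (z (j + 1) w)
      rw [hz2 j hj h2 w w, if_pos rfl, hw', ih (by omega) w] at h3
      have h4 : n + 1 - (j + 1) = n - j := by omega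
      have h5 : n + 1 - j = (n - j) + 1 := by omega
      rw [h4, h5, hz2 (n - j) (by omega) (by omega)] at h3
      have h6 : w' = s w := by
        by_contra hne
        rw [if_neg hne] at h3
        exact zero_ne_one h3
      rw [hw', h6]
  have hss : ∀ w, s (s w) = w := by
    intro w
    have h1 := hall n (by omega) le_rfl (s w)
    have h2 : n + 1 - n = 1 := by omega
    rw [h2, ← hs w, G.bar_bar] at h1
    exact ((hz1 1 le_rfl (by omega)).1 h1).symm
  -- final assembly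
  have hfin : ∀ r : Equiv.Perm (Fin 3), ∃ zz : ℤ → ℕ → G.B,
      (∀ j : ℤ, 1 ≤ j → j ≤ n → zz j 0 = z j.toNat (r 0) ∧ zz j 1 = z j.toNat (r 1) ∧
        zz j 2 = z j.toNat (r 2)) ∧
      (∀ j : ℤ, 1 ≤ j → j ≤ n → A.u j = bv (zz j 0) + bv (zz j 1) + bv (zz j 2) ∧
        zz j 0 ≠ zz j 1 ∧ zz j 0 ≠ zz j 2 ∧ zz j 1 ≠ zz j 2) ∧
      (∀ j : ℤ, 1 ≤ j → j ≤ n - 1 → ∀ w < 3, 1 ≤ G.T (bv (zz j w)) (zz (j + 1) w)) := by
    intro r
    let ff : ℕ → Fin 3 := fun w => if w = 0 then 0 else if w = 1 then 1 else 2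
    refine ⟨fun j w => z j.toNat (r (ff w)), ?_, ?_, ?_⟩
    · intro j _ _
      exact ⟨rfl, rfl, rfl⟩
    · intro j h1 h2
      obtain ⟨hi, hs'⟩ := hz1 j.toNat (by omega) (by omega)
      rw [Int.toNat_of_nonneg (by omega)] at hs'
      refine ⟨?_, ?_, ?_, ?_⟩
      · show A.u j = bv (z j.toNat (r 0)) + bv (z j.toNat (r 1)) + bv (z j.toNat (r 2))
        rw [hs', ← Equiv.sum_comp r, Fin.sum_univ_three]
      · intro h
        have := r.injective (hi (show z j.toNat (r 0) = z j.toNat (r 1) from h))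
        exact absurd this (by decide)
      · intro h
        have := r.injective (hi (show z j.toNat (r 0) = z j.toNat (r 2) from h))
        exact absurd this (by decide)
      · intro h
        have := r.injective (hi (show z j.toNat (r 1) = z j.toNat (r 2) from h))
        exact absurd this (by decide)
    · intro j h1 h2 w _
      show 1 ≤ G.T (bv (z j.toNat (r (ff w)))) (z (j + 1).toNat (r (ff w)))
      have h3 : (j + 1).toNat = j.toNat + 1 := by omega
      rw [h3, hz2 j.toNat (by omega) (by omega), if_pos rfl]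
  rcases chain3_perm s hss with hid | ⟨r, hr0, hr1, hr2⟩
  · obtain ⟨zz, e0, e1, e2⟩ := hfin (Equiv.refl _)
    refine ⟨zz, e1, e2, Or.inl ?_⟩
    intro j h1 h2 w hw
    obtain ⟨a0, a1, a2⟩ := e0 j h1 h2
    obtain ⟨b0, b1, b2⟩ := e0 (n + 1 - j) (by omega) (by omega)
    have ht : ((n : ℤ) + 1 - j).toNat = n + 1 - j.toNat := by omega
    have hw' : w = 0 ∨ w = 1 ∨ w = 2 := by omega
    rcases hw' with rfl | rfl | rfl
    · rw [a0, b0, ht, hall _ (by omega) (by omega), hid]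
    · rw [a1, b1, ht, hall _ (by omega) (by omega), hid]
    · rw [a2, b2, ht, hall _ (by omega) (by omega), hid]
  · obtain ⟨zz, e0, e1, e2⟩ := hfin r
    refine ⟨zz, e1, e2, Or.inr ?_⟩
    intro j h1 h2
    obtain ⟨a0, a1, a2⟩ := e0 j h1 h2
    obtain ⟨b0, b1, b2⟩ := e0 (n + 1 - j) (by omega) (by omega)
    have ht : ((n : ℤ) + 1 - j).toNat = n + 1 - j.toNat := by omega
    refine ⟨?_, ?_, ?_⟩
    · rw [a0, b1, ht, hall _ (by omega) (by omega), hr0]
    · rw [a1, b0, ht, hall _ (by omega) (by omega), hr1]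
    · rw [a2, b2, ht, hall _ (by omega) (by omega), hr2]

end Arr
end Pool.Agent.Helper363.Nita
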