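import Pool.Agent.Helper363.Nita.K2.TE

namespace Pool.Agent.Helper363.Nita

open Finsupp

variable {G : NG} {n : ℕ}

namespace Arr
variable (A : Arr G n)

theorem R_le_four_arith1 (a x y : ℤ) (h : 33 + a * x + 1 * y ≤ 108) (hxy : x + y = 42)
    (hx : 12 ≤ x) (ha : 3 ≤ a) : a = 3 ∧ x ≤ 16 := by
  have ha3 : a = 3 := by
    by_contra hne
    have h4 : 4 ≤ a := by omega
    have : 3 * 12 ≤ (a - 1) * x := mul_le_mul (by linarith) hx (by norm_num) (by linarith)
    have e : (a - 1) * x = a * x - x := by ring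
    linarith
  refine ⟨ha3, ?_⟩
  rw [ha3] at h
  omega

theorem R_le_four_arith2 (a b x y : ℤ) (h : 33 + a * x + b * y ≤ 108) (hxy : x + y = 42)
    (hx : 12 ≤ x) (hle : x ≤ y) (ha : 0 ≤ a) (hb : 2 ≤ b) (hab : 4 ≤ a + b) : False := by
  have hy : 21 ≤ y := by linarith
  have h1 : 2 * y ≤ b * y := mul_le_mul_of_nonneg_right hb (by linarith)
  by_cases h2 : 2 ≤ a
  · have h3 : 2 * x ≤ a * x := mul_le_mul_of_nonneg_right h2 (by linarith)
    linarith
  · have ha' : a = 0 ∨ a = 1 := by omega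
    rcases ha' with h0 | h0
    · have h3 : 4 * y ≤ b * y := mul_le_mul_of_nonneg_right (by linarith) (by linarith)
      rw [h0] at h
      linarith
    · have h3 : 3 * y ≤ b * y := mul_le_mul_of_nonneg_right (by linarith) (by linarith)
      rw [h0] at h
      linarith

theorem R_le_four_aux (h : A.EZ) (hn : n = 4) {c d : ℤ → G.B}
    (hu : ∀ j : ℤ, 1 ≤ j → j ≤ n → A.u j = bv (c j) + bv (d j) ∧ c j ≠ d j)
    (hm : ∀ j : ℤ, 1 ≤ j → j ≤ n - 1 → G.T (bv (c j)) (c (j + 1)) = 1 ∧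
      G.T (bv (c j)) (d (j + 1)) = 0 ∧
      G.T (bv (d j)) (c (j + 1)) = 0 ∧ G.T (bv (d j)) (d (j + 1)) = 1)
    (hxy : G.d (c 2) ≤ G.d (d 2)) :
    ip (G.T (A.u 1)) (G.T (A.u 1)) ≤ 9 := by
  classical
  subst hn
  have g2 := h.good2
  have gd := g2.good
  have hp := g2.p2
  have h3 : ip (A.u 0) (A.u 3) = 0 := g2.e0 3 (by norm_num) (by norm_num)
  have v1 : 0 ≤ A.v 1 := A.v_nonneg gd h3 (by norm_num) (by norm_num)
  have v2 : 0 ≤ A.v 2 := A.v_nonneg gd h3 (by norm_num) (by norm_num)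
  have v3 : 0 ≤ A.v 3 := A.v_nonneg gd h3 (by norm_num) (by norm_num)
  have v4 : 0 ≤ A.v 4 := A.v_nonneg gd h3 (by norm_num) (by norm_num)
  by_contra hcon
  rw [not_le] at hcon
  have ⟨hu2, hcd2⟩ := hu 2 (by norm_num) (by norm_num)
  have ⟨hu3, hcd3⟩ := hu 3 (by norm_num) (by norm_num)
  have ⟨m1, m2, m3, m4⟩ := hm 2 (by norm_num) (by norm_num)
  norm_num at m1 m2 m3 m4
  -- degrees
  have dgu2 := A.dg_u (j := 2) (by norm_num) (by norm_num)
  have dgu3 := A.dg_u (j := 3) (by norm_num) (by norm_num)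
  rw [hu2, G.dg_add, G.dg_bv, G.dg_bv] at dgu2
  rw [hu3, G.dg_add, G.dg_bv, G.dg_bv] at dgu3
  norm_num [dimZ] at dgu2 dgu3
  have u2c : A.u 2 (c 2) = 1 := by
    rw [hu2]; simp [bv, Finsupp.single_apply, hcd2.symm]
  have u2d : A.u 2 (d 2) = 1 := by
    rw [hu2]; simp [bv, Finsupp.single_apply, hcd2]
  have u3c : A.u 3 (c 3) = 1 := by
    rw [hu3]; simp [bv, Finsupp.single_apply, hcd3.symm]
  have u3d : A.u 3 (d 3) = 1 := by
    rw [hu3]; simp [bv, Finsupp.single_apply, hcd3]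
  have lc2 := A.lam gd h3 (q := 2) (by norm_num) (by norm_num) (c := c 2) (by rw [u2c]; norm_num)
  have lc3 := A.lam gd h3 (q := 3) (by norm_num) (by norm_num) (c := c 3) (by rw [u3c]; norm_num)
  have ld3 := A.lam gd h3 (q := 3) (by norm_num) (by norm_num) (c := d 3) (by rw [u3d]; norm_num)
  norm_num [dimZ] at lc2 lc3 ld3
  have dgv1 := A.dg_v (j := 1) (by norm_num) (by norm_num)
  have dgv2 := A.dg_v (j := 2) (by norm_num) (by norm_num)
  rw [hp] at dgv1 dgv2
  norm_num [dimZ] at dgv1 dgv2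
  have dgt1 := A.dg_t (j := 1) (by norm_num) (by norm_num)
  norm_num [dimZ] at dgt1
  -- v 1 ≤ S (v 2)
  have hR3 := A.R3 (by norm_num) (j := 2) (by norm_num) (by norm_num)
  norm_num at hR3
  have hev := h.ev 1 (by norm_num) (by norm_num)
  norm_num at hev
  have hTv3 := G.T_pos v3
  have hSv2 := G.S_pos v2
  have hle : ∀ b, A.v 1 b ≤ G.S (A.v 2) b := by
    intro b
    have e := congrArg (fun f => f b) hR3
    simp only [Finsupp.add_apply] at e
    have p1 := mul_le_ip v1 v4 b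
    rw [hev] at p1
    have q1 := v1 b
    have q4 := v4 b
    have q3 := hTv3 b
    have q2 := hSv2 b
    simp only [Finsupp.coe_zero, Pi.zero_apply] at q1 q4 q3 q2
    rcases q1.eq_or_lt with hz | hz
    · rw [← hz]; exact q2
    · have : A.v 4 b = 0 := by nlinarith
      linarith
  -- orthogonality of v 1 and u 2
  have o12 := A.ip_v_next g2 (j := 1) (by norm_num) (by norm_num)
  have o23 := A.ip_v_next g2 (j := 2) (by norm_num) (by norm_num)
  norm_num at o12 o23
  rw [hu2, ip_add_right, ip_bv_right, ip_bv_right] at o12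
  rw [hu3, ip_add_right, ip_bv_right, ip_bv_right] at o23
  have z1c := v1 (c 2)
  have z1d := v1 (d 2)
  have z2c := v2 (c 3)
  have z2d := v2 (d 3)
  simp only [Finsupp.coe_zero, Pi.zero_apply] at z1c z1d z2c z2d
  have v1c : A.v 1 (c 2) = 0 := by linarith
  have v1d : A.v 1 (d 2) = 0 := by linarith
  have v2c : A.v 2 (c 3) = 0 := by linarith
  have v2d : A.v 2 (d 3) = 0 := by linarith
  set a : ℤ := G.S (A.v 2) (c 2) with ha
  set b : ℤ := G.S (A.v 2) (d 2) with hb
  have ha' : a = ip (A.v 2) (G.T (bv (c 2))) := by rw [ha, G.S_apply]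
  have hb' : b = ip (A.v 2) (G.T (bv (d 2))) := by rw [hb, G.S_apply]
  have hab : a + b = ip (G.T (A.u 1)) (G.T (A.u 1)) - 6 := by
    have := A.ip_v_T g2 (j := 2) (by norm_num) (by norm_num)
    rw [hu2, map_add, ip_add_right] at this
    rw [ha', hb', this]
  have hdeg : G.dg (A.v 1) + a * G.d (c 2) + b * G.d (d 2) ≤ 3 * G.dg (A.v 2) := by
    have hl : A.v 1 + a • bv (c 2) + b • bv (d 2) ≤ G.S (A.v 2) := by
      intro y
      simp only [Finsupp.add_apply, Finsupp.smul_apply, smul_eq_mul]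
      by_cases h1 : y = c 2
      · subst h1
        simp [bv, Finsupp.single_apply, hcd2.symm, v1c, ha]
      · by_cases h2 : y = d 2
        · subst h2
          simp [bv, Finsupp.single_apply, hcd2, v1d, hb]
        · have := hle y
          simpa [bv, Finsupp.single_apply, Ne.symm h1, Ne.symm h2] using this
    have := G.dg_mono hl
    rw [G.dg_add, G.dg_add, G.dg_smul, G.dg_smul, G.dg_bv, G.dg_bv, G.dg_S] at this
    exact this
  rw [dgv1, dgv2] at hdeg
  -- al and be
  obtain ⟨s1, s2, hs1, hs2, hs, ht1⟩ := A.E_ex (a := (4 : ℕ) - 1) (b := 1)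
    ⟨by norm_num, by norm_num, by norm_num⟩
  have ht1' : A.t 1 = bv (A.V s1 s2) := ht1
  have ou3 := A.ip_u_E gd 3 ((4 : ℕ) - 1) 1
  rw [ht1, ip_bv_right] at ou3
  have hne_c : c 3 ≠ A.V s1 s2 := by
    intro he; rw [← he, u3c] at ou3; norm_num at ou3
  have hne_d : d 3 ≠ A.V s1 s2 := by
    intro he; rw [← he, u3d] at ou3; norm_num at ou3
  have tc := A.T_ge gd (j := 2) (by norm_num) (by norm_num) (c 2)
  have td := A.T_ge gd (j := 2) (by norm_num) (by norm_num) (d 2)
  rw [u2c, one_smul] at tc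
  rw [u2d, one_smul] at td
  norm_num at tc td
  have al0 : 0 ≤ G.T (bv (c 2)) - bv (c 3) - A.t 1 := by
    intro y
    have q := tc y
    have q' := G.T_nonneg (c 2) y
    rw [ht1'] at q ⊢
    simp only [Finsupp.coe_zero, Pi.zero_apply, Finsupp.sub_apply]
    by_cases h1 : y = c 3
    · subst h1
      have e1 : (bv (c 3) : G.B →₀ ℤ) (c 3) = 1 := by simp [bv]
      have e2 : (bv (A.V s1 s2) : G.B →₀ ℤ) (c 3) = 0 := by
        simp [bv, Finsupp.single_apply, hne_c.symm]
      rw [e1, e2, m1]; norm_num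
    · have e1 : (bv (c 3) : G.B →₀ ℤ) y = 0 := by
        simp [bv, Finsupp.single_apply, Ne.symm h1]
      rw [e1]; linarith
  have be0 : 0 ≤ G.T (bv (d 2)) - bv (d 3) - A.t 1 := by
    intro y
    have q := td y
    rw [ht1'] at q ⊢
    simp only [Finsupp.coe_zero, Pi.zero_apply, Finsupp.sub_apply]
    by_cases h1 : y = d 3
    · subst h1
      have e1 : (bv (d 3) : G.B →₀ ℤ) (d 3) = 1 := by simp [bv]
      have e2 : (bv (A.V s1 s2) : G.B →₀ ℤ) (d 3) = 0 := by
        simp [bv, Finsupp.single_apply, hne_d.symm]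
      rw [e1, e2, m4]; norm_num
    · have e1 : (bv (d 3) : G.B →₀ ℤ) y = 0 := by
        simp [bv, Finsupp.single_apply, Ne.symm h1]
      rw [e1]; linarith
  set al := G.T (bv (c 2)) - bv (c 3) - A.t 1 with hal
  set be := G.T (bv (d 2)) - bv (d 3) - A.t 1 with hbe
  have hsum : A.v 2 = al + be := by
    have := A.T_u_eq (j := 2) (by norm_num)
    norm_num at this
    rw [hp, hu2, hu3, map_add] at this
    rw [hal, hbe]
    have e : A.v 2 = G.T (bv (c 2)) + G.T (bv (d 2)) - (bv (c 3) + bv (d 3)) - (2 : ℤ) • A.t 1 := by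
      rw [this]; abel
    rw [e, two_smul]; abel
  have ov2t : ip (A.v 2) (A.t 1) = 0 :=
    A.ip_v_E gd g2.e0 (j := 2) (by norm_num) (by norm_num) _ _
  have hTc : G.T (bv (c 2)) = al + bv (c 3) + A.t 1 := by rw [hal]; abel
  have hTd : G.T (bv (d 2)) = be + bv (d 3) + A.t 1 := by rw [hbe]; abel
  have a_eq : a = ip (A.v 2) al := by
    rw [ha', hTc, ip_add_right, ip_add_right, ip_bv_right, v2c, ov2t]; ring
  have b_eq : b = ip (A.v 2) be := by
    rw [hb', hTd, ip_add_right, ip_add_right, ip_bv_right, v2d, ov2t]; ring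
  have a0 : 0 ≤ a := by rw [a_eq]; exact ip_nonneg v2 al0
  have b0 : 0 ≤ b := by rw [b_eq]; exact ip_nonneg v2 be0
  have hbexp : b = ip al be + ip be be := by rw [b_eq, hsum, ip_add_left]
  have haexp : a = ip al al + ip be al := by rw [a_eq, hsum, ip_add_left]
  have albe0 := ip_nonneg al0 be0
  have bebe0 := ip_self_nonneg be
  have dgTd : 3 * G.d (d 2) = G.dg be + G.d (d 3) + 24 := by
    have := congrArg G.dg hTd
    rw [G.dg_T, G.dg_add, G.dg_add, G.dg_bv, G.dg_bv, dgt1] at this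
    exact this
  have dgTc : 3 * G.d (c 2) = G.dg al + G.d (c 3) + 24 := by
    have := congrArg G.dg hTc
    rw [G.dg_T, G.dg_add, G.dg_add, G.dg_bv, G.dg_bv, dgt1] at this
    exact this
  have hbe_ne : be ≠ 0 := by
    intro h0
    rw [h0, G.dg_zero] at dgTd
    linarith
  have hbe_pos : 1 ≤ ip be be := by
    rcases bebe0.eq_or_lt with hz | hz
    · exact absurd (ip_self_eq_zero hz.symm) hbe_ne
    · exact hz
  have hb1 : 1 ≤ b := by linarith
  rcases hb1.eq_or_lt with hb2 | hb2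
  · -- b = 1
    have hbb : ip be be = 1 := by linarith
    have hab0 : ip al be = 0 := by linarith
    have hba0 : ip be al = 0 := by rw [ip_comm]; exact hab0
    have haa : a = ip al al := by linarith
    have ha3 : 3 ≤ a := by linarith
    obtain ⟨ha4, hx16⟩ := R_le_four_arith1 a (G.d (c 2)) (G.d (d 2)) (by rw [← hb2] at hdeg; exact hdeg)
      dgu2 (by linarith) ha3
    have al_le : ∀ y, al y ≤ A.v 2 y := by
      intro y
      rw [hsum, Finsupp.add_apply]
      have := be0 y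
      simp only [Finsupp.coe_zero, Pi.zero_apply] at this
      linarith
    have alc : al (c 3) = 0 := by
      have q := al_le (c 3)
      have q' := al0 (c 3)
      simp only [Finsupp.coe_zero, Pi.zero_apply] at q'
      linarith
    have alt : ip al (A.t 1) = 0 := by
      rw [ht1', ip_bv_right]
      have q := al_le (A.V s1 s2)
      have q' := al0 (A.V s1 s2)
      simp only [Finsupp.coe_zero, Pi.zero_apply] at q'
      have q2 : A.v 2 (A.V s1 s2) = 0 := by
        rw [ht1', ip_bv_right] at ov2t; exact ov2t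
      linarith
    have hS3 : G.S al (c 2) = 3 := by
      rw [G.S_apply, hTc, ip_add_right, ip_add_right, ip_bv_right, alc, alt, ← haa, ha4]; ring
    have hd3 := G.mul_d_le_dg (G.S_pos al0) (c 2)
    rw [hS3, G.dg_S] at hd3
    omega
  · -- 2 ≤ b
    exact R_le_four_arith2 a b (G.d (c 2)) (G.d (d 2)) hdeg dgu2 (by linarith) hxy a0 hb2
      (by linarith)

theorem R_le_four (h : A.EZ) (hn : n = 4) {c d : ℤ → G.B}
    (hu : ∀ j : ℤ, 1 ≤ j → j ≤ n → A.u j = bv (c j) + bv (d j) ∧ c j ≠ d j)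
    (hm : ∀ j : ℤ, 1 ≤ j → j ≤ n - 1 → G.T (bv (c j)) (c (j + 1)) = 1 ∧
      G.T (bv (c j)) (d (j + 1)) = 0 ∧
      G.T (bv (d j)) (c (j + 1)) = 0 ∧ G.T (bv (d j)) (d (j + 1)) = 1) :
    ip (G.T (A.u 1)) (G.T (A.u 1)) ≤ 9 := by
  rcases le_total (G.d (c 2)) (G.d (d 2)) with hle | hle
  · exact A.R_le_four_aux h hn hu hm hle
  · refine A.R_le_four_aux h hn (c := d) (d := c) ?_ ?_ hle
    · intro j h1 h2
      obtain ⟨q1, q2⟩ := hu j h1 h2
      exact ⟨by rw [q1, add_comm], q2.symm⟩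
    · intro j h1 h2
      obtain ⟨q1, q2, q3, q4⟩ := hm j h1 h2
      exact ⟨q4, q3, q2, q1⟩

end Arr
end Pool.Agent.Helper363.Nita
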