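import Pool.Agent.Helper363.Nita.Chain

namespace Pool.Agent.Helper363.Nita

open Finsupp

variable {G : NG} {n : ℕ}

namespace Arr
variable (A : Arr G n)

/-- the rest of `T (u j)` (for `j = n + 2` written with `S`) -/
noncomputable def v (A : Arr G n) (j : ℤ) : G.B →₀ ℤ :=
  if j ≤ n + 1 then G.T (A.u j) - A.u (j + 1) - A.p • A.t (j - 1)
  else G.S (A.u (j - 1)) - A.u (j - 2) - A.p • A.t (j - 1)

theorem T_u_eq {j : ℤ} (h2 : j ≤ n + 1) :
    G.T (A.u j) = A.v j + A.u (j + 1) + A.p • A.t (j - 1) := by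
  unfold v
  rw [if_pos h2]
  abel

theorem S_u_eq (hn : 2 ≤ n) {j : ℤ} (h1 : 1 ≤ j) (h2 : j ≤ n + 2) :
    G.S (A.u (j - 1)) = A.v j + A.u (j - 2) + A.p • A.t (j - 1) := by
  by_cases h : j ≤ n + 1
  · have hR := A.R2 hn (j := j - 1) (by omega) (by omega)
    have e1 : j - 1 + 1 = j := by ring
    have e2 : j - 1 - 1 = j - 2 := by ring
    have e3 : j - 1 + 2 = j + 1 := by ring
    rw [e1, e2, e3, A.T_u_eq h] at hR
    have h5 : G.S (A.u (j - 1)) = (A.v j + A.u (j + 1) + A.p • A.t (j - 1) + A.u (j - 2)) -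
        A.u (j + 1) := by
      rw [hR]; abel
    rw [h5]; abel
  · unfold v
    rw [if_neg h]
    abel

theorem bar_v (hn : 2 ≤ n) {j : ℤ} (h1 : 0 ≤ j) (h2 : j ≤ n + 2) :
    G.bar' (A.v j) = A.v (n + 2 - j) := by
  by_cases h : j ≤ n + 1
  · have h5 : A.v j = G.T (A.u j) - A.u (j + 1) - A.p • A.t (j - 1) := by
      unfold v; rw [if_pos h]
    have h6 := A.S_u_eq hn (j := n + 2 - j) (by omega) (by omega)
    rw [h5, map_sub, map_sub, map_smul, G.bar_T, A.bar_u hn, A.bar_u hn, A.bar_t]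
    have e1 : (n : ℤ) + 2 - j - 1 = n + 1 - j := by ring
    have e2 : (n : ℤ) + 2 - j - 2 = n + 1 - (j + 1) := by ring
    have e3 : (n : ℤ) - (j - 1) = n + 1 - j := by ring
    rw [e1, e2] at h6
    rw [h6, e3]
    abel
  · have hj : j = n + 2 := by omega
    subst hj
    have h5 : A.v ((n : ℤ) + 2) = G.S (A.u ((n : ℤ) + 2 - 1)) - A.u ((n : ℤ) + 2 - 2) -
        A.p • A.t ((n : ℤ) + 2 - 1) := by
      unfold v; rw [if_neg h]
    have h6 : A.v ((n : ℤ) + 2 - (n + 2)) = G.T (A.u 0) - A.u 1 - A.p • A.t (-1) := by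
      have e0 : (n : ℤ) + 2 - (n + 2) = 0 := by ring
      rw [e0]
      unfold v
      rw [if_pos (by omega)]
      norm_num
    rw [h6, h5, map_sub, map_sub, map_smul, G.bar_S, A.bar_u hn, A.bar_u hn, A.bar_t]
    have e1 : (n : ℤ) + 1 - (n + 2 - 1) = 0 := by ring
    have e2 : (n : ℤ) + 1 - (n + 2 - 2) = 1 := by ring
    have e3 : (n : ℤ) - (n + 2 - 1) = -1 := by ring
    rw [e1, e2, e3]

/-- the relation between neighbouring rests -/
theorem R3 (hn : 2 ≤ n) {j : ℤ} (h1 : 1 ≤ j) (h2 : j ≤ n) :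
    G.T (A.v (j + 1)) + A.v (j - 1) = G.S (A.v j) + A.v (j + 2) := by
  have k1 := A.S_u_eq hn (j := j + 1) (by omega) (by omega)
  have k2 := A.T_u_eq (j := j) (by omega)
  have k3 := A.S_u_eq hn (j := j + 2) (by omega) (by omega)
  have k4 := A.T_u_eq (j := j - 1) (by omega)
  have k5 := A.R1 hn (j := j - 1) (by omega) (by omega)
  have e1 : j + 1 - 1 = j := by ring
  have e2 : j + 1 - 2 = j - 1 := by ring
  have e3 : j + 2 - 1 = j + 1 := by ring
  have e4 : j + 2 - 2 = j := by ring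
  have e5 : j - 1 + 1 = j := by ring
  have e6 : j - 1 - 1 = j - 2 := by ring
  have e7 : j - 1 + 2 = j + 1 := by ring
  rw [e1, e2] at k1
  rw [e3, e4] at k3
  rw [e5, e6] at k4
  rw [e5, e6, e7] at k5
  have m1 : A.v (j + 1) = G.S (A.u j) - A.u (j - 1) - A.p • A.t j := by rw [k1]; abel
  have m2 : A.v j = G.T (A.u j) - A.u (j + 1) - A.p • A.t (j - 1) := by rw [k2]; abel
  have m3 : A.v (j + 2) = G.S (A.u (j + 1)) - A.u j - A.p • A.t (j + 1) := by rw [k3]; abel
  have m4 : A.v (j - 1) = G.T (A.u (j - 1)) - A.u j - A.p • A.t (j - 2) := by rw [k4]; abel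
  have m5 : G.T (A.t j) = G.S (A.t (j - 1)) + A.t (j + 1) - A.t (j - 2) := by rw [← k5]; abel
  rw [m1, m2, m3, m4, map_sub, map_sub, map_smul, map_sub, map_sub, map_smul, m5, G.comm,
    smul_sub, smul_add]
  abel

/-- inner product of `T u_j` with level `n` -/
theorem v_ip_Tu_t (hn : 2 ≤ n) (hG : A.Good) {j k : ℤ} (h3 : 0 ≤ k) (h4 : k ≤ n) :
    ip (G.T (A.u j)) (A.t k) = ip (A.u j) (A.u (k + 1)) := by
  rw [G.adjoint, A.St hn h3 h4, ip_add_right, ip_add_right]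
  unfold t s
  rw [A.ip_u_E hG, A.ip_u_E hG]
  ring

theorem v_nonneg (hG : A.Good) (h3 : ip (A.u 0) (A.u 3) = 0) {j : ℤ} (h1 : 1 ≤ j) (h2 : j ≤ n + 1) :
    0 ≤ A.v j := by
  have hn := hG.hn
  have hge : A.u (j + 1) ≤ G.T (A.u j) := by
    by_cases h : j ≤ n
    · have := A.T_u_ge hG h3 (j := j + 1) (by omega) (by omega)
      have e1 : j + 1 - 1 = j := by ring
      rwa [e1] at this
    · rw [A.u_out (j := j + 1) (by omega)]
      exact G.T_pos (A.u_nonneg hG j)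
  obtain ⟨a', b', ha, hb, hab, hE⟩ := A.E_ex (a := n - (j - 1)) (b := j - 1)
    ⟨by omega, by omega, by omega⟩
  have ht : A.t (j - 1) = bv (A.V a' b') := hE
  have hv : A.v j = G.T (A.u j) - A.u (j + 1) - A.p • A.t (j - 1) := by
    unfold v; rw [if_pos h2]
  have hT : G.T (A.u j) (A.V a' b') = A.p := by
    rw [← ip_bv_right, ← ht, A.v_ip_Tu_t (by omega) hG (by omega) (by omega)]
    have e1 : j - 1 + 1 = j := by ring
    rw [e1, A.ip_u_self hG (by omega) h2]
  have hu : A.u (j + 1) (A.V a' b') = 0 := by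
    rw [← ip_bv_right, ← ht]
    exact A.ip_u_E hG _ _ _
  intro c
  rw [hv, ht]
  by_cases hc : A.V a' b' = c
  · subst hc
    simp [bv, hT, hu]
  · have := hge c
    simp [bv, Finsupp.single_apply, hc]
    exact this

theorem v_dimZ_neg (b : ℤ) : dimZ (-1) b = 0 := by
  simp [dimZ]

theorem dg_v {j : ℤ} (h1 : 1 ≤ j) (h2 : j ≤ n + 1) :
    G.dg (A.v j) = 3 * dimZ (n + 1 - j) j - dimZ (n - j) (j + 1) - A.p * dimZ (n - j + 1) (j - 1) := by
  have hv : A.v j = G.T (A.u j) - A.u (j + 1) - A.p • A.t (j - 1) := by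
    unfold v; rw [if_pos h2]
  rw [hv, G.dg_sub, G.dg_sub, G.dg_smul, G.dg_T, A.dg_u (by omega) h2,
    A.dg_t (by omega) (by omega)]
  have e1 : (n : ℤ) - (j - 1) = n - j + 1 := by ring
  rw [e1]
  congr 2
  by_cases h : j ≤ n
  · rw [A.dg_u (by omega) (by omega)]
    congr 1
    ring
  · have hj : j = n + 1 := by omega
    rw [A.u_out (by omega), G.dg_zero, hj]
    have e2 : (n : ℤ) - (n + 1) = -1 := by ring
    rw [e2, v_dimZ_neg]

theorem v_Gr_smul {x : G.B →₀ ℤ} {g : ZMod 3} (k : ℤ) (hx : G.Gr x g) : G.Gr (k • x) g := by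
  intro b h
  apply hx b
  intro h2
  apply h
  simp [h2]

theorem Gr_v {j : ℤ} (h1 : 1 ≤ j) (h2 : j ≤ n + 1) : G.Gr (A.v j) ((n : ZMod 3) + 2 - 2 * j) := by
  have hv : A.v j = G.T (A.u j) - A.u (j + 1) - A.p • A.t (j - 1) := by
    unfold v; rw [if_pos h2]
  have h3 : (3 : ZMod 3) = 0 := rfl
  rw [hv]
  refine G.Gr_sub (G.Gr_sub ?_ ?_) ?_
  · have := G.Gr_T (A.Gr_u j)
    convert this using 1
    ring
  · have := A.Gr_u (j + 1)
    convert this using 1
    push_cast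
    linear_combination h3
  · have := v_Gr_smul A.p (A.Gr_t (j - 1))
    convert this using 1
    push_cast
    ring

/-- inner products of level `n + 1` -/
theorem v_ip_uu (hG : A.Good) (h0 : ∀ k : ℤ, 1 ≤ k → k ≤ n → ip (A.u 0) (A.u k) = 0)
    {i j : ℤ} (h1 : 1 ≤ i) (h2 : i ≤ n + 1) (h3 : 1 ≤ j) (h4 : j ≤ n + 1) :
    ip (A.u i) (A.u j) = if i = j then A.p else 0 := by
  rcases lt_trichotomy i j with h | h | h
  · rw [if_neg h.ne]
    have := A.ip_u_u hG (i := i) (k := j - i) (by omega) (by omega) (by omega)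
    have e1 : i + (j - i) = j := by ring
    rw [e1] at this
    rw [this]
    exact h0 _ (by omega) (by omega)
  · subst h
    rw [if_pos rfl]
    exact A.ip_u_self hG (by omega) h2
  · rw [if_neg h.ne', ip_comm]
    have := A.ip_u_u hG (i := j) (k := i - j) (by omega) (by omega) (by omega)
    have e1 : j + (i - j) = i := by ring
    rw [e1] at this
    rw [this]
    exact h0 _ (by omega) (by omega)

/-- the rests are orthogonal to the array -/
theorem ip_v_E (hG : A.Good) (h0 : ∀ k : ℤ, 1 ≤ k → k ≤ n → ip (A.u 0) (A.u k) = 0)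
    {j : ℤ} (h1 : 1 ≤ j) (h2 : j ≤ n + 1) (a b : ℤ) : ip (A.v j) (A.E a b) = 0 := by
  have hn := hG.hn
  by_cases hr : 0 ≤ a ∧ 0 ≤ b ∧ a + b ≤ n
  swap
  · rw [A.E_out hr, ip_zero_right]
  have hv : A.v j = G.T (A.u j) - A.u (j + 1) - A.p • A.t (j - 1) := by
    unfold v; rw [if_pos h2]
  rw [hv, ip_sub_left, ip_sub_left, ip_smul_left, A.ip_u_E hG]
  obtain ⟨ha, hb, hab⟩ := hr
  have htE : ip (A.t (j - 1)) (A.E a b) = if (n : ℤ) - (j - 1) = a ∧ j - 1 = b then 1 else 0 :=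
    hG.ip_E _ _ _ _ ⟨by omega, by omega, by omega⟩ ⟨ha, hb, hab⟩
  rw [htE]
  by_cases hlt : a + b < n
  · rw [G.adjoint, A.S_E ha hb hlt, ip_add_right, ip_add_right, A.ip_u_E hG, A.ip_u_E hG,
      A.ip_u_E hG, if_neg (by omega)]
    ring
  · have haeq : a = n - b := by omega
    subst haeq
    have h5 : ip (G.T (A.u j)) (A.E (n - b) b) = ip (A.u j) (A.u (b + 1)) :=
      A.v_ip_Tu_t (by omega) hG hb (by omega)
    rw [h5, A.v_ip_uu hG h0 h1 h2 (by omega) (by omega)]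
    by_cases hjb : j = b + 1
    · rw [if_pos hjb, if_pos (by omega)]
      ring
    · rw [if_neg hjb, if_neg (by omega)]
      ring

theorem ip_v_next (h : A.Good2) {j : ℤ} (h1 : 1 ≤ j) (h2 : j ≤ n + 1) :
    ip (A.v j) (A.u (j + 1)) = 0 := by
  by_cases hj : j ≤ n
  · have hv : A.v j = G.T (A.u j) - A.u (j + 1) - A.p • A.t (j - 1) := by
      unfold v; rw [if_pos h2]
    have h5 : ip (A.t (j - 1)) (A.u (j + 1)) = 0 := by
      rw [ip_comm]
      exact A.ip_u_E h.good _ _ _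
    rw [hv, ip_sub_left, ip_sub_left, ip_smul_left, h5, h.kap j (by omega) hj,
      A.ip_u_self h.good (by omega) (by omega), h.p2]
    ring
  · rw [A.u_out (j := j + 1) (by omega), ip_zero_right]

theorem ip_v_prev (h : A.Good2) {j : ℤ} (h1 : 1 ≤ j) (h2 : j ≤ n + 1) :
    ip (A.v j) (A.u (j - 2)) = 0 := by
  have hn := h.good.hn
  by_cases hj : 2 ≤ j
  · have hv : A.v j = G.T (A.u j) - A.u (j + 1) - A.p • A.t (j - 1) := by
      unfold v; rw [if_pos h2]
    have h5 : ip (A.t (j - 1)) (A.u (j - 2)) = 0 := by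
      rw [ip_comm]
      exact A.ip_u_E h.good _ _ _
    have h6 := h.gz (j - 2) (by omega) (by omega)
    have e1 : j - 2 + 2 = j := by ring
    rw [e1] at h6
    have h7 : ip (A.u (j + 1)) (A.u (j - 2)) = 0 := by
      by_cases hjn : j ≤ n
      · rw [ip_comm]
        have := A.ip_u_u h.good (i := j - 2) (k := 3) (by omega) (by omega) (by omega)
        have e2 : j - 2 + 3 = j + 1 := by ring
        rw [e2] at this
        rw [this]
        exact h.e0 3 (by omega) (by omega)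
      · rw [A.u_out (j := j + 1) (by omega), ip_zero_left]
    rw [hv, ip_sub_left, ip_sub_left, ip_smul_left, h5, h6, h7]
    ring
  · rw [A.u_out (j := j - 2) (by omega), ip_zero_right]

theorem v_ip_v_T (h : A.Good2) {j : ℤ} (h1 : 1 ≤ j) (h2 : j ≤ n + 1) :
    ip (A.v j) (G.T (A.u j)) = ip (G.T (A.u 1)) (G.T (A.u 1)) - 6 := by
  have hn := h.good.hn
  have hv : A.v j = G.T (A.u j) - A.u (j + 1) - A.p • A.t (j - 1) := by
    unfold v; rw [if_pos h2]
  have h5 : ip (A.t (j - 1)) (G.T (A.u j)) = 2 := by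
    rw [ip_comm, A.v_ip_Tu_t (by omega) h.good (by omega) (by omega)]
    have e1 : j - 1 + 1 = j := by ring
    rw [e1, A.ip_u_self h.good (by omega) h2, h.p2]
  rw [hv, ip_sub_left, ip_sub_left, ip_smul_left, h5, h.p2]
  by_cases hj : j ≤ n
  · rw [A.R_const h h1 hj, ip_comm (A.u (j + 1)), h.kap j (by omega) hj]
    ring
  · have hj' : j = n + 1 := by omega
    rw [A.u_out (j := j + 1) (by omega), ip_zero_left]
    have h6 : ip (G.T (A.u j)) (G.T (A.u j)) = ip (G.T (A.u 1)) (G.T (A.u 1)) - 2 := by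
      rw [← G.ip_bar_bar, G.bar_T, A.bar_u (by omega), ← G.normal, hj']
      have e1 : (n : ℤ) + 1 - (n + 1) = 0 := by ring
      rw [e1]
      exact A.R_end h
    rw [h6]
    ring

/-- the norm of the rests -/
theorem ip_v_self (h : A.Good2) {j : ℤ} (h1 : 1 ≤ j) (h2 : j ≤ n + 1) :
    ip (A.v j) (A.v j) = ip (G.T (A.u 1)) (G.T (A.u 1)) - 6 := by
  have hv : A.v j = G.T (A.u j) - A.u (j + 1) - A.p • A.t (j - 1) := by
    unfold v; rw [if_pos h2]
  have h5 := A.v_ip_v_T h h1 h2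
  have h6 := A.ip_v_next h h1 h2
  have h7 : ip (A.v j) (A.t (j - 1)) = 0 := A.ip_v_E h.good h.e0 h1 h2 _ _
  have h8 : ip (A.v j) (A.v j) = ip (A.v j) (G.T (A.u j) - A.u (j + 1) - A.p • A.t (j - 1)) := by
    rw [← hv]
  rw [h8, ip_sub_right, ip_sub_right, ip_smul_right, h5, h6, h7]
  ring

/-- inner product of the rest with the whole row -/
theorem ip_v_T (h : A.Good2) {j : ℤ} (h1 : 1 ≤ j) (h2 : j ≤ n + 1) :
    ip (A.v j) (G.T (A.u j)) = ip (G.T (A.u 1)) (G.T (A.u 1)) - 6 :=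
  A.v_ip_v_T h h1 h2

end Arr
end Pool.Agent.Helper363.Nita
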